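import Pool.Agent.LRA67.Gap

set_option autoImplicit false

namespace Pool.Agent.LRA67

open Function

/-- Task E -/
theorem hom_wf (s : Sys) (hs : s.WF) (c : ℕ) : (hom s c).WF := by
  obtain ⟨h0, h1, h2⟩ := hs
  have hget : ∀ g < s.2.1.length, s.2.1.getD g (0, 0, 0) ∈ s.2.1 := by
    intro g hg
    rw [List.getD_eq_getElem _ _ hg]
    exact List.getElem_mem hg
  refine ⟨by simp [hom], ?_, ?_⟩
  · intro p hp
    simp only [hom, List.mem_append, List.mem_flatMap, List.mem_range, List.mem_cons,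
      List.not_mem_nil, or_false, List.mem_map] at hp ⊢
    rcases hp with ⟨g, hg, rfl | rfl⟩ | ⟨i, hi, rfl⟩
    · obtain ⟨ha, hb, -⟩ := h1 _ (hget g hg)
      refine ⟨?_, ?_, ?_⟩ <;> dsimp only <;> omega
    · obtain ⟨ha, hb, hc⟩ := h1 _ (hget g hg)
      refine ⟨?_, ?_, ?_⟩ <;> dsimp only <;> omega
    · refine ⟨?_, ?_, ?_⟩ <;> dsimp only <;> omega
  · intro p hp
    simp only [hom, List.mem_cons] at hp ⊢
    rcases hp with rfl | hp
    · refine ⟨?_, ?_, ?_⟩ <;> dsimp only <;> omega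
    · obtain ⟨ha, hb, hc⟩ := h2 _ hp
      refine ⟨?_, ?_, ?_⟩ <;> omega

theorem hom_of_solvable (s : Sys) (hs : s.WF) (c : ℕ) (h : s.Solvable) :
    ∃ v : ℕ → ℝ, (∀ i < (hom s c).1, |v i| ≤ 1) ∧ (hom s c).Sol v ∧
      0 < v (s.1 + s.2.1.length + c) := by
  obtain ⟨x, ⟨hx1, hx2⟩, hx0⟩ := h
  obtain ⟨h0, h1, h2⟩ := hs
  have hget : ∀ g < s.2.1.length, s.2.1.getD g (0, 0, 0) ∈ s.2.1 := by
    intro g hg
    rw [List.getD_eq_getElem _ _ hg]
    exact List.getElem_mem hg
  set B : ℝ := 1 + ∑ i ∈ Finset.range s.1, |x i| with hB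
  have hB1 : 1 ≤ B := by
    have : 0 ≤ ∑ i ∈ Finset.range s.1, |x i| := Finset.sum_nonneg fun _ _ => abs_nonneg _
    linarith
  have hBx : ∀ i < s.1, |x i| ≤ B := by
    intro i hi
    have := Finset.single_le_sum (f := fun i => |x i|) (fun _ _ => abs_nonneg _)
      (Finset.mem_range.2 hi)
    linarith
  set β : ℝ := 1 / B with hβ
  have hβ0 : 0 < β := by positivity
  have hβ1 : β ≤ 1 := by rw [hβ, div_le_one (by linarith)]; exact hB1
  have hβx : ∀ i < s.1, |β * x i| ≤ 1 := by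
    intro i hi
    rw [abs_mul, abs_of_pos hβ0, hβ, one_div, inv_mul_le_iff₀ (by linarith), mul_one]
    exact hBx i hi
  set v : ℕ → ℝ := fun i => if i < s.1 then β * x i else
    if i < s.1 + s.2.1.length then
      (β * x (s.2.1.getD (i - s.1) (0, 0, 0)).1) * (β * x (s.2.1.getD (i - s.1) (0, 0, 0)).2.1)
    else (β / 2) ^ (2 ^ (i - (s.1 + s.2.1.length))) with hv
  have v1 : ∀ i < s.1, v i = β * x i := fun i hi => by simp [hv, hi]
  have v2 : ∀ g < s.2.1.length, v (s.1 + g) =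
      (β * x (s.2.1.getD g (0, 0, 0)).1) * (β * x (s.2.1.getD g (0, 0, 0)).2.1) := by
    intro g hg
    simp only [hv]
    rw [if_neg (by omega), if_pos (by omega), Nat.add_sub_cancel_left]
  have v3 : ∀ i, v (s.1 + s.2.1.length + i) = (β / 2) ^ (2 ^ i) := by
    intro i
    simp only [hv]
    rw [if_neg (by omega), if_neg (by omega), Nat.add_sub_cancel_left]
  refine ⟨v, ?_, ⟨?_, ?_⟩, ?_⟩
  · intro i hi
    simp only [hv]
    split_ifs with c1 c2
    · exact hβx i c1
    · obtain ⟨ha, hb, -⟩ := h1 _ (hget (i - s.1) (by omega))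
      rw [abs_mul]
      exact mul_le_one₀ (hβx _ ha) (abs_nonneg _) (hβx _ hb)
    · rw [abs_of_nonneg (by positivity)]
      apply pow_le_one₀ (by positivity)
      linarith
  · intro p hp
    simp only [hom, List.mem_append, List.mem_flatMap, List.mem_range, List.mem_cons,
      List.not_mem_nil, or_false, List.mem_map] at hp
    rcases hp with ⟨g, hg, rfl | rfl⟩ | ⟨i, hi, rfl⟩
    · obtain ⟨ha, hb, -⟩ := h1 _ (hget g hg)
      dsimp only
      rw [v1 _ ha, v1 _ hb, v2 g hg]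
    · obtain ⟨ha, hb, hc⟩ := h1 _ (hget g hg)
      have := hx1 _ (hget g hg)
      dsimp only
      rw [v1 _ h0, v1 _ hc, v2 g hg, hx0, ← this]
      ring
    · dsimp only
      rw [v3, add_assoc, v3, pow_succ, pow_mul, sq]
  · intro p hp
    simp only [hom, List.mem_cons] at hp
    rcases hp with rfl | hp
    · dsimp only
      have := v3 0
      rw [add_zero] at this
      rw [this, v1 0 h0, hx0]
      norm_num
    · obtain ⟨ha, hb, hc⟩ := h2 _ hp
      rw [v1 _ ha, v1 _ hb, v1 _ hc, ← hx2 _ hp]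
      ring
  · rw [v3]
    positivity

/-- uses G5 -/
theorem solvable_of_hom (s : Sys) (hs : s.WF) (c : ℕ)
    (hc : cB s.1 (s.2.1.length + s.2.2.length) ≤ c) (v : ℕ → ℝ)
    (hv : ∀ i < (hom s c).1, |v i| ≤ 1) (E : ℝ) (hE : 0 ≤ E) (happ : (hom s c).Approx v (5 * E))
    (h : (2 ^ (c + 4) - 3) * E < v (s.1 + s.2.1.length + c)) : s.Solvable := by
  obtain ⟨h0, h1, h2⟩ := id hs
  obtain ⟨a1, a2⟩ := happ
  have hget : ∀ g < s.2.1.length, s.2.1.getD g (0, 0, 0) ∈ s.2.1 := by
    intro g hg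
    rw [List.getD_eq_getElem _ _ hg]
    exact List.getElem_mem hg
  have hv' : ∀ i < s.1 + s.2.1.length + c + 1, |v i| ≤ 1 := hv
  set β := v 0 with hβ
  have hβ1 : |β| ≤ 1 := hv' 0 (by omega)
  have e0 : |v (s.1 + s.2.1.length) + v (s.1 + s.2.1.length) - β| ≤ 5 * E :=
    a2 (s.1 + s.2.1.length, s.1 + s.2.1.length, 0) (by simp [hom])
  have e1 : ∀ i < c, |v (s.1 + s.2.1.length + i) * v (s.1 + s.2.1.length + i) -
      v (s.1 + s.2.1.length + i + 1)| ≤ 5 * E := by
    intro i hi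
    refine a1 (s.1 + s.2.1.length + i, s.1 + s.2.1.length + i, s.1 + s.2.1.length + i + 1) ?_
    simp only [hom, List.mem_append, List.mem_map, List.mem_range]
    exact Or.inr ⟨i, hi, rfl⟩
  have key : ∀ i ≤ c, |v (s.1 + s.2.1.length + i) - (β / 2) ^ (2 ^ i)| ≤ (8 * 2 ^ i - 5) * E := by
    intro i
    induction i with
    | zero =>
      intro _
      rw [add_zero, pow_zero, pow_one]
      have : v (s.1 + s.2.1.length) - β / 2 =
          (v (s.1 + s.2.1.length) + v (s.1 + s.2.1.length) - β) / 2 := by ring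
      rw [this, abs_div, abs_of_pos (by norm_num : (0 : ℝ) < 2)]
      linarith
    | succ i ih =>
      intro hi
      have h3 := ih (by omega)
      have h4 := e1 i (by omega)
      have h5 := hv' (s.1 + s.2.1.length + i) (by omega)
      set w := v (s.1 + s.2.1.length + i) with hw
      set y := (β / 2) ^ (2 ^ i) with hy
      have hy1 : |y| ≤ 1 := by
        rw [hy, abs_pow]
        apply pow_le_one₀ (abs_nonneg _)
        rw [abs_div, abs_of_pos (by norm_num : (0 : ℝ) < 2)]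
        linarith
      have hy2 : (β / 2) ^ (2 ^ (i + 1)) = y * y := by
        rw [hy, pow_succ, pow_mul, sq]
      rw [hy2, ← add_assoc]
      have h6 : |w * w - y * y| ≤ 2 * ((8 * 2 ^ i - 5) * E) := by
        have : w * w - y * y = (w + y) * (w - y) := by ring
        rw [this, abs_mul]
        have h7 : |w + y| ≤ 2 := (abs_add_le _ _).trans (by linarith)
        exact mul_le_mul h7 h3 (abs_nonneg _) (by norm_num)
      have h8 : v (s.1 + s.2.1.length + i + 1) - y * y =
          -(w * w - v (s.1 + s.2.1.length + i + 1)) + (w * w - y * y) := by ring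
      rw [h8]
      refine (abs_add_le _ _).trans ?_
      rw [abs_neg]
      have : (8 * 2 ^ (i + 1) - 5) * E = 5 * E + 2 * ((8 * 2 ^ i - 5) * E) := by
        rw [pow_succ]; ring
      rw [this]
      exact add_le_add h4 h6
  have hkc := key c le_rfl
  have h2c : (1 : ℝ) ≤ 2 ^ c := one_le_pow₀ (by norm_num)
  have hEβ : E < |β / 2| ^ (2 ^ c) := by
    rw [← abs_pow]
    refine lt_of_lt_of_le ?_ (le_abs_self _)
    have h9 := (abs_le.1 hkc).2
    have h10 : (2 : ℝ) ^ (c + 4) = 16 * 2 ^ c := by rw [pow_add]; ring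
    rw [h10] at h
    have h11 : (0 : ℝ) ≤ (8 * 2 ^ c + 1) * E := by positivity
    nlinarith
  have hβ0 : β ≠ 0 := by
    intro h0
    rw [h0] at hEβ
    rw [zero_div, abs_zero, zero_pow (by positivity)] at hEβ
    linarith
  have hβp : 0 < |β| := abs_pos.2 hβ0
  set r : ℝ := 1 / |β| with hr
  have hr1 : 1 ≤ r := by rw [hr, one_le_div hβp]; exact hβ1
  have hEr : E ≤ 1 / (2 * r) ^ (2 ^ c) := by
    have : |β / 2| ^ (2 ^ c) = 1 / (2 * r) ^ (2 ^ c) := by
      rw [one_div, ← inv_pow, hr, abs_div, abs_of_pos (by norm_num : (0 : ℝ) < 2)]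
      congr 1
      field_simp
    rw [← this]
    exact hEβ.le
  have hfin : 10 * E * r ^ 2 ≤ 10 * r ^ 2 / (2 * r) ^ (2 ^ c) := by
    have : 10 * r ^ 2 / (2 * r) ^ (2 ^ c) = 10 * (1 / (2 * r) ^ (2 ^ c)) * r ^ 2 := by ring
    rw [this]
    gcongr
  refine Sys.gap s hs (fun i => v i / β) (div_self hβ0) r hr1 ?_ c hc ⟨?_, ?_⟩
  · intro i hi
    rw [abs_div, hr]
    exact div_le_div_of_nonneg_right (hv' i (by omega)) hβp.le
  · intro p hp
    refine le_trans ?_ hfin
    obtain ⟨g, hg, hgp⟩ := List.getElem_of_mem hp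
    have hgp' : s.2.1.getD g (0, 0, 0) = p := by rw [List.getD_eq_getElem _ _ hg, hgp]
    have f1 : |v p.1 * v p.2.1 - v (s.1 + g)| ≤ 5 * E := by
      refine a1 (p.1, p.2.1, s.1 + g) ?_
      simp only [hom, List.mem_append, List.mem_flatMap, List.mem_range, List.mem_cons]
      exact Or.inl ⟨g, hg, Or.inl (by rw [hgp'])⟩
    have f2 : |v 0 * v p.2.2 - v (s.1 + g)| ≤ 5 * E := by
      refine a1 (0, p.2.2, s.1 + g) ?_
      simp only [hom, List.mem_append, List.mem_flatMap, List.mem_range, List.mem_cons]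
      exact Or.inl ⟨g, hg, Or.inr (Or.inl (by rw [hgp']))⟩
    have e : v p.1 / β * (v p.2.1 / β) - v p.2.2 / β =
        ((v p.1 * v p.2.1 - v (s.1 + g)) - (v 0 * v p.2.2 - v (s.1 + g))) / β ^ 2 := by
      rw [← hβ]
      field_simp
      ring
    rw [e, abs_div, abs_pow, hr]
    have h12 : |(v p.1 * v p.2.1 - v (s.1 + g)) - (v 0 * v p.2.2 - v (s.1 + g))| ≤ 10 * E :=
      (abs_sub _ _).trans (by linarith)
    rw [div_pow, one_pow, mul_one_div]
    exact div_le_div_of_nonneg_right h12 (by positivity)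
  · intro p hp
    refine le_trans ?_ hfin
    have f1 : |v p.1 + v p.2.1 - v p.2.2| ≤ 5 * E := by
      refine a2 p ?_
      simp only [hom, List.mem_cons]
      exact Or.inr hp
    have e : v p.1 / β + v p.2.1 / β - v p.2.2 / β = (v p.1 + v p.2.1 - v p.2.2) / β := by
      field_simp
    rw [e, abs_div]
    have h12 : |v p.1 + v p.2.1 - v p.2.2| / |β| ≤ 5 * E * r := by
      rw [hr, mul_one_div]
      exact div_le_div_of_nonneg_right f1 hβp.le
    refine h12.trans ?_
    have : r ≤ r ^ 2 := by nlinarith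
    nlinarith

end Pool.Agent.LRA67
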