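import Mathlib

/-!
Systems of equations, bilinear problems, and their matrices: the definitions used in the
reduction.
-/

set_option autoImplicit false

namespace Pool.Agent.LRA67

/-! ### Systems of equations -/

/-- A system `(n, prods, sums)` in the unknowns `x 0, ..., x (n-1)`: the equations are
`x a * x b = x c` for `(a, b, c) ∈ prods` and `x a + x b = x c` for `(a, b, c) ∈ sums`. -/
abbrev Sys := ℕ × List (ℕ × ℕ × ℕ) × List (ℕ × ℕ × ℕ)

/-- all indices are smaller than the number of unknowns -/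
def Sys.WF (s : Sys) : Prop :=
  0 < s.1 ∧ (∀ p ∈ s.2.1, p.1 < s.1 ∧ p.2.1 < s.1 ∧ p.2.2 < s.1) ∧
    ∀ p ∈ s.2.2, p.1 < s.1 ∧ p.2.1 < s.1 ∧ p.2.2 < s.1

/-- `x` solves the equations up to an error `δ` -/
def Sys.Approx (s : Sys) (x : ℕ → ℝ) (δ : ℝ) : Prop :=
  (∀ p ∈ s.2.1, |x p.1 * x p.2.1 - x p.2.2| ≤ δ) ∧
    ∀ p ∈ s.2.2, |x p.1 + x p.2.1 - x p.2.2| ≤ δ

/-- `x` solves the equations -/
def Sys.Sol (s : Sys) (x : ℕ → ℝ) : Prop :=
  (∀ p ∈ s.2.1, x p.1 * x p.2.1 = x p.2.2) ∧ ∀ p ∈ s.2.2, x p.1 + x p.2.1 = x p.2.2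

/-- the system has a solution with `x 0 = 1` -/
def Sys.Solvable (s : Sys) : Prop := ∃ x : ℕ → ℝ, s.Sol x ∧ x 0 = 1

/-! ### Low rank approximation of matrices with arbitrary finite index sets -/

/-- at most `N` changes make the rank at most `k` -/
def Yes0 {R C : Type} [Fintype R] [Fintype C] (A : R → C → ℝ) (k N : ℕ) : Prop :=
  ∃ B : Matrix R C ℝ, B.rank ≤ k ∧ {ij : R × C | A ij.1 ij.2 ≠ B ij.1 ij.2}.ncard ≤ N

/-- the sum of the absolute values of the changes is less than `c` -/
def Yes1 {R C : Type} [Fintype R] [Fintype C] (A : R → C → ℝ) (k : ℕ) (c : ℝ) : Prop :=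
  ∃ B : Matrix R C ℝ, B.rank ≤ k ∧ ∑ i, ∑ j, |A i j - B i j| < c

/-! ### Bilinear problems -/

/-- `v` is a value for the entry `c`, where `none` is a free entry -/
def Fill (c : Option ℝ) (v : ℝ) : Prop := ∀ a, c = some a → v = a

/-- `v` is a value for the entry `c`, where `none` is an entry that is free in `[-1, 1]` -/
def FillB (c : Option ℝ) (v : ℝ) : Prop := (∀ a, c = some a → v = a) ∧ (c = none → |v| ≤ 1)

section
variable {I J L : Type}

/-- number of free entries -/
noncomputable def nStar (X : I → L → Option ℝ) (Y : L → J → Option ℝ) : ℕ :=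
  {p : I × L | X p.1 p.2 = none}.ncard + {p : L × J | Y p.1 p.2 = none}.ncard

/-- the free entries can be filled such that all scalar products are as prescribed -/
def Bil [Fintype L] (X : I → L → Option ℝ) (Y : L → J → Option ℝ) (Z : I → J → ℝ) : Prop :=
  ∃ (x : I → L → ℝ) (y : L → J → ℝ), (∀ i l, Fill (X i l) (x i l)) ∧
    (∀ l j, Fill (Y l j) (y l j)) ∧ ∀ i j, ∑ l, x i l * y l j = Z i j

/-- the free entries can be filled with values in `[-1, 1]` such that the weighted sum of the errors
is less than `1` -/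
def BilB [Fintype I] [Fintype J] [Fintype L] (X : I → L → Option ℝ) (Y : L → J → Option ℝ)
    (Z : I → J → ℝ) (w : I → ℝ) : Prop :=
  ∃ (x : I → L → ℝ) (y : L → J → ℝ), (∀ i l, FillB (X i l) (x i l)) ∧
    (∀ l j, FillB (Y l j) (y l j)) ∧ ∑ i, ∑ j, w i * |Z i j - ∑ l, x i l * y l j| < 1

/-- the matrix for `p = 0`: `R₁` copies of the pivot rows and columns, `R₂` copies of the others;
free entries get distinct values in the copies of the pivot -/
def mat0 [DecidableEq L] (X : I → L → Option ℝ) (Y : L → J → Option ℝ) (Z : I → J → ℝ)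
    (star : ℕ → ℝ) (R₁ R₂ : ℕ) : (L × Fin R₁) ⊕ (I × Fin R₂) → (L × Fin R₁) ⊕ (J × Fin R₂) → ℝ
  | .inl a, .inl b => if a.1 = b.1 then 1 else 0
  | .inr a, .inl b => (X a.1 b.1).getD (star b.2)
  | .inl a, .inr b => (Y a.1 b.1).getD (star a.2)
  | .inr a, .inr b => Z a.1 b.1

/-- the matrix for `p = 1`: two copies of the pivot rows and columns; free entries are `1` in one copy
and `-1` in the other copy -/
def mat1 [DecidableEq L] (X : I → L → Option ℝ) (Y : L → J → Option ℝ) (Z : I → J → ℝ)
    (w : I → ℝ) (W Λ : ℝ) : (L × Bool) ⊕ I → (L × Bool) ⊕ J → ℝ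
  | .inl a, .inl b => if a.1 = b.1 then W * Λ * Λ else 0
  | .inr i, .inl b => w i * Λ * (X i b.1).getD (if b.2 then 1 else -1)
  | .inl a, .inr j => W * Λ * (Y a.1 j).getD (if a.2 then 1 else -1)
  | .inr i, .inr j => w i * Z i j

end

/-! ### The gadget -/

/-- codes of rows: `(0, 0)` is the master row, `(1, g)` the row of the gate `g`, `(2, 0)` the
objective row -/
abbrev RowC := ℕ × ℕ

/-- codes of columns: `(0, v)` is `K v`, `(1, g)` is the column of the gate `g`, `(2, v)` is `C v`,
`(3, h)` the column of the sum `h` -/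
abbrev ColC := ℕ × ℕ

/-- codes of pivots: `((0, v), _)` and `((1, v), _)` are the copies `A v`, `B v` of the unknown `v`,
`((2, 0), _)`, `((3, 0), _)`, `((4, 0), _)` are `Q`, `O`, `T`, and `((5, g), j)` is the slack pivot
of the gate `g` and the column `j` -/
abbrev PivC := (ℕ × ℕ) × (ℕ × ℕ)

section
variable (s : Sys) (o : ℕ)

/-- the gate `g` is the product `g`; the gate after the last product is the objective gate -/
def gate (g : ℕ) : ℕ × ℕ × ℕ := s.2.1.getD g (0, o, 0)

/-- number of products -/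
def np : ℕ := s.2.1.length

/-- codes of all rows -/
def rows : List RowC :=
  (0, 0) :: (2, 0) :: (List.range (s.2.1.length + 1)).map fun g => (1, g)

/-- codes of all columns -/
def cols : List ColC :=
  ((List.range s.1).map fun v => (0, v)) ++ ((List.range (s.2.1.length + 1)).map fun g => (1, g)) ++
    ((List.range s.1).map fun v => (2, v)) ++ ((List.range s.2.2.length).map fun h => (3, h))

/-- the pairs of a gate and a column without slack pivot -/
def active (g : ℕ) (j : ColC) : Bool := j == (1, g) || j == (0, (gate s o g).2.1)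

/-- codes of all pivots -/
def pivs : List PivC :=
  ((List.range s.1).map fun v => ((0, v), (0, 0))) ++
    ((List.range s.1).map fun v => ((1, v), (0, 0))) ++
    [((2, 0), (0, 0)), ((3, 0), (0, 0)), ((4, 0), (0, 0))] ++
    (List.range (s.2.1.length + 1)).flatMap fun g =>
      ((cols s).filter fun j => !active s o g j).map fun j => ((5, g), j)

/-- entry of the row `i` at the pivot `l`: `0` is a free entry, `1`, `2`, `3`, `4` are the entries
`0`, `1`, `-1`, `2` -/
def xent (i : RowC) (l : PivC) : ℕ :=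
  if i.1 = 0 then
    if l.1.1 = 0 then 0 else if l.1.1 = 1 then 0 else if l.1.1 = 3 then 3 else 1
  else if i.1 = 1 then
    if l.1.1 = 0 then (if i.2 < s.2.1.length then (if (gate s o i.2).1 = l.1.2 then 2 else 1) else 1)
    else if l.1.1 = 2 then (if i.2 < s.2.1.length then 1 else 2)
    else if l.1.1 = 3 then 3
    else if l.1.1 = 4 then 0
    else if l.1.1 = 5 then (if l.1.2 = i.2 then 0 else 1)
    else 1
  else
    if l.1.1 = 2 then 2 else 1

/-- entry of the column `j` at the pivot `l` -/
def yent (l : PivC) (j : ColC) : ℕ :=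
  if l.1.1 = 5 then (if l.2 = j then 4 else 1)
  else if j.1 = 0 then
    if l.1.1 = 1 then (if l.1.2 = j.2 then 2 else 1)
    else if l.1.1 = 3 then 0
    else if l.1.1 = 4 then 2
    else 1
  else if j.1 = 1 then
    if l.1.1 = 0 then (if j.2 < s.2.1.length then (if (gate s o j.2).1 = l.1.2 then 0 else 1) else 1)
    else if l.1.1 = 1 then
      (if j.2 < s.2.1.length then (if (gate s o j.2).2.2 = l.1.2 then 3 else 1) else 1)
    else if l.1.1 = 2 then (if j.2 < s.2.1.length then 1 else 0)
    else if l.1.1 = 4 then 3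
    else 1
  else if j.1 = 2 then
    if l.1.1 = 0 then (if l.1.2 = j.2 then 2 else 1)
    else if l.1.1 = 1 then (if l.1.2 = j.2 then 3 else 1)
    else 1
  else
    if l.1.1 = 0 then (if (s.2.2.getD j.2 (0, 0, 0)).1 = l.1.2 then 2 else 1)
    else if l.1.1 = 1 then
      (if (s.2.2.getD j.2 (0, 0, 0)).2.1 = l.1.2 then
        (if (s.2.2.getD j.2 (0, 0, 0)).2.2 = l.1.2 then 1 else 2)
       else (if (s.2.2.getD j.2 (0, 0, 0)).2.2 = l.1.2 then 3 else 1))
    else 1

/-- prescribed scalar products -/
def zent (i : RowC) (j : ColC) : ℕ := if i = (2, 0) ∧ j = (1, s.2.1.length) then 2 else 1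

end

/-- value of a code: `none` is a free entry -/
def cval (c : ℕ) : Option ℤ :=
  if c = 0 then none else if c = 1 then some 0 else if c = 2 then some 1
  else if c = 3 then some (-1) else some 2

/-- value of a code -/
noncomputable def cvalR (c : ℕ) : Option ℝ := (cval c).map fun z => (z : ℝ)

/-! ### The gap theorem: definitions -/

open Polynomial in
/-- sum of the absolute values of the coefficients -/
def l1 (p : ℤ[X]) : ℕ := ∑ i ∈ p.support, (p.coeff i).natAbs

/-- sum of the absolute values of the coefficients -/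
noncomputable def ml1 {ι : Type} (p : MvPolynomial ι ℤ) : ℕ :=
  ∑ m ∈ p.support, (p.coeff m).natAbs

/-- `x` is a critical point of `6 t S(x) + ∑ x_i ^ 6` -/
def Crit {ι : Type} (S : MvPolynomial ι ℤ) (t : ℝ) (x : ι → ℝ) : Prop :=
  ∀ i, x i ^ 5 = -t * MvPolynomial.aeval x (MvPolynomial.pderiv i S)

/-- the value of `6 t S(x) + ∑ x_i ^ 6` at a critical point -/
noncomputable def gval {ι : Type} [Fintype ι] (S : MvPolynomial ι ℤ) (t : ℝ) (x : ι → ℝ) : ℝ :=
  t * (6 * MvPolynomial.aeval x S - ∑ i, x i * MvPolynomial.aeval x (MvPolynomial.pderiv i S))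

/-- the number of squarings -/
def cB (n m : ℕ) : ℕ := 10 * (n + 2) * (m + 20)

/-! ### The gadget as a bilinear problem -/

section
variable (s : Sys) (o : ℕ)

abbrev IT := {i : RowC // i ∈ rows s}
abbrev JT := {j : ColC // j ∈ cols s}
abbrev LT := {l : PivC // l ∈ pivs s o}

noncomputable def XX (i : IT s) (l : LT s o) : Option ℝ := cvalR (xent s o i.1 l.1)
noncomputable def YY (l : LT s o) (j : JT s) : Option ℝ := cvalR (yent s o l.1 j.1)
noncomputable def ZZ (i : IT s) (j : JT s) : ℝ := (cvalR (zent s i.1 j.1)).getD 0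

/-- weights of the rows: `1` for the objective row -/
noncomputable def wt (W : ℝ) (i : IT s) : ℝ := if i.1 = (2, 0) then 1 else W

end

/-! ### The homogeneous system with the chain of squares -/

/-- the unknowns of `s`, one unknown for every product, and `h_0, ..., h_c` -/
def hom (s : Sys) (c : ℕ) : Sys :=
  (s.1 + s.2.1.length + c + 1,
    ((List.range s.2.1.length).flatMap fun g =>
      [((s.2.1.getD g (0, 0, 0)).1, (s.2.1.getD g (0, 0, 0)).2.1, s.1 + g),
        (0, (s.2.1.getD g (0, 0, 0)).2.2, s.1 + g)]) ++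
      (List.range c).map fun i =>
        (s.1 + s.2.1.length + i, s.1 + s.2.1.length + i, s.1 + s.2.1.length + i + 1),
    (s.1 + s.2.1.length, s.1 + s.2.1.length, 0) :: s.2.2)

end Pool.Agent.LRA67
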