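import Pool.Agent.LRA67.Defs
import Pool.Agent.LRA67.Sys

/-!
The system of equations for a formula: definitions.
-/

set_option autoImplicit false

namespace Pool.Agent.LRA67

open Pool.Agent.LibComplexity Function Enc

deriving instance DecidableEq for Tr

/-- all subtrees -/
def subs : Tr → List Tr
  | .nil => [.nil]
  | .cons a b => .cons a b :: (subs a ++ subs b)

/-- Unknowns of the system: `0` is the unknown `1`, `1` is the unknown `0`; for every subtree `t`
of `r` there are `12` unknowns `V r κ t`: the value of the term (`κ = 0`), the value of the word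
(`κ = 1`), an unknown that is `0` only if the formula is true (`κ = 2`), an unknown that is `0` only
if the formula is false (`κ = 3`) and auxiliary unknowns. -/
def V (r : Tr) (κ : ℕ) (t : Tr) : ℕ := 2 + 12 * (subs r).idxOf t + κ

/-- product equations for the subtree `t` -/
def prodsAt (r t : Tr) : List (ℕ × ℕ × ℕ) :=
  if t.fst = e (0 : ℕ) then [(V r 4 t, V r 2 t, V r 11 t)]
  else if t.fst = e (1 : ℕ) then
    [(V r 4 t, V r 4 t, V r 5 t), (V r 6 t, V r 6 t, V r 7 t), (V r 7 t, V r 10 t, V r 11 t)]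
  else if t.fst = e (2 : ℕ) then
    [(V r 4 t, V r 4 t, V r 5 t), (V r 6 t, V r 6 t, V r 7 t), (V r 5 t, V r 9 t, V r 11 t)]
  else if t.fst = e (3 : ℕ) then [(V r 0 t.snd.fst, V r 0 t.snd.snd, V r 0 t)]
  else if t.fst = e (4 : ℕ) then
    [(V r 2 t.snd.fst, V r 2 t.snd.fst, V r 5 t), (V r 2 t.snd.snd, V r 2 t.snd.snd, V r 7 t),
      (V r 3 t.snd.fst, V r 3 t.snd.snd, V r 3 t)]
  else if t.fst = e (5 : ℕ) then
    [(V r 3 t.snd.fst, V r 3 t.snd.fst, V r 5 t), (V r 3 t.snd.snd, V r 3 t.snd.snd, V r 7 t),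
      (V r 2 t.snd.fst, V r 2 t.snd.snd, V r 2 t)]
  else []

/-- sum equations for the value of a word: `V 1 t = 2 * V 1 t.snd + digit` -/
def sumsW (r t : Tr) : List (ℕ × ℕ × ℕ) :=
  if t = .nil then [(V r 1 t, 1, 1)]
  else if t.fst = .nil then [(V r 1 t.snd, V r 1 t.snd, V r 1 t)]
  else [(V r 1 t.snd, V r 1 t.snd, V r 8 t), (V r 8 t, 0, V r 1 t)]

/-- sum equations for the value of a term -/
def sumsT (r t : Tr) : List (ℕ × ℕ × ℕ) :=
  if t.fst = e (1 : ℕ) then
    (if t.snd.fst = .nil then [(V r 0 t, 1, V r 1 t.snd.snd)]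
      else [(V r 0 t, V r 1 t.snd.snd, 1)])
  else if t.fst = e (2 : ℕ) then [(V r 0 t.snd.fst, V r 0 t.snd.snd, V r 0 t)]
  else []

/-- sum equations for formulas; here `V 9 t = (right side) - (left side)`, `V 10 t = - V 9 t` -/
def sumsF (r t : Tr) : List (ℕ × ℕ × ℕ) :=
  if t.fst = e (0 : ℕ) then
    [(V r 2 t, V r 0 t.snd.snd, V r 0 t.snd.fst), (V r 3 t, 0, V r 11 t)]
  else if t.fst = e (1 : ℕ) then
    [(V r 9 t, V r 0 t.snd.fst, V r 0 t.snd.snd), (V r 9 t, V r 10 t, 1),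
      (V r 2 t, V r 5 t, V r 9 t), (V r 3 t, 0, V r 11 t)]
  else if t.fst = e (2 : ℕ) then
    [(V r 9 t, V r 0 t.snd.fst, V r 0 t.snd.snd), (V r 9 t, V r 10 t, 1),
      (V r 2 t, 0, V r 11 t), (V r 3 t, V r 7 t, V r 10 t)]
  else if t.fst = e (3 : ℕ) then [(V r 2 t, 1, V r 3 t.snd), (V r 3 t, 1, V r 2 t.snd)]
  else if t.fst = e (4 : ℕ) then [(V r 5 t, V r 7 t, V r 2 t)]
  else if t.fst = e (5 : ℕ) then [(V r 5 t, V r 7 t, V r 3 t)]
  else []

/-- the system for the tree `r` -/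
def compile (r : Tr) : Sys :=
  (2 + 12 * (subs r).length, (subs r).flatMap (prodsAt r),
    (1, 1, 1) :: (V r 2 r, 1, 1) ::
      ((subs r).flatMap (sumsW r) ++ (subs r).flatMap (sumsT r) ++ (subs r).flatMap (sumsF r)))

end Pool.Agent.LRA67
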