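import Pool.Agent.LRA67.Defs

set_option autoImplicit false

namespace Pool.Agent.LRA67

open Pool.Agent.LibComplexity Function Enc

section PT
variable {𝒜 : Set Orc} {α τ : Type} [Enc α] [Enc τ]

/-- the step of the computation of the half and of the last digit -/
def hfStep (p : ℕ × Bool) : ℕ × Bool := (if p.2 = true then p.1 + 1 else p.1, !p.2)

theorem hfStep_iter (n : ℕ) : hfStep^[n] (0, false) = (n / 2, decide (n % 2 = 1)) := by
  induction n with
  | zero => rfl
  | succ n ih =>
    rw [iterate_succ_apply', ih, hfStep]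
    rcases Nat.mod_two_eq_zero_or_one n with h | h
    · have e1 : (n + 1) / 2 = n / 2 := by omega
      have e2 : (n + 1) % 2 = 1 := by omega
      simp [h, e1, e2]
    · have e1 : (n + 1) / 2 = n / 2 + 1 := by omega
      have e2 : (n + 1) % 2 = 0 := by omega
      simp [h, e1, e2]

theorem ptf_hf {f : Orc → α → ℕ} (hf : PTf 𝒜 f) :
    PTf 𝒜 (fun A x => (f A x / 2, decide (f A x % 2 = 1))) := by
  have h1 : PTf 𝒜 (fun _ (p : ℕ × Bool) => hfStep p) :=
    (PTf.ite PTf.id.snd PTf.id.fst.succ PTf.id.fst).pair PTf.id.snd.bnot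
  have := PTf.iter' (g := fun _ p => hfStep p) hf (PTf.const ((0, false) : ℕ × Bool)) h1
    (b := fun A x => 2 * f A x + 5)
    (((PB.const 2).mul (PB.nat hf)).add (PB.const 5)) (by
      intro A _ x i hi
      have h2 : (fun p => hfStep p)^[i] (0, false) = (i / 2, decide (i % 2 = 1)) :=
        hfStep_iter i
      rw [h2, sz_pair, sz_nat]
      have := sz_bool (decide (i % 2 = 1))
      omega)
  exact this.congr fun A _ x => hfStep_iter (f A x)

/-- the step of the computation of the digits -/
def btStep (p : ℕ × List Bool) : ℕ × List Bool :=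
  if p.1 = 0 then p else (p.1 / 2, decide (p.1 % 2 = 1) :: p.2)

theorem bits_pos (m : ℕ) (hm : m ≠ 0) :
    Nat.bits m = decide (m % 2 = 1) :: Nat.bits (m / 2) := by
  rcases Nat.mod_two_eq_zero_or_one m with h | h
  · obtain ⟨k, rfl⟩ : ∃ k, m = 2 * k := ⟨m / 2, by omega⟩
    rw [Nat.bit0_bits k (by omega)]
    simp
  · obtain ⟨k, rfl⟩ : ∃ k, m = 2 * k + 1 := ⟨m / 2, by omega⟩
    rw [Nat.bit1_bits k]
    have e1 : (2 * k + 1) / 2 = k := by omega
    have e2 : (2 * k + 1) % 2 = 1 := by omega
    simp [e1, e2]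

theorem btStep_iter (i : ℕ) : ∀ (m : ℕ) (acc : List Bool), m ≤ i →
    btStep^[i] (m, acc) = (0, (Nat.bits m).reverse ++ acc) := by
  induction i with
  | zero =>
    intro m acc hm
    obtain rfl : m = 0 := by omega
    simp
  | succ i ih =>
    intro m acc hm
    rw [iterate_succ_apply]
    by_cases h : m = 0
    · subst h
      rw [btStep, if_pos rfl, ih 0 acc (by omega)]
    · rw [btStep, if_neg h, ih _ _ (by simp only; omega), bits_pos m h]
      simp

theorem btStep_bound (i : ℕ) (m : ℕ) : (btStep^[i] (m, [])).1 ≤ m ∧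
    (btStep^[i] (m, [])).2.length ≤ i := by
  induction i with
  | zero => simp
  | succ i ih =>
    rw [iterate_succ_apply', btStep]
    split_ifs with h
    · exact ⟨ih.1, ih.2.trans (Nat.le_succ _)⟩
    · refine ⟨(Nat.div_le_self _ _).trans ih.1, ?_⟩
      rw [List.length_cons]
      exact Nat.succ_le_succ ih.2

/-- Task P2 -/
theorem ptf_bits : PTf 𝒜 (fun _ (n : ℕ) => Nat.bits n) := by
  have h0 : PTf 𝒜 (fun _ (p : ℕ × List Bool) => p.1) := PTf.id.fst
  have h1 : PTf 𝒜 (fun _ (p : ℕ × List Bool) => btStep p) := by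
    have h2 := (ptf_hf h0).fst.pair ((ptf_hf h0).snd.cons PTf.id.snd)
    have h3 := PTf.ifP (p := fun _ (p : ℕ × List Bool) => p.1 = 0)
      (PTf.decide_eq h0 (PTf.const 0)) PTf.id h2
    exact h3
  have := PTf.iter' (g := fun _ p => btStep p) (f := fun _ (n : ℕ) => n)
    (h := fun _ n => (n, ([] : List Bool))) PTf.id (PTf.id.pair (PTf.const [])) h1
    (b := fun _ n => 2 * n + 1 + (n * 4 + 1) + 1)
    (((((PB.const 2).mul (PB.nat PTf.id)).add (PB.const 1)).add
      (((PB.nat PTf.id).mul (PB.const 4)).add (PB.const 1))).add (PB.const 1)) (by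
      intro A _ n i hi
      have h2 := btStep_bound i n
      obtain ⟨a, l, hal⟩ : ∃ a l, btStep^[i] (n, []) = (a, l) := ⟨_, _, rfl⟩
      have h3 : (fun p => btStep p)^[i] (n, []) = (a, l) := hal
      rw [hal] at h2
      rw [h3, sz_pair, sz_nat]
      have h4 := sz_list_le (l := l) (B := 3) fun y _ => sz_bool y
      simp only at h2
      have h5 : l.length * (3 + 1) ≤ n * 4 := Nat.mul_le_mul_right _ (h2.2.trans hi)
      omega)
  refine this.snd.reverse.congr fun A _ n => ?_
  have h2 : (fun p => btStep p)^[n] (n, []) = _ := btStep_iter n n [] le_rfl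
  rw [h2]
  simp

/-- the step of the search -/
def ixStep [DecidableEq τ] (a : τ) (s : Bool × ℕ) (y : τ) : Bool × ℕ :=
  if s.1 = true then s else if y = a then (true, s.2) else (false, s.2 + 1)

omit [Enc τ] in
theorem ixStep_foldl_true [DecidableEq τ] (a : τ) (l : List τ) (n : ℕ) :
    l.foldl (ixStep a) (true, n) = (true, n) := by
  induction l with
  | nil => rfl
  | cons y l ih => rw [List.foldl_cons]; exact ih

omit [Enc τ] in
theorem ixStep_foldl [DecidableEq τ] (a : τ) (l : List τ) : ∀ n : ℕ,
    (l.foldl (ixStep a) (false, n)).2 = n + l.idxOf a := by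
  induction l with
  | nil => intro n; simp
  | cons y l ih =>
    intro n
    rw [List.foldl_cons, List.idxOf_cons]
    by_cases h : y = a
    · subst h
      have : ixStep y (false, n) y = (true, n) := by simp [ixStep]
      rw [this, ixStep_foldl_true]
      simp
    · have : ixStep a (false, n) y = (false, n + 1) := by simp [ixStep, h]
      rw [this, ih]
      have h' : (y == a) = false := beq_false_of_ne h
      rw [h', cond_false]
      omega

/-- Task P3 -/
theorem ptf_idxOf [DecidableEq τ] {l : Orc → α → List τ} {a : Orc → α → τ} (hl : PTf 𝒜 l)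
    (ha : PTf 𝒜 a) : PTf 𝒜 (fun A x => (l A x).idxOf (a A x)) := by
  have h1 : PTf 𝒜 (fun A (p : α × (Bool × ℕ) × τ) => ixStep (a A p.1) p.2.1 p.2.2) := by
    have h2 : PTf 𝒜 (fun A (p : α × (Bool × ℕ) × τ) => a A p.1) := ha.comp PTf.id.fst
    have h3 : PTf 𝒜 (fun _ (p : α × (Bool × ℕ) × τ) => p.2.1) := PTf.id.snd.fst
    have h4 : PTf 𝒜 (fun _ (p : α × (Bool × ℕ) × τ) => p.2.2) := PTf.id.snd.snd
    have h5 := PTf.ifP (p := fun A (p : α × (Bool × ℕ) × τ) => p.2.2 = a A p.1)
      (PTf.decide_eq h4 h2) ((PTf.const true).pair h3.snd) ((PTf.const false).pair h3.snd.succ)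
    exact PTf.ite h3.fst h3 h5
  have h2 := PTf.foldl_grow (g := fun A x s y => ixStep (a A x) s y) hl
    (PTf.const ((false, 0) : Bool × ℕ)) h1 (d := fun _ _ => 4) (PB.const 4) (by
      intro A _ x s y _
      obtain ⟨b, n⟩ := s
      rw [ixStep]
      split_ifs with h3 h4
      · omega
      · rw [sz_pair, sz_pair]
        have := sz_bool true
        have := sz_pos b
        simp only
        omega
      · rw [sz_pair, sz_pair, sz_succ]
        have : sz false = 1 := rfl
        have := sz_pos b
        simp only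
        omega)
  refine h2.snd.congr fun A _ x => ?_
  have := ixStep_foldl (a A x) (l A x) 0
  rw [zero_add] at this
  exact this

end PT

end Pool.Agent.LRA67
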