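import Pool.Agent.LRA67.Defs

set_option autoImplicit false

namespace Pool.Agent.LRA67

open Pool.Agent.LibComplexity Function Enc

section PT
variable {𝒜 : Set Orc} {α τ : Type} [Enc α] [Enc τ]

/-- the step of the stack machine on trees -/
def ptStep (s : List Tr) (b : Bool) : List Tr :=
  if b = true then (if s.tail.isEmpty = true then s
    else .cons (s.headD .nil) (s.tail.headD .nil) :: s.tail.tail) else .nil :: s

/-- the step of the stack machine on trees with values -/
def ptStep' (c : τ) (g : Tr → Tr → τ → τ → τ) (s : List (Tr × τ)) (b : Bool) : List (Tr × τ) :=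
  if b = true then (if s.tail.isEmpty = true then s
    else (.cons (s.headD (.nil, c)).1 (s.tail.headD (.nil, c)).1,
      g (s.headD (.nil, c)).1 (s.tail.headD (.nil, c)).1 (s.headD (.nil, c)).2
        (s.tail.headD (.nil, c)).2) :: s.tail.tail) else (.nil, c) :: s

omit [Enc τ] in
theorem ptStep_map {c : τ} {g : Tr → Tr → τ → τ → τ} (h : Tr → τ)
    (h0 : h .nil = c) (h1 : ∀ a b, h (.cons a b) = g a b (h a) (h b)) (s : List Tr) (b : Bool) :
    ptStep' c g (s.map fun t => (t, h t)) b = (ptStep s b).map fun t => (t, h t) := by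
  cases b with
  | false => simp [ptStep', ptStep, h0]
  | true =>
    match s with
    | [] => simp [ptStep', ptStep]
    | [x] => simp [ptStep', ptStep]
    | x :: y :: s => simp [ptStep', ptStep, h1]

omit [Enc τ] in
theorem pt_foldl_map {c : τ} {g : Tr → Tr → τ → τ → τ} (h : Tr → τ)
    (h0 : h .nil = c) (h1 : ∀ a b, h (.cons a b) = g a b (h a) (h b)) (w : List Bool) :
    ∀ s : List Tr, w.foldl (ptStep' c g) (s.map fun t => (t, h t)) =
      (w.foldl ptStep s).map fun t => (t, h t) := by
  induction w with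
  | nil => intro s; rfl
  | cons b w ih => intro s; rw [List.foldl_cons, List.foldl_cons, ptStep_map h h0 h1, ih]

theorem pt_foldl_enc (t : Tr) : ∀ s : List Tr, (t.enc.reverse).foldl ptStep s = t :: s := by
  induction t with
  | nil => intro s; rfl
  | cons a b iha ihb =>
    intro s
    rw [Tr.enc, List.reverse_cons, List.reverse_append, List.foldl_append, List.foldl_append,
      ihb, iha]
    rfl

/-- the sum of the sizes -/
def ptW (s : List Tr) : ℕ := (s.map Tr.size).sum

theorem ptW_step (s : List Tr) (b : Bool) : ptW (ptStep s b) ≤ ptW s + 1 := by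
  cases b with
  | false => simp [ptStep, ptW, Tr.size]; omega
  | true =>
    match s with
    | [] => simp [ptStep, ptW]
    | [x] => simp [ptStep, ptW]
    | x :: y :: s => simp [ptStep, ptW, Tr.size]; omega

theorem ptW_foldl (w : List Bool) : ∀ s : List Tr, ptW (w.foldl ptStep s) ≤ ptW s + w.length := by
  induction w with
  | nil => intro s; simp
  | cons b w ih =>
    intro s
    rw [List.foldl_cons, List.length_cons]
    have h1 := ih (ptStep s b)
    have h2 := ptW_step s b
    omega

theorem pt_sz (h : Tr → τ) (Q : Polynomial ℕ) (hQ : ∀ t : Tr, sz (h t) ≤ Q.eval t.size)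
    (N : ℕ) (s : List Tr) : ptW s ≤ N →
    sz (s.map fun t => (t, h t)) ≤ ptW s * (N + Q.eval N + 2) + 1 := by
  induction s with
  | nil => intro _; simp [sz_nil]
  | cons x s ih =>
    intro hN
    have e1 : ptW (x :: s) = x.size + ptW s := by simp [ptW]
    rw [e1] at hN ⊢
    have h1 := ih (by omega)
    rw [List.map_cons, sz_cons, sz_pair]
    have h2 := hQ x
    have h3 : Q.eval x.size ≤ Q.eval N := peval_mono _ (by omega)
    have h4 : sz x = x.size := rfl
    have h5 := x.size_pos
    have h6 : (x.size + ptW s) * (N + Q.eval N + 2) =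
      x.size * (N + Q.eval N + 2) + ptW s * (N + Q.eval N + 2) := by ring
    have h7 : 1 * (N + Q.eval N + 2) ≤ x.size * (N + Q.eval N + 2) :=
      Nat.mul_le_mul_right _ h5
    omega

theorem ptf_ptStep' {c : τ} {g : Tr → Tr → τ → τ → τ}
    (hg : PTf 𝒜 (fun _ (p : (Tr × Tr) × τ × τ) => g p.1.1 p.1.2 p.2.1 p.2.2)) :
    PTf 𝒜 (fun _ (p : Tr × List (Tr × τ) × Bool) => ptStep' c g p.2.1 p.2.2) := by
  have hs : PTf 𝒜 (fun _ (p : Tr × List (Tr × τ) × Bool) => p.2.1) := PTf.id.snd.fst
  have hx := hs.headD (PTf.const ((Tr.nil, c) : Tr × τ))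
  have hy := hs.tail.headD (PTf.const ((Tr.nil, c) : Tr × τ))
  have h1 := hg.comp ((hx.fst.pair hy.fst).pair (hx.snd.pair hy.snd))
  have h2 := ((hx.fst.tcons hy.fst).pair h1).cons hs.tail.tail
  have h4 : PTf 𝒜 (fun _ (_ : Tr × List (Tr × τ) × Bool) => ((Tr.nil, c) : Tr × τ)) :=
    PTf.const _
  have h5 : PTf 𝒜 (fun _ (p : Tr × List (Tr × τ) × Bool) => p.2.2) := PTf.id.snd.snd
  have h3 := PTf.ite h5 (PTf.ite hs.tail.isEmpty hs h2) (h4.cons hs)
  exact h3

/-- Task P1 -/
theorem ptf_treeRec {c : τ} {g : Tr → Tr → τ → τ → τ}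
    (hg : PTf 𝒜 (fun _ (p : (Tr × Tr) × τ × τ) => g p.1.1 p.1.2 p.2.1 p.2.2)) (h : Tr → τ)
    (h0 : h .nil = c) (h1 : ∀ a b, h (.cons a b) = g a b (h a) (h b)) (Q : Polynomial ℕ)
    (hQ : ∀ t : Tr, sz (h t) ≤ Q.eval t.size) : PTf 𝒜 (fun _ (t : Tr) => h t) := by
  have hw : PTf 𝒜 (fun _ (t : Tr) => (word t).reverse) := PTf.id.word.reverse
  have hf := PTf.foldl (g := fun _ _ s b => ptStep' c g s b) hw
    (PTf.const ([] : List (Tr × τ))) (ptf_ptStep' hg)
    (b := fun _ t => sz t * (sz t + Q.eval (sz t) + 2) + 1)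
    ((PB.self.mul ((PB.self.add (PB.self.poly Q)).add (PB.const 2))).add (PB.const 1)) (by
      intro A _ t k
      have e1 : (((word t).reverse.take k).foldl (fun s b => ptStep' c g s b)
          ([] : List (Tr × τ))) = (((word t).reverse.take k).foldl ptStep []).map
            fun t => (t, h t) := by
        have := pt_foldl_map h h0 h1 ((word t).reverse.take k) []
        rw [List.map_nil] at this
        exact this
      rw [e1]
      have h2 := ptW_foldl ((word t).reverse.take k) []
      have h3 : ((word t).reverse.take k).length ≤ sz t := by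
        rw [List.length_take, List.length_reverse, length_word]
        exact min_le_right _ _
      have h4 : ptW ([] : List Tr) = 0 := rfl
      have h5 : ptW (((word t).reverse.take k).foldl ptStep []) ≤ sz t := by omega
      refine (pt_sz h Q hQ (sz t) _ h5).trans ?_
      exact Nat.add_le_add_right (Nat.mul_le_mul_right _ h5) _)
  have hr := (hf.headD (PTf.const ((Tr.nil, c) : Tr × τ))).snd
  refine hr.congr fun A _ t => ?_
  have e1 : ((word t).reverse.foldl (fun s b => ptStep' c g s b)
      ([] : List (Tr × τ))) = ((word t).reverse.foldl ptStep []).map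
        fun t => (t, h t) := by
    have := pt_foldl_map h h0 h1 ((word t).reverse) []
    rw [List.map_nil] at this
    exact this
  rw [e1]
  have e2 : (word t).reverse.foldl ptStep [] = [t] := pt_foldl_enc t []
  rw [e2]
  rfl

end PT

end Pool.Agent.LRA67
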