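import Pool.Agent.LRA67.PTac
import Pool.Agent.LRA67.CompDef
import Pool.Agent.LRA67.PTree
import Pool.Agent.LRA67.PBits

/-!
Recognising the syntax trees of formulas; the system of a formula is computed in polynomial time.
-/

set_option autoImplicit false

namespace Pool.Agent.LRA67

open Pool.Agent.LibComplexity Function Enc

/-- the tree encodes a truth value -/
def isB (t : Tr) : Bool := t == .nil || t == .cons .nil .nil

/-- one step of the recognition: the tree is a word, a term, a formula, a pair of terms, a pair of
formulas -/
def chkStep (a b : Tr) (_p q : Bool × Bool × Bool × Bool × Bool)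
    (p : Bool × Bool × Bool × Bool × Bool) : Bool × Bool × Bool × Bool × Bool :=
  (isB a && q.1,
    (a == e (0 : ℕ) && q.1) || ((a == e (1 : ℕ) && (q.1 && !(b == .nil))) ||
      ((a == e (2 : ℕ) || a == e (3 : ℕ)) && q.2.2.2.1)),
    ((a == e (0 : ℕ) || (a == e (1 : ℕ) || a == e (2 : ℕ))) && q.2.2.2.1) ||
      ((a == e (3 : ℕ) && q.2.2.1) || ((a == e (4 : ℕ) || a == e (5 : ℕ)) && q.2.2.2.2)),
    p.2.1 && q.2.1, p.2.2.1 && q.2.2.1)

/-- recognition of words, terms, formulas, pairs of terms, pairs of formulas -/
def chk : Tr → Bool × Bool × Bool × Bool × Bool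
  | .nil => (true, false, false, false, false)
  | .cons a b => chkStep a b (chk a) (chk b) (chk a)

theorem isB_iff (t : Tr) : isB t = true ↔ ∃ b : Bool, t = e b := by
  constructor
  · intro h
    simp only [isB, Bool.or_eq_true, beq_iff_eq] at h
    rcases h with h | h
    · exact ⟨false, h⟩
    · exact ⟨true, h⟩
  · rintro ⟨b, rfl⟩
    cases b <;> rfl

theorem chk_word (t : Tr) : (chk t).1 = true ↔ ∃ w : List Bool, t = e w := by
  induction t with
  | nil => exact ⟨fun _ => ⟨[], rfl⟩, fun _ => rfl⟩
  | cons a b iha ihb =>
    simp only [chk, chkStep, Bool.and_eq_true, isB_iff, ihb]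
    constructor
    · rintro ⟨⟨c, rfl⟩, w, rfl⟩
      exact ⟨c :: w, rfl⟩
    · rintro ⟨w, hw⟩
      cases w with
      | nil => simp [e_nil] at hw
      | cons c w =>
        rw [e_cons] at hw
        injection hw with h1 h2
        exact ⟨⟨c, h1⟩, w, h2⟩

theorem e_ne {m n : ℕ} (h : m ≠ n) : (e m : Tr) ≠ e n := fun h' => h (Enc.inj h')

theorem chk_term (t : Tr) : ((chk t).2.1 = true ↔ ∃ s : PTerm, t = s.tr) ∧
    ((chk t).2.2.2.1 = true ↔ ∃ s s' : PTerm, t = .cons s.tr s'.tr) := by
  induction t with
  | nil =>
    constructor
    · constructor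
      · intro h; simp [chk] at h
      · rintro ⟨s, hs⟩
        cases s <;> simp [PTerm.tr] at hs
    · constructor
      · intro h; simp [chk] at h
      · rintro ⟨s, s', hs⟩
        simp at hs
  | cons a b iha ihb =>
    constructor
    · simp only [chk, chkStep, Bool.or_eq_true, Bool.and_eq_true, beq_iff_eq, chk_word,
        Bool.not_eq_true', beq_eq_false_iff_ne, ne_eq, ihb.2]
      constructor
      · rintro (⟨rfl, w, rfl⟩ | ⟨rfl, ⟨w, rfl⟩, hb⟩ | ⟨rfl | rfl, s, s', rfl⟩)
        · exact ⟨.var w, rfl⟩
        · cases w with
          | nil => exact absurd rfl hb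
          | cons c w => exact ⟨.const c w, rfl⟩
        · exact ⟨.add s s', rfl⟩
        · exact ⟨.mul s s', rfl⟩
      · rintro ⟨s, hs⟩
        cases s with
        | var w =>
          simp only [PTerm.tr, Tr.cons.injEq] at hs
          exact Or.inl ⟨hs.1, w, hs.2⟩
        | const c w =>
          simp only [PTerm.tr, Tr.cons.injEq] at hs
          refine Or.inr (Or.inl ⟨hs.1, ⟨c :: w, hs.2⟩, ?_⟩)
          rw [hs.2, e_pair]
          simp
        | add s s' =>
          simp only [PTerm.tr, Tr.cons.injEq] at hs
          exact Or.inr (Or.inr ⟨Or.inl hs.1, s, s', hs.2⟩)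
        | mul s s' =>
          simp only [PTerm.tr, Tr.cons.injEq] at hs
          exact Or.inr (Or.inr ⟨Or.inr hs.1, s, s', hs.2⟩)
    · simp only [chk, chkStep, Bool.and_eq_true, iha.1, ihb.1]
      constructor
      · rintro ⟨⟨s, rfl⟩, s', rfl⟩
        exact ⟨s, s', rfl⟩
      · rintro ⟨s, s', hs⟩
        injection hs with h1 h2
        exact ⟨⟨s, h1⟩, s', h2⟩

theorem chk_fml (t : Tr) : ((chk t).2.2.1 = true ↔ ∃ φ : Fml, t = φ.tr) ∧
    ((chk t).2.2.2.2 = true ↔ ∃ φ ψ : Fml, t = .cons φ.tr ψ.tr) := by
  induction t with
  | nil =>
    constructor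
    · constructor
      · intro h; simp [chk] at h
      · rintro ⟨s, hs⟩
        cases s <;> simp [Fml.tr] at hs
    · constructor
      · intro h; simp [chk] at h
      · rintro ⟨s, s', hs⟩
        simp at hs
  | cons a b iha ihb =>
    constructor
    · simp only [chk, chkStep, Bool.or_eq_true, Bool.and_eq_true, beq_iff_eq, ihb.1, ihb.2,
        (chk_term b).2]
      constructor
      · rintro (⟨rfl | rfl | rfl, s, s', rfl⟩ | ⟨rfl, φ, rfl⟩ | ⟨rfl | rfl, φ, ψ, rfl⟩)
        · exact ⟨.eq s s', rfl⟩
        · exact ⟨.le s s', rfl⟩
        · exact ⟨.lt s s', rfl⟩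
        · exact ⟨.not φ, rfl⟩
        · exact ⟨.and φ ψ, rfl⟩
        · exact ⟨.or φ ψ, rfl⟩
      · rintro ⟨φ, hφ⟩
        cases φ with
        | eq s s' =>
          simp only [Fml.tr, Tr.cons.injEq] at hφ
          exact Or.inl ⟨Or.inl hφ.1, s, s', hφ.2⟩
        | le s s' =>
          simp only [Fml.tr, Tr.cons.injEq] at hφ
          exact Or.inl ⟨Or.inr (Or.inl hφ.1), s, s', hφ.2⟩
        | lt s s' =>
          simp only [Fml.tr, Tr.cons.injEq] at hφ
          exact Or.inl ⟨Or.inr (Or.inr hφ.1), s, s', hφ.2⟩
        | not φ =>
          simp only [Fml.tr, Tr.cons.injEq] at hφ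
          exact Or.inr (Or.inl ⟨hφ.1, φ, hφ.2⟩)
        | and φ ψ =>
          simp only [Fml.tr, Tr.cons.injEq] at hφ
          exact Or.inr (Or.inr ⟨Or.inl hφ.1, φ, ψ, hφ.2⟩)
        | or φ ψ =>
          simp only [Fml.tr, Tr.cons.injEq] at hφ
          exact Or.inr (Or.inr ⟨Or.inr hφ.1, φ, ψ, hφ.2⟩)
    · simp only [chk, chkStep, Bool.and_eq_true, iha.1, ihb.1]
      constructor
      · rintro ⟨⟨s, rfl⟩, s', rfl⟩
        exact ⟨s, s', rfl⟩
      · rintro ⟨s, s', hs⟩
        injection hs with h1 h2
        exact ⟨⟨s, h1⟩, s', h2⟩

/-- the word is the code of a formula -/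
def isF (w : List Bool) : Bool := (readTr w).enc == w && (chk (readTr w)).2.2.1

theorem isF_iff (w : List Bool) : isF w = true ↔ ∃ φ : Fml, w = φ.tr.enc := by
  simp only [isF, Bool.and_eq_true, beq_iff_eq, (chk_fml _).1]
  constructor
  · rintro ⟨h1, φ, h2⟩
    exact ⟨φ, by rw [← h2, h1]⟩
  · rintro ⟨φ, rfl⟩
    have := readTr_enc φ.tr []
    rw [List.append_nil] at this
    rw [this]
    exact ⟨rfl, φ, rfl⟩

section PT

variable {𝒜 : Set Orc}

theorem ptf_chk : PTf 𝒜 (fun _ (t : Tr) => chk t) := by
  have hg : PTf 𝒜 (fun _ (p : (Tr × Tr) × (Bool × Bool × Bool × Bool × Bool) ×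
      (Bool × Bool × Bool × Bool × Bool)) => chkStep p.1.1 p.1.2 p.2.1 p.2.2 p.2.1) := by
    unfold chkStep isB
    with_reducible apply PTf.pair
    with_reducible apply PTf.band
    with_reducible apply PTf.bor
    with_reducible apply PTf.beq
    with_reducible apply PTf.fst
    with_reducible apply PTf.fst
    exact PTf.id
    exact PTf.const _
    with_reducible apply PTf.beq
    with_reducible apply PTf.fst
    with_reducible apply PTf.fst
    exact PTf.id
    exact PTf.const _
    with_reducible apply PTf.fst
    with_reducible apply PTf.snd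
    with_reducible apply PTf.snd
    exact PTf.id
    with_reducible apply PTf.pair
    with_reducible apply PTf.bor
    with_reducible apply PTf.band
    with_reducible apply PTf.beq
    with_reducible apply PTf.fst
    with_reducible apply PTf.fst
    exact PTf.id
    exact PTf.const _
    with_reducible apply PTf.fst
    with_reducible apply PTf.snd
    with_reducible apply PTf.snd
    exact PTf.id
    with_reducible apply PTf.bor
    with_reducible apply PTf.band
    with_reducible apply PTf.beq
    with_reducible apply PTf.fst
    with_reducible apply PTf.fst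
    exact PTf.id
    exact PTf.const _
    with_reducible apply PTf.band
    with_reducible apply PTf.fst
    with_reducible apply PTf.snd
    with_reducible apply PTf.snd
    exact PTf.id
    with_reducible apply PTf.bnot
    with_reducible apply PTf.beq
    with_reducible apply PTf.snd
    with_reducible apply PTf.fst
    exact PTf.id
    exact PTf.const _
    with_reducible apply PTf.band
    with_reducible apply PTf.bor
    with_reducible apply PTf.beq
    with_reducible apply PTf.fst
    with_reducible apply PTf.fst
    exact PTf.id
    exact PTf.const _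
    with_reducible apply PTf.beq
    with_reducible apply PTf.fst
    with_reducible apply PTf.fst
    exact PTf.id
    exact PTf.const _
    with_reducible apply PTf.fst
    with_reducible apply PTf.snd
    with_reducible apply PTf.snd
    with_reducible apply PTf.snd
    with_reducible apply PTf.snd
    with_reducible apply PTf.snd
    exact PTf.id
    with_reducible apply PTf.pair
    with_reducible apply PTf.bor
    with_reducible apply PTf.band
    with_reducible apply PTf.bor
    with_reducible apply PTf.beq
    with_reducible apply PTf.fst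
    with_reducible apply PTf.fst
    exact PTf.id
    exact PTf.const _
    with_reducible apply PTf.bor
    with_reducible apply PTf.beq
    with_reducible apply PTf.fst
    with_reducible apply PTf.fst
    exact PTf.id
    exact PTf.const _
    with_reducible apply PTf.beq
    with_reducible apply PTf.fst
    with_reducible apply PTf.fst
    exact PTf.id
    exact PTf.const _
    with_reducible apply PTf.fst
    with_reducible apply PTf.snd
    with_reducible apply PTf.snd
    with_reducible apply PTf.snd
    with_reducible apply PTf.snd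
    with_reducible apply PTf.snd
    exact PTf.id
    with_reducible apply PTf.bor
    with_reducible apply PTf.band
    with_reducible apply PTf.beq
    with_reducible apply PTf.fst
    with_reducible apply PTf.fst
    exact PTf.id
    exact PTf.const _
    with_reducible apply PTf.fst
    with_reducible apply PTf.snd
    with_reducible apply PTf.snd
    with_reducible apply PTf.snd
    with_reducible apply PTf.snd
    exact PTf.id
    with_reducible apply PTf.band
    with_reducible apply PTf.bor
    with_reducible apply PTf.beq
    with_reducible apply PTf.fst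
    with_reducible apply PTf.fst
    exact PTf.id
    exact PTf.const _
    with_reducible apply PTf.beq
    with_reducible apply PTf.fst
    with_reducible apply PTf.fst
    exact PTf.id
    exact PTf.const _
    with_reducible apply PTf.snd
    with_reducible apply PTf.snd
    with_reducible apply PTf.snd
    with_reducible apply PTf.snd
    with_reducible apply PTf.snd
    with_reducible apply PTf.snd
    exact PTf.id
    with_reducible apply PTf.pair
    with_reducible apply PTf.band
    with_reducible apply PTf.fst
    with_reducible apply PTf.snd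
    with_reducible apply PTf.fst
    with_reducible apply PTf.snd
    exact PTf.id
    with_reducible apply PTf.fst
    with_reducible apply PTf.snd
    with_reducible apply PTf.snd
    with_reducible apply PTf.snd
    exact PTf.id
    with_reducible apply PTf.band
    with_reducible apply PTf.fst
    with_reducible apply PTf.snd
    with_reducible apply PTf.snd
    with_reducible apply PTf.fst
    with_reducible apply PTf.snd
    exact PTf.id
    with_reducible apply PTf.fst
    with_reducible apply PTf.snd
    with_reducible apply PTf.snd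
    with_reducible apply PTf.snd
    with_reducible apply PTf.snd
    exact PTf.id
  refine ptf_treeRec (g := fun a b p q => chkStep a b p q p) hg chk rfl (fun a b => rfl)
    (Polynomial.C 20) (fun t => ?_)
  rw [Polynomial.eval_C]
  generalize chk t = x
  obtain ⟨x1, x2, x3, x4, x5⟩ := x
  simp only [sz_pair]
  have h1 := sz_bool x1
  have h2 := sz_bool x2
  have h3 := sz_bool x3
  have h4 := sz_bool x4
  have h5 := sz_bool x5
  omega

theorem ptf_isF : PTf 𝒜 (fun _ (w : List Bool) => isF w) := by
  have h1 : PTf 𝒜 (fun _ (w : List Bool) => readTr w) := PTf.readTr PTf.id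
  have h2 : PTf 𝒜 (fun _ (w : List Bool) => (readTr w).enc) := PTf.word h1
  have h3 : PTf 𝒜 (fun _ (w : List Bool) => (chk (readTr w)).2.2.1) :=
    ((ptf_chk.comp h1).snd).snd.fst
  exact (h2.beq PTf.id).band h3

theorem sz_subs (t : Tr) : sz (subs t) ≤ t.size ^ 2 + 2 := by
  induction t with
  | nil => simp only [subs, Tr.size]; decide
  | cons a b iha ihb =>
    have h1 : sz (subs (.cons a b)) = (Tr.cons a b).size + sz (subs a ++ subs b) + 1 := rfl
    have h2 := sz_append (subs a) (subs b)
    have h3 := a.size_pos
    have h4 := b.size_pos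
    rw [h1]
    simp only [Tr.size] at *
    nlinarith [Nat.mul_le_mul h3 h4]

theorem ptf_subs : PTf 𝒜 (fun _ (t : Tr) => subs t) := by
  have hg : PTf 𝒜 (fun _ (p : (Tr × Tr) × List Tr × List Tr) =>
      Tr.cons p.1.1 p.1.2 :: (p.2.1 ++ p.2.2)) := by
    with_reducible apply PTf.cons
    with_reducible apply PTf.tcons
    with_reducible apply PTf.fst
    with_reducible apply PTf.fst
    exact PTf.id
    with_reducible apply PTf.snd
    with_reducible apply PTf.fst
    exact PTf.id
    with_reducible apply PTf.append
    with_reducible apply PTf.fst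
    with_reducible apply PTf.snd
    exact PTf.id
    with_reducible apply PTf.snd
    with_reducible apply PTf.snd
    exact PTf.id
  refine ptf_treeRec (g := fun a b p q => Tr.cons a b :: (p ++ q)) hg subs rfl (fun a b => rfl)
    (Polynomial.X ^ 2 + Polynomial.C 2) (fun t => ?_)
  have := sz_subs t
  simpa using this

/-- the unknown, computed from the list of subtrees -/
def V' (l : List Tr) (κ : ℕ) (t : Tr) : ℕ := 2 + 12 * l.idxOf t + κ

theorem ptf_V' (κ : ℕ) {α : Type} [Enc α] {l : Orc → α → List Tr} {t : Orc → α → Tr}
    (hl : PTf 𝒜 l) (ht : PTf 𝒜 t) : PTf 𝒜 (fun A x => V' (l A x) κ (t A x)) := by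
  unfold V'
  have h := ptf_idxOf hl ht
  exact ((PTf.const 2).add ((PTf.const 12).mul h)).add (PTf.const κ)

end PT

end Pool.Agent.LRA67
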