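import Pool.Agent.LRA67.CompDef

/-!
The system of equations for a formula: correctness.
-/

set_option autoImplicit false

namespace Pool.Agent.LRA67

open Pool.Agent.LibComplexity Function Enc

/-! ### subtrees -/

private theorem comp_self (r : Tr) : r ∈ subs r := by
  cases r <;> simp [subs]

private theorem comp_trans (r : Tr) : ∀ s ∈ subs r, ∀ t ∈ subs s, t ∈ subs r := by
  induction r with
  | nil =>
    intro s hs t ht
    simp only [subs, List.mem_singleton] at hs
    subst hs
    exact ht
  | cons a b iha ihb =>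
    intro s hs t ht
    simp only [subs, List.mem_cons, List.mem_append] at hs
    rcases hs with rfl | hs | hs
    · exact ht
    · simp only [subs, List.mem_cons, List.mem_append]
      exact Or.inr (Or.inl (iha s hs t ht))
    · simp only [subs, List.mem_cons, List.mem_append]
      exact Or.inr (Or.inr (ihb s hs t ht))

private theorem comp_fst {r t : Tr} (h : t ∈ subs r) : t.fst ∈ subs r := by
  apply comp_trans r t h
  cases t with
  | nil => exact comp_self _
  | cons a b =>
    simp only [subs, List.mem_cons, List.mem_append]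
    exact Or.inr (Or.inl (comp_self _))

private theorem comp_snd {r t : Tr} (h : t ∈ subs r) : t.snd ∈ subs r := by
  apply comp_trans r t h
  cases t with
  | nil => exact comp_self _
  | cons a b =>
    simp only [subs, List.mem_cons, List.mem_append]
    exact Or.inr (Or.inr (comp_self _))

private theorem comp_V_lt {r t : Tr} (h : t ∈ subs r) {κ : ℕ} (hκ : κ < 12) :
    V r κ t < 2 + 12 * (subs r).length := by
  have h1 : (subs r).idxOf t < (subs r).length := List.idxOf_lt_length_iff.2 h
  unfold V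
  omega

/-- Task F -/
theorem compile_wf (r : Tr) : (compile r).WF := by
  have hP : ∀ t ∈ subs r, ∀ κ < 12, V r κ t < (compile r).1 := fun t ht κ hκ => comp_V_lt ht hκ
  have h0 : 0 < (compile r).1 := by
    show 0 < 2 + 12 * (subs r).length
    omega
  have h1 : 1 < (compile r).1 := by
    show 1 < 2 + 12 * (subs r).length
    omega
  refine ⟨h0, ?_, ?_⟩
  · intro p hp
    have hp' : p ∈ (subs r).flatMap (prodsAt r) := hp
    obtain ⟨t, ht, hpt⟩ := List.mem_flatMap.1 hp'
    have a1 := comp_snd ht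
    have a2 := comp_fst a1
    have a3 := comp_snd a1
    clear hp hp'
    unfold prodsAt at hpt
    split_ifs at hpt <;> simp only [List.mem_cons, List.not_mem_nil, or_false] at hpt
    all_goals
      rcases hpt with rfl | rfl | rfl <;> refine ⟨?_, ?_, ?_⟩ <;>
      first
        | exact hP _ ht _ (by norm_num)
        | exact hP _ a2 _ (by norm_num)
        | exact hP _ a3 _ (by norm_num)
  · intro p hp
    have hp' : p ∈ (1, 1, 1) :: (V r 2 r, 1, 1) ::
      ((subs r).flatMap (sumsW r) ++ (subs r).flatMap (sumsT r) ++ (subs r).flatMap (sumsF r)) := hp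
    clear hp
    simp only [List.mem_cons, List.mem_append, List.mem_flatMap] at hp'
    rcases hp' with rfl | rfl | ((⟨t, ht, hpt⟩ | ⟨t, ht, hpt⟩) | ⟨t, ht, hpt⟩)
    · exact ⟨h1, h1, h1⟩
    · exact ⟨hP _ (comp_self r) _ (by norm_num), h1, h1⟩
    · have a1 := comp_snd ht
      unfold sumsW at hpt
      split_ifs at hpt <;> simp only [List.mem_cons, List.not_mem_nil, or_false] at hpt
      all_goals
        rcases hpt with rfl | rfl <;> refine ⟨?_, ?_, ?_⟩ <;>
        first
          | exact h0
          | exact h1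
          | exact hP _ ht _ (by norm_num)
          | exact hP _ a1 _ (by norm_num)
    · have a1 := comp_snd ht
      have a2 := comp_fst a1
      have a3 := comp_snd a1
      unfold sumsT at hpt
      split_ifs at hpt <;> simp only [List.mem_cons, List.not_mem_nil, or_false] at hpt
      all_goals
        rcases hpt with rfl | rfl <;> refine ⟨?_, ?_, ?_⟩ <;>
        first
          | exact h0
          | exact h1
          | exact hP _ ht _ (by norm_num)
          | exact hP _ a2 _ (by norm_num)
          | exact hP _ a3 _ (by norm_num)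
    · have a1 := comp_snd ht
      have a2 := comp_fst a1
      have a3 := comp_snd a1
      unfold sumsF at hpt
      split_ifs at hpt <;> simp only [List.mem_cons, List.not_mem_nil, or_false] at hpt
      all_goals
        rcases hpt with rfl | rfl | rfl | rfl <;> refine ⟨?_, ?_, ?_⟩ <;>
        first
          | exact h0
          | exact h1
          | exact hP _ ht _ (by norm_num)
          | exact hP _ a1 _ (by norm_num)
          | exact hP _ a2 _ (by norm_num)
          | exact hP _ a3 _ (by norm_num)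

/-! ### from solutions to values -/

section

variable {r : Tr} {y : ℕ → ℝ}

private theorem comp_word (hW : ∀ t ∈ subs r, ∀ p ∈ sumsW r t, y p.1 + y p.2.1 = y p.2.2)
    (hy0 : y 0 = 1) (hy1 : y 1 = 0) (l : List Bool) (hl : e l ∈ subs r) :
    y (V r 1 (e l)) = binVal l := by
  induction l with
  | nil =>
    have h := hW _ hl (V r 1 .nil, 1, 1) (by simp [sumsW, e_nil])
    simp only [hy1, add_zero] at h
    simpa [e_nil, binVal] using h
  | cons b l ih =>
    have hs : (e (b :: l) : Tr).snd = e l := rfl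
    have h2 := comp_snd hl
    rw [hs] at h2
    have h3 := ih h2
    rcases b with _ | _
    · have h := hW _ hl (V r 1 (e l), V r 1 (e l), V r 1 (e (false :: l)))
        (by simp [sumsW, e_cons, e_false, Tr.fst, Tr.snd])
      simp only at h
      rw [← h, h3, binVal]
      push_cast
      simp
      ring
    · have h := hW _ hl (V r 1 (e l), V r 1 (e l), V r 8 (e (true :: l)))
        (by simp [sumsW, e_cons, e_true, Tr.fst, Tr.snd])
      have h' := hW _ hl (V r 8 (e (true :: l)), 0, V r 1 (e (true :: l)))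
        (by simp [sumsW, e_cons, e_true, Tr.fst, Tr.snd])
      simp only at h h'
      rw [← h', ← h, h3, hy0, binVal]
      push_cast
      simp
      ring

private theorem comp_ne {m n : ℕ} (h : m ≠ n) : (e m : Tr) ≠ e n := fun h2 => h (Enc.inj h2)

private theorem comp_term (hW : ∀ t ∈ subs r, ∀ p ∈ sumsW r t, y p.1 + y p.2.1 = y p.2.2)
    (hT : ∀ t ∈ subs r, ∀ p ∈ sumsT r t, y p.1 + y p.2.1 = y p.2.2)
    (hP : ∀ t ∈ subs r, ∀ p ∈ prodsAt r t, y p.1 * y p.2.1 = y p.2.2)
    (hy0 : y 0 = 1) (hy1 : y 1 = 0) (s : PTerm) (hs : s.tr ∈ subs r) :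
    y (V r 0 s.tr) = s.val fun a => y (V r 0 (PTerm.var a).tr) := by
  induction s with
  | var a => rfl
  | const neg d =>
    have a1 := comp_snd (comp_snd hs)
    have h1 : (PTerm.const neg d).tr.snd.snd = e d := rfl
    rw [h1] at a1
    have h2 := comp_word hW hy0 hy1 d a1
    rcases neg with _ | _
    · have h := hT _ hs (V r 0 (PTerm.const false d).tr, 1, V r 1 (e d))
        (by simp [sumsT, PTerm.tr, e_pair, e_false, Tr.fst, Tr.snd])
      simp only [hy1, add_zero] at h
      rw [h, h2]
      rfl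
    · have h := hT _ hs (V r 0 (PTerm.const true d).tr, V r 1 (e d), 1)
        (by simp [sumsT, PTerm.tr, e_pair, e_true, Tr.fst, Tr.snd])
      simp only [hy1] at h
      have h3 : y (V r 0 (PTerm.const true d).tr) = -y (V r 1 (e d)) := by linarith
      rw [h3, h2]
      rfl
  | add s t ihs iht =>
    have a1 := comp_fst (comp_snd hs)
    have a2 := comp_snd (comp_snd hs)
    have h := hT _ hs (V r 0 s.tr, V r 0 t.tr, V r 0 (s.add t).tr)
      (by simp [sumsT, PTerm.tr, Tr.fst, Tr.snd, comp_ne])
    simp only at h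
    rw [← h, ihs a1, iht a2]
    rfl
  | mul s t ihs iht =>
    have a1 := comp_fst (comp_snd hs)
    have a2 := comp_snd (comp_snd hs)
    have h := hP _ hs (V r 0 s.tr, V r 0 t.tr, V r 0 (s.mul t).tr)
      (by simp [prodsAt, PTerm.tr, Tr.fst, Tr.snd, comp_ne])
    simp only at h
    rw [← h, ihs a1, iht a2]
    rfl

private theorem comp_fml (hW : ∀ t ∈ subs r, ∀ p ∈ sumsW r t, y p.1 + y p.2.1 = y p.2.2)
    (hT : ∀ t ∈ subs r, ∀ p ∈ sumsT r t, y p.1 + y p.2.1 = y p.2.2)
    (hF : ∀ t ∈ subs r, ∀ p ∈ sumsF r t, y p.1 + y p.2.1 = y p.2.2)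
    (hP : ∀ t ∈ subs r, ∀ p ∈ prodsAt r t, y p.1 * y p.2.1 = y p.2.2)
    (hy0 : y 0 = 1) (hy1 : y 1 = 0) (φ : Fml) (hφ : φ.tr ∈ subs r) :
    (y (V r 2 φ.tr) = 0 → φ.Holds fun a => y (V r 0 (PTerm.var a).tr)) ∧
      (y (V r 3 φ.tr) = 0 → ¬ φ.Holds fun a => y (V r 0 (PTerm.var a).tr)) := by
  induction φ with
  | eq s t =>
    have a1 := comp_term hW hT hP hy0 hy1 s (comp_fst (comp_snd hφ))
    have a2 := comp_term hW hT hP hy0 hy1 t (comp_snd (comp_snd hφ))
    have p1 := hP _ hφ (V r 4 (Fml.eq s t).tr, V r 2 (Fml.eq s t).tr, V r 11 (Fml.eq s t).tr)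
      (by simp [prodsAt, Fml.tr, Tr.fst])
    have s1 := hF _ hφ (V r 2 (Fml.eq s t).tr, V r 0 t.tr, V r 0 s.tr)
      (by simp [sumsF, Fml.tr, Tr.fst, Tr.snd])
    have s2 := hF _ hφ (V r 3 (Fml.eq s t).tr, 0, V r 11 (Fml.eq s t).tr)
      (by simp [sumsF, Fml.tr, Tr.fst, Tr.snd])
    simp only at p1 s1 s2
    rw [a1, a2] at s1
    rw [hy0, ← p1] at s2
    constructor
    · intro h
      rw [h, zero_add] at s1
      exact s1.symm
    · intro h h2
      have h3 : s.val (fun a => y (V r 0 (PTerm.var a).tr)) =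
        t.val (fun a => y (V r 0 (PTerm.var a).tr)) := h2
      have h4 : y (V r 2 (Fml.eq s t).tr) = 0 := by linarith
      rw [h4, h, mul_zero] at s2
      linarith
  | le s t =>
    have a1 := comp_term hW hT hP hy0 hy1 s (comp_fst (comp_snd hφ))
    have a2 := comp_term hW hT hP hy0 hy1 t (comp_snd (comp_snd hφ))
    set q := (Fml.le s t).tr with hq
    have hs1 : q.snd.fst = s.tr := rfl
    have hs2 : q.snd.snd = t.tr := rfl
    have hq1 : q.fst = e (1 : ℕ) := rfl
    have e1 : (e (1 : ℕ) : Tr) ≠ e (0 : ℕ) := comp_ne (by norm_num)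
    have p1 := hP _ hφ (V r 4 q, V r 4 q, V r 5 q) (by simp [prodsAt, hq1, e1])
    have p2 := hP _ hφ (V r 6 q, V r 6 q, V r 7 q) (by simp [prodsAt, hq1, e1])
    have p3 := hP _ hφ (V r 7 q, V r 10 q, V r 11 q) (by simp [prodsAt, hq1, e1])
    have s1 := hF _ hφ (V r 9 q, V r 0 s.tr, V r 0 t.tr) (by simp [sumsF, hq1, e1, hs1, hs2])
    have s2 := hF _ hφ (V r 9 q, V r 10 q, 1) (by simp [sumsF, hq1, e1, hs1, hs2])
    have s3 := hF _ hφ (V r 2 q, V r 5 q, V r 9 q) (by simp [sumsF, hq1, e1, hs1, hs2])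
    have s4 := hF _ hφ (V r 3 q, 0, V r 11 q) (by simp [sumsF, hq1, e1, hs1, hs2])
    simp only at p1 p2 p3 s1 s2 s3 s4
    rw [a1, a2] at s1
    constructor
    · intro h
      show s.val _ ≤ t.val _
      nlinarith [mul_self_nonneg (y (V r 4 q))]
    · intro h h2
      have h3 : s.val (fun a => y (V r 0 (PTerm.var a).tr)) ≤
        t.val (fun a => y (V r 0 (PTerm.var a).tr)) := h2
      have h4 : y (V r 10 q) ≤ 0 := by linarith
      have h5 : 0 ≤ y (V r 7 q) := by rw [← p2]; exact mul_self_nonneg _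
      have h6 : y (V r 11 q) = 1 := by linarith
      nlinarith
  | lt s t =>
    have a1 := comp_term hW hT hP hy0 hy1 s (comp_fst (comp_snd hφ))
    have a2 := comp_term hW hT hP hy0 hy1 t (comp_snd (comp_snd hφ))
    set q := (Fml.lt s t).tr with hq
    have hs1 : q.snd.fst = s.tr := rfl
    have hs2 : q.snd.snd = t.tr := rfl
    have hq1 : q.fst = e (2 : ℕ) := rfl
    have e1 : (e (2 : ℕ) : Tr) ≠ e (0 : ℕ) := comp_ne (by norm_num)
    have e2 : (e (2 : ℕ) : Tr) ≠ e (1 : ℕ) := comp_ne (by norm_num)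
    have p1 := hP _ hφ (V r 4 q, V r 4 q, V r 5 q) (by simp [prodsAt, hq1, e1, e2])
    have p2 := hP _ hφ (V r 6 q, V r 6 q, V r 7 q) (by simp [prodsAt, hq1, e1, e2])
    have p3 := hP _ hφ (V r 5 q, V r 9 q, V r 11 q) (by simp [prodsAt, hq1, e1, e2])
    have s1 := hF _ hφ (V r 9 q, V r 0 s.tr, V r 0 t.tr) (by simp [sumsF, hq1, e1, e2, hs1, hs2])
    have s2 := hF _ hφ (V r 9 q, V r 10 q, 1) (by simp [sumsF, hq1, e1, e2, hs1, hs2])
    have s3 := hF _ hφ (V r 2 q, 0, V r 11 q) (by simp [sumsF, hq1, e1, e2, hs1, hs2])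
    have s4 := hF _ hφ (V r 3 q, V r 7 q, V r 10 q) (by simp [sumsF, hq1, e1, e2, hs1, hs2])
    simp only at p1 p2 p3 s1 s2 s3 s4
    rw [a1, a2] at s1
    constructor
    · intro h
      show s.val _ < t.val _
      by_contra h2
      have h3 : t.val (fun a => y (V r 0 (PTerm.var a).tr)) ≤
        s.val (fun a => y (V r 0 (PTerm.var a).tr)) := not_lt.1 h2
      have h4 : y (V r 9 q) ≤ 0 := by linarith
      have h5 : 0 ≤ y (V r 5 q) := by rw [← p1]; exact mul_self_nonneg _
      have h6 : y (V r 11 q) = 1 := by linarith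
      nlinarith
    · intro h h2
      have h3 : s.val (fun a => y (V r 0 (PTerm.var a).tr)) <
        t.val (fun a => y (V r 0 (PTerm.var a).tr)) := h2
      have h5 : 0 ≤ y (V r 7 q) := by rw [← p2]; exact mul_self_nonneg _
      linarith
  | not ψ ih =>
    set q := (Fml.not ψ).tr with hq
    have hs1 : q.snd = ψ.tr := rfl
    have hq1 : q.fst = e (3 : ℕ) := rfl
    have e1 : (e (3 : ℕ) : Tr) ≠ e (0 : ℕ) := comp_ne (by norm_num)
    have e2 : (e (3 : ℕ) : Tr) ≠ e (1 : ℕ) := comp_ne (by norm_num)
    have e3 : (e (3 : ℕ) : Tr) ≠ e (2 : ℕ) := comp_ne (by norm_num)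
    have s1 := hF _ hφ (V r 2 q, 1, V r 3 ψ.tr) (by simp [sumsF, hq1, e1, e2, e3, hs1])
    have s2 := hF _ hφ (V r 3 q, 1, V r 2 ψ.tr) (by simp [sumsF, hq1, e1, e2, e3, hs1])
    simp only [hy1, add_zero] at s1 s2
    obtain ⟨i1, i2⟩ := ih (comp_snd hφ)
    constructor
    · intro h
      exact i2 (by rw [← s1, h])
    · intro h h2
      exact h2 (i1 (by rw [← s2, h]))
  | and ψ χ ih1 ih2 =>
    set q := (Fml.and ψ χ).tr with hq
    have hs1 : q.snd.fst = ψ.tr := rfl
    have hs2 : q.snd.snd = χ.tr := rfl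
    have hq1 : q.fst = e (4 : ℕ) := rfl
    have e1 : (e (4 : ℕ) : Tr) ≠ e (0 : ℕ) := comp_ne (by norm_num)
    have e2 : (e (4 : ℕ) : Tr) ≠ e (1 : ℕ) := comp_ne (by norm_num)
    have e3 : (e (4 : ℕ) : Tr) ≠ e (2 : ℕ) := comp_ne (by norm_num)
    have e4 : (e (4 : ℕ) : Tr) ≠ e (3 : ℕ) := comp_ne (by norm_num)
    have p1 := hP _ hφ (V r 2 ψ.tr, V r 2 ψ.tr, V r 5 q)
      (by simp [prodsAt, hq1, e1, e2, e3, e4, hs1])
    have p2 := hP _ hφ (V r 2 χ.tr, V r 2 χ.tr, V r 7 q)
      (by simp [prodsAt, hq1, e1, e2, e3, e4, hs2])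
    have p3 := hP _ hφ (V r 3 ψ.tr, V r 3 χ.tr, V r 3 q)
      (by simp [prodsAt, hq1, e1, e2, e3, e4, hs1, hs2])
    have s1 := hF _ hφ (V r 5 q, V r 7 q, V r 2 q) (by simp [sumsF, hq1, e1, e2, e3, e4])
    simp only at p1 p2 p3 s1
    obtain ⟨i1, i2⟩ := ih1 (comp_fst (comp_snd hφ))
    obtain ⟨j1, j2⟩ := ih2 (comp_snd (comp_snd hφ))
    constructor
    · intro h
      rw [h] at s1
      have k1 : y (V r 2 ψ.tr) = 0 := by
        have := mul_self_nonneg (y (V r 2 ψ.tr))
        have := mul_self_nonneg (y (V r 2 χ.tr))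
        exact mul_self_eq_zero.1 (by linarith)
      have k2 : y (V r 2 χ.tr) = 0 := by
        have := mul_self_nonneg (y (V r 2 ψ.tr))
        have := mul_self_nonneg (y (V r 2 χ.tr))
        exact mul_self_eq_zero.1 (by linarith)
      exact ⟨i1 k1, j1 k2⟩
    · intro h h2
      rw [h] at p3
      rcases mul_eq_zero.1 p3 with k | k
      · exact i2 k h2.1
      · exact j2 k h2.2
  | or ψ χ ih1 ih2 =>
    set q := (Fml.or ψ χ).tr with hq
    have hs1 : q.snd.fst = ψ.tr := rfl
    have hs2 : q.snd.snd = χ.tr := rfl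
    have hq1 : q.fst = e (5 : ℕ) := rfl
    have e1 : (e (5 : ℕ) : Tr) ≠ e (0 : ℕ) := comp_ne (by norm_num)
    have e2 : (e (5 : ℕ) : Tr) ≠ e (1 : ℕ) := comp_ne (by norm_num)
    have e3 : (e (5 : ℕ) : Tr) ≠ e (2 : ℕ) := comp_ne (by norm_num)
    have e4 : (e (5 : ℕ) : Tr) ≠ e (3 : ℕ) := comp_ne (by norm_num)
    have e5 : (e (5 : ℕ) : Tr) ≠ e (4 : ℕ) := comp_ne (by norm_num)
    have p1 := hP _ hφ (V r 3 ψ.tr, V r 3 ψ.tr, V r 5 q)
      (by simp [prodsAt, hq1, e1, e2, e3, e4, e5, hs1])
    have p2 := hP _ hφ (V r 3 χ.tr, V r 3 χ.tr, V r 7 q)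
      (by simp [prodsAt, hq1, e1, e2, e3, e4, e5, hs2])
    have p3 := hP _ hφ (V r 2 ψ.tr, V r 2 χ.tr, V r 2 q)
      (by simp [prodsAt, hq1, e1, e2, e3, e4, e5, hs1, hs2])
    have s1 := hF _ hφ (V r 5 q, V r 7 q, V r 3 q) (by simp [sumsF, hq1, e1, e2, e3, e4, e5])
    simp only at p1 p2 p3 s1
    obtain ⟨i1, i2⟩ := ih1 (comp_fst (comp_snd hφ))
    obtain ⟨j1, j2⟩ := ih2 (comp_snd (comp_snd hφ))
    constructor
    · intro h
      rw [h] at p3
      rcases mul_eq_zero.1 p3 with k | k
      · exact Or.inl (i1 k)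
      · exact Or.inr (j1 k)
    · intro h h2
      rw [h] at s1
      have k1 : y (V r 3 ψ.tr) = 0 := by
        have := mul_self_nonneg (y (V r 3 ψ.tr))
        have := mul_self_nonneg (y (V r 3 χ.tr))
        exact mul_self_eq_zero.1 (by linarith)
      have k2 : y (V r 3 χ.tr) = 0 := by
        have := mul_self_nonneg (y (V r 3 ψ.tr))
        have := mul_self_nonneg (y (V r 3 χ.tr))
        exact mul_self_eq_zero.1 (by linarith)
      rcases h2 with h2 | h2
      · exact i2 k1 h2
      · exact j2 k2 h2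

end

/-! ### from values to solutions -/

/-- the value of a tree as a word -/
noncomputable def compW : Tr → ℝ
  | .nil => 0
  | .cons a b => if a = .nil then 2 * compW b else 2 * compW b + 1

/-- the value of a tree as a term, in terms of the values of the arguments -/
noncomputable def compTS (x : List Bool → ℝ) (a b : Tr) (u v : ℝ) : ℝ :=
  if a = e (0 : ℕ) then Function.extend (e : List Bool → Tr) x 0 b
  else if a = e (1 : ℕ) then (if b.fst = .nil then compW b.snd else -compW b.snd)
  else if a = e (2 : ℕ) then u + v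
  else if a = e (3 : ℕ) then u * v
  else 0

/-- the value of a tree as a term -/
noncomputable def compT (x : List Bool → ℝ) : Tr → ℝ
  | .nil => 0
  | .cons a .nil => compTS x a .nil (compT x .nil) (compT x .nil)
  | .cons a (.cons c d) => compTS x a (.cons c d) (compT x c) (compT x d)

/-- the difference of the two sides -/
noncomputable def compD (x : List Bool → ℝ) (t : Tr) : ℝ :=
  compT x t.snd.snd - compT x t.snd.fst

/-- the truth values of a tree as a formula, in terms of the values of subtrees -/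
noncomputable def compFS (x : List Bool → ℝ) (t : Tr) (q0 q1 q2 : ℝ × ℝ) : ℝ × ℝ :=
  if t.fst = e (0 : ℕ) then (-compD x t, (-compD x t)⁻¹ * (-compD x t) - 1)
  else if t.fst = e (1 : ℕ) then
    (compD x t - Real.sqrt (compD x t) * Real.sqrt (compD x t),
      Real.sqrt ((-compD x t)⁻¹) * Real.sqrt ((-compD x t)⁻¹) * (-compD x t) - 1)
  else if t.fst = e (2 : ℕ) then
    (Real.sqrt ((compD x t)⁻¹) * Real.sqrt ((compD x t)⁻¹) * compD x t - 1,
      -compD x t - Real.sqrt (-compD x t) * Real.sqrt (-compD x t))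
  else if t.fst = e (3 : ℕ) then (q0.2, q0.1)
  else if t.fst = e (4 : ℕ) then (q1.1 * q1.1 + q2.1 * q2.1, q1.2 * q2.2)
  else if t.fst = e (5 : ℕ) then (q1.1 * q2.1, q1.2 * q1.2 + q2.2 * q2.2)
  else (0, 0)

/-- the truth values of a tree as a formula -/
noncomputable def compF (x : List Bool → ℝ) : Tr → ℝ × ℝ
  | .nil => compFS x .nil (0, 0) (0, 0) (0, 0)
  | .cons a .nil => compFS x (.cons a .nil) (compF x .nil) (compF x .nil) (compF x .nil)
  | .cons a (.cons c d) => compFS x (.cons a (.cons c d)) (compF x (.cons c d)) (compF x c)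
      (compF x d)

private theorem compT_eq (x : List Bool → ℝ) (a b : Tr) :
    compT x (.cons a b) = compTS x a b (compT x b.fst) (compT x b.snd) := by
  cases b <;> simp [compT, Tr.fst, Tr.snd]

private theorem compF_eq (x : List Bool → ℝ) (t : Tr) :
    compF x t = compFS x t (compF x t.snd) (compF x t.snd.fst) (compF x t.snd.snd) := by
  rcases t with _ | ⟨a, b⟩
  · have : (Tr.nil).fst = e (0 : ℕ) := rfl
    rw [compF, compFS, compFS, if_pos this, if_pos this]
  · cases b <;> simp [compF, Tr.fst, Tr.snd]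

private theorem compT_const {x : List Bool → ℝ} {t : Tr} (h : t.fst = e (1 : ℕ)) :
    compT x t = if t.snd.fst = .nil then compW t.snd.snd else -compW t.snd.snd := by
  rcases t with _ | ⟨a, b⟩
  · exact absurd h (comp_ne (m := 0) (n := 1) (by norm_num))
  · have h' : a = e (1 : ℕ) := h
    rw [compT_eq, compTS, h', if_neg (comp_ne (by norm_num)), if_pos rfl]
    rfl

private theorem compT_add {x : List Bool → ℝ} {t : Tr} (h : t.fst = e (2 : ℕ)) :
    compT x t = compT x t.snd.fst + compT x t.snd.snd := by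
  rcases t with _ | ⟨a, b⟩
  · exact absurd h (comp_ne (m := 0) (n := 2) (by norm_num))
  · have h' : a = e (2 : ℕ) := h
    rw [compT_eq, compTS, h', if_neg (comp_ne (by norm_num)), if_neg (comp_ne (by norm_num)),
      if_pos rfl]
    rfl

private theorem compT_mul {x : List Bool → ℝ} {t : Tr} (h : t.fst = e (3 : ℕ)) :
    compT x t = compT x t.snd.fst * compT x t.snd.snd := by
  rcases t with _ | ⟨a, b⟩
  · exact absurd h (comp_ne (m := 0) (n := 3) (by norm_num))
  · have h' : a = e (3 : ℕ) := h
    rw [compT_eq, compTS, h', if_neg (comp_ne (by norm_num)), if_neg (comp_ne (by norm_num)),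
      if_neg (comp_ne (by norm_num)), if_pos rfl]
    rfl

private theorem compF_0 {x : List Bool → ℝ} {t : Tr} (h : t.fst = e (0 : ℕ)) :
    compF x t = (-compD x t, (-compD x t)⁻¹ * (-compD x t) - 1) := by
  rw [compF_eq, compFS, if_pos h]

private theorem compF_1 {x : List Bool → ℝ} {t : Tr} (h : t.fst = e (1 : ℕ)) :
    compF x t = (compD x t - Real.sqrt (compD x t) * Real.sqrt (compD x t),
      Real.sqrt ((-compD x t)⁻¹) * Real.sqrt ((-compD x t)⁻¹) * (-compD x t) - 1) := by
  rw [compF_eq, compFS, h, if_neg (comp_ne (by norm_num)), if_pos rfl]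

private theorem compF_2 {x : List Bool → ℝ} {t : Tr} (h : t.fst = e (2 : ℕ)) :
    compF x t = (Real.sqrt ((compD x t)⁻¹) * Real.sqrt ((compD x t)⁻¹) * compD x t - 1,
      -compD x t - Real.sqrt (-compD x t) * Real.sqrt (-compD x t)) := by
  rw [compF_eq, compFS, h, if_neg (comp_ne (by norm_num)), if_neg (comp_ne (by norm_num)),
    if_pos rfl]

private theorem compF_3 {x : List Bool → ℝ} {t : Tr} (h : t.fst = e (3 : ℕ)) :
    compF x t = ((compF x t.snd).2, (compF x t.snd).1) := by
  rw [compF_eq, compFS, h, if_neg (comp_ne (by norm_num)), if_neg (comp_ne (by norm_num)),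
    if_neg (comp_ne (by norm_num)), if_pos rfl]

private theorem compF_4 {x : List Bool → ℝ} {t : Tr} (h : t.fst = e (4 : ℕ)) :
    compF x t = ((compF x t.snd.fst).1 * (compF x t.snd.fst).1 +
      (compF x t.snd.snd).1 * (compF x t.snd.snd).1,
      (compF x t.snd.fst).2 * (compF x t.snd.snd).2) := by
  rw [compF_eq, compFS, h, if_neg (comp_ne (by norm_num)), if_neg (comp_ne (by norm_num)),
    if_neg (comp_ne (by norm_num)), if_neg (comp_ne (by norm_num)), if_pos rfl]

private theorem compF_5 {x : List Bool → ℝ} {t : Tr} (h : t.fst = e (5 : ℕ)) :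
    compF x t = ((compF x t.snd.fst).1 * (compF x t.snd.snd).1,
      (compF x t.snd.fst).2 * (compF x t.snd.fst).2 +
      (compF x t.snd.snd).2 * (compF x t.snd.snd).2) := by
  rw [compF_eq, compFS, h, if_neg (comp_ne (by norm_num)), if_neg (comp_ne (by norm_num)),
    if_neg (comp_ne (by norm_num)), if_neg (comp_ne (by norm_num)),
    if_neg (comp_ne (by norm_num)), if_pos rfl]

/-- the values of all unknowns -/
noncomputable def compG (x : List Bool → ℝ) (κ : ℕ) (t : Tr) : ℝ :=
  if κ = 0 then compT x t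
  else if κ = 1 then compW t
  else if κ = 2 then (compF x t).1
  else if κ = 3 then (compF x t).2
  else if κ = 4 then
    (if t.fst = e (0 : ℕ) then (-compD x t)⁻¹
      else if t.fst = e (1 : ℕ) then Real.sqrt (compD x t) else Real.sqrt ((compD x t)⁻¹))
  else if κ = 5 then
    (if t.fst = e (1 : ℕ) then Real.sqrt (compD x t) * Real.sqrt (compD x t)
      else if t.fst = e (2 : ℕ) then Real.sqrt ((compD x t)⁻¹) * Real.sqrt ((compD x t)⁻¹)
      else if t.fst = e (4 : ℕ) then (compF x t.snd.fst).1 * (compF x t.snd.fst).1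
      else (compF x t.snd.fst).2 * (compF x t.snd.fst).2)
  else if κ = 6 then
    (if t.fst = e (1 : ℕ) then Real.sqrt ((-compD x t)⁻¹) else Real.sqrt (-compD x t))
  else if κ = 7 then
    (if t.fst = e (1 : ℕ) then Real.sqrt ((-compD x t)⁻¹) * Real.sqrt ((-compD x t)⁻¹)
      else if t.fst = e (2 : ℕ) then Real.sqrt (-compD x t) * Real.sqrt (-compD x t)
      else if t.fst = e (4 : ℕ) then (compF x t.snd.snd).1 * (compF x t.snd.snd).1
      else (compF x t.snd.snd).2 * (compF x t.snd.snd).2)
  else if κ = 8 then 2 * compW t.snd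
  else if κ = 9 then compD x t
  else if κ = 10 then -compD x t
  else
    (if t.fst = e (0 : ℕ) then (-compD x t)⁻¹ * (-compD x t)
      else if t.fst = e (1 : ℕ) then
        Real.sqrt ((-compD x t)⁻¹) * Real.sqrt ((-compD x t)⁻¹) * (-compD x t)
      else Real.sqrt ((compD x t)⁻¹) * Real.sqrt ((compD x t)⁻¹) * compD x t)

/-- the solution -/
noncomputable def compY (r : Tr) (x : List Bool → ℝ) (i : ℕ) : ℝ :=
  if i = 0 then 1 else if i = 1 then 0
  else compG x ((i - 2) % 12) ((subs r).getD ((i - 2) / 12) .nil)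

private theorem compY_V {r t : Tr} (x : List Bool → ℝ) (ht : t ∈ subs r) {κ : ℕ} (hκ : κ < 12) :
    compY r x (V r κ t) = compG x κ t := by
  have h1 : (subs r).idxOf t < (subs r).length := List.idxOf_lt_length_iff.2 ht
  have h2 : (V r κ t - 2) % 12 = κ := by unfold V; omega
  have h3 : (V r κ t - 2) / 12 = (subs r).idxOf t := by unfold V; omega
  have h4 : V r κ t ≠ 0 := by unfold V; omega
  have h5 : V r κ t ≠ 1 := by unfold V; omega
  rw [compY, if_neg h4, if_neg h5, h2, h3, List.getD_eq_getElem _ _ h1, List.getElem_idxOf]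

private theorem compY_0 (r : Tr) (x : List Bool → ℝ) : compY r x 0 = 1 := by simp [compY]

private theorem compY_1 (r : Tr) (x : List Bool → ℝ) : compY r x 1 = 0 := by simp [compY]

private theorem comp_e_iff (m n : ℕ) : ((e m : Tr) = e n) ↔ m = n := Enc.inj.eq_iff

private theorem comp_prods {r t : Tr} (x : List Bool → ℝ) (ht : t ∈ subs r) :
    ∀ p ∈ prodsAt r t, compY r x p.1 * compY r x p.2.1 = compY r x p.2.2 := by
  intro p hp
  have a2 := comp_fst (comp_snd ht)
  have a3 := comp_snd (comp_snd ht)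
  unfold prodsAt at hp
  split_ifs at hp with c0 c1 c2 c3 c4 c5 <;>
    simp only [List.mem_cons, List.not_mem_nil, or_false] at hp
  · subst hp
    simp [compY_V x ht, compG, c0, compF_0]
  · rcases hp with rfl | rfl | rfl <;> simp [compY_V x ht, compG, c1, comp_e_iff]
  · rcases hp with rfl | rfl | rfl <;> simp [compY_V x ht, compG, c2, comp_e_iff]
  · subst hp
    simp [compY_V x ht, compY_V x a2, compY_V x a3, compG, compT_mul c3]
  · rcases hp with rfl | rfl | rfl <;>
      simp [compY_V x ht, compY_V x a2, compY_V x a3, compG, c4, comp_e_iff, compF_4]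
  · rcases hp with rfl | rfl | rfl <;>
      simp [compY_V x ht, compY_V x a2, compY_V x a3, compG, c5, comp_e_iff, compF_5]

private theorem comp_sumsW {r t : Tr} (x : List Bool → ℝ) (ht : t ∈ subs r) :
    ∀ p ∈ sumsW r t, compY r x p.1 + compY r x p.2.1 = compY r x p.2.2 := by
  intro p hp
  have a1 := comp_snd ht
  unfold sumsW at hp
  split_ifs at hp with c0 c1 <;>
    simp only [List.mem_cons, List.not_mem_nil, or_false] at hp
  · subst hp
    subst c0
    simp [compY_V x ht, compY_1, compG, compW]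
  · subst hp
    rcases t with _ | ⟨a, b⟩
    · exact absurd rfl c0
    · have h : a = .nil := c1
      subst h
      simp only [compY_V x ht (show 1 < 12 by norm_num), compY_V x a1 (show 1 < 12 by norm_num)]
      simp [compG, compW, Tr.snd]
      ring
  · rcases t with _ | ⟨a, b⟩
    · exact absurd rfl c0
    · have h : a ≠ .nil := c1
      rcases hp with rfl | rfl
      · simp only [compY_V x ht (show 8 < 12 by norm_num), compY_V x a1 (show 1 < 12 by norm_num)]
        simp [compG, Tr.snd]
        ring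
      · simp only [compY_V x ht (show 8 < 12 by norm_num), compY_V x ht (show 1 < 12 by norm_num),
          compY_0]
        simp [compG, compW, h, Tr.snd]

private theorem comp_sumsT {r t : Tr} (x : List Bool → ℝ) (ht : t ∈ subs r) :
    ∀ p ∈ sumsT r t, compY r x p.1 + compY r x p.2.1 = compY r x p.2.2 := by
  intro p hp
  have a2 := comp_fst (comp_snd ht)
  have a3 := comp_snd (comp_snd ht)
  unfold sumsT at hp
  split_ifs at hp with c0 c1 c2 <;>
    simp only [List.mem_cons, List.not_mem_nil, or_false] at hp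
  · subst hp
    simp [compY_V x ht, compY_V x a3, compY_1, compG, compT_const c0, c1]
  · subst hp
    simp [compY_V x ht, compY_V x a3, compY_1, compG, compT_const c0, c1]
  · subst hp
    simp [compY_V x ht, compY_V x a2, compY_V x a3, compG, compT_add c2]

private theorem comp_sumsF {r t : Tr} (x : List Bool → ℝ) (ht : t ∈ subs r) :
    ∀ p ∈ sumsF r t, compY r x p.1 + compY r x p.2.1 = compY r x p.2.2 := by
  intro p hp
  have a1 := comp_snd ht
  have a2 := comp_fst (comp_snd ht)
  have a3 := comp_snd (comp_snd ht)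
  unfold sumsF at hp
  split_ifs at hp with c0 c1 c2 c3 c4 c5 <;>
    simp only [List.mem_cons, List.not_mem_nil, or_false] at hp
  · rcases hp with rfl | rfl
    · simp [compY_V x ht, compY_V x a2, compY_V x a3, compG, compF_0 c0, compD]
    · simp [compY_V x ht, compY_0, compG, compF_0 c0, c0]
  · rcases hp with rfl | rfl | rfl | rfl <;>
      simp [compY_V x ht, compY_V x a2, compY_V x a3, compY_0, compY_1, compG, compF_1 c1, c1,
        comp_e_iff, compD]
  · rcases hp with rfl | rfl | rfl | rfl <;>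
      simp [compY_V x ht, compY_V x a2, compY_V x a3, compY_0, compY_1, compG, compF_2 c2, c2,
        comp_e_iff, compD]
  · rcases hp with rfl | rfl <;>
      simp [compY_V x ht, compY_V x a1, compY_1, compG, compF_3 c3]
  · subst hp
    simp [compY_V x ht, compG, compF_4 c4, c4, comp_e_iff]
  · subst hp
    simp [compY_V x ht, compG, compF_5 c5, c5, comp_e_iff]

private theorem compW_e (l : List Bool) : compW (e l) = binVal l := by
  induction l with
  | nil => simp [e_nil, compW, binVal]
  | cons b l ih =>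
    rw [e_cons, compW, ih, binVal]
    rcases b with _ | _
    · simp [e_false]
    · simp [e_true]
      ring

private theorem compT_tr (x : List Bool → ℝ) (s : PTerm) : compT x s.tr = s.val x := by
  induction s with
  | var a =>
    rw [PTerm.tr, compT_eq, compTS, if_pos rfl, Enc.inj.extend_apply]
    rfl
  | const neg d =>
    rw [compT_const (show (PTerm.const neg d).tr.fst = e (1 : ℕ) from rfl)]
    have h1 : (PTerm.const neg d).tr.snd.snd = e d := rfl
    have h2 : (PTerm.const neg d).tr.snd.fst = e neg := rfl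
    rw [h1, h2, compW_e]
    rcases neg with _ | _
    · simp [e_false, PTerm.val]
    · simp [e_true, PTerm.val]
  | add s t ihs iht =>
    rw [compT_add (show (s.add t).tr.fst = e (2 : ℕ) from rfl)]
    show compT x s.tr + compT x t.tr = _
    rw [ihs, iht]
    rfl
  | mul s t ihs iht =>
    rw [compT_mul (show (s.mul t).tr.fst = e (3 : ℕ) from rfl)]
    show compT x s.tr * compT x t.tr = _
    rw [ihs, iht]
    rfl

private theorem compF_tr (x : List Bool → ℝ) (φ : Fml) :
    (φ.Holds x → (compF x φ.tr).1 = 0) ∧ (¬ φ.Holds x → (compF x φ.tr).2 = 0) := by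
  induction φ with
  | eq s t =>
    rw [compF_0 (show (Fml.eq s t).tr.fst = e (0 : ℕ) from rfl)]
    have hD : compD x (Fml.eq s t).tr = t.val x - s.val x := by
      show compT x t.tr - compT x s.tr = _
      rw [compT_tr, compT_tr]
    rw [hD]
    constructor
    · intro h
      have h' : s.val x = t.val x := h
      simp [h']
    · intro h
      have h' : ¬ s.val x = t.val x := h
      have h2 : -(t.val x - s.val x) ≠ 0 := by
        intro h3
        exact h' (by linarith)
      show (-(t.val x - s.val x))⁻¹ * (-(t.val x - s.val x)) - 1 = 0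
      rw [inv_mul_cancel₀ h2, sub_self]
  | le s t =>
    rw [compF_1 (show (Fml.le s t).tr.fst = e (1 : ℕ) from rfl)]
    have hD : compD x (Fml.le s t).tr = t.val x - s.val x := by
      show compT x t.tr - compT x s.tr = _
      rw [compT_tr, compT_tr]
    rw [hD]
    constructor
    · intro h
      have h' : s.val x ≤ t.val x := h
      show t.val x - s.val x - Real.sqrt (t.val x - s.val x) * Real.sqrt (t.val x - s.val x) = 0
      rw [Real.mul_self_sqrt (by linarith), sub_self]
    · intro h
      have h' : ¬ s.val x ≤ t.val x := h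
      have h2 : 0 < -(t.val x - s.val x) := by linarith [not_le.1 h']
      show Real.sqrt ((-(t.val x - s.val x))⁻¹) * Real.sqrt ((-(t.val x - s.val x))⁻¹) *
        (-(t.val x - s.val x)) - 1 = 0
      rw [Real.mul_self_sqrt (inv_nonneg.2 h2.le), inv_mul_cancel₀ h2.ne', sub_self]
  | lt s t =>
    rw [compF_2 (show (Fml.lt s t).tr.fst = e (2 : ℕ) from rfl)]
    have hD : compD x (Fml.lt s t).tr = t.val x - s.val x := by
      show compT x t.tr - compT x s.tr = _
      rw [compT_tr, compT_tr]
    rw [hD]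
    constructor
    · intro h
      have h' : s.val x < t.val x := h
      have h2 : 0 < t.val x - s.val x := by linarith
      show Real.sqrt ((t.val x - s.val x)⁻¹) * Real.sqrt ((t.val x - s.val x)⁻¹) *
        (t.val x - s.val x) - 1 = 0
      rw [Real.mul_self_sqrt (inv_nonneg.2 h2.le), inv_mul_cancel₀ h2.ne', sub_self]
    · intro h
      have h' : ¬ s.val x < t.val x := h
      have h2 : 0 ≤ -(t.val x - s.val x) := by linarith [not_lt.1 h']
      show -(t.val x - s.val x) -
        Real.sqrt (-(t.val x - s.val x)) * Real.sqrt (-(t.val x - s.val x)) = 0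
      rw [Real.mul_self_sqrt h2, sub_self]
  | not ψ ih =>
    rw [compF_3 (show (Fml.not ψ).tr.fst = e (3 : ℕ) from rfl)]
    constructor
    · intro h
      exact ih.2 h
    · intro h
      exact ih.1 (not_not.1 h)
  | and ψ χ ih1 ih2 =>
    rw [compF_4 (show (Fml.and ψ χ).tr.fst = e (4 : ℕ) from rfl)]
    constructor
    · intro h
      show (compF x ψ.tr).1 * (compF x ψ.tr).1 + (compF x χ.tr).1 * (compF x χ.tr).1 = 0
      rw [ih1.1 h.1, ih2.1 h.2]
      ring
    · intro h
      show (compF x ψ.tr).2 * (compF x χ.tr).2 = 0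
      have h' : ¬ (ψ.Holds x ∧ χ.Holds x) := h
      rcases not_and_or.1 h' with h1 | h1
      · rw [ih1.2 h1, zero_mul]
      · rw [ih2.2 h1, mul_zero]
  | or ψ χ ih1 ih2 =>
    rw [compF_5 (show (Fml.or ψ χ).tr.fst = e (5 : ℕ) from rfl)]
    constructor
    · intro h
      show (compF x ψ.tr).1 * (compF x χ.tr).1 = 0
      have h' : ψ.Holds x ∨ χ.Holds x := h
      rcases h' with h1 | h1
      · rw [ih1.1 h1, zero_mul]
      · rw [ih2.1 h1, mul_zero]
    · intro h
      show (compF x ψ.tr).2 * (compF x ψ.tr).2 + (compF x χ.tr).2 * (compF x χ.tr).2 = 0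
      have h' : ¬ (ψ.Holds x ∨ χ.Holds x) := h
      rw [ih1.2 fun h1 => h' (Or.inl h1), ih2.2 fun h1 => h' (Or.inr h1)]
      ring

theorem compile_iff (φ : Fml) : (compile φ.tr).Solvable ↔ ∃ x : List Bool → ℝ, φ.Holds x := by
  constructor
  · rintro ⟨y, ⟨hprod, hsum⟩, hy0⟩
    have hy1 : y 1 = 0 := by
      have h := hsum (1, 1, 1) (by simp [compile])
      simp only at h
      linarith
    have hr : y (V φ.tr 2 φ.tr) = 0 := by
      have h := hsum (V φ.tr 2 φ.tr, 1, 1) (by simp [compile])
      simp only at h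
      linarith
    have hW : ∀ t ∈ subs φ.tr, ∀ p ∈ sumsW φ.tr t, y p.1 + y p.2.1 = y p.2.2 := by
      intro t ht p hp
      apply hsum
      simp only [compile, List.mem_cons, List.mem_append, List.mem_flatMap]
      exact Or.inr (Or.inr (Or.inl (Or.inl ⟨t, ht, hp⟩)))
    have hT : ∀ t ∈ subs φ.tr, ∀ p ∈ sumsT φ.tr t, y p.1 + y p.2.1 = y p.2.2 := by
      intro t ht p hp
      apply hsum
      simp only [compile, List.mem_cons, List.mem_append, List.mem_flatMap]
      exact Or.inr (Or.inr (Or.inl (Or.inr ⟨t, ht, hp⟩)))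
    have hF : ∀ t ∈ subs φ.tr, ∀ p ∈ sumsF φ.tr t, y p.1 + y p.2.1 = y p.2.2 := by
      intro t ht p hp
      apply hsum
      simp only [compile, List.mem_cons, List.mem_append, List.mem_flatMap]
      exact Or.inr (Or.inr (Or.inr ⟨t, ht, hp⟩))
    have hP : ∀ t ∈ subs φ.tr, ∀ p ∈ prodsAt φ.tr t, y p.1 * y p.2.1 = y p.2.2 := by
      intro t ht p hp
      apply hprod
      simp only [compile, List.mem_flatMap]
      exact ⟨t, ht, hp⟩
    exact ⟨_, (comp_fml hW hT hF hP hy0 hy1 φ (comp_self _)).1 hr⟩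
  · rintro ⟨x, hx⟩
    refine ⟨compY φ.tr x, ⟨?_, ?_⟩, compY_0 _ _⟩
    · intro p hp
      simp only [compile, List.mem_flatMap] at hp
      obtain ⟨t, ht, hp⟩ := hp
      exact comp_prods x ht p hp
    · intro p hp
      simp only [compile, List.mem_cons, List.mem_append, List.mem_flatMap] at hp
      rcases hp with rfl | rfl | ((⟨t, ht, hp⟩ | ⟨t, ht, hp⟩) | ⟨t, ht, hp⟩)
      · simp [compY_1]
      · simp only [compY_1, add_zero]
        rw [compY_V x (comp_self _) (by norm_num)]
        have := (compF_tr x φ).1 hx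
        simpa [compG] using this
      · exact comp_sumsW x ht p hp
      · exact comp_sumsT x ht p hp
      · exact comp_sumsF x ht p hp

end Pool.Agent.LRA67
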