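import Pool.Agent.LRA67.LA

set_option autoImplicit false

namespace Pool.Agent.LRA67

open Function

namespace C0

open Classical in
/-- indicator of `a ≠ b` -/
noncomputable def ne1 (a b : ℝ) : ℤ := if a = b then 0 else 1

theorem ne1_nonneg (a b : ℝ) : 0 ≤ ne1 a b := by unfold ne1; split_ifs <;> simp

theorem ne1_le (a b : ℝ) : ne1 a b ≤ 1 := by unfold ne1; split_ifs <;> simp

theorem ne1_self (a : ℝ) : ne1 a a = 0 := by simp [ne1]

theorem eq_of_ne1 {a b : ℝ} (h : ne1 a b = 0) : a = b := by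
  unfold ne1 at h
  by_contra h'
  simp [h'] at h

theorem ncard_eq_sum {R C : Type} [Fintype R] [Fintype C] (A B : R → C → ℝ) :
    (({ij : R × C | A ij.1 ij.2 ≠ B ij.1 ij.2}.ncard : ℕ) : ℤ) = ∑ i, ∑ j, ne1 (A i j) (B i j) := by
  classical
  rw [Set.ncard_eq_toFinset_card', Set.toFinset_ofPred, Finset.card_filter, Nat.cast_sum,
    Fintype.sum_prod_type]
  refine Finset.sum_congr rfl fun i _ => Finset.sum_congr rfl fun j _ => ?_
  unfold ne1
  by_cases h : A i j = B i j <;> simp [h]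

theorem ncard_none {R C : Type} [Fintype R] [Fintype C] (X : R → C → Option ℝ) :
    (({p : R × C | X p.1 p.2 = none}.ncard : ℕ) : ℤ) = ∑ i, ∑ j, if X i j = none then 1 else 0 := by
  classical
  rw [Set.ncard_eq_toFinset_card', Set.toFinset_ofPred, Finset.card_filter, Nat.cast_sum,
    Fintype.sum_prod_type]
  refine Finset.sum_congr rfl fun i _ => Finset.sum_congr rfl fun j _ => ?_
  by_cases h : X i j = none <;> simp [h]

theorem min_mul {α : Type} (s : Finset α) (hs : s.Nonempty) (f : α → ℤ) :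
    ∃ a ∈ s, (s.card : ℤ) * f a ≤ ∑ b ∈ s, f b := by
  obtain ⟨a, ha, h⟩ := s.exists_min_image f hs
  refine ⟨a, ha, ?_⟩
  have := Finset.card_nsmul_le_sum s f (f a) h
  simpa using this

theorem sum_star {R : ℕ} (star : ℕ → ℝ) (hstar : Injective star) (v : ℝ) :
    (R : ℤ) - 1 ≤ ∑ s : Fin R, ne1 (star s) v := by
  have h : ∑ s : Fin R, (1 - ne1 (star s) v) ≤ 1 := by
    by_cases hex : ∃ s : Fin R, star s = v
    · obtain ⟨s, hs⟩ := hex
      rw [Finset.sum_eq_single s]
      · have := ne1_nonneg (star s) v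
        linarith
      · intro t _ hts
        have : star t ≠ v := by
          intro h
          exact hts (Fin.ext (hstar (h.trans hs.symm)))
        simp [ne1, this]
      · simp
    · push Not at hex
      have : ∑ s : Fin R, (1 - ne1 (star s) v) = 0 :=
        Finset.sum_eq_zero fun s _ => by simp [ne1, hex s]
      linarith
  rw [Finset.sum_sub_distrib] at h
  simp at h
  linarith

open Classical in
theorem entry_sum {R : ℕ} (o : Option ℝ) (star : ℕ → ℝ) (hstar : Injective star) (v : ℝ) :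
    (if o = none then (1 : ℤ) else 0) * ((R : ℤ) - 1) + (if Fill o v then 0 else (1 : ℤ)) * R ≤
      ∑ s : Fin R, ne1 (o.getD (star s)) v := by
  cases o with
  | none =>
    have hF : Fill none v := by intro a h; cases h
    simpa [hF] using sum_star (R := R) star hstar v
  | some a =>
    have hF : Fill (some a) v ↔ a = v := by
      unfold Fill
      constructor
      · intro h; exact (h a rfl).symm
      · intro h b hb; cases hb; exact h.symm
    by_cases h : a = v
    · have hF' : Fill (some a) v := hF.2 h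
      have h0 : ∑ s : Fin R, ne1 ((some a : Option ℝ).getD (star s)) v = 0 :=
        Finset.sum_eq_zero fun s _ => by simp [ne1, h]
      rw [h0]
      simp [hF']
    · have hF' : ¬ Fill (some a) v := fun h' => h (hF.1 h')
      simp [hF', h, ne1]

open Classical in
theorem side {L : Type} [Fintype L] {R : ℕ} (Xi : L → Option ℝ) (star : ℕ → ℝ)
    (hstar : Injective star) (x : L → ℝ) (bb : L × Fin R → ℝ) (S : Finset (L × Fin R))
    (hb : ∀ b, b ∉ S → bb b = x b.1) :
    (∑ l, if Xi l = none then (1 : ℤ) else 0) * ((R : ℤ) - 1) +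
      (∑ l, if Fill (Xi l) (x l) then 0 else (1 : ℤ)) * R - S.card ≤
      ∑ b : L × Fin R, ne1 ((Xi b.1).getD (star b.2)) (bb b) := by
  have h1 : ∑ b : L × Fin R, (ne1 ((Xi b.1).getD (star b.2)) (x b.1) - if b ∈ S then 1 else 0) ≤
      ∑ b : L × Fin R, ne1 ((Xi b.1).getD (star b.2)) (bb b) := by
    refine Finset.sum_le_sum fun b _ => ?_
    by_cases h : b ∈ S
    · have := ne1_le ((Xi b.1).getD (star b.2)) (x b.1)
      have := ne1_nonneg ((Xi b.1).getD (star b.2)) (bb b)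
      simp only [h, if_true]
      linarith
    · simp [h, hb b h]
  have h2 : ∑ b : L × Fin R, ne1 ((Xi b.1).getD (star b.2)) (x b.1) =
      ∑ l, ∑ s : Fin R, ne1 ((Xi l).getD (star s)) (x l) := by
    rw [Fintype.sum_prod_type]
  have h3 : ∑ l, ((if Xi l = none then (1 : ℤ) else 0) * ((R : ℤ) - 1) +
      (if Fill (Xi l) (x l) then 0 else (1 : ℤ)) * R) ≤
      ∑ l, ∑ s : Fin R, ne1 ((Xi l).getD (star s)) (x l) :=
    Finset.sum_le_sum fun l _ => entry_sum (Xi l) star hstar (x l)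
  rw [Finset.sum_add_distrib, ← Finset.sum_mul, ← Finset.sum_mul] at h3
  rw [Finset.sum_sub_distrib, h2] at h1
  have h4 : (∑ b : L × Fin R, if b ∈ S then (1 : ℤ) else 0) = S.card := by
    simp
  rw [h4] at h1
  linarith

end C0

open C0

theorem core0_weighted {I J L : Type} [Fintype I] [Fintype J] [Fintype L]
    [DecidableEq L] (X : I → L → Option ℝ) (Y : L → J → Option ℝ) (Z : I → J → ℝ)
    (star : ℕ → ℝ) (hstar : Injective star) (R₁ R₂ : ℕ) (h2 : nStar X Y < R₂)
    (h1 : 2 * nStar X Y * R₂ < R₁)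
    (h1' : R₂ * (Fintype.card I + 2 * Fintype.card J) ≤ R₁)
    (B : Matrix ((L × Fin R₁) ⊕ I) ((L × Fin R₁) ⊕ J) ℝ) (hB : B.rank ≤ Fintype.card L)
    (hcost : ∑ a, ∑ b, ne1 (if a.1 = b.1 then 1 else 0) (B (.inl a) (.inl b)) +
      (R₂ : ℤ) * ∑ i, ∑ b : L × Fin R₁, ne1 ((X i b.1).getD (star b.2)) (B (.inr i) (.inl b)) +
      (R₂ : ℤ) * ∑ j, ∑ a : L × Fin R₁, ne1 ((Y a.1 j).getD (star a.2)) (B (.inl a) (.inr j)) +
      (R₂ : ℤ) * R₂ * ∑ i, ∑ j, ne1 (Z i j) (B (.inr i) (.inr j)) ≤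
      (nStar X Y : ℤ) * R₁ * R₂) : Bil X Y Z := by
  classical
  set n : ℤ := (nStar X Y : ℤ) with hn
  have hn0 : 0 ≤ n := by positivity
  have hR2 : n < R₂ := by rw [hn]; exact_mod_cast h2
  have hR1 : 2 * n * R₂ < R₁ := by rw [hn]; exact_mod_cast h1
  have hR1' : (R₂ : ℤ) * ((Fintype.card I : ℤ) + 2 * (Fintype.card J : ℤ)) ≤ R₁ := by
    exact_mod_cast h1'
  have hR2pos : (0 : ℤ) < R₂ := by linarith
  have hR1pos : (0 : ℤ) < R₁ := by nlinarith
  have hR1posN : 0 < R₁ := by exact_mod_cast hR1pos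
  have : Nonempty (Fin R₁) := ⟨⟨0, hR1posN⟩⟩
  set P : L × Fin R₁ → L × Fin R₁ → ℤ :=
    fun a b => ne1 (if a.1 = b.1 then 1 else 0) (B (.inl a) (.inl b)) with hP
  have hP0 : ∀ a b, 0 ≤ P a b := fun a b => ne1_nonneg _ _
  set c : ℤ := ∑ a, ∑ b, P a b with hc
  have hc0 : 0 ≤ c := Finset.sum_nonneg fun a _ => Finset.sum_nonneg fun b _ => hP0 a b
  set SI : ℤ := ∑ i, ∑ b : L × Fin R₁, ne1 ((X i b.1).getD (star b.2)) (B (.inr i) (.inl b))
    with hSI
  set SJ : ℤ := ∑ j, ∑ a : L × Fin R₁, ne1 ((Y a.1 j).getD (star a.2)) (B (.inl a) (.inr j))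
    with hSJ
  set SZ : ℤ := ∑ i, ∑ j, ne1 (Z i j) (B (.inr i) (.inr j)) with hSZ
  have hSI0 : 0 ≤ SI := Finset.sum_nonneg fun a _ => Finset.sum_nonneg fun b _ => ne1_nonneg _ _
  have hSJ0 : 0 ≤ SJ := Finset.sum_nonneg fun a _ => Finset.sum_nonneg fun b _ => ne1_nonneg _ _
  have hSZ0 : 0 ≤ SZ := Finset.sum_nonneg fun a _ => Finset.sum_nonneg fun b _ => ne1_nonneg _ _
  change c + (R₂ : ℤ) * SI + (R₂ : ℤ) * SJ + (R₂ : ℤ) * R₂ * SZ ≤ n * R₁ * R₂ at hcost
  have hcN : c ≤ n * R₁ * R₂ := by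
    have : 0 ≤ (R₂ : ℤ) * SI := by positivity
    have : 0 ≤ (R₂ : ℤ) * SJ := by positivity
    have : 0 ≤ (R₂ : ℤ) * R₂ * SZ := by positivity
    linarith
  -- the best row copies
  have hρ : ∀ l : L, ∃ r : Fin R₁, (R₁ : ℤ) * ∑ b, P (l, r) b ≤ ∑ r', ∑ b, P (l, r') b := by
    intro l
    obtain ⟨r, _, hr⟩ := min_mul (Finset.univ : Finset (Fin R₁)) Finset.univ_nonempty
      (fun r => ∑ b, P (l, r) b)
    exact ⟨r, by simpa using hr⟩
  choose ρ hρ using hρ
  have hρsum : (R₁ : ℤ) * ∑ l, ∑ b, P (l, ρ l) b ≤ c := by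
    rw [hc, Fintype.sum_prod_type, Finset.mul_sum]
    exact Finset.sum_le_sum fun l _ => hρ l
  set NC : Finset (L × Fin R₁) := Finset.univ.filter fun b => ∃ l, P (l, ρ l) b ≠ 0 with hNC
  have hNCcard : (NC.card : ℤ) ≤ ∑ l, ∑ b, P (l, ρ l) b := by
    rw [Finset.sum_comm, hNC, Finset.card_filter]
    push_cast
    refine Finset.sum_le_sum fun b _ => ?_
    split_ifs with h
    · obtain ⟨l, hl⟩ := h
      have h0 := hP0 (l, ρ l) b
      have h1 : 1 ≤ P (l, ρ l) b := by omega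
      exact h1.trans (Finset.single_le_sum (f := fun l => P (l, ρ l) b)
        (fun l _ => hP0 _ _) (Finset.mem_univ l))
    · exact Finset.sum_nonneg fun l _ => hP0 _ _
  have hNC1 : (R₁ : ℤ) * NC.card ≤ c :=
    (mul_le_mul_of_nonneg_left hNCcard hR1pos.le).trans hρsum
  have hNC2 : (NC.card : ℤ) ≤ n * R₂ := by
    have : (R₁ : ℤ) * NC.card ≤ R₁ * (n * R₂) := by nlinarith
    exact le_of_mul_le_mul_left this hR1pos
  -- the best conforming column copies
  have hκ : ∀ l : L, ∃ s : Fin R₁, (l, s) ∉ NC ∧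
      (R₁ : ℤ) * ∑ a, P a (l, s) ≤ 2 * ∑ s', ∑ a, P a (l, s') := by
    intro l
    set cf : Finset (Fin R₁) := Finset.univ.filter fun s => (l, s) ∉ NC with hcf
    have hcard : (R₁ : ℤ) ≤ cf.card + NC.card := by
      have e1 : (Finset.univ.filter fun s : Fin R₁ => (l, s) ∈ NC).card ≤ NC.card := by
        refine Finset.card_le_card_of_injOn (fun s => (l, s)) ?_ ?_
        · intro s hs
          simpa using hs
        · intro s _ t _ h
          exact (Prod.mk.inj h).2
      have e2 : (Finset.univ.filter fun s : Fin R₁ => (l, s) ∈ NC).card + cf.card = R₁ := by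
        rw [hcf, Finset.card_filter_add_card_filter_not]
        simp
      have : R₁ ≤ cf.card + NC.card := by omega
      exact_mod_cast this
    have hcard2 : (R₁ : ℤ) ≤ 2 * cf.card := by linarith
    have hne : cf.Nonempty := by
      rw [← Finset.card_pos]
      have : (0 : ℤ) < cf.card := by linarith
      exact_mod_cast this
    obtain ⟨s, hs, hle⟩ := min_mul cf hne (fun s => ∑ a, P a (l, s))
    refine ⟨s, by simpa [hcf] using hs, ?_⟩
    have hnn : 0 ≤ ∑ a, P a (l, s) := Finset.sum_nonneg fun a _ => hP0 _ _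
    have hle2 : ∑ s ∈ cf, ∑ a, P a (l, s) ≤ ∑ s', ∑ a, P a (l, s') :=
      Finset.sum_le_sum_of_subset_of_nonneg (Finset.subset_univ _)
        fun s _ _ => Finset.sum_nonneg fun a _ => hP0 _ _
    have : (R₁ : ℤ) * ∑ a, P a (l, s) ≤ 2 * cf.card * ∑ a, P a (l, s) :=
      mul_le_mul_of_nonneg_right hcard2 hnn
    linarith
  choose κ hκNC hκ using hκ
  have hκsum : (R₁ : ℤ) * ∑ l, ∑ a, P a (l, κ l) ≤ 2 * c := by
    have : c = ∑ l, ∑ s, ∑ a, P a (l, s) := by
      rw [hc, Finset.sum_comm, Fintype.sum_prod_type]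
    rw [this, Finset.mul_sum, Finset.mul_sum]
    exact Finset.sum_le_sum fun l _ => hκ l
  set NR : Finset (L × Fin R₁) := Finset.univ.filter fun a => ∃ l, P a (l, κ l) ≠ 0 with hNR
  have hNRcard : (NR.card : ℤ) ≤ ∑ l, ∑ a, P a (l, κ l) := by
    rw [Finset.sum_comm, hNR, Finset.card_filter]
    push_cast
    refine Finset.sum_le_sum fun a _ => ?_
    split_ifs with h
    · obtain ⟨l, hl⟩ := h
      have h0 := hP0 a (l, κ l)
      have h1 : 1 ≤ P a (l, κ l) := by omega
      exact h1.trans (Finset.single_le_sum (f := fun l => P a (l, κ l))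
        (fun l _ => hP0 _ _) (Finset.mem_univ l))
    · exact Finset.sum_nonneg fun l _ => hP0 _ _
  have hNR1 : (R₁ : ℤ) * NR.card ≤ 2 * c :=
    (mul_le_mul_of_nonneg_left hNRcard hR1pos.le).trans hκsum
  -- entries
  have eNC : ∀ l b, b ∉ NC → B (.inl (l, ρ l)) (.inl b) = if l = b.1 then 1 else 0 := by
    intro l b hb
    have : ¬ ∃ l, P (l, ρ l) b ≠ 0 := by simpa [hNC] using hb
    push Not at this
    exact (eq_of_ne1 (this l)).symm
  have eNR : ∀ l a, a ∉ NR → B (.inl a) (.inl (l, κ l)) = if a.1 = l then 1 else 0 := by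
    intro l a ha
    have : ¬ ∃ l, P a (l, κ l) ≠ 0 := by simpa [hNR] using ha
    push Not at this
    exact (eq_of_ne1 (this l)).symm
  have hid : B.submatrix (fun l => Sum.inl (l, ρ l)) (fun l => Sum.inl (l, κ l)) =
      (1 : Matrix L L ℝ) := by
    ext l l'
    rw [Matrix.submatrix_apply, eNC l (l', κ l') (hκNC l'), Matrix.one_apply]
  have hfac : ∀ r s, B r s = ∑ l, B r (.inl (l, κ l)) * B (.inl (l, ρ l)) s := by
    intro r s
    have := eq_of_rank_le B hB (fun l => Sum.inl (l, ρ l)) (fun l => Sum.inl (l, κ l))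
      (by rw [hid]; exact isUnit_one)
    rw [hid, inv_one, Matrix.mul_one] at this
    have h := congrFun (congrFun this r) s
    rw [Matrix.mul_apply] at h
    simpa using h
  have colNC : ∀ r b, b ∉ NC → B r (.inl b) = B r (.inl (b.1, κ b.1)) := by
    intro r b hb
    rw [hfac r (.inl b), Finset.sum_eq_single b.1]
    · rw [eNC _ _ hb]; simp
    · intro l _ hl
      rw [eNC _ _ hb]; simp [hl]
    · simp
  have rowNR : ∀ a s, a ∉ NR → B (.inl a) s = B (.inl (a.1, ρ a.1)) s := by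
    intro a s ha
    rw [hfac (.inl a) s, Finset.sum_eq_single a.1]
    · rw [eNR _ _ ha]; simp
    · intro l _ hl
      rw [eNR _ _ ha]; simp [Ne.symm hl]
    · simp
  set x : I → L → ℝ := fun i l => B (.inr i) (.inl (l, κ l)) with hx
  set y : L → J → ℝ := fun l j => B (.inl (l, ρ l)) (.inr j) with hy
  -- counting
  set nI : ℤ := ∑ i, ∑ l, if X i l = none then (1 : ℤ) else 0 with hnI
  set nJ : ℤ := ∑ j, ∑ l, if Y l j = none then (1 : ℤ) else 0 with hnJ
  have hnIJ : n = nI + nJ := by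
    rw [hn, nStar, Nat.cast_add, ncard_none, ncard_none, hnI, hnJ]
    congr 1
    exact Finset.sum_comm
  set vI : ℤ := ∑ i, ∑ l, if Fill (X i l) (x i l) then 0 else (1 : ℤ) with hvI
  set vJ : ℤ := ∑ j, ∑ l, if Fill (Y l j) (y l j) then 0 else (1 : ℤ) with hvJ
  have hvI0 : 0 ≤ vI := Finset.sum_nonneg fun i _ => Finset.sum_nonneg fun l _ => by
    split_ifs <;> simp
  have hvJ0 : 0 ≤ vJ := Finset.sum_nonneg fun i _ => Finset.sum_nonneg fun l _ => by
    split_ifs <;> simp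
  have hI : nI * ((R₁ : ℤ) - 1) + vI * R₁ - Fintype.card I * NC.card ≤ SI := by
    have : ∀ i, (∑ l, if X i l = none then (1 : ℤ) else 0) * ((R₁ : ℤ) - 1) +
      (∑ l, if Fill (X i l) (x i l) then 0 else (1 : ℤ)) * R₁ - NC.card ≤
      ∑ b : L × Fin R₁, ne1 ((X i b.1).getD (star b.2)) (B (.inr i) (.inl b)) := fun i =>
      side (X i) star hstar (x i) (fun b => B (.inr i) (.inl b)) NC fun b hb => colNC _ _ hb
    have h := Finset.sum_le_sum fun i (_ : i ∈ Finset.univ) => this i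
    rw [Finset.sum_sub_distrib, Finset.sum_add_distrib, ← Finset.sum_mul, ← Finset.sum_mul,
      Finset.sum_const, Finset.card_univ, nsmul_eq_mul] at h
    exact h
  have hJ : nJ * ((R₁ : ℤ) - 1) + vJ * R₁ - Fintype.card J * NR.card ≤ SJ := by
    have : ∀ j, (∑ l, if Y l j = none then (1 : ℤ) else 0) * ((R₁ : ℤ) - 1) +
      (∑ l, if Fill (Y l j) (y l j) then 0 else (1 : ℤ)) * R₁ - NR.card ≤
      ∑ a : L × Fin R₁, ne1 ((Y a.1 j).getD (star a.2)) (B (.inl a) (.inr j)) := fun j =>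
      side (fun l => Y l j) star hstar (fun l => y l j) (fun a => B (.inl a) (.inr j)) NR
        fun a ha => rowNR _ _ ha
    have h := Finset.sum_le_sum fun j (_ : j ∈ Finset.univ) => this j
    rw [Finset.sum_sub_distrib, Finset.sum_add_distrib, ← Finset.sum_mul, ← Finset.sum_mul,
      Finset.sum_const, Finset.card_univ, nsmul_eq_mul] at h
    exact h
  set cI : ℤ := (Fintype.card I : ℤ) with hcI
  set cJ : ℤ := (Fintype.card J : ℤ) with hcJ
  have hcI0 : 0 ≤ cI := by positivity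
  have hcJ0 : 0 ≤ cJ := by positivity
  have hcc : (R₂ : ℤ) * (cI * NC.card + cJ * NR.card) ≤ c := by
    have e1 : (R₁ : ℤ) * ((R₂ : ℤ) * (cI * NC.card + cJ * NR.card)) =
        R₂ * (cI * (R₁ * NC.card) + cJ * (R₁ * NR.card)) := by ring
    have e2 : cI * ((R₁ : ℤ) * NC.card) ≤ cI * c := mul_le_mul_of_nonneg_left hNC1 hcI0
    have e3 : cJ * ((R₁ : ℤ) * NR.card) ≤ cJ * (2 * c) := mul_le_mul_of_nonneg_left hNR1 hcJ0
    have e4 : (R₂ : ℤ) * (cI * (R₁ * NC.card) + cJ * (R₁ * NR.card)) ≤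
        R₂ * (cI * c + cJ * (2 * c)) := mul_le_mul_of_nonneg_left (by linarith) hR2pos.le
    have e5 : (R₂ : ℤ) * (cI * c + cJ * (2 * c)) = (R₂ * (cI + 2 * cJ)) * c := by ring
    have e6 : ((R₂ : ℤ) * (cI + 2 * cJ)) * c ≤ R₁ * c := mul_le_mul_of_nonneg_right hR1' hc0
    have : (R₁ : ℤ) * ((R₂ : ℤ) * (cI * NC.card + cJ * NR.card)) ≤ R₁ * c := by linarith
    exact le_of_mul_le_mul_left this hR1pos
  have hfin : (R₁ : ℤ) * (vI + vJ) + R₂ * SZ ≤ n := by
    have e1 : (R₂ : ℤ) * (nI * ((R₁ : ℤ) - 1) + vI * R₁ - cI * NC.card) ≤ R₂ * SI :=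
      mul_le_mul_of_nonneg_left hI hR2pos.le
    have e2 : (R₂ : ℤ) * (nJ * ((R₁ : ℤ) - 1) + vJ * R₁ - cJ * NR.card) ≤ R₂ * SJ :=
      mul_le_mul_of_nonneg_left hJ hR2pos.le
    have e3 : (R₂ : ℤ) * ((R₁ : ℤ) * (vI + vJ) + R₂ * SZ) ≤ R₂ * n := by
      rw [hnIJ] at hcost ⊢
      linarith
    exact le_of_mul_le_mul_left e3 hR2pos
  have hSZz : SZ = 0 := by
    by_contra h
    have h1 : 1 ≤ SZ := by omega
    have : 0 ≤ (R₁ : ℤ) * (vI + vJ) := by positivity
    have : (R₂ : ℤ) * 1 ≤ R₂ * SZ := mul_le_mul_of_nonneg_left h1 hR2pos.le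
    linarith
  have hvz : vI + vJ = 0 := by
    by_contra h
    have h1 : 1 ≤ vI + vJ := by omega
    have : (R₁ : ℤ) * 1 ≤ R₁ * (vI + vJ) := mul_le_mul_of_nonneg_left h1 hR1pos.le
    have h2 : n * 1 ≤ n * R₂ := mul_le_mul_of_nonneg_left (by linarith) hn0
    have : 0 ≤ (R₂ : ℤ) * SZ := by positivity
    linarith
  have hvIz : vI = 0 := by linarith
  have hvJz : vJ = 0 := by linarith
  refine ⟨x, y, ?_, ?_, ?_⟩
  · intro i l
    have h1 := (Finset.sum_eq_zero_iff_of_nonneg (fun i _ => Finset.sum_nonneg fun l _ => by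
      split_ifs <;> simp)).1 hvIz i (Finset.mem_univ i)
    have h2 := (Finset.sum_eq_zero_iff_of_nonneg (fun l _ => by
      split_ifs <;> simp)).1 h1 l (Finset.mem_univ l)
    by_contra h
    simp [h] at h2
  · intro l j
    have h1 := (Finset.sum_eq_zero_iff_of_nonneg (fun i _ => Finset.sum_nonneg fun l _ => by
      split_ifs <;> simp)).1 hvJz j (Finset.mem_univ j)
    have h2 := (Finset.sum_eq_zero_iff_of_nonneg (fun l _ => by
      split_ifs <;> simp)).1 h1 l (Finset.mem_univ l)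
    by_contra h
    simp [h] at h2
  · intro i j
    have h1 := (Finset.sum_eq_zero_iff_of_nonneg (fun i _ => Finset.sum_nonneg fun l _ =>
      ne1_nonneg _ _)).1 hSZz i (Finset.mem_univ i)
    have h2 := (Finset.sum_eq_zero_iff_of_nonneg (fun l _ =>
      ne1_nonneg _ _)).1 h1 j (Finset.mem_univ j)
    rw [eq_of_ne1 h2]
    exact (hfac (.inr i) (.inr j)).symm

/-- Task C0 -/
theorem core0 {I J L : Type} [Fintype I] [Fintype J] [Fintype L] [DecidableEq I] [DecidableEq J]
    [DecidableEq L] (X : I → L → Option ℝ) (Y : L → J → Option ℝ) (Z : I → J → ℝ)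
    (star : ℕ → ℝ) (hstar : Injective star) (R₁ R₂ : ℕ) (h2 : nStar X Y < R₂)
    (h1 : 2 * nStar X Y * R₂ < R₁)
    (h1' : R₂ * (Fintype.card I + 2 * Fintype.card J) ≤ R₁) :
    Yes0 (mat0 X Y Z star R₁ R₂) (Fintype.card L) (nStar X Y * R₁ * R₂) ↔ Bil X Y Z := by
  constructor
  · rintro ⟨B, hB, hc⟩
    have hc' : ∑ i, ∑ j, ne1 (mat0 X Y Z star R₁ R₂ i j) (B i j) ≤
        (nStar X Y : ℤ) * R₁ * R₂ := by
      have e := ncard_eq_sum (mat0 X Y Z star R₁ R₂) (fun i j => B i j)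
      have e' : (({ij : ((L × Fin R₁) ⊕ (I × Fin R₂)) × ((L × Fin R₁) ⊕ (J × Fin R₂)) |
          mat0 X Y Z star R₁ R₂ ij.1 ij.2 ≠ B ij.1 ij.2}.ncard : ℕ) : ℤ) ≤
          ((nStar X Y * R₁ * R₂ : ℕ) : ℤ) := by exact_mod_cast hc
      push_cast at e'
      exact e.symm.le.trans e'
    have hR2posN : 0 < R₂ := by omega
    have : Nonempty (Fin R₂) := ⟨⟨0, hR2posN⟩⟩
    set A := mat0 X Y Z star R₁ R₂ with hA
    -- choose rows
    have hr : ∀ i : I, ∃ r : Fin R₂, (R₂ : ℤ) * ∑ c, ne1 (A (.inr (i, r)) c) (B (.inr (i, r)) c) ≤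
        ∑ r', ∑ c, ne1 (A (.inr (i, r')) c) (B (.inr (i, r')) c) := by
      intro i
      obtain ⟨r, _, hr⟩ := min_mul (Finset.univ : Finset (Fin R₂)) Finset.univ_nonempty
        (fun r => ∑ c, ne1 (A (.inr (i, r)) c) (B (.inr (i, r)) c))
      exact ⟨r, by simpa using hr⟩
    choose r hr using hr
    have hc1 : ∑ a : L × Fin R₁, ∑ c, ne1 (A (.inl a) c) (B (.inl a) c) +
        (R₂ : ℤ) * ∑ i, ∑ c, ne1 (A (.inr (i, r i)) c) (B (.inr (i, r i)) c) ≤
        (nStar X Y : ℤ) * R₁ * R₂ := by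
      rw [Fintype.sum_sum_type, Fintype.sum_prod_type (f := fun ab : I × Fin R₂ =>
        ∑ j, ne1 (A (.inr ab) j) (B (.inr ab) j))] at hc'
      have : (R₂ : ℤ) * ∑ i, ∑ c, ne1 (A (.inr (i, r i)) c) (B (.inr (i, r i)) c) ≤
          ∑ i, ∑ r', ∑ c, ne1 (A (.inr (i, r')) c) (B (.inr (i, r')) c) := by
        rw [Finset.mul_sum]
        exact Finset.sum_le_sum fun i _ => hr i
      linarith
    -- choose columns
    set cc : (L × Fin R₁) ⊕ (J × Fin R₂) → ℤ := fun c =>
      ∑ a : L × Fin R₁, ne1 (A (.inl a) c) (B (.inl a) c) +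
        (R₂ : ℤ) * ∑ i, ne1 (A (.inr (i, r i)) c) (B (.inr (i, r i)) c) with hcc
    have hs : ∀ j : J, ∃ s : Fin R₂, (R₂ : ℤ) * cc (.inr (j, s)) ≤ ∑ s', cc (.inr (j, s')) := by
      intro j
      obtain ⟨s, _, hs⟩ := min_mul (Finset.univ : Finset (Fin R₂)) Finset.univ_nonempty
        (fun s => cc (.inr (j, s)))
      exact ⟨s, by simpa using hs⟩
    choose s hs using hs
    have hc2 : ∑ b : L × Fin R₁, cc (.inl b) + (R₂ : ℤ) * ∑ j, cc (.inr (j, s j)) ≤
        (nStar X Y : ℤ) * R₁ * R₂ := by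
      have e1 : ∑ c, cc c = ∑ a : L × Fin R₁, ∑ c, ne1 (A (.inl a) c) (B (.inl a) c) +
        (R₂ : ℤ) * ∑ i, ∑ c, ne1 (A (.inr (i, r i)) c) (B (.inr (i, r i)) c) := by
        rw [hcc, Finset.sum_add_distrib, ← Finset.mul_sum, Finset.sum_comm]
        congr 2
        exact Finset.sum_comm
      rw [← e1, Fintype.sum_sum_type, Fintype.sum_prod_type (f := fun ab : J × Fin R₂ =>
        cc (.inr ab))] at hc1
      have : (R₂ : ℤ) * ∑ j, cc (.inr (j, s j)) ≤ ∑ j, ∑ s', cc (.inr (j, s')) := by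
        rw [Finset.mul_sum]
        exact Finset.sum_le_sum fun j _ => hs j
      linarith
    set σ : (L × Fin R₁) ⊕ I → (L × Fin R₁) ⊕ (I × Fin R₂) :=
      Sum.elim Sum.inl (fun i => Sum.inr (i, r i)) with hσ
    set τ : (L × Fin R₁) ⊕ J → (L × Fin R₁) ⊕ (J × Fin R₂) :=
      Sum.elim Sum.inl (fun j => Sum.inr (j, s j)) with hτ
    refine core0_weighted X Y Z star hstar R₁ R₂ h2 h1 h1' (B.submatrix σ τ)
      ((Matrix.rank_submatrix_le B σ τ).trans hB) ?_
    refine le_trans (le_of_eq ?_) hc2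
    simp only [hcc, Finset.sum_add_distrib, ← Finset.mul_sum, mul_add]
    have q1 : ∑ b : L × Fin R₁, ∑ a : L × Fin R₁, ne1 (A (.inl a) (.inl b)) (B (.inl a) (.inl b)) =
        ∑ a : L × Fin R₁, ∑ b : L × Fin R₁, ne1 (if a.1 = b.1 then 1 else 0)
          (B.submatrix σ τ (.inl a) (.inl b)) := by
      rw [Finset.sum_comm]
      rfl
    have q2 : ∑ b : L × Fin R₁, ∑ i, ne1 (A (.inr (i, r i)) (.inl b)) (B (.inr (i, r i)) (.inl b)) =
        ∑ i, ∑ b : L × Fin R₁, ne1 ((X i b.1).getD (star b.2))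
          (B.submatrix σ τ (.inr i) (.inl b)) := by
      rw [Finset.sum_comm]
      rfl
    have q3 : ∑ j, ∑ a : L × Fin R₁, ne1 (A (.inl a) (.inr (j, s j))) (B (.inl a) (.inr (j, s j))) =
        ∑ j, ∑ a : L × Fin R₁, ne1 ((Y a.1 j).getD (star a.2))
          (B.submatrix σ τ (.inl a) (.inr j)) := rfl
    have q4 : ∑ j, ∑ i, ne1 (A (.inr (i, r i)) (.inr (j, s j)))
        (B (.inr (i, r i)) (.inr (j, s j))) =
        ∑ i, ∑ j, ne1 (Z i j) (B.submatrix σ τ (.inr i) (.inr j)) := by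
      rw [Finset.sum_comm]
      rfl
    rw [q1, q2, q3, q4]
    ring
  · rintro ⟨x, y, hx, hy, hxy⟩
    set U : Matrix ((L × Fin R₁) ⊕ (I × Fin R₂)) L ℝ :=
      fun r l => match r with
        | .inl a => if a.1 = l then 1 else 0
        | .inr i => x i.1 l with hU
    set V : Matrix L ((L × Fin R₁) ⊕ (J × Fin R₂)) ℝ :=
      fun l c => match c with
        | .inl b => if l = b.1 then 1 else 0
        | .inr j => y l j.1 with hV
    refine ⟨U * V, rank_le_of_factor U V, ?_⟩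
    have key : (∑ i, ∑ j, ne1 (mat0 X Y Z star R₁ R₂ i j) ((U * V) i j)) ≤
        (nStar X Y : ℤ) * R₁ * R₂ := by
      rw [Fintype.sum_sum_type]
      have e11 : ∀ a b, (U * V) (.inl a) (.inl b) = if a.1 = b.1 then 1 else 0 := by
        intro a b
        rw [Matrix.mul_apply]
        simp [hU, hV]
      have e12 : ∀ a j, (U * V) (.inl a) (.inr j) = y a.1 j.1 := by
        intro a j
        rw [Matrix.mul_apply]
        simp [hU, hV]
      have e21 : ∀ i b, (U * V) (.inr i) (.inl b) = x i.1 b.1 := by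
        intro i b
        rw [Matrix.mul_apply]
        simp [hU, hV]
      have e22 : ∀ i j, (U * V) (.inr i) (.inr j) = Z i.1 j.1 := by
        intro i j
        rw [Matrix.mul_apply]
        simpa [hU, hV] using hxy i.1 j.1
      have hle : ∀ (o : Option ℝ) (v w : ℝ), Fill o v →
          ne1 (o.getD w) v ≤ if o = none then 1 else 0 := by
        intro o v w h
        cases o with
        | none => simpa using ne1_le w v
        | some a => simp [h a rfl, ne1]
      have f1 : ∑ a : L × Fin R₁, ∑ c, ne1 (mat0 X Y Z star R₁ R₂ (.inl a) c) ((U * V) (.inl a) c) ≤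
          (R₁ : ℤ) * R₂ * ∑ l, ∑ j, if Y l j = none then (1 : ℤ) else 0 := by
        have : ∀ a : L × Fin R₁, ∑ c, ne1 (mat0 X Y Z star R₁ R₂ (.inl a) c) ((U * V) (.inl a) c) ≤
            (R₂ : ℤ) * ∑ j, if Y a.1 j = none then (1 : ℤ) else 0 := by
          intro a
          rw [Fintype.sum_sum_type]
          have z : ∑ b : L × Fin R₁, ne1 (mat0 X Y Z star R₁ R₂ (.inl a) (.inl b))
              ((U * V) (.inl a) (.inl b)) = 0 := by
            refine Finset.sum_eq_zero fun b _ => ?_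
            rw [e11]
            exact ne1_self _
          rw [z, zero_add, Fintype.sum_prod_type, Finset.mul_sum]
          refine Finset.sum_le_sum fun j _ => ?_
          calc ∑ t : Fin R₂, ne1 (mat0 X Y Z star R₁ R₂ (.inl a) (.inr (j, t)))
                ((U * V) (.inl a) (.inr (j, t)))
              ≤ ∑ t : Fin R₂, if Y a.1 j = none then (1 : ℤ) else 0 := by
                refine Finset.sum_le_sum fun t _ => ?_
                rw [e12]
                exact hle _ _ _ (hy a.1 j)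
            _ = (R₂ : ℤ) * if Y a.1 j = none then (1 : ℤ) else 0 := by simp
        refine (Finset.sum_le_sum fun a _ => this a).trans (le_of_eq ?_)
        rw [Fintype.sum_prod_type]
        change ∑ l : L, ∑ _t : Fin R₁, (R₂ : ℤ) * ∑ j, (if Y l j = none then (1 : ℤ) else 0) = _
        simp_rw [Finset.sum_const, Finset.card_univ, Fintype.card_fin, nsmul_eq_mul]
        rw [← Finset.mul_sum, ← Finset.mul_sum]
        ring
      have f2 : ∑ i : I × Fin R₂, ∑ c, ne1 (mat0 X Y Z star R₁ R₂ (.inr i) c) ((U * V) (.inr i) c) ≤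
          (R₁ : ℤ) * R₂ * ∑ i, ∑ l, if X i l = none then (1 : ℤ) else 0 := by
        have : ∀ i : I × Fin R₂, ∑ c, ne1 (mat0 X Y Z star R₁ R₂ (.inr i) c) ((U * V) (.inr i) c) ≤
            (R₁ : ℤ) * ∑ l, if X i.1 l = none then (1 : ℤ) else 0 := by
          intro i
          rw [Fintype.sum_sum_type]
          have z : ∑ j : J × Fin R₂, ne1 (mat0 X Y Z star R₁ R₂ (.inr i) (.inr j))
              ((U * V) (.inr i) (.inr j)) = 0 := by
            refine Finset.sum_eq_zero fun b _ => ?_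
            rw [e22]
            exact ne1_self _
          rw [z, add_zero, Fintype.sum_prod_type, Finset.mul_sum]
          refine Finset.sum_le_sum fun l _ => ?_
          calc ∑ t : Fin R₁, ne1 (mat0 X Y Z star R₁ R₂ (.inr i) (.inl (l, t)))
                ((U * V) (.inr i) (.inl (l, t)))
              ≤ ∑ t : Fin R₁, if X i.1 l = none then (1 : ℤ) else 0 := by
                refine Finset.sum_le_sum fun t _ => ?_
                rw [e21]
                exact hle _ _ _ (hx i.1 l)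
            _ = (R₁ : ℤ) * if X i.1 l = none then (1 : ℤ) else 0 := by simp
        refine (Finset.sum_le_sum fun a _ => this a).trans (le_of_eq ?_)
        rw [Fintype.sum_prod_type]
        change ∑ i : I, ∑ _t : Fin R₂, (R₁ : ℤ) * ∑ l, (if X i l = none then (1 : ℤ) else 0) = _
        simp_rw [Finset.sum_const, Finset.card_univ, Fintype.card_fin, nsmul_eq_mul]
        rw [← Finset.mul_sum, ← Finset.mul_sum]
        ring
      have hn : (nStar X Y : ℤ) = (∑ i, ∑ l, if X i l = none then (1 : ℤ) else 0) +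
          ∑ l, ∑ j, if Y l j = none then (1 : ℤ) else 0 := by
        rw [nStar, Nat.cast_add, ncard_none, ncard_none]
      rw [hn]
      nlinarith
    have e := ncard_eq_sum (mat0 X Y Z star R₁ R₂) (fun i j => (U * V) i j)
    have e' := e.le.trans key
    exact_mod_cast e'

end Pool.Agent.LRA67
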