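import Pool.Agent.LRA67.Sys

/-!
# From entrywise `l^1` low rank approximation to bounded bilinear problems

The perturbation estimate (task C1): a matrix of rank at most `|L|` that is cheap for `mat1` has an
almost identical pivot block, hence it is close to the product of the rows and columns through this
block; rounding the entries to the admissible values does not increase the cost.
-/

set_option autoImplicit false

open Finset

namespace Pool.Agent.LRA67

namespace L1

section Schur

variable {R C L : Type} [Fintype R] [Fintype C] [Fintype L] [DecidableEq L]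

omit [Fintype R] in
/-- A matrix of rank at most `|L|` with an invertible block with rows `f` and columns `g` is
determined by the rows `f` and the columns `g`. -/
theorem entry_of_block (B : Matrix R C ℝ) (hB : B.rank ≤ Fintype.card L) (f : L → R) (g : L → C)
    (h : IsUnit (B.submatrix f g)) (r : R) (s : C) :
    B r s = ∑ l, ∑ l', B r (g l) * (B.submatrix f g)⁻¹ l l' * B (f l') s := by
  classical
  set P := B.submatrix f g with hP
  have hdet : IsUnit P.det := (Matrix.isUnit_iff_isUnit_det _).1 h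
  let _ : Invertible P := P.invertibleOfIsUnitDet hdet
  set M : Matrix (L ⊕ Unit) (L ⊕ Unit) ℝ :=
    B.submatrix (Sum.elim f fun _ => r) (Sum.elim g fun _ => s) with hM
  have hM2 : M = Matrix.fromBlocks P (B.submatrix f fun _ => s) (B.submatrix (fun _ => r) g)
      (B.submatrix (fun _ => r) fun _ => s) := by
    ext i j
    rcases i with i | i <;> rcases j with j | j <;> rfl
  have hrank : M.rank ≤ Fintype.card L := (Matrix.rank_submatrix_le B _ _).trans hB
  have hdetM : M.det = 0 := by
    by_contra hne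
    have h1 : M.rank = Fintype.card (L ⊕ Unit) :=
      Matrix.rank_of_isUnit M ((Matrix.isUnit_iff_isUnit_det _).2 (isUnit_iff_ne_zero.2 hne))
    rw [h1] at hrank
    simp at hrank
  rw [hM2, Matrix.det_fromBlocks₁₁] at hdetM
  have h2 := (mul_eq_zero.1 hdetM).resolve_left hdet.ne_zero
  rw [Matrix.det_unique, Matrix.sub_apply, sub_eq_zero] at h2
  rw [Matrix.invOf_eq_nonsing_inv] at h2
  have h3 : B r s = ((B.submatrix (fun _ : Unit => r) g) * P⁻¹ *
      (B.submatrix f fun _ : Unit => s)) () () := h2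
  rw [h3, Matrix.mul_apply, Finset.sum_comm]
  apply Finset.sum_congr rfl
  intro l' _
  rw [Matrix.mul_apply, Finset.sum_mul]
  rfl

omit [Fintype R] [DecidableEq L] in
/-- The rank of a product with inner index type `L` is at most `|L|`. -/
theorem rank_prod_le (X : Matrix R L ℝ) (Y : Matrix L C ℝ) :
    (X * Y).rank ≤ Fintype.card L :=
  (Matrix.rank_mul_le_left X Y).trans (Matrix.rank_le_card_width X)

end Schur

variable {I J L : Type} [Fintype I] [Fintype J] [Fintype L] [DecidableEq L]

/-- The target of an entry in the copy `b` of the pivot. -/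
def tgt (o : Option ℝ) (b : Bool) : ℝ := o.getD (if b then 1 else -1)

/-- The base cost of an entry. -/
def base (o : Option ℝ) : ℝ :=
  match o with
  | none => 2
  | some _ => 0

/-- The nearest admissible value. -/
noncomputable def near (o : Option ℝ) (x : ℝ) : ℝ :=
  match o with
  | none => max (-1) (min 1 x)
  | some c => c

@[simp] theorem tgt_none_true : tgt none true = 1 := rfl

@[simp] theorem tgt_none_false : tgt none false = -1 := rfl

@[simp] theorem tgt_some (c : ℝ) (b : Bool) : tgt (some c) b = c := rfl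

theorem fillB_none (x : ℝ) : FillB none x ↔ |x| ≤ 1 := by
  simp [FillB]

theorem fillB_some (c x : ℝ) : FillB (some c) x ↔ x = c := by
  simp [FillB]

theorem fill_near (o : Option ℝ) (x : ℝ) : FillB o (near o x) := by
  cases o with
  | none =>
      rw [fillB_none, abs_le]
      simp only [near]
      exact ⟨le_max_left _ _, max_le (by norm_num) (min_le_left _ _)⟩
  | some c => rw [fillB_some]; rfl

theorem base_le (o : Option ℝ) (x : ℝ) :
    base o + 2 * |x - near o x| ≤ |tgt o true - x| + |tgt o false - x| := by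
  cases o with
  | none =>
      simp only [base, near, tgt_none_true, tgt_none_false]
      rcases le_total x (-1) with h | h
      · rw [min_eq_right (by linarith), max_eq_left h, abs_of_nonpos (by linarith),
          abs_of_nonneg (by linarith : (0:ℝ) ≤ 1 - x), abs_of_nonneg (by linarith : (0:ℝ) ≤ -1 - x)]
        linarith
      · rcases le_total x 1 with h2 | h2
        · rw [min_eq_right h2, max_eq_right h, sub_self, abs_zero,
            abs_of_nonneg (by linarith : (0:ℝ) ≤ 1 - x), abs_of_nonpos (by linarith : -1 - x ≤ 0)]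
          linarith
        · rw [min_eq_left h2, max_eq_right (by norm_num), abs_of_nonneg (by linarith),
            abs_of_nonpos (by linarith : 1 - x ≤ 0), abs_of_nonpos (by linarith : -1 - x ≤ 0)]
          linarith
  | some c =>
      simp only [base, near, tgt_some]
      rw [abs_sub_comm x c]
      linarith

theorem fill_cost (o : Option ℝ) (x : ℝ) (h : FillB o x) :
    |tgt o true - x| + |tgt o false - x| = base o := by
  cases o with
  | none =>
      rw [fillB_none, abs_le] at h
      simp only [base, tgt_none_true, tgt_none_false]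
      rw [abs_of_nonneg (by linarith : (0:ℝ) ≤ 1 - x), abs_of_nonpos (by linarith : -1 - x ≤ 0)]
      ring
  | some c =>
      rw [fillB_some] at h
      simp [base, h]

theorem abs_near_le (o : Option ℝ) (x : ℝ) (ho : ∀ c, o = some c → |c| ≤ 2) :
    |near o x| ≤ 2 := by
  have h := fill_near o x
  cases o with
  | none =>
      rw [fillB_none] at h
      linarith
  | some c => exact ho c rfl

theorem abs_tgt_le (o : Option ℝ) (b : Bool) (ho : ∀ c, o = some c → |c| ≤ 2) :
    |tgt o b| ≤ 2 := by
  cases o with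
  | none => cases b <;> norm_num
  | some c => exact ho c rfl

theorem base_nonneg (o : Option ℝ) : 0 ≤ base o := by cases o <;> simp [base]

theorem base_le_two (o : Option ℝ) : base o ≤ 2 := by cases o <;> simp [base]

/-- Sum of the absolute values of the entries. -/
def s1 (M : Matrix L L ℝ) : ℝ := ∑ i, ∑ j, |M i j|

omit [DecidableEq L] in
theorem s1_nonneg (M : Matrix L L ℝ) : 0 ≤ s1 M :=
  Finset.sum_nonneg fun _ _ => Finset.sum_nonneg fun _ _ => abs_nonneg _

omit [DecidableEq L] in
theorem s1_mul (M N : Matrix L L ℝ) : s1 (M * N) ≤ s1 M * s1 N := by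
  unfold s1
  have h1 : ∀ i j, |(M * N) i j| ≤ ∑ k, |M i k| * |N k j| := by
    intro i j
    rw [Matrix.mul_apply]
    refine (Finset.abs_sum_le_sum_abs _ _).trans_eq ?_
    exact Finset.sum_congr rfl fun k _ => abs_mul _ _
  have h2 : ∀ k j, |N k j| ≤ ∑ k', |N k' j| := fun k j =>
    Finset.single_le_sum (f := fun k' => |N k' j|) (fun _ _ => abs_nonneg _) (Finset.mem_univ k)
  calc ∑ i, ∑ j, |(M * N) i j| ≤ ∑ i, ∑ j, ∑ k, |M i k| * |N k j| :=
        Finset.sum_le_sum fun i _ => Finset.sum_le_sum fun j _ => h1 i j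
    _ ≤ ∑ i, ∑ j, ∑ k, |M i k| * ∑ k', |N k' j| :=
        Finset.sum_le_sum fun i _ => Finset.sum_le_sum fun j _ => Finset.sum_le_sum fun k _ =>
          mul_le_mul_of_nonneg_left (h2 k j) (abs_nonneg _)
    _ = (∑ i, ∑ k, |M i k|) * ∑ k', ∑ j, |N k' j| := by
        rw [Finset.sum_comm (s := univ) (t := univ) (f := fun k' j => |N k' j|), Finset.sum_mul]
        apply Finset.sum_congr rfl
        intro i _
        rw [Finset.mul_sum]
        apply Finset.sum_congr rfl
        intro j _
        rw [Finset.sum_mul]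

/-- A matrix close to the identity is invertible. -/
theorem isUnit_of_close (P : Matrix L L ℝ) (h : s1 (P - 1) < 1) : IsUnit P := by
  rw [Matrix.isUnit_iff_isUnit_det, isUnit_iff_ne_zero]
  apply det_ne_zero_of_sum_row_lt_diag
  intro k
  have h1 : ∑ j, |(P - 1) k j| ≤ s1 (P - 1) :=
    Finset.single_le_sum (f := fun i => ∑ j, |(P - 1) i j|)
      (fun _ _ => Finset.sum_nonneg fun _ _ => abs_nonneg _) (Finset.mem_univ k)
  rw [← Finset.sum_erase_add _ _ (Finset.mem_univ k)] at h1
  have h2 : ∑ j ∈ univ.erase k, ‖P k j‖ = ∑ j ∈ univ.erase k, |(P - 1) k j| := by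
    apply Finset.sum_congr rfl
    intro j hj
    rw [Matrix.sub_apply, Matrix.one_apply_ne (Finset.ne_of_mem_erase hj).symm, sub_zero,
      Real.norm_eq_abs]
  have h3 : (P - 1) k k = P k k - 1 := by simp
  rw [h3] at h1
  rw [h2, Real.norm_eq_abs]
  have h4 : 1 - |P k k - 1| ≤ |P k k| := by
    have := abs_sub_abs_le_abs_sub (1 : ℝ) (1 - P k k)
    have h5 : (1 : ℝ) - (1 - P k k) = P k k := by ring
    rw [h5, abs_one, abs_sub_comm 1 (P k k)] at this
    exact this
  linarith

/-- The inverse of a matrix close to the identity is close to the identity. -/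
theorem s1_inv_le (P : Matrix L L ℝ) (h : s1 (P - 1) ≤ 1 / 2) :
    s1 (P⁻¹ - 1) ≤ 2 * s1 (P - 1) := by
  have hu : IsUnit P := isUnit_of_close P (by linarith)
  have hdet : IsUnit P.det := (Matrix.isUnit_iff_isUnit_det _).1 hu
  have h1 : P⁻¹ - 1 = -(P - 1) - (P - 1) * (P⁻¹ - 1) := by
    have h2 : P * P⁻¹ = 1 := Matrix.mul_nonsing_inv P hdet
    have h3 : (P - 1) * (P⁻¹ - 1) = P * P⁻¹ - P - P⁻¹ + 1 := by
      rw [sub_mul, mul_sub, mul_one, one_mul]
      abel
    rw [h3, h2]
    abel
  have h4 : s1 (P⁻¹ - 1) ≤ s1 (P - 1) + s1 ((P - 1) * (P⁻¹ - 1)) := by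
    conv_lhs => rw [h1]
    unfold s1
    rw [← Finset.sum_add_distrib]
    apply Finset.sum_le_sum
    intro i _
    rw [← Finset.sum_add_distrib]
    apply Finset.sum_le_sum
    intro j _
    rw [Matrix.sub_apply, Matrix.neg_apply]
    refine (abs_sub _ _).trans ?_
    rw [abs_neg]
  have h5 := s1_mul (P - 1) (P⁻¹ - 1)
  have h6 := s1_nonneg (P⁻¹ - 1)
  have h7 := s1_nonneg (P - 1)
  nlinarith

/-! ## The matrix and its weights -/

/-- The unweighted matrix of the template. -/
def A0 (X : I → L → Option ℝ) (Y : L → J → Option ℝ) (Z : I → J → ℝ) :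
    Matrix (L × Bool ⊕ I) (L × Bool ⊕ J) ℝ
  | Sum.inl (l, _), Sum.inl (l', _) => if l = l' then 1 else 0
  | Sum.inl (l, b), Sum.inr j => tgt (Y l j) b
  | Sum.inr i, Sum.inl (l, b) => tgt (X i l) b
  | Sum.inr i, Sum.inr j => Z i j

/-- Row weights. -/
def wr (W lam : ℝ) (w : I → ℝ) : L × Bool ⊕ I → ℝ
  | Sum.inl _ => W * lam
  | Sum.inr i => w i

/-- Column weights. -/
def wc (lam : ℝ) : L × Bool ⊕ J → ℝ
  | Sum.inl _ => lam
  | Sum.inr _ => 1

/-- The weighted cost of a matrix. -/
def cost (X : I → L → Option ℝ) (Y : L → J → Option ℝ) (Z : I → J → ℝ) (W lam : ℝ) (w : I → ℝ)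
    (B : Matrix (L × Bool ⊕ I) (L × Bool ⊕ J) ℝ) : ℝ :=
  ∑ r, ∑ c, wr W lam w r * wc lam c * |A0 X Y Z r c - B r c|

/-- The cost of the free entries. -/
def cost0 (X : I → L → Option ℝ) (Y : L → J → Option ℝ) (W lam : ℝ) (w : I → ℝ) : ℝ :=
  ∑ i, ∑ l, w i * lam * base (X i l) + ∑ l, ∑ j, W * lam * base (Y l j)

/-- The deviation of the pivot block. -/
def dev (B : Matrix (L × Bool ⊕ I) (L × Bool ⊕ J) ℝ) : ℝ :=
  ∑ p : L × Bool, ∑ q : L × Bool, |(if p.1 = q.1 then 1 else 0) - B (Sum.inl p) (Sum.inl q)|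

theorem cost_split (X : I → L → Option ℝ) (Y : L → J → Option ℝ) (Z : I → J → ℝ) (W lam : ℝ)
    (w : I → ℝ) (B : Matrix (L × Bool ⊕ I) (L × Bool ⊕ J) ℝ) :
    cost X Y Z W lam w B = W * lam * lam * dev B +
      (∑ l, ∑ j, W * lam * (|tgt (Y l j) true - B (Sum.inl (l, true)) (Sum.inr j)| +
        |tgt (Y l j) false - B (Sum.inl (l, false)) (Sum.inr j)|)) +
      (∑ i, ∑ l, w i * lam * (|tgt (X i l) true - B (Sum.inr i) (Sum.inl (l, true))| +
        |tgt (X i l) false - B (Sum.inr i) (Sum.inl (l, false))|)) +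
      ∑ i, ∑ j, w i * |Z i j - B (Sum.inr i) (Sum.inr j)| := by
  unfold cost
  rw [Fintype.sum_sum_type]
  simp only [Fintype.sum_sum_type, wr, wc]
  have e1 : ∀ p : L × Bool, (∑ q : L × Bool, W * lam * lam *
      |A0 X Y Z (Sum.inl p) (Sum.inl q) - B (Sum.inl p) (Sum.inl q)|) =
      W * lam * lam * ∑ q : L × Bool,
        |(if p.1 = q.1 then 1 else 0) - B (Sum.inl p) (Sum.inl q)| := by
    intro p
    rw [Finset.mul_sum]
    rfl
  have e2 : (∑ p : L × Bool, ∑ j, W * lam * 1 *
      |A0 X Y Z (Sum.inl p) (Sum.inr j) - B (Sum.inl p) (Sum.inr j)|) =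
      ∑ l, ∑ j, W * lam * (|tgt (Y l j) true - B (Sum.inl (l, true)) (Sum.inr j)| +
        |tgt (Y l j) false - B (Sum.inl (l, false)) (Sum.inr j)|) := by
    rw [Fintype.sum_prod_type]
    apply Finset.sum_congr rfl
    intro l _
    rw [Fintype.sum_bool, ← Finset.sum_add_distrib]
    apply Finset.sum_congr rfl
    intro j _
    simp only [A0]
    ring
  have e3 : ∀ i, (∑ q : L × Bool, w i * lam *
      |A0 X Y Z (Sum.inr i) (Sum.inl q) - B (Sum.inr i) (Sum.inl q)|) =
      ∑ l, w i * lam * (|tgt (X i l) true - B (Sum.inr i) (Sum.inl (l, true))| +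
        |tgt (X i l) false - B (Sum.inr i) (Sum.inl (l, false))|) := by
    intro i
    rw [Fintype.sum_prod_type]
    apply Finset.sum_congr rfl
    intro l _
    rw [Fintype.sum_bool]
    simp only [A0]
    ring
  have e4 : ∀ i, (∑ j, w i * 1 *
      |A0 X Y Z (Sum.inr i) (Sum.inr j) - B (Sum.inr i) (Sum.inr j)|) =
      ∑ j, w i * |Z i j - B (Sum.inr i) (Sum.inr j)| := by
    intro i
    apply Finset.sum_congr rfl
    intro j _
    simp only [A0]
    ring
  rw [Finset.sum_add_distrib, Finset.sum_add_distrib, Finset.sum_congr rfl fun p _ => e1 p,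
    ← Finset.mul_sum, e2, Finset.sum_congr rfl fun i _ => e3 i,
    Finset.sum_congr rfl fun i _ => e4 i]
  unfold dev
  ring

/-! ## The easy direction -/

/-- The matrix of rank at most `|L|` given by a filling. -/
def prodMat (x : I → L → ℝ) (y : L → J → ℝ) : Matrix (L × Bool ⊕ I) (L × Bool ⊕ J) ℝ :=
  (Matrix.of fun (r : L × Bool ⊕ I) (l : L) =>
    (match r with
      | Sum.inl p => if p.1 = l then 1 else 0
      | Sum.inr i => x i l : ℝ)) *
  (Matrix.of fun (l : L) (c : L × Bool ⊕ J) =>
    (match c with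
      | Sum.inl p => if p.1 = l then 1 else 0
      | Sum.inr j => y l j : ℝ))

omit [Fintype I] in
theorem prodMat_rank (x : I → L → ℝ) (y : L → J → ℝ) :
    (prodMat x y).rank ≤ Fintype.card L := rank_prod_le _ _

omit [Fintype I] [Fintype J] in
theorem prodMat_ll (x : I → L → ℝ) (y : L → J → ℝ) (p q : L × Bool) :
    prodMat x y (Sum.inl p) (Sum.inl q) = if p.1 = q.1 then 1 else 0 := by
  simp [prodMat, Matrix.mul_apply, eq_comm]

omit [Fintype I] [Fintype J] in
theorem prodMat_lr (x : I → L → ℝ) (y : L → J → ℝ) (p : L × Bool) (j : J) :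
    prodMat x y (Sum.inl p) (Sum.inr j) = y p.1 j := by
  simp [prodMat, Matrix.mul_apply]

omit [Fintype I] [Fintype J] in
theorem prodMat_rl (x : I → L → ℝ) (y : L → J → ℝ) (i : I) (q : L × Bool) :
    prodMat x y (Sum.inr i) (Sum.inl q) = x i q.1 := by
  simp [prodMat, Matrix.mul_apply]

omit [Fintype I] [Fintype J] in
theorem prodMat_rr (x : I → L → ℝ) (y : L → J → ℝ) (i : I) (j : J) :
    prodMat x y (Sum.inr i) (Sum.inr j) = ∑ l, x i l * y l j := by
  simp [prodMat, Matrix.mul_apply]

/-- A filling gives a matrix of small rank and small cost. -/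
theorem cost_prodMat (X : I → L → Option ℝ) (Y : L → J → Option ℝ) (Z : I → J → ℝ) (W lam : ℝ)
    (w : I → ℝ) (x : I → L → ℝ) (y : L → J → ℝ) (hx : ∀ i l, FillB (X i l) (x i l))
    (hy : ∀ l j, FillB (Y l j) (y l j)) :
    cost X Y Z W lam w (prodMat x y) = cost0 X Y W lam w +
      ∑ i, ∑ j, w i * |Z i j - ∑ l, x i l * y l j| := by
  rw [cost_split]
  have h1 : dev (prodMat x y) = 0 := by
    unfold dev
    apply Finset.sum_eq_zero
    intro p _
    apply Finset.sum_eq_zero
    intro q _
    rw [prodMat_ll, sub_self, abs_zero]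
  simp only [prodMat_lr, prodMat_rl, prodMat_rr, fill_cost _ _ (hx _ _), fill_cost _ _ (hy _ _), h1]
  unfold cost0
  ring

/-! ## The hard direction -/

section Hard

variable (B : Matrix (L × Bool ⊕ I) (L × Bool ⊕ J) ℝ)

/-- The pivot block. -/
def piv : Matrix L L ℝ :=
  B.submatrix (fun l => Sum.inl (l, true)) (fun l => Sum.inl (l, true))

/-- The rows of the filling. -/
def xo (i : I) (l : L) : ℝ := B (Sum.inr i) (Sum.inl (l, true))

/-- The columns of the filling. -/
def yo (l : L) (j : J) : ℝ := B (Sum.inl (l, true)) (Sum.inr j)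

omit [Fintype I] [Fintype J] in
theorem dev_nonneg : 0 ≤ dev B :=
  Finset.sum_nonneg fun _ _ => Finset.sum_nonneg fun _ _ => abs_nonneg _

omit [Fintype I] [Fintype J] in
theorem s1_piv_le : s1 (piv B - 1) ≤ dev B := by
  unfold dev s1
  rw [Fintype.sum_prod_type]
  apply Finset.sum_le_sum
  intro l _
  rw [Fintype.sum_bool]
  have h1 : ∑ j, |(piv B - 1) l j| ≤
      ∑ q : L × Bool, |(if l = q.1 then 1 else 0) - B (Sum.inl (l, true)) (Sum.inl q)| := by
    rw [Fintype.sum_prod_type]
    apply Finset.sum_le_sum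
    intro l' _
    rw [Fintype.sum_bool, Matrix.sub_apply, Matrix.one_apply, abs_sub_comm]
    exact le_add_of_nonneg_right (abs_nonneg _)
  exact h1.trans (le_add_of_nonneg_right (Finset.sum_nonneg fun _ _ => abs_nonneg _))

omit [Fintype I] [Fintype J] in
theorem col_dev_le (l0 : L) (b : Bool) :
    ∑ l, |B (Sum.inl (l, true)) (Sum.inl (l0, b)) - if l = l0 then 1 else 0| ≤ dev B := by
  unfold dev
  rw [Fintype.sum_prod_type]
  apply Finset.sum_le_sum
  intro l _
  rw [Fintype.sum_bool]
  have h1 : |B (Sum.inl (l, true)) (Sum.inl (l0, b)) - if l = l0 then 1 else 0| ≤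
      ∑ q : L × Bool, |(if l = q.1 then 1 else 0) - B (Sum.inl (l, true)) (Sum.inl q)| := by
    rw [abs_sub_comm]
    exact Finset.single_le_sum
      (f := fun q : L × Bool => |(if l = q.1 then 1 else 0) - B (Sum.inl (l, true)) (Sum.inl q)|)
      (fun _ _ => abs_nonneg _) (Finset.mem_univ (l0, b))
  exact h1.trans (le_add_of_nonneg_right (Finset.sum_nonneg fun _ _ => abs_nonneg _))

omit [Fintype I] [Fintype J] in
theorem row_dev_le (l0 : L) (b : Bool) :
    ∑ l, |B (Sum.inl (l0, b)) (Sum.inl (l, true)) - if l0 = l then 1 else 0| ≤ dev B := by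
  unfold dev
  have h1 : ∑ l, |B (Sum.inl (l0, b)) (Sum.inl (l, true)) - if l0 = l then 1 else 0| ≤
      ∑ q : L × Bool, |(if l0 = q.1 then 1 else 0) - B (Sum.inl (l0, b)) (Sum.inl q)| := by
    rw [Fintype.sum_prod_type]
    apply Finset.sum_le_sum
    intro l' _
    rw [Fintype.sum_bool, abs_sub_comm]
    exact le_add_of_nonneg_right (abs_nonneg _)
  refine h1.trans ?_
  exact Finset.single_le_sum (f := fun p : L × Bool => ∑ q : L × Bool,
      |(if p.1 = q.1 then 1 else 0) - B (Sum.inl p) (Sum.inl q)|)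
    (fun _ _ => Finset.sum_nonneg fun _ _ => abs_nonneg _) (Finset.mem_univ (l0, b))

/-- A general estimate for the bilinear expression of an entry. -/
theorem bil_close (u v : L → ℝ) (E : Matrix L L ℝ) (v0 : L → ℝ) (M V D e : ℝ)
    (hu : ∀ l, |u l| ≤ M) (hM : 0 ≤ M) (hv : ∀ l, |v l| ≤ V) (hE : s1 E ≤ e)
    (hV : 0 ≤ V) (hd : ∑ l, |v l - v0 l| ≤ D) :
    |(∑ l, ∑ l', u l * (1 + E) l l' * v l') - ∑ l, u l * v0 l| ≤ M * D + M * e * V := by
  have h1 : (∑ l, ∑ l', u l * (1 + E) l l' * v l') - ∑ l, u l * v0 l =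
      (∑ l, u l * (v l - v0 l)) + ∑ l, ∑ l', u l * E l l' * v l' := by
    have h2 : ∀ l, ∑ l', u l * (1 + E) l l' * v l' = u l * v l + ∑ l', u l * E l l' * v l' := by
      intro l
      have h3 : ∀ l', u l * (1 + E) l l' * v l' =
          (if l = l' then u l * v l' else 0) + u l * E l l' * v l' := by
        intro l'
        rw [Matrix.add_apply, Matrix.one_apply]
        split_ifs <;> ring
      rw [Finset.sum_congr rfl fun l' _ => h3 l', Finset.sum_add_distrib]
      simp
    rw [Finset.sum_congr rfl fun l _ => h2 l, Finset.sum_add_distrib]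
    have h4 : ∑ l, u l * (v l - v0 l) = ∑ l, u l * v l - ∑ l, u l * v0 l := by
      rw [← Finset.sum_sub_distrib]
      apply Finset.sum_congr rfl
      intro l _
      ring
    rw [h4]
    ring
  rw [h1]
  refine (abs_add_le _ _).trans ?_
  apply add_le_add
  · calc |∑ l, u l * (v l - v0 l)| ≤ ∑ l, |u l * (v l - v0 l)| := Finset.abs_sum_le_sum_abs _ _
      _ ≤ ∑ l, M * |v l - v0 l| := by
          apply Finset.sum_le_sum
          intro l _
          rw [abs_mul]
          exact mul_le_mul_of_nonneg_right (hu l) (abs_nonneg _)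
      _ = M * ∑ l, |v l - v0 l| := by rw [Finset.mul_sum]
      _ ≤ M * D := mul_le_mul_of_nonneg_left hd hM
  · calc |∑ l, ∑ l', u l * E l l' * v l'| ≤ ∑ l, |∑ l', u l * E l l' * v l'| :=
          Finset.abs_sum_le_sum_abs _ _
      _ ≤ ∑ l, ∑ l', |u l * E l l' * v l'| :=
          Finset.sum_le_sum fun l _ => Finset.abs_sum_le_sum_abs _ _
      _ ≤ ∑ l, ∑ l', M * V * |E l l'| := by
          apply Finset.sum_le_sum
          intro l _
          apply Finset.sum_le_sum
          intro l' _
          rw [abs_mul, abs_mul]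
          have h5 : |u l| * |v l'| ≤ M * V := mul_le_mul (hu l) (hv l') (abs_nonneg _) hM
          calc |u l| * |E l l'| * |v l'| = |u l| * |v l'| * |E l l'| := by ring
            _ ≤ M * V * |E l l'| := mul_le_mul_of_nonneg_right h5 (abs_nonneg _)
      _ = M * V * s1 E := by
          unfold s1
          rw [Finset.mul_sum]
          apply Finset.sum_congr rfl
          intro l _
          rw [Finset.mul_sum]
      _ ≤ M * V * e := mul_le_mul_of_nonneg_left hE (mul_nonneg hM hV)
      _ = M * e * V := by ring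

/-- The transposed estimate. -/
theorem bil_close' (u v : L → ℝ) (E : Matrix L L ℝ) (u0 : L → ℝ) (M V D e : ℝ)
    (hu : ∀ l, |u l| ≤ V) (hV : 0 ≤ V) (hv : ∀ l, |v l| ≤ M) (hE : s1 E ≤ e)
    (hM : 0 ≤ M) (hd : ∑ l, |u l - u0 l| ≤ D) :
    |(∑ l, ∑ l', u l * (1 + E) l l' * v l') - ∑ l, u0 l * v l| ≤ M * D + M * e * V := by
  have h := bil_close v u E.transpose u0 M V D e hv hM hu (by
    refine le_trans (le_of_eq ?_) hE
    unfold s1
    rw [Finset.sum_comm]
    rfl) hV hd
  have h2 : (∑ l, ∑ l', u l * (1 + E) l l' * v l') =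
      ∑ l, ∑ l', v l * (1 + E.transpose) l l' * u l' := by
    rw [Finset.sum_comm]
    apply Finset.sum_congr rfl
    intro l _
    apply Finset.sum_congr rfl
    intro l' _
    have h3 : (1 + E) l' l = (1 + E.transpose) l l' := by
      rw [Matrix.add_apply, Matrix.add_apply, Matrix.transpose_apply, Matrix.one_apply,
        Matrix.one_apply]
      simp [eq_comm]
    rw [h3]
    ring
  have h4 : ∑ l, u0 l * v l = ∑ l, v l * u0 l :=
    Finset.sum_congr rfl fun l _ => mul_comm _ _
  rw [h2, h4]
  exact h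

variable {B}

omit [Fintype I] in
theorem entry_eq (hB : B.rank ≤ Fintype.card L) (hd : dev B ≤ 1 / 2)
    (r : L × Bool ⊕ I) (s : L × Bool ⊕ J) :
    B r s = ∑ l, ∑ l', B r (Sum.inl (l, true)) * (1 + ((piv B)⁻¹ - 1)) l l' *
      B (Sum.inl (l', true)) s := by
  have hu : IsUnit (piv B) := isUnit_of_close _ (by linarith [s1_piv_le B])
  have h1 : (1 : Matrix L L ℝ) + ((piv B)⁻¹ - 1) = (piv B)⁻¹ := by abel
  rw [h1]
  exact entry_of_block B hB (fun l => Sum.inl (l, true)) (fun l => Sum.inl (l, true)) hu r s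

omit [Fintype I] [Fintype J] in
theorem s1_E_le (hd : dev B ≤ 1 / 2) : s1 ((piv B)⁻¹ - 1) ≤ 2 * dev B := by
  have h := s1_piv_le B
  exact (s1_inv_le _ (h.trans hd)).trans (by linarith)

omit [Fintype I] in
/-- Entries of the second copies of the pivot columns. -/
theorem x_close (hB : B.rank ≤ Fintype.card L) (hd : dev B ≤ 1 / 2) (M : ℝ) (hM : 0 ≤ M)
    (i : I) (hx : ∀ l, |xo B i l| ≤ M) (l0 : L) :
    |B (Sum.inr i) (Sum.inl (l0, false)) - xo B i l0| ≤ 4 * M * dev B := by
  have h0 := dev_nonneg B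
  have hcol := col_dev_le B l0 false
  have h1 := bil_close (fun l => xo B i l) (fun l => B (Sum.inl (l, true)) (Sum.inl (l0, false)))
    ((piv B)⁻¹ - 1) (fun l => if l = l0 then 1 else 0) M (3 / 2) (dev B) (2 * dev B) hx hM
    (by
      intro l
      have h2 : |B (Sum.inl (l, true)) (Sum.inl (l0, false)) - if l = l0 then 1 else 0| ≤ dev B :=
        (Finset.single_le_sum
          (f := fun l => |B (Sum.inl (l, true)) (Sum.inl (l0, false)) - if l = l0 then 1 else 0|)
          (fun _ _ => abs_nonneg _) (Finset.mem_univ l)).trans hcol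
      have h3 : |(if l = l0 then (1 : ℝ) else 0)| ≤ 1 := by split_ifs <;> simp
      have h4 := abs_add_le (B (Sum.inl (l, true)) (Sum.inl (l0, false)) - if l = l0 then 1 else 0)
        (if l = l0 then 1 else 0)
      rw [sub_add_cancel] at h4
      linarith) (s1_E_le hd) (by norm_num) hcol
  have h5 := entry_eq hB hd (Sum.inr i) (Sum.inl (l0, false))
  rw [h5]
  have h6 : ∑ l, xo B i l * (if l = l0 then (1 : ℝ) else 0) = xo B i l0 := by simp
  rw [h6] at h1
  refine le_trans h1 (le_of_eq ?_)
  ring

omit [Fintype I] in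
/-- Entries of the second copies of the pivot rows. -/
theorem y_close (hB : B.rank ≤ Fintype.card L) (hd : dev B ≤ 1 / 2) (M : ℝ) (hM : 0 ≤ M)
    (j : J) (hy : ∀ l, |yo B l j| ≤ M) (l0 : L) :
    |B (Sum.inl (l0, false)) (Sum.inr j) - yo B l0 j| ≤ 4 * M * dev B := by
  have h0 := dev_nonneg B
  have hrow := row_dev_le B l0 false
  have h1 := bil_close' (fun l => B (Sum.inl (l0, false)) (Sum.inl (l, true))) (fun l => yo B l j)
    ((piv B)⁻¹ - 1) (fun l => if l0 = l then 1 else 0) M (3 / 2) (dev B) (2 * dev B)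
    (by
      intro l
      have h2 : |B (Sum.inl (l0, false)) (Sum.inl (l, true)) - if l0 = l then 1 else 0| ≤ dev B :=
        (Finset.single_le_sum
          (f := fun l => |B (Sum.inl (l0, false)) (Sum.inl (l, true)) - if l0 = l then 1 else 0|)
          (fun _ _ => abs_nonneg _) (Finset.mem_univ l)).trans hrow
      have h3 : |(if l0 = l then (1 : ℝ) else 0)| ≤ 1 := by split_ifs <;> simp
      have h4 := abs_add_le (B (Sum.inl (l0, false)) (Sum.inl (l, true)) - if l0 = l then 1 else 0)
        (if l0 = l then 1 else 0)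
      rw [sub_add_cancel] at h4
      linarith) (by norm_num) hy (s1_E_le hd) hM hrow
  have h5 := entry_eq hB hd (Sum.inl (l0, false)) (Sum.inr j)
  rw [h5]
  have h6 : ∑ l, (if l0 = l then (1 : ℝ) else 0) * yo B l j = yo B l0 j := by simp
  rw [h6] at h1
  refine le_trans h1 (le_of_eq ?_)
  ring

omit [Fintype I] in
/-- Entries of the main block. -/
theorem z_close (hB : B.rank ≤ Fintype.card L) (hd : dev B ≤ 1 / 2) (M : ℝ) (hM : 0 ≤ M)
    (i : I) (j : J) (hx : ∀ l, |xo B i l| ≤ M) (hy : ∀ l, |yo B l j| ≤ M) :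
    |B (Sum.inr i) (Sum.inr j) - ∑ l, xo B i l * yo B l j| ≤ 2 * M ^ 2 * dev B := by
  have h0 := dev_nonneg B
  have h1 := bil_close (fun l => xo B i l) (fun l => yo B l j)
    ((piv B)⁻¹ - 1) (fun l => yo B l j) M M 0 (2 * dev B) hx hM hy (s1_E_le hd) hM (by simp)
  have h5 := entry_eq hB hd (Sum.inr i) (Sum.inr j)
  rw [h5]
  refine le_trans h1 (le_of_eq ?_)
  ring

end Hard

omit [DecidableEq L] in
theorem abs_dot_sub_le (u v u' v' : L → ℝ) (z M : ℝ) (hv : ∀ l, |v l| ≤ M)
    (hu' : ∀ l, |u' l| ≤ 2) :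
    |z - ∑ l, u' l * v' l| - ∑ l, (M * |u l - u' l| + 2 * |v l - v' l|) ≤
      |z - ∑ l, u l * v l| := by
  have h1 : z - ∑ l, u' l * v' l = (z - ∑ l, u l * v l) +
      ∑ l, ((u l - u' l) * v l + u' l * (v l - v' l)) := by
    have h2 : ∑ l, ((u l - u' l) * v l + u' l * (v l - v' l)) =
        ∑ l, u l * v l - ∑ l, u' l * v' l := by
      rw [← Finset.sum_sub_distrib]
      apply Finset.sum_congr rfl
      intro l _
      ring
    rw [h2]
    ring
  have h3 : |∑ l, ((u l - u' l) * v l + u' l * (v l - v' l))| ≤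
      ∑ l, (M * |u l - u' l| + 2 * |v l - v' l|) := by
    refine (Finset.abs_sum_le_sum_abs _ _).trans ?_
    apply Finset.sum_le_sum
    intro l _
    refine (abs_add_le _ _).trans ?_
    rw [abs_mul, abs_mul]
    apply add_le_add
    · rw [mul_comm]
      exact mul_le_mul_of_nonneg_right (hv l) (abs_nonneg _)
    · exact mul_le_mul_of_nonneg_right (hu' l) (abs_nonneg _)
  rw [h1]
  have h4 := abs_add_le (z - ∑ l, u l * v l)
    (∑ l, ((u l - u' l) * v l + u' l * (v l - v' l)))
  linarith

/-- The main estimate. -/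
theorem hard (X : I → L → Option ℝ) (Y : L → J → Option ℝ) (Z : I → J → ℝ)
    (hX : ∀ i l a, X i l = some a → |a| ≤ 2) (hY : ∀ l j a, Y l j = some a → |a| ≤ 2)
    (w : I → ℝ) (W lam M N : ℝ) (hw : ∀ i, 1 ≤ w i ∧ w i ≤ W) (hW : 1 ≤ W) (hN : 0 ≤ N)
    (hM : 2 * W * N + 3 ≤ M)
    (hlam : 4 * M * Fintype.card L * (Fintype.card I + Fintype.card J) +
      2 * M ^ 2 * Fintype.card I * Fintype.card J + 4 * N + 2 + M * Fintype.card J +
      2 * Fintype.card I ≤ lam)
    (B : Matrix (L × Bool ⊕ I) (L × Bool ⊕ J) ℝ) (hB : B.rank ≤ Fintype.card L)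
    (hcN : cost0 X Y W lam w = 2 * W * lam * N)
    (hc : cost X Y Z W lam w B < 2 * W * lam * N + 1) : BilB X Y Z w := by
  have hWN : 0 ≤ 2 * W * N := by positivity
  have hM3 : 3 ≤ M := by linarith
  have hM0 : 0 ≤ M := by linarith
  have hcL : (0 : ℝ) ≤ Fintype.card L := by positivity
  have hcI : (0 : ℝ) ≤ Fintype.card I := by positivity
  have hcJ : (0 : ℝ) ≤ Fintype.card J := by positivity
  have ht1 : 0 ≤ 4 * M * Fintype.card L * (Fintype.card I + Fintype.card J) := by positivity
  have ht2 : 0 ≤ 2 * M ^ 2 * Fintype.card I * Fintype.card J := by positivity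
  have ht3 : 0 ≤ M * Fintype.card J := by positivity
  have hlam2 : 2 ≤ lam := by linarith
  have hlam0 : 0 < lam := by linarith
  have hW0 : 0 < W := by linarith
  have hWlam : 0 < W * lam := by positivity
  have hdev := dev_nonneg B
  have hsplit := cost_split X Y Z W lam w B
  set S1 := ∑ l, ∑ j, W * lam * (|tgt (Y l j) true - B (Sum.inl (l, true)) (Sum.inr j)| +
        |tgt (Y l j) false - B (Sum.inl (l, false)) (Sum.inr j)|) with hS1
  set S2 := ∑ i, ∑ l, w i * lam * (|tgt (X i l) true - B (Sum.inr i) (Sum.inl (l, true))| +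
        |tgt (X i l) false - B (Sum.inr i) (Sum.inl (l, false))|) with hS2
  set S3 := ∑ i, ∑ j, w i * |Z i j - B (Sum.inr i) (Sum.inr j)| with hS3
  have hw0 : ∀ i, 0 < w i := fun i => by linarith [(hw i).1]
  have hS1' : ∀ l j, 0 ≤ W * lam * (|tgt (Y l j) true - B (Sum.inl (l, true)) (Sum.inr j)| +
        |tgt (Y l j) false - B (Sum.inl (l, false)) (Sum.inr j)|) := fun l j => by positivity
  have hS2' : ∀ i l, 0 ≤ w i * lam * (|tgt (X i l) true - B (Sum.inr i) (Sum.inl (l, true))| +
        |tgt (X i l) false - B (Sum.inr i) (Sum.inl (l, false))|) := fun i l => by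
    have := hw0 i
    positivity
  have hS10 : 0 ≤ S1 := Finset.sum_nonneg fun l _ => Finset.sum_nonneg fun j _ => hS1' l j
  have hS20 : 0 ≤ S2 := Finset.sum_nonneg fun i _ => Finset.sum_nonneg fun l _ => hS2' i l
  have hS30 : 0 ≤ S3 := Finset.sum_nonneg fun i _ => Finset.sum_nonneg fun j _ => by
    have := hw0 i
    positivity
  have hpp : 0 ≤ W * lam * lam * dev B := by positivity
  -- the deviation of the pivot block is small
  have hd2 : dev B ≤ 1 / 2 := by
    by_contra hcon
    push Not at hcon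
    have h1 : W * lam * lam * dev B < 2 * W * lam * N + 1 := by linarith
    have h2 : W * lam * (lam * (1 / 2)) ≤ W * lam * lam * dev B := by
      have : W * lam * lam * dev B = W * lam * (lam * dev B) := by ring
      rw [this]
      apply mul_le_mul_of_nonneg_left _ hWlam.le
      exact mul_le_mul_of_nonneg_left hcon.le hlam0.le
    have h3 : W * lam * (2 * N + 1) ≤ W * lam * (lam * (1 / 2)) := by
      apply mul_le_mul_of_nonneg_left _ hWlam.le
      linarith
    have h4 : 1 ≤ W * lam := by nlinarith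
    nlinarith
  have hxM : ∀ i l, |xo B i l| ≤ M := by
    intro i l
    have h1 : w i * lam * (|tgt (X i l) true - B (Sum.inr i) (Sum.inl (l, true))| +
        |tgt (X i l) false - B (Sum.inr i) (Sum.inl (l, false))|) ≤ S2 := by
      refine le_trans (Finset.single_le_sum (f := fun l => w i * lam *
        (|tgt (X i l) true - B (Sum.inr i) (Sum.inl (l, true))| +
        |tgt (X i l) false - B (Sum.inr i) (Sum.inl (l, false))|))
        (fun l _ => hS2' i l) (Finset.mem_univ l)) ?_
      exact Finset.single_le_sum (f := fun i => ∑ l, w i * lam *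
        (|tgt (X i l) true - B (Sum.inr i) (Sum.inl (l, true))| +
        |tgt (X i l) false - B (Sum.inr i) (Sum.inl (l, false))|))
        (fun i _ => Finset.sum_nonneg fun l _ => hS2' i l) (Finset.mem_univ i)
    have h2 : lam * |tgt (X i l) true - xo B i l| ≤ lam * (2 * W * N + 1) := by
      have h3 : lam * |tgt (X i l) true - xo B i l| ≤
          w i * lam * (|tgt (X i l) true - B (Sum.inr i) (Sum.inl (l, true))| +
            |tgt (X i l) false - B (Sum.inr i) (Sum.inl (l, false))|) := by
        have h4 : 0 ≤ |tgt (X i l) false - B (Sum.inr i) (Sum.inl (l, false))| := abs_nonneg _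
        have h5 : 0 ≤ |tgt (X i l) true - xo B i l| := abs_nonneg _
        have h6 : 1 * (lam * |tgt (X i l) true - xo B i l|) ≤
            w i * (lam * |tgt (X i l) true - xo B i l|) :=
          mul_le_mul_of_nonneg_right (hw i).1 (by positivity)
        have h7 : w i * lam * |tgt (X i l) true - xo B i l| ≤
            w i * lam * (|tgt (X i l) true - B (Sum.inr i) (Sum.inl (l, true))| +
            |tgt (X i l) false - B (Sum.inr i) (Sum.inl (l, false))|) := by
          apply mul_le_mul_of_nonneg_left _ (by have := hw0 i; positivity)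
          exact le_add_of_nonneg_right h4
        linarith
      have h8 : (1 : ℝ) ≤ lam := by linarith
      nlinarith
    have h3 : |tgt (X i l) true - xo B i l| ≤ 2 * W * N + 1 := le_of_mul_le_mul_left h2 hlam0
    have h4 := abs_tgt_le (X i l) true (hX i l)
    have h5 := abs_sub_abs_le_abs_sub (xo B i l) (tgt (X i l) true)
    rw [abs_sub_comm] at h5
    linarith
  have hyM : ∀ l j, |yo B l j| ≤ M := by
    intro l j
    have h1 : W * lam * (|tgt (Y l j) true - B (Sum.inl (l, true)) (Sum.inr j)| +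
        |tgt (Y l j) false - B (Sum.inl (l, false)) (Sum.inr j)|) ≤ S1 := by
      refine le_trans (Finset.single_le_sum (f := fun j => W * lam *
        (|tgt (Y l j) true - B (Sum.inl (l, true)) (Sum.inr j)| +
        |tgt (Y l j) false - B (Sum.inl (l, false)) (Sum.inr j)|))
        (fun j _ => hS1' l j) (Finset.mem_univ j)) ?_
      exact Finset.single_le_sum (f := fun l => ∑ j, W * lam *
        (|tgt (Y l j) true - B (Sum.inl (l, true)) (Sum.inr j)| +
        |tgt (Y l j) false - B (Sum.inl (l, false)) (Sum.inr j)|))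
        (fun l _ => Finset.sum_nonneg fun j _ => hS1' l j) (Finset.mem_univ l)
    have h2 : lam * |tgt (Y l j) true - yo B l j| ≤ lam * (2 * W * N + 1) := by
      have h3 : lam * |tgt (Y l j) true - yo B l j| ≤
          W * lam * (|tgt (Y l j) true - B (Sum.inl (l, true)) (Sum.inr j)| +
            |tgt (Y l j) false - B (Sum.inl (l, false)) (Sum.inr j)|) := by
        have h4 : 0 ≤ |tgt (Y l j) false - B (Sum.inl (l, false)) (Sum.inr j)| := abs_nonneg _
        have h5 : 0 ≤ |tgt (Y l j) true - yo B l j| := abs_nonneg _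
        have h6 : 1 * (lam * |tgt (Y l j) true - yo B l j|) ≤
            W * (lam * |tgt (Y l j) true - yo B l j|) :=
          mul_le_mul_of_nonneg_right hW (by positivity)
        have h7 : W * lam * |tgt (Y l j) true - yo B l j| ≤
            W * lam * (|tgt (Y l j) true - B (Sum.inl (l, true)) (Sum.inr j)| +
            |tgt (Y l j) false - B (Sum.inl (l, false)) (Sum.inr j)|) := by
          apply mul_le_mul_of_nonneg_left _ hWlam.le
          exact le_add_of_nonneg_right h4
        linarith
      have h8 : (1 : ℝ) ≤ lam := by linarith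
      nlinarith
    have h3 : |tgt (Y l j) true - yo B l j| ≤ 2 * W * N + 1 := le_of_mul_le_mul_left h2 hlam0
    have h4 := abs_tgt_le (Y l j) true (hY l j)
    have h5 := abs_sub_abs_le_abs_sub (yo B l j) (tgt (Y l j) true)
    rw [abs_sub_comm] at h5
    linarith
  -- rounding
  set x' : I → L → ℝ := fun i l => near (X i l) (xo B i l) with hx'
  set y' : L → J → ℝ := fun l j => near (Y l j) (yo B l j) with hy'
  refine ⟨x', y', fun i l => fill_near _ _, fun l j => fill_near _ _, ?_⟩
  set DX := ∑ i, ∑ l, w i * |xo B i l - x' i l| with hDX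
  set DY := ∑ l, ∑ j, |yo B l j - y' l j| with hDY
  set TG := ∑ i, ∑ j, w i * |Z i j - ∑ l, x' i l * y' l j| with hTG
  set TO := ∑ i, ∑ j, w i * |Z i j - ∑ l, xo B i l * yo B l j| with hTO
  have hDX0 : 0 ≤ DX := Finset.sum_nonneg fun i _ => Finset.sum_nonneg fun l _ => by
    have := hw0 i
    positivity
  have hDY0 : 0 ≤ DY := Finset.sum_nonneg fun i _ => Finset.sum_nonneg fun l _ => abs_nonneg _
  have h1 : (∑ l, ∑ j, W * lam * base (Y l j)) + 2 * W * lam * DY -
      Fintype.card L * Fintype.card J * (W * lam * (4 * M * dev B)) ≤ S1 := by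
    have e1 : (∑ l, ∑ j, W * lam * base (Y l j)) + 2 * W * lam * DY -
      Fintype.card L * Fintype.card J * (W * lam * (4 * M * dev B)) =
      ∑ l, ∑ j, W * lam * (base (Y l j) + 2 * |yo B l j - y' l j| - 4 * M * dev B) := by
      rw [hDY]
      simp only [mul_sub, mul_add, Finset.sum_sub_distrib, Finset.sum_add_distrib,
        Finset.sum_const, Finset.card_univ, nsmul_eq_mul, ← Finset.mul_sum]
      ring
    rw [e1]
    apply Finset.sum_le_sum
    intro l _
    apply Finset.sum_le_sum
    intro j _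
    apply mul_le_mul_of_nonneg_left _ hWlam.le
    have h2 := base_le (Y l j) (yo B l j)
    have h3 := y_close hB hd2 M hM0 j (fun l => hyM l j) l
    have h4 := abs_sub_abs_le_abs_sub (tgt (Y l j) false - yo B l j)
      (tgt (Y l j) false - B (Sum.inl (l, false)) (Sum.inr j))
    have h5 : tgt (Y l j) false - yo B l j -
      (tgt (Y l j) false - B (Sum.inl (l, false)) (Sum.inr j)) =
      B (Sum.inl (l, false)) (Sum.inr j) - yo B l j := by ring
    rw [h5] at h4
    have h6 : |tgt (Y l j) true - B (Sum.inl (l, true)) (Sum.inr j)| =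
      |tgt (Y l j) true - yo B l j| := rfl
    rw [h6]
    linarith
  have h2 : (∑ i, ∑ l, w i * lam * base (X i l)) + 2 * lam * DX -
      Fintype.card I * Fintype.card L * (W * lam * (4 * M * dev B)) ≤ S2 := by
    have e1 : (∑ i, ∑ l, w i * lam * base (X i l)) + 2 * lam * DX -
      Fintype.card I * Fintype.card L * (W * lam * (4 * M * dev B)) =
      ∑ i, ∑ l, (w i * lam * (base (X i l) + 2 * |xo B i l - x' i l|) -
        W * lam * (4 * M * dev B)) := by
      have e2 : 2 * lam * DX = ∑ i, ∑ l, w i * lam * (2 * |xo B i l - x' i l|) := by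
        rw [hDX, Finset.mul_sum]
        apply Finset.sum_congr rfl
        intro i _
        rw [Finset.mul_sum]
        apply Finset.sum_congr rfl
        intro l _
        ring
      rw [e2]
      simp only [mul_add, Finset.sum_sub_distrib, Finset.sum_add_distrib,
        Finset.sum_const, Finset.card_univ, nsmul_eq_mul]
      ring
    rw [e1]
    apply Finset.sum_le_sum
    intro i _
    apply Finset.sum_le_sum
    intro l _
    have h2 := base_le (X i l) (xo B i l)
    have h3 := x_close hB hd2 M hM0 i (fun l => hxM i l) l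
    have h4 := abs_sub_abs_le_abs_sub (tgt (X i l) false - xo B i l)
      (tgt (X i l) false - B (Sum.inr i) (Sum.inl (l, false)))
    have h5 : tgt (X i l) false - xo B i l -
      (tgt (X i l) false - B (Sum.inr i) (Sum.inl (l, false))) =
      B (Sum.inr i) (Sum.inl (l, false)) - xo B i l := by ring
    rw [h5] at h4
    have h6 : |tgt (X i l) true - B (Sum.inr i) (Sum.inl (l, true))| =
      |tgt (X i l) true - xo B i l| := rfl
    rw [h6]
    have h7 : w i * lam * (base (X i l) + 2 * |xo B i l - x' i l| - 4 * M * dev B) ≤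
        w i * lam * (|tgt (X i l) true - xo B i l| +
          |tgt (X i l) false - B (Sum.inr i) (Sum.inl (l, false))|) := by
      apply mul_le_mul_of_nonneg_left _ (by have := hw0 i; positivity)
      linarith
    have h8 : w i * (lam * (4 * M * dev B)) ≤ W * (lam * (4 * M * dev B)) :=
      mul_le_mul_of_nonneg_right (hw i).2 (by positivity)
    linarith
  have h3 : TO - Fintype.card I * Fintype.card J * (W * (2 * M ^ 2 * dev B)) ≤ S3 := by
    have e1 : TO - Fintype.card I * Fintype.card J * (W * (2 * M ^ 2 * dev B)) =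
        ∑ i, ∑ j, (w i * |Z i j - ∑ l, xo B i l * yo B l j| - W * (2 * M ^ 2 * dev B)) := by
      rw [hTO]
      simp only [Finset.sum_sub_distrib, Finset.sum_const, Finset.card_univ, nsmul_eq_mul]
      ring
    rw [e1]
    apply Finset.sum_le_sum
    intro i _
    apply Finset.sum_le_sum
    intro j _
    have h4 := z_close hB hd2 M hM0 i j (fun l => hxM i l) (fun l => hyM l j)
    have h5 := abs_sub_abs_le_abs_sub (Z i j - ∑ l, xo B i l * yo B l j)
      (Z i j - B (Sum.inr i) (Sum.inr j))
    have h6 : Z i j - ∑ l, xo B i l * yo B l j - (Z i j - B (Sum.inr i) (Sum.inr j)) =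
      B (Sum.inr i) (Sum.inr j) - ∑ l, xo B i l * yo B l j := by ring
    rw [h6] at h5
    have h7 : w i * (|Z i j - ∑ l, xo B i l * yo B l j| - 2 * M ^ 2 * dev B) ≤
        w i * |Z i j - B (Sum.inr i) (Sum.inr j)| :=
      mul_le_mul_of_nonneg_left (by linarith) (hw0 i).le
    have h8 : w i * (2 * M ^ 2 * dev B) ≤ W * (2 * M ^ 2 * dev B) :=
      mul_le_mul_of_nonneg_right (hw i).2 (by positivity)
    linarith
  have h4 : TG - Fintype.card J * M * DX - 2 * Fintype.card I * W * DY ≤ TO := by
    have e1 : TG - ∑ i, ∑ j, w i * ∑ l, (M * |xo B i l - x' i l| + 2 * |yo B l j - y' l j|) ≤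
        TO := by
      rw [hTG, hTO, ← Finset.sum_sub_distrib]
      apply Finset.sum_le_sum
      intro i _
      rw [← Finset.sum_sub_distrib]
      apply Finset.sum_le_sum
      intro j _
      rw [← mul_sub]
      apply mul_le_mul_of_nonneg_left _ (hw0 i).le
      exact abs_dot_sub_le (fun l => xo B i l) (fun l => yo B l j) (fun l => x' i l)
        (fun l => y' l j) (Z i j) M (fun l => hyM l j) (fun l => abs_near_le _ _ (hX i l))
    have e2 : ∑ i, ∑ j, w i * ∑ l, (M * |xo B i l - x' i l| + 2 * |yo B l j - y' l j|) =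
        Fintype.card J * M * DX + 2 * (∑ i, w i) * DY := by
      have e3 : ∀ i, ∑ j, w i * ∑ l, (M * |xo B i l - x' i l| + 2 * |yo B l j - y' l j|) =
          Fintype.card J * M * (∑ l, w i * |xo B i l - x' i l|) + w i * (2 * DY) := by
        intro i
        rw [hDY, Finset.sum_comm (s := univ) (t := univ) (f := fun l j => |yo B l j - y' l j|)]
        simp only [Finset.sum_add_distrib, mul_add, ← Finset.mul_sum, Finset.sum_const,
          Finset.card_univ, nsmul_eq_mul]
        ring
      rw [Finset.sum_congr rfl fun i _ => e3 i, Finset.sum_add_distrib, ← Finset.mul_sum,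
        ← Finset.sum_mul]
      ring
    have e3 : ∑ i, w i ≤ Fintype.card I * W := by
      refine (Finset.sum_le_sum fun i _ => (hw i).2).trans_eq ?_
      simp
    have e4 : (∑ i, w i) * DY ≤ Fintype.card I * W * DY := mul_le_mul_of_nonneg_right e3 hDY0
    rw [e2] at e1
    linarith
  -- combination
  have hc0 : (∑ i, ∑ l, w i * lam * base (X i l)) + (∑ l, ∑ j, W * lam * base (Y l j)) =
      2 * W * lam * N := hcN
  have k1 : 0 ≤ W * dev B * (lam * lam - (4 * M * lam * Fintype.card L *
      (Fintype.card I + Fintype.card J) + 2 * M ^ 2 * Fintype.card I * Fintype.card J)) := by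
    apply mul_nonneg (by positivity)
    have h5 : lam * (4 * M * Fintype.card L * (Fintype.card I + Fintype.card J) +
      2 * M ^ 2 * Fintype.card I * Fintype.card J) ≤ lam * lam :=
      mul_le_mul_of_nonneg_left (by linarith) hlam0.le
    have h6 : 1 * (2 * M ^ 2 * Fintype.card I * Fintype.card J) ≤
        lam * (2 * M ^ 2 * Fintype.card I * Fintype.card J) :=
      mul_le_mul_of_nonneg_right (by linarith) ht2
    linarith
  have k2 : 0 ≤ (2 * lam - Fintype.card J * M) * DX := mul_nonneg (by linarith) hDX0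
  have k3 : 0 ≤ (2 * lam - 2 * Fintype.card I) * (W * DY) := by
    apply mul_nonneg
    · linarith
    · positivity
  linarith

/-- Scaling of the rows and columns. -/
theorem exists_scale {R C : Type} [Fintype R] [Fintype C] {k : ℕ} (B : Matrix R C ℝ) (u : R → ℝ)
    (v : C → ℝ) (hB : B.rank ≤ k) :
    ∃ B' : Matrix R C ℝ, B'.rank ≤ k ∧ ∀ r c, B' r c = u r * B r c * v c := by
  classical
  refine ⟨(Matrix.diagonal u * B : Matrix R C ℝ) * (Matrix.diagonal v : Matrix C C ℝ), ?_, ?_⟩
  · exact ((Matrix.rank_mul_le_left _ _).trans (Matrix.rank_mul_le_right _ _)).trans hB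
  · intro r c
    rw [Matrix.mul_diagonal, Matrix.diagonal_mul]

end L1

open L1 in
/-- Task C1 -/
theorem core1 {I J L : Type} [Fintype I] [Fintype J] [Fintype L] [DecidableEq I] [DecidableEq J]
    [DecidableEq L] (X : I → L → Option ℝ) (Y : L → J → Option ℝ) (Z : I → J → ℝ)
    (hX : ∀ i l a, X i l = some a → |a| ≤ 2) (hY : ∀ l j a, Y l j = some a → |a| ≤ 2)
    (w : I → ℝ) (W Λ M : ℝ) (hw : ∀ i, 1 ≤ w i ∧ w i ≤ W) (hW : 1 ≤ W)
    (hs : ∀ i l, X i l = none → w i = W)
    (hM : 2 * W * nStar X Y + 3 ≤ M)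
    (hΛ : 4 * M * Fintype.card L * (Fintype.card I + Fintype.card J) +
      2 * M ^ 2 * Fintype.card I * Fintype.card J + 4 * nStar X Y + 2 + M * Fintype.card J +
      2 * Fintype.card I ≤ Λ) :
    Yes1 (mat1 X Y Z w W Λ) (Fintype.card L) (2 * W * Λ * nStar X Y + 1) ↔ BilB X Y Z w := by
  classical
  have hW0 : 0 < W := by linarith
  have hN0 : (0 : ℝ) ≤ nStar X Y := by positivity
  have hM0 : 0 ≤ M := by
    have : 0 ≤ 2 * W * (nStar X Y : ℝ) := by positivity
    linarith
  have hΛ0 : 0 < Λ := by
    have ht1 : 0 ≤ 4 * M * Fintype.card L * (Fintype.card I + Fintype.card J) := by positivity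
    have ht2 : 0 ≤ 2 * M ^ 2 * Fintype.card I * Fintype.card J := by positivity
    have ht3 : 0 ≤ M * Fintype.card J := by positivity
    have ht4 : (0 : ℝ) ≤ 2 * Fintype.card I := by positivity
    linarith
  have hw0 : ∀ i, 0 < w i := fun i => by linarith [(hw i).1]
  have hcN : cost0 X Y W Λ w = 2 * W * Λ * nStar X Y := by
    unfold cost0 nStar
    have h1 : ∑ i, ∑ l, w i * Λ * base (X i l) =
        2 * W * Λ * ({p : I × L | X p.1 p.2 = none}.ncard : ℝ) := by
      have h2 : {p : I × L | X p.1 p.2 = none} =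
          ((univ.filter fun p : I × L => X p.1 p.2 = none : Finset (I × L)) : Set (I × L)) := by
        ext p
        simp
      rw [h2, Set.ncard_coe_finset, Finset.card_filter, ← Fintype.sum_prod_type'
        (f := fun i l => w i * Λ * base (X i l))]
      push_cast
      rw [Finset.mul_sum]
      apply Finset.sum_congr rfl
      intro p _
      cases hp : X p.1 p.2 with
      | none => simp only [base, if_true]; rw [hs _ _ hp]; ring
      | some a => simp [base]
    have h3 : ∑ l, ∑ j, W * Λ * base (Y l j) =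
        2 * W * Λ * ({p : L × J | Y p.1 p.2 = none}.ncard : ℝ) := by
      have h2 : {p : L × J | Y p.1 p.2 = none} =
          ((univ.filter fun p : L × J => Y p.1 p.2 = none : Finset (L × J)) : Set (L × J)) := by
        ext p
        simp
      rw [h2, Set.ncard_coe_finset, Finset.card_filter, ← Fintype.sum_prod_type'
        (f := fun l j => W * Λ * base (Y l j))]
      push_cast
      rw [Finset.mul_sum]
      apply Finset.sum_congr rfl
      intro p _
      cases hp : Y p.1 p.2 with
      | none => simp only [base, if_true]; ring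
      | some a => simp [base]
    rw [h1, h3]
    push_cast
    ring
  have hmat : ∀ r c, mat1 X Y Z w W Λ r c = wr W Λ w r * wc Λ c * A0 X Y Z r c := by
    intro r c
    rcases r with ⟨l, b⟩ | i <;> rcases c with ⟨l', b'⟩ | j
    · simp only [mat1, wr, wc, A0]
      split_ifs <;> ring
    · simp only [mat1, wr, wc, A0, tgt]
      ring
    · simp only [mat1, wr, wc, A0, tgt]
    · simp only [mat1, wr, wc, A0]
      ring
  have hwr : ∀ r : L × Bool ⊕ I, 0 < wr W Λ w r := by
    intro r
    rcases r with p | i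
    · simp only [wr]; positivity
    · exact hw0 i
  have hwc : ∀ c : L × Bool ⊕ J, 0 < wc Λ c := by
    intro r
    rcases r with p | i
    · exact hΛ0
    · simp [wc]
  constructor
  · rintro ⟨B', hB', hcost⟩
    obtain ⟨B, hrank, hentry⟩ := exists_scale B' (fun r => (wr W Λ w r)⁻¹)
      (fun c => (wc Λ c)⁻¹) hB'
    refine hard X Y Z hX hY w W Λ M (nStar X Y) hw hW hN0 hM hΛ B hrank hcN ?_
    refine lt_of_eq_of_lt ?_ hcost
    unfold cost
    apply Finset.sum_congr rfl
    intro r _
    apply Finset.sum_congr rfl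
    intro c _
    have h1 := hwr r
    have h2 := hwc c
    rw [hmat, hentry]
    have h3 : wr W Λ w r * wc Λ c * A0 X Y Z r c - B' r c =
        wr W Λ w r * wc Λ c * (A0 X Y Z r c - (wr W Λ w r)⁻¹ * B' r c * (wc Λ c)⁻¹) := by
      field_simp
    rw [h3, abs_mul, abs_of_pos (by positivity : 0 < wr W Λ w r * wc Λ c)]
  · rintro ⟨x, y, hx, hy, hlt⟩
    obtain ⟨B, hrank, hentry⟩ := exists_scale (prodMat x y) (fun r => wr W Λ w r)
      (fun c => wc Λ c) (prodMat_rank x y)
    refine ⟨B, hrank, ?_⟩
    · have h1 : ∑ i, ∑ j, |mat1 X Y Z w W Λ i j - B i j| = cost X Y Z W Λ w (prodMat x y) := by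
        unfold cost
        apply Finset.sum_congr rfl
        intro r _
        apply Finset.sum_congr rfl
        intro c _
        have h1 := hwr r
        have h2 := hwc c
        rw [hmat, hentry]
        have h3 : wr W Λ w r * wc Λ c * A0 X Y Z r c - wr W Λ w r * prodMat x y r c * wc Λ c =
            wr W Λ w r * wc Λ c * (A0 X Y Z r c - prodMat x y r c) := by ring
        rw [h3, abs_mul, abs_of_pos (by positivity : 0 < wr W Λ w r * wc Λ c)]
      rw [h1, cost_prodMat X Y Z W Λ w x y hx hy, hcN]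
      linarith

end Pool.Agent.LRA67
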