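import Pool.Agent.LibComplexity.Decode

/-!
The existential theory of the reals and entrywise low-rank approximation, as languages.
-/

set_option autoImplicit false

namespace Pool.Agent.LRA67

open Pool.Agent.LibComplexity Function Enc

/-! ### The existential theory of the reals -/

/-- Polynomial expressions. Variables are named by binary words; integer constants are given in
binary (a sign, and the digits, least significant digit first). -/
inductive PTerm
  | var (name : List Bool)
  | const (neg : Bool) (digits : List Bool)
  | add (s t : PTerm)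
  | mul (s t : PTerm)

/-- the number with the given binary digits, least significant digit first -/
def binVal : List Bool → ℕ
  | [] => 0
  | b :: l => (if b then 1 else 0) + 2 * binVal l

/-- the value of a polynomial expression -/
def PTerm.val (x : List Bool → ℝ) : PTerm → ℝ
  | .var a => x a
  | .const s d => if s then -(binVal d : ℝ) else (binVal d : ℝ)
  | .add s t => s.val x + t.val x
  | .mul s t => s.val x * t.val x

/-- Quantifier-free Boolean combinations of polynomial equations and inequalities. -/
inductive Fml
  | eq (s t : PTerm)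
  | le (s t : PTerm)
  | lt (s t : PTerm)
  | not (φ : Fml)
  | and (φ ψ : Fml)
  | or (φ ψ : Fml)

/-- the truth of a formula for given real values of the variables -/
def Fml.Holds (x : List Bool → ℝ) : Fml → Prop
  | .eq s t => s.val x = t.val x
  | .le s t => s.val x ≤ t.val x
  | .lt s t => s.val x < t.val x
  | .not φ => ¬ φ.Holds x
  | .and φ ψ => φ.Holds x ∧ ψ.Holds x
  | .or φ ψ => φ.Holds x ∨ ψ.Holds x

/-- the syntax tree of an expression, as a binary tree -/
def PTerm.tr : PTerm → Tr
  | .var a => .cons (e (0 : ℕ)) (e a)
  | .const s d => .cons (e (1 : ℕ)) (e (s, d))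
  | .add s t => .cons (e (2 : ℕ)) (.cons s.tr t.tr)
  | .mul s t => .cons (e (3 : ℕ)) (.cons s.tr t.tr)

/-- the syntax tree of a formula, as a binary tree -/
def Fml.tr : Fml → Tr
  | .eq s t => .cons (e (0 : ℕ)) (.cons s.tr t.tr)
  | .le s t => .cons (e (1 : ℕ)) (.cons s.tr t.tr)
  | .lt s t => .cons (e (2 : ℕ)) (.cons s.tr t.tr)
  | .not φ => .cons (e (3 : ℕ)) φ.tr
  | .and φ ψ => .cons (e (4 : ℕ)) (.cons φ.tr ψ.tr)
  | .or φ ψ => .cons (e (5 : ℕ)) (.cons φ.tr ψ.tr)

/-- The existential theory of the reals: the (words that encode) formulas that hold for some real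
values of their variables. -/
def ETR : Set (List Bool) :=
  {w | ∃ φ : Fml, w = φ.tr.enc ∧ ∃ x : List Bool → ℝ, φ.Holds x}

/-! ### Low-rank approximation -/

/-- the binary code of a rational number: sign, numerator and denominator -/
def encRat (q : ℚ) : Bool × List Bool × List Bool :=
  (decide (q < 0), Nat.bits q.num.natAbs, Nat.bits q.den)

/-- the word that encodes a matrix, a rank bound and an error bound -/
def encInst {m n : ℕ} (A : Matrix (Fin m) (Fin n) ℚ) (k : ℕ) (ε : ℚ) : List Bool :=
  word ((List.ofFn fun i => List.ofFn fun j => encRat (A i j)), Nat.bits k, encRat ε)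

/-- the entrywise `ℓ^p` distance of two matrices; for `p = 0` it is the number of entries in
which they differ -/
noncomputable def entryDist (p : ℚ) {m n : ℕ} (A B : Matrix (Fin m) (Fin n) ℝ) : ℝ :=
  if p = 0 then ((Finset.univ.filter fun ij : Fin m × Fin n => A ij.1 ij.2 ≠ B ij.1 ij.2).card : ℝ)
  else (∑ i, ∑ j, |A i j - B i j| ^ (p : ℝ)) ^ (1 / (p : ℝ))

/-- The decision problem `LRA_p`: given a rational matrix `A`, a natural number `k` and a rational
`ε > 0`, is there a real matrix `B` of rank at most `k` with `‖A - B‖_p < ε`? -/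
def LRA (p : ℚ) : Set (List Bool) :=
  {w | ∃ (m n : ℕ) (A : Matrix (Fin m) (Fin n) ℚ) (k : ℕ) (ε : ℚ), 0 < ε ∧ w = encInst A k ε ∧
    ∃ B : Matrix (Fin m) (Fin n) ℝ, B.rank ≤ k ∧
      entryDist p (A.map fun q => (q : ℝ)) B < (ε : ℝ)}

end Pool.Agent.LRA67
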