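import Pool.Agent.LRA67.Sys

/-!
The scalar products of the gadget.
-/

set_option autoImplicit false

namespace Pool.Agent.LRA67

open Function

namespace Gad

variable (s : Sys) (o : ℕ)

/-- the pivots -/
abbrev PA (v : ℕ) : PivC := ((0, v), (0, 0))
abbrev PB (v : ℕ) : PivC := ((1, v), (0, 0))
abbrev PQ : PivC := ((2, 0), (0, 0))
abbrev PO : PivC := ((3, 0), (0, 0))
abbrev PT : PivC := ((4, 0), (0, 0))
abbrev PS (g : ℕ) (j : ColC) : PivC := ((5, g), j)

/-! ### Codes -/

theorem fill1 (v : ℝ) : Fill (cvalR 1) v ↔ v = 0 := by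
  simp [Fill, cvalR, cval]

theorem fill2 (v : ℝ) : Fill (cvalR 2) v ↔ v = 1 := by
  simp [Fill, cvalR, cval]

theorem fill3 (v : ℝ) : Fill (cvalR 3) v ↔ v = -1 := by
  simp [Fill, cvalR, cval]

theorem fill4 (v : ℝ) : Fill (cvalR 4) v ↔ v = 2 := by
  simp [Fill, cvalR, cval]

theorem cvalR0 : cvalR 0 = none := by simp [cvalR, cval]

/-! ### The list of pivots -/

theorem mem_cols (j : ColC) : j ∈ cols s ↔ (j.1 = 0 ∧ j.2 < s.1) ∨
    (j.1 = 1 ∧ j.2 < s.2.1.length + 1) ∨ (j.1 = 2 ∧ j.2 < s.1) ∨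
    (j.1 = 3 ∧ j.2 < s.2.2.length) := by
  obtain ⟨a, b⟩ := j
  simp only [cols, List.mem_append, List.mem_map, List.mem_range, Prod.mk.injEq]
  constructor
  · rintro (((⟨v, h, rfl, rfl⟩ | ⟨v, h, rfl, rfl⟩) | ⟨v, h, rfl, rfl⟩) | ⟨v, h, rfl, rfl⟩) <;> simp [h]
  · rintro (⟨rfl, h⟩ | ⟨rfl, h⟩ | ⟨rfl, h⟩ | ⟨rfl, h⟩) <;> simp [h]

theorem mem_rows (i : RowC) : i ∈ rows s ↔ i = (0, 0) ∨ i = (2, 0) ∨
    (i.1 = 1 ∧ i.2 < s.2.1.length + 1) := by
  obtain ⟨a, b⟩ := i
  simp only [rows, List.mem_cons, List.mem_map, List.mem_range, Prod.mk.injEq]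
  constructor
  · rintro (h | h | ⟨v, h, rfl, rfl⟩) <;> simp [h]
  · rintro (h | h | ⟨rfl, h⟩) <;> simp [h]

theorem nodup_map_pair (n k : ℕ) : ((List.range n).map fun v => ((k, v) : ℕ × ℕ)).Nodup := by
  refine List.Nodup.map ?_ List.nodup_range
  intro a b h
  simpa using h

theorem cols_nodup : (cols s).Nodup := by
  rw [cols]
  rw [List.nodup_append, List.nodup_append, List.nodup_append]
  refine ⟨⟨⟨nodup_map_pair _ _, nodup_map_pair _ _, ?_⟩, nodup_map_pair _ _, ?_⟩,
    nodup_map_pair _ _, ?_⟩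
  · intro a ha b hb
    simp only [List.mem_map] at ha hb
    rintro rfl
    obtain ⟨_, _, rfl⟩ := hb
    simp at ha
  · intro a ha b hb
    simp only [List.mem_map, List.mem_append] at ha hb
    rintro rfl
    obtain ⟨_, _, rfl⟩ := hb
    simp at ha
  · intro a ha b hb
    simp only [List.mem_map, List.mem_append] at ha hb
    rintro rfl
    obtain ⟨_, _, rfl⟩ := hb
    simp at ha

theorem pivs_nodup : (pivs s o).Nodup := by
  rw [pivs]
  rw [List.nodup_append, List.nodup_append, List.nodup_append]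
  have hm : ∀ n k : ℕ, ((List.range n).map fun v => (((k, v), (0, 0)) : PivC)).Nodup := by
    intro n k
    refine List.Nodup.map ?_ List.nodup_range
    intro a b h
    simpa using h
  refine ⟨⟨⟨hm _ _, hm _ _, ?_⟩, by simp, ?_⟩, ?_, ?_⟩
  · intro a ha b hb
    simp only [List.mem_map] at ha hb
    rintro rfl
    obtain ⟨_, _, rfl⟩ := hb
    simp at ha
  · intro a ha b hb
    simp only [List.mem_map, List.mem_append] at ha
    rintro rfl
    rcases ha with ⟨_, _, rfl⟩ | ⟨_, _, rfl⟩ <;> simp at hb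
  · rw [List.nodup_flatMap]
    constructor
    · intro g _
      refine List.Nodup.map ?_ ((cols_nodup s).filter _)
      intro a b h
      simpa using h
    · refine List.nodup_range.imp ?_
      intro a b hab l hla hlb
      simp only [List.mem_map] at hla hlb
      obtain ⟨_, _, rfl⟩ := hla
      obtain ⟨_, _, h⟩ := hlb
      simp only [Prod.mk.injEq] at h
      exact hab h.1.2.symm
  · intro a ha b hb
    simp only [List.mem_flatMap, List.mem_map] at hb
    rintro rfl
    obtain ⟨_, _, _, _, rfl⟩ := hb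
    simp at ha

theorem mem_PA {v : ℕ} : PA v ∈ pivs s o ↔ v < s.1 := by
  simp [pivs]

theorem mem_PB {v : ℕ} : PB v ∈ pivs s o ↔ v < s.1 := by
  simp [pivs]

theorem mem_PQ : PQ ∈ pivs s o := by simp [pivs]
theorem mem_PO : PO ∈ pivs s o := by simp [pivs]
theorem mem_PT : PT ∈ pivs s o := by simp [pivs]

theorem mem_PS {g : ℕ} {j : ColC} : PS g j ∈ pivs s o ↔
    g < s.2.1.length + 1 ∧ j ∈ cols s ∧ active s o g j = false := by
  simp [pivs]

theorem range_sum (n : ℕ) (f : ℕ → ℝ) :
    ((List.range n).map f).sum = ∑ i ∈ Finset.range n, f i := by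
  rw [← List.sum_toFinset f List.nodup_range, List.toFinset_range]

theorem sum_flatMap' {α : Type} (l : List α) (f : α → List ℝ) :
    (l.flatMap f).sum = (l.map fun a => (f a).sum).sum := by
  induction l with
  | nil => simp
  | cons a l ih => simp [ih]

theorem sum_LT (F : PivC → ℝ) : ∑ l : LT s o, F l.1 =
    (∑ v ∈ Finset.range s.1, F (PA v)) + (∑ v ∈ Finset.range s.1, F (PB v)) +
      (F PQ + F PO + F PT) + ∑ g ∈ Finset.range (s.2.1.length + 1),
        ∑ j ∈ ((cols s).filter fun j => !active s o g j).toFinset, F (PS g j) := by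
  rw [← Finset.sum_subtype (pivs s o).toFinset (fun x => List.mem_toFinset) F,
    List.sum_toFinset F (pivs_nodup s o)]
  rw [pivs]
  simp only [List.map_append, List.sum_append, List.map_map, List.map_cons, List.map_nil,
    List.sum_cons, List.sum_nil, List.map_flatMap, sum_flatMap']
  rw [range_sum, range_sum, range_sum]
  simp only [Function.comp_def]
  congr 1
  · ring
  · refine Finset.sum_congr rfl fun g _ => ?_
    rw [← List.sum_toFinset _ ((cols_nodup s).filter _)]

/-- all fixed entries of the row `i` are right -/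
def FX (i : RowC) (X : PivC → ℝ) : Prop := ∀ l ∈ pivs s o, Fill (cvalR (xent s o i l)) (X l)

/-- all fixed entries of the column `j` are right -/
def FY (j : ColC) (Y : PivC → ℝ) : Prop := ∀ l ∈ pivs s o, Fill (cvalR (yent s o l j)) (Y l)

/-- the scalar product of a row and a column -/
noncomputable def dot (X Y : PivC → ℝ) : ℝ := ∑ l : LT s o, X l.1 * Y l.1

variable {s o}

theorem slack0 {X Y : PivC → ℝ} (h : ∀ g j, PS g j ∈ pivs s o → X (PS g j) = 0) :
    ∑ g ∈ Finset.range (s.2.1.length + 1),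
      ∑ j ∈ ((cols s).filter fun j => !active s o g j).toFinset, X (PS g j) * Y (PS g j) = 0 := by
  refine Finset.sum_eq_zero fun g hg => Finset.sum_eq_zero fun j hj => ?_
  rw [Finset.mem_range] at hg
  rw [List.mem_toFinset, List.mem_filter] at hj
  rw [h g j (by rw [mem_PS]; exact ⟨hg, hj.1, by simpa using hj.2⟩), zero_mul]

theorem yS {Y : PivC → ℝ} {j : ColC} (hY : FY s o j Y) (g : ℕ) (j' : ColC)
    (h : PS g j' ∈ pivs s o) : Y (PS g j') = if j' = j then 2 else 0 := by
  have := hY _ h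
  simp only [yent, if_true] at this
  split_ifs at this ⊢ with h1
  · exact (fill4 _).1 this
  · exact (fill1 _).1 this

theorem slackR {X Y : PivC → ℝ} {j : ColC} {g : ℕ} (hg : g < s.2.1.length + 1)
    (hj : j ∈ cols s) (hY : FY s o j Y)
    (h : ∀ g' j, PS g' j ∈ pivs s o → g' ≠ g → X (PS g' j) = 0) :
    ∑ g ∈ Finset.range (s.2.1.length + 1),
      ∑ j ∈ ((cols s).filter fun j => !active s o g j).toFinset, X (PS g j) * Y (PS g j) =
      if active s o g j then 0 else 2 * X (PS g j) := by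
  rw [Finset.sum_eq_single g]
  · split_ifs with ha
    · refine Finset.sum_eq_zero fun j' hj' => ?_
      rw [List.mem_toFinset, List.mem_filter] at hj'
      have hm : PS g j' ∈ pivs s o := (mem_PS s o).2 ⟨hg, hj'.1, by simpa using hj'.2⟩
      rw [yS hY g j' hm, if_neg, mul_zero]
      rintro rfl
      simp [ha] at hj'
    · rw [Finset.sum_eq_single j]
      · have hm : PS g j ∈ pivs s o := (mem_PS s o).2 ⟨hg, hj, by simpa using ha⟩
        rw [yS hY g j hm, if_pos rfl]
        ring
      · intro j' hj' hne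
        rw [List.mem_toFinset, List.mem_filter] at hj'
        have hm : PS g j' ∈ pivs s o := (mem_PS s o).2 ⟨hg, hj'.1, by simpa using hj'.2⟩
        rw [yS hY g j' hm, if_neg hne, mul_zero]
      · intro hn
        exfalso
        apply hn
        rw [List.mem_toFinset, List.mem_filter]
        exact ⟨hj, by simpa using ha⟩
  · intro g' hg' hne
    rw [Finset.mem_range] at hg'
    refine Finset.sum_eq_zero fun j' hj' => ?_
    rw [List.mem_toFinset, List.mem_filter] at hj'
    have hm : PS g' j' ∈ pivs s o := (mem_PS s o).2 ⟨hg', hj'.1, by simpa using hj'.2⟩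
    rw [h g' j' hm hne, zero_mul]
  · intro hn
    exact absurd (Finset.mem_range.2 hg) hn

/-! ### Rows -/

structure RowM (s : Sys) (o : ℕ) (X : PivC → ℝ) : Prop where
  q : X PQ = 0
  oo : X PO = -1
  t : X PT = 0
  sl : ∀ g j, PS g j ∈ pivs s o → X (PS g j) = 0

theorem rowM {X : PivC → ℝ} (hX : FX s o (0, 0) X) : RowM s o X where
  q := by
    have := hX _ (mem_PQ s o)
    simp only [xent, if_true] at this
    exact (fill1 _).1 this
  oo := by
    have := hX _ (mem_PO s o)
    simp only [xent, if_true] at this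
    exact (fill3 _).1 this
  t := by
    have := hX _ (mem_PT s o)
    simp only [xent, if_true] at this
    exact (fill1 _).1 this
  sl := fun g j h => by
    have := hX _ h
    simp only [xent, if_true] at this
    exact (fill1 _).1 this

structure RowR (s : Sys) (o g : ℕ) (X : PivC → ℝ) : Prop where
  a : ∀ v < s.1, X (PA v) = if g < s.2.1.length ∧ (gate s o g).1 = v then 1 else 0
  b : ∀ v < s.1, X (PB v) = 0
  q : X PQ = if g < s.2.1.length then 0 else 1
  oo : X PO = -1
  sl : ∀ g' j, PS g' j ∈ pivs s o → g' ≠ g → X (PS g' j) = 0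

theorem rowR {X : PivC → ℝ} {g : ℕ} (hX : FX s o (1, g) X) : RowR s o g X where
  a := fun v hv => by
    have := hX _ ((mem_PA s o).2 hv)
    simp only [xent, if_true, one_ne_zero, if_false] at this
    by_cases h1 : g < s.2.1.length
    · by_cases h2 : (gate s o g).1 = v
      · simp only [h1, h2, if_true] at this
        rw [if_pos ⟨h1, h2⟩]
        exact (fill2 _).1 this
      · simp only [h1, h2, if_true, if_false] at this
        rw [if_neg (fun h => h2 h.2)]
        exact (fill1 _).1 this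
    · simp only [h1, if_false] at this
      rw [if_neg (fun h => h1 h.1)]
      exact (fill1 _).1 this
  b := fun v hv => by
    have := hX _ ((mem_PB s o).2 hv)
    simp only [xent, if_true, one_ne_zero, if_false] at this
    exact (fill1 _).1 (by simpa using this)
  q := by
    have := hX _ (mem_PQ s o)
    simp only [xent, if_true, one_ne_zero, if_false] at this
    by_cases h1 : g < s.2.1.length
    · rw [if_pos h1]
      exact (fill1 _).1 (by simpa [h1] using this)
    · rw [if_neg h1]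
      exact (fill2 _).1 (by simpa [h1] using this)
  oo := by
    have := hX _ (mem_PO s o)
    exact (fill3 _).1 (by simpa [xent] using this)
  sl := fun g' j h hne => by
    have := hX _ h
    exact (fill1 _).1 (by simpa [xent, hne] using this)

structure RowZ (s : Sys) (o : ℕ) (X : PivC → ℝ) : Prop where
  a : ∀ v < s.1, X (PA v) = 0
  b : ∀ v < s.1, X (PB v) = 0
  q : X PQ = 1
  oo : X PO = 0
  t : X PT = 0
  sl : ∀ g j, PS g j ∈ pivs s o → X (PS g j) = 0

theorem rowZ {X : PivC → ℝ} (hX : FX s o (2, 0) X) : RowZ s o X where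
  a := fun v hv => by
    have := hX _ ((mem_PA s o).2 hv)
    exact (fill1 _).1 (by simpa [xent] using this)
  b := fun v hv => by
    have := hX _ ((mem_PB s o).2 hv)
    exact (fill1 _).1 (by simpa [xent] using this)
  q := by
    have := hX _ (mem_PQ s o)
    exact (fill2 _).1 (by simpa [xent] using this)
  oo := by
    have := hX _ (mem_PO s o)
    exact (fill1 _).1 (by simpa [xent] using this)
  t := by
    have := hX _ (mem_PT s o)
    exact (fill1 _).1 (by simpa [xent] using this)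
  sl := fun g j h => by
    have := hX _ h
    exact (fill1 _).1 (by simpa [xent] using this)

/-! ### Columns -/

structure ColK (s : Sys) (v : ℕ) (Y : PivC → ℝ) : Prop where
  a : ∀ u < s.1, Y (PA u) = 0
  b : ∀ u < s.1, Y (PB u) = if u = v then 1 else 0
  q : Y PQ = 0
  t : Y PT = 1

theorem colK {Y : PivC → ℝ} {v : ℕ} (hY : FY s o (0, v) Y) : ColK s v Y where
  a := fun u hu => by
    have := hY _ ((mem_PA s o).2 hu)
    exact (fill1 _).1 (by simpa [yent] using this)
  b := fun u hu => by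
    have := hY _ ((mem_PB s o).2 hu)
    by_cases h : u = v
    · rw [if_pos h]
      exact (fill2 _).1 (by simpa [yent, h] using this)
    · rw [if_neg h]
      exact (fill1 _).1 (by simpa [yent, h] using this)
  q := by
    have := hY _ (mem_PQ s o)
    exact (fill1 _).1 (by simpa [yent] using this)
  t := by
    have := hY _ (mem_PT s o)
    exact (fill2 _).1 (by simpa [yent] using this)

structure ColY (s : Sys) (o g : ℕ) (Y : PivC → ℝ) : Prop where
  a : ∀ u < s.1, ¬ (g < s.2.1.length ∧ (gate s o g).1 = u) → Y (PA u) = 0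
  b : ∀ u < s.1, Y (PB u) = if g < s.2.1.length ∧ (gate s o g).2.2 = u then -1 else 0
  q : g < s.2.1.length → Y PQ = 0
  oo : Y PO = 0
  t : Y PT = -1

theorem colY {Y : PivC → ℝ} {g : ℕ} (hY : FY s o (1, g) Y) : ColY s o g Y where
  a := fun u hu h => by
    have := hY _ ((mem_PA s o).2 hu)
    by_cases h1 : g < s.2.1.length
    · have h2 : ¬ (gate s o g).1 = u := fun h2 => h ⟨h1, h2⟩
      exact (fill1 _).1 (by simpa [yent, h1, h2] using this)
    · exact (fill1 _).1 (by simpa [yent, h1] using this)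
  b := fun u hu => by
    have := hY _ ((mem_PB s o).2 hu)
    by_cases h1 : g < s.2.1.length
    · by_cases h2 : (gate s o g).2.2 = u
      · rw [if_pos ⟨h1, h2⟩]
        exact (fill3 _).1 (by simpa [yent, h1, h2] using this)
      · rw [if_neg (fun h => h2 h.2)]
        exact (fill1 _).1 (by simpa [yent, h1, h2] using this)
    · rw [if_neg (fun h => h1 h.1)]
      exact (fill1 _).1 (by simpa [yent, h1] using this)
  q := fun h1 => by
    have := hY _ (mem_PQ s o)
    exact (fill1 _).1 (by simpa [yent, h1] using this)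
  oo := by
    have := hY _ (mem_PO s o)
    exact (fill1 _).1 (by simpa [yent] using this)
  t := by
    have := hY _ (mem_PT s o)
    exact (fill3 _).1 (by simpa [yent] using this)

structure ColC' (s : Sys) (v : ℕ) (Y : PivC → ℝ) : Prop where
  a : ∀ u < s.1, Y (PA u) = if u = v then 1 else 0
  b : ∀ u < s.1, Y (PB u) = if u = v then -1 else 0
  q : Y PQ = 0
  oo : Y PO = 0
  t : Y PT = 0

theorem colC {Y : PivC → ℝ} {v : ℕ} (hY : FY s o (2, v) Y) : ColC' s v Y where
  a := fun u hu => by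
    have := hY _ ((mem_PA s o).2 hu)
    by_cases h : u = v
    · rw [if_pos h]
      exact (fill2 _).1 (by simpa [yent, h] using this)
    · rw [if_neg h]
      exact (fill1 _).1 (by simpa [yent, h] using this)
  b := fun u hu => by
    have := hY _ ((mem_PB s o).2 hu)
    by_cases h : u = v
    · rw [if_pos h]
      exact (fill3 _).1 (by simpa [yent, h] using this)
    · rw [if_neg h]
      exact (fill1 _).1 (by simpa [yent, h] using this)
  q := by
    have := hY _ (mem_PQ s o)
    exact (fill1 _).1 (by simpa [yent] using this)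
  oo := by
    have := hY _ (mem_PO s o)
    exact (fill1 _).1 (by simpa [yent] using this)
  t := by
    have := hY _ (mem_PT s o)
    exact (fill1 _).1 (by simpa [yent] using this)

structure ColS (s : Sys) (a b c : ℕ) (Y : PivC → ℝ) : Prop where
  a : ∀ u < s.1, Y (PA u) = if u = a then 1 else 0
  b : ∀ u < s.1, Y (PB u) = (if u = b then 1 else 0) - (if u = c then 1 else 0)
  q : Y PQ = 0
  oo : Y PO = 0
  t : Y PT = 0

theorem colS {Y : PivC → ℝ} {h : ℕ} (hY : FY s o (3, h) Y) :
    ColS s (s.2.2.getD h (0, 0, 0)).1 (s.2.2.getD h (0, 0, 0)).2.1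
      (s.2.2.getD h (0, 0, 0)).2.2 Y where
  a := fun u hu => by
    have := hY _ ((mem_PA s o).2 hu)
    simp only [yent] at this
    generalize s.2.2.getD h (0, 0, 0) = p at this ⊢
    by_cases h : p.1 = u
    · rw [if_pos h.symm]
      exact (fill2 _).1 (by simpa [h] using this)
    · rw [if_neg (fun h' => h h'.symm)]
      exact (fill1 _).1 (by simpa [h] using this)
  b := fun u hu => by
    have := hY _ ((mem_PB s o).2 hu)
    simp only [yent] at this
    generalize s.2.2.getD h (0, 0, 0) = p at this ⊢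
    by_cases h : p.2.1 = u
    · rw [if_pos h.symm]
      by_cases h' : p.2.2 = u
      · rw [if_pos h'.symm, sub_self]
        exact (fill1 _).1 (by simpa [h, h'] using this)
      · rw [if_neg (fun h'' => h' h''.symm), sub_zero]
        exact (fill2 _).1 (by simpa [h, h'] using this)
    · rw [if_neg (fun h' => h h'.symm)]
      by_cases h' : p.2.2 = u
      · rw [if_pos h'.symm, zero_sub]
        exact (fill3 _).1 (by simpa [h, h'] using this)
      · rw [if_neg (fun h'' => h' h''.symm), sub_zero]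
        exact (fill1 _).1 (by simpa [h, h'] using this)
  q := by
    have := hY _ (mem_PQ s o)
    exact (fill1 _).1 (by simpa [yent] using this)
  oo := by
    have := hY _ (mem_PO s o)
    exact (fill1 _).1 (by simpa [yent] using this)
  t := by
    have := hY _ (mem_PT s o)
    exact (fill1 _).1 (by simpa [yent] using this)

/-! ### Scalar products -/

theorem sum_ite' {n a : ℕ} (ha : a < n) (f g : ℕ → ℝ) (c : ℝ)
    (hg : ∀ u < n, g u = if u = a then c else 0) :
    ∑ u ∈ Finset.range n, f u * g u = f a * c := by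
  rw [Finset.sum_eq_single a]
  · rw [hg a ha, if_pos rfl]
  · intro u hu hne
    rw [hg u (Finset.mem_range.1 hu), if_neg hne, mul_zero]
  · intro h
    exact absurd (Finset.mem_range.2 ha) h

theorem sum_zr {n : ℕ} (f g : ℕ → ℝ) (hg : ∀ u < n, g u = 0) :
    ∑ u ∈ Finset.range n, f u * g u = 0 :=
  Finset.sum_eq_zero fun u hu => by rw [hg u (Finset.mem_range.1 hu), mul_zero]

theorem sum_zl {n : ℕ} (f g : ℕ → ℝ) (hf : ∀ u < n, f u = 0) :
    ∑ u ∈ Finset.range n, f u * g u = 0 :=
  Finset.sum_eq_zero fun u hu => by rw [hf u (Finset.mem_range.1 hu), zero_mul]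

theorem dot_eq (X Y : PivC → ℝ) : dot s o X Y =
    (∑ v ∈ Finset.range s.1, X (PA v) * Y (PA v)) + (∑ v ∈ Finset.range s.1, X (PB v) * Y (PB v)) +
      (X PQ * Y PQ + X PO * Y PO + X PT * Y PT) + ∑ g ∈ Finset.range (s.2.1.length + 1),
        ∑ j ∈ ((cols s).filter fun j => !active s o g j).toFinset, X (PS g j) * Y (PS g j) :=
  sum_LT s o fun l => X l * Y l

theorem gate_a_lt (hs : s.WF) {g : ℕ} (hg : g < s.2.1.length) : (gate s o g).1 < s.1 := by
  rw [gate, List.getD_eq_getElem _ _ hg]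
  exact (hs.2.1 _ (List.getElem_mem hg)).1

theorem gate_c_lt (hs : s.WF) {g : ℕ} (hg : g < s.2.1.length) : (gate s o g).2.2 < s.1 := by
  rw [gate, List.getD_eq_getElem _ _ hg]
  exact (hs.2.1 _ (List.getElem_mem hg)).2.2

theorem gate_b_lt (hs : s.WF) (ho : o < s.1) (g : ℕ) : (gate s o g).2.1 < s.1 := by
  by_cases hg : g < s.2.1.length
  · rw [gate, List.getD_eq_getElem _ _ hg]
    exact (hs.2.1 _ (List.getElem_mem hg)).2.1
  · rw [gate, List.getD_eq_default _ _ (not_lt.1 hg)]
    exact ho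

theorem dotMK {X Y : PivC → ℝ} (hX : FX s o (0, 0) X) {v : ℕ} (hv : v < s.1)
    (hY : FY s o (0, v) Y) : dot s o X Y = X (PB v) - Y PO := by
  have h1 := rowM hX
  have h2 := colK hY
  rw [dot_eq, slack0 h1.sl, sum_zr _ _ h2.a, sum_ite' hv _ _ 1 h2.b, h1.q, h1.oo, h1.t]
  ring

theorem dotMY {X Y : PivC → ℝ} (hs : s.WF) (hX : FX s o (0, 0) X) {g : ℕ} (hg : g < s.2.1.length)
    (hY : FY s o (1, g) Y) :
    dot s o X Y = X (PA (gate s o g).1) * Y (PA (gate s o g).1) - X (PB (gate s o g).2.2) := by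
  have h1 := rowM hX
  have h2 := colY hY
  rw [dot_eq, slack0 h1.sl]
  rw [Finset.sum_eq_single (gate s o g).1]
  · rw [sum_ite' (gate_c_lt (o := o) hs hg) _ _ (-1) (fun u hu => by
      rw [h2.b u hu]
      simp only [hg, true_and]
      congr 1
      rw [eq_iff_iff]
      exact eq_comm), h1.q, h2.oo, h1.t]
    ring
  · intro u hu hne
    rw [h2.a u (Finset.mem_range.1 hu) (fun h => hne h.2.symm), mul_zero]
  · intro h
    exact absurd (Finset.mem_range.2 (gate_a_lt hs hg)) h

theorem dotMQ {X Y : PivC → ℝ} (hX : FX s o (0, 0) X) (hY : FY s o (1, s.2.1.length) Y) :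
    dot s o X Y = 0 := by
  have h1 := rowM hX
  have h2 := colY hY
  rw [dot_eq, slack0 h1.sl, sum_zr _ _ (fun u hu => h2.a u hu (fun h => lt_irrefl _ h.1)),
    sum_zr _ _ (fun u hu => by rw [h2.b u hu, if_neg (fun h => lt_irrefl _ h.1)]),
    h1.q, h2.oo, h1.t]
  ring

theorem dotMC {X Y : PivC → ℝ} (hX : FX s o (0, 0) X) {v : ℕ} (hv : v < s.1)
    (hY : FY s o (2, v) Y) : dot s o X Y = X (PA v) - X (PB v) := by
  have h1 := rowM hX
  have h2 := colC hY
  rw [dot_eq, slack0 h1.sl, sum_ite' hv _ _ 1 h2.a, sum_ite' hv _ _ (-1) h2.b, h1.q, h2.oo, h1.t]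
  ring

theorem dotMS {X Y : PivC → ℝ} (hX : FX s o (0, 0) X) {a b c : ℕ} (ha : a < s.1) (hb : b < s.1)
    (hc : c < s.1) (h2 : ColS s a b c Y) : dot s o X Y = X (PA a) + X (PB b) - X (PB c) := by
  have h1 := rowM hX
  have h3 : ∑ v ∈ Finset.range s.1, X (PB v) * Y (PB v) = X (PB b) - X (PB c) := by
    have : ∀ v ∈ Finset.range s.1, X (PB v) * Y (PB v) =
        X (PB v) * (if v = b then 1 else 0) - X (PB v) * (if v = c then 1 else 0) := by
      intro v hv
      rw [h2.b v (Finset.mem_range.1 hv)]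
      ring
    rw [Finset.sum_congr rfl this, Finset.sum_sub_distrib,
      sum_ite' hb (fun v => X (PB v)) (fun v => if v = b then 1 else 0) 1 (fun _ _ => rfl),
      sum_ite' hc (fun v => X (PB v)) (fun v => if v = c then 1 else 0) 1 (fun _ _ => rfl)]
    ring
  rw [dot_eq, slack0 h1.sl, sum_ite' ha _ _ 1 h2.a, h3, h1.q, h2.oo, h1.t]
  ring

theorem dotRK {X Y : PivC → ℝ} {g : ℕ} (hg : g < s.2.1.length + 1) (hX : FX s o (1, g) X) {v : ℕ}
    (hv : v < s.1) (hY : FY s o (0, v) Y) : dot s o X Y = X PT - Y PO +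
      if active s o g (0, v) then 0 else 2 * X (PS g (0, v)) := by
  have h1 := rowR hX
  have h2 := colK hY
  rw [dot_eq, slackR hg ((mem_cols s _).2 (Or.inl ⟨rfl, hv⟩)) hY h1.sl, sum_zr _ _ h2.a,
    sum_zl _ _ h1.b, h2.q, h1.oo, h2.t]
  ring

theorem dotRY {X Y : PivC → ℝ} {g g' : ℕ} (hs : s.WF) (hg : g < s.2.1.length + 1)
    (hX : FX s o (1, g) X) (hg' : g' < s.2.1.length + 1) (hY : FY s o (1, g') Y) :
    dot s o X Y = (if g < s.2.1.length then Y (PA (gate s o g).1) else Y PQ) - X PT +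
      if active s o g (1, g') then 0 else 2 * X (PS g (1, g')) := by
  have h1 := rowR hX
  have h2 := colY hY
  rw [dot_eq, slackR hg ((mem_cols s _).2 (Or.inr (Or.inl ⟨rfl, hg'⟩))) hY h1.sl,
    sum_zl _ (fun v => Y (PB v)) h1.b, h2.oo, h2.t]
  by_cases hlt : g < s.2.1.length
  · have h3 : ∑ v ∈ Finset.range s.1, X (PA v) * Y (PA v) = Y (PA (gate s o g).1) := by
      rw [Finset.sum_eq_single (gate s o g).1]
      · rw [h1.a _ (gate_a_lt hs hlt), if_pos ⟨hlt, rfl⟩, one_mul]
      · intro u hu hne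
        rw [h1.a u (Finset.mem_range.1 hu), if_neg (fun h => hne h.2.symm), zero_mul]
      · intro h
        exact absurd (Finset.mem_range.2 (gate_a_lt hs hlt)) h
    rw [h3, h1.q, if_pos hlt, if_pos hlt]
    ring
  · rw [sum_zl _ _ (fun u hu => by rw [h1.a u hu, if_neg (fun h => hlt h.1)]), h1.q, if_neg hlt,
      if_neg hlt]
    ring

theorem dotRC {X Y : PivC → ℝ} {g v : ℕ} (hg : g < s.2.1.length + 1) (hX : FX s o (1, g) X)
    (hv : v < s.1) (hY : FY s o (2, v) Y) :
    dot s o X Y = (if g < s.2.1.length ∧ (gate s o g).1 = v then 1 else 0) +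
      if active s o g (2, v) then 0 else 2 * X (PS g (2, v)) := by
  have h1 := rowR hX
  have h2 := colC hY
  rw [dot_eq, slackR hg ((mem_cols s _).2 (Or.inr (Or.inr (Or.inl ⟨rfl, hv⟩)))) hY h1.sl,
    sum_zl _ (fun v => Y (PB v)) h1.b, h2.oo, h2.t, h2.q, sum_ite' hv _ _ 1 h2.a, h1.a v hv]
  ring

theorem dotRS {X Y : PivC → ℝ} {g a b c h : ℕ} (hg : g < s.2.1.length + 1)
    (hX : FX s o (1, g) X) (ha : a < s.1) (hh : h < s.2.2.length) (hY : FY s o (3, h) Y)
    (h2 : ColS s a b c Y) :
    dot s o X Y = (if g < s.2.1.length ∧ (gate s o g).1 = a then 1 else 0) +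
      if active s o g (3, h) then 0 else 2 * X (PS g (3, h)) := by
  have h1 := rowR hX
  rw [dot_eq, slackR hg ((mem_cols s _).2 (Or.inr (Or.inr (Or.inr ⟨rfl, hh⟩)))) hY h1.sl,
    sum_zl _ (fun v => Y (PB v)) h1.b, h2.oo, h2.t, h2.q, sum_ite' ha _ _ 1 h2.a, h1.a a ha]
  ring

theorem dotZ {X Y : PivC → ℝ} (hX : FX s o (2, 0) X) : dot s o X Y = Y PQ := by
  have h1 := rowZ hX
  rw [dot_eq, slack0 h1.sl, sum_zl _ (fun v => Y (PA v)) h1.a, sum_zl _ (fun v => Y (PB v)) h1.b,
    h1.q, h1.oo, h1.t]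
  ring

/-! ### From a filling to values of the unknowns -/

section
variable (hs : s.WF) (ho : o < s.1) (X : RowC → PivC → ℝ) (Y : PivC → ColC → ℝ)
  (hX : ∀ i ∈ rows s, FX s o i (X i)) (hY : ∀ j ∈ cols s, FY s o j fun l => Y l j)

theorem mem_r0 : ((0, 0) : RowC) ∈ rows s := by simp [rows]
theorem mem_r2 : ((2, 0) : RowC) ∈ rows s := by simp [rows]
theorem mem_r1 {g : ℕ} (h : g < s.2.1.length + 1) : ((1, g) : RowC) ∈ rows s := by
  rw [mem_rows]; exact Or.inr (Or.inr ⟨rfl, h⟩)
theorem mem_c0 {v : ℕ} (h : v < s.1) : ((0, v) : ColC) ∈ cols s := by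
  rw [mem_cols]; exact Or.inl ⟨rfl, h⟩
theorem mem_c1 {g : ℕ} (h : g < s.2.1.length + 1) : ((1, g) : ColC) ∈ cols s := by
  rw [mem_cols]; exact Or.inr (Or.inl ⟨rfl, h⟩)
theorem mem_c2 {v : ℕ} (h : v < s.1) : ((2, v) : ColC) ∈ cols s := by
  rw [mem_cols]; exact Or.inr (Or.inr (Or.inl ⟨rfl, h⟩))
theorem mem_c3 {h : ℕ} (hh : h < s.2.2.length) : ((3, h) : ColC) ∈ cols s := by
  rw [mem_cols]; exact Or.inr (Or.inr (Or.inr ⟨rfl, hh⟩))

/-- scalar products -/
noncomputable def D (s : Sys) (o : ℕ) (X : RowC → PivC → ℝ) (Y : PivC → ColC → ℝ) (i : RowC)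
    (j : ColC) : ℝ := dot s o (X i) fun l => Y l j

include hs ho hX hY

theorem prod_id {g : ℕ} (hg : g < s.2.1.length) :
    X (0, 0) (PB (gate s o g).1) * X (0, 0) (PB (gate s o g).2.1) - X (0, 0) (PB (gate s o g).2.2) =
      D s o X Y (0, 0) (1, g) - X (0, 0) (PA (gate s o g).1) * (D s o X Y (1, g) (1, g) +
        D s o X Y (1, g) (0, (gate s o g).2.1) - D s o X Y (0, 0) (0, (gate s o g).2.1)) -
        D s o X Y (0, 0) (2, (gate s o g).1) * X (0, 0) (PB (gate s o g).2.1) := by
  have hg' : g < s.2.1.length + 1 := hg.trans (Nat.lt_succ_self _)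
  have ha := gate_a_lt (o := o) hs hg
  have hb := gate_b_lt hs ho g
  have e1 : D s o X Y (0, 0) (1, g) = _ := dotMY hs (hX _ mem_r0) hg (hY _ (mem_c1 hg'))
  have e2 : D s o X Y (1, g) (1, g) = _ := dotRY hs hg' (hX _ (mem_r1 hg')) hg' (hY _ (mem_c1 hg'))
  have e3 : D s o X Y (1, g) (0, (gate s o g).2.1) = _ :=
    dotRK hg' (hX _ (mem_r1 hg')) hb (hY _ (mem_c0 hb))
  have e4 : D s o X Y (0, 0) (0, (gate s o g).2.1) = _ :=
    dotMK (hX _ mem_r0) hb (hY _ (mem_c0 hb))
  have e5 : D s o X Y (0, 0) (2, (gate s o g).1) = _ :=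
    dotMC (hX _ mem_r0) ha (hY _ (mem_c2 ha))
  have a1 : active s o g (1, g) = true := by simp [active]
  have a2 : active s o g (0, (gate s o g).2.1) = true := by simp [active]
  rw [a1, if_pos rfl, if_pos hg] at e2
  rw [a2, if_pos rfl] at e3
  rw [e1, e2, e3, e4, e5]
  ring

theorem obj_id :
    Y PQ (1, s.2.1.length) - X (0, 0) (PB o) =
      D s o X Y (1, s.2.1.length) (1, s.2.1.length) + D s o X Y (1, s.2.1.length) (0, o) -
        D s o X Y (0, 0) (0, o) := by
  have hg' : s.2.1.length < s.2.1.length + 1 := Nat.lt_succ_self _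
  have e2 : D s o X Y (1, s.2.1.length) (1, s.2.1.length) = _ :=
    dotRY hs hg' (hX _ (mem_r1 hg')) hg' (hY _ (mem_c1 hg'))
  have e3 : D s o X Y (1, s.2.1.length) (0, o) = _ :=
    dotRK hg' (hX _ (mem_r1 hg')) ho (hY _ (mem_c0 ho))
  have e4 : D s o X Y (0, 0) (0, o) = _ :=
    dotMK (hX _ mem_r0) ho (hY _ (mem_c0 ho))
  have a1 : active s o s.2.1.length (1, s.2.1.length) = true := by simp [active]
  have a2 : active s o s.2.1.length (0, o) = true := by
    simp [active, gate]
  rw [a1, if_pos rfl, if_neg (lt_irrefl _)] at e2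
  rw [a2, if_pos rfl] at e3
  rw [e2, e3, e4]
  ring

omit ho in
theorem sum_id {h : ℕ} (hh : h < s.2.2.length) :
    X (0, 0) (PB (s.2.2.getD h (0, 0, 0)).1) + X (0, 0) (PB (s.2.2.getD h (0, 0, 0)).2.1) -
      X (0, 0) (PB (s.2.2.getD h (0, 0, 0)).2.2) =
      D s o X Y (0, 0) (3, h) - D s o X Y (0, 0) (2, (s.2.2.getD h (0, 0, 0)).1) := by
  have hmem : s.2.2.getD h (0, 0, 0) ∈ s.2.2 := by
    rw [List.getD_eq_getElem _ _ hh]
    exact List.getElem_mem hh
  obtain ⟨ha, hb, hc⟩ := hs.2.2 _ hmem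
  have e1 : D s o X Y (0, 0) (3, h) = _ :=
    dotMS (hX _ mem_r0) ha hb hc (colS (hY _ (mem_c3 hh)))
  have e5 : D s o X Y (0, 0) (2, (s.2.2.getD h (0, 0, 0)).1) = _ :=
    dotMC (hX _ mem_r0) ha (hY _ (mem_c2 ha))
  rw [e1, e5]
  ring

end

/-! ### From values of the unknowns to a filling -/

section
variable (s o) (V : ℕ → ℝ)

/-- values of the free entries of the column `j` -/
def ys (j : ColC) : ℝ := if j.1 = 0 then V j.2 else V (gate s o j.2).2.1

/-- entries of the column `j` -/
noncomputable def yv (l : PivC) (j : ColC) : ℝ := (cvalR (yent s o l j)).getD (ys s o V j)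

/-- the scalar product without slack -/
noncomputable def Pv (g : ℕ) (j : ColC) : ℝ :=
  if j.1 = 0 then V (gate s o g).2.1 - V j.2
  else if j.1 = 1 then
    (if g < s.2.1.length then yv s o V (PA (gate s o g).1) j else yv s o V PQ j)
      - V (gate s o g).2.1
  else if j.1 = 2 then (if g < s.2.1.length ∧ (gate s o g).1 = j.2 then 1 else 0)
  else (if g < s.2.1.length ∧ (gate s o g).1 = (s.2.2.getD j.2 (0, 0, 0)).1 then 1 else 0)

/-- values of the free entries of the row `i` -/
noncomputable def xs (i : RowC) (l : PivC) : ℝ :=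
  if i.1 = 0 then (if l.1.1 ≤ 1 then V l.1.2 else 0)
  else if l.1.1 = 4 then V (gate s o i.2).2.1
  else if l.1.1 = 5 then -(Pv s o V i.2 l.2) / 2 else 0

/-- entries of the row `i` -/
noncomputable def xv (i : RowC) (l : PivC) : ℝ := (cvalR (xent s o i l)).getD (xs s o V i l)

theorem fx (i : RowC) : FX s o i (xv s o V i) := by
  intro l _ a ha
  rw [xv, ha, Option.getD_some]

theorem fy (j : ColC) : FY s o j fun l => yv s o V l j := by
  intro l _ a ha
  simp only [yv]
  rw [ha, Option.getD_some]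

theorem xMA (v : ℕ) : xv s o V (0, 0) (PA v) = V v := by simp [xv, xent, cvalR0, xs]
theorem xMB (v : ℕ) : xv s o V (0, 0) (PB v) = V v := by simp [xv, xent, cvalR0, xs]
theorem xRT (g : ℕ) : xv s o V (1, g) PT = V (gate s o g).2.1 := by simp [xv, xent, cvalR0, xs]
theorem xRS (g : ℕ) (j : ColC) : xv s o V (1, g) (PS g j) = -(Pv s o V g j) / 2 := by
  simp [xv, xent, cvalR0, xs]
theorem yOK (v : ℕ) : yv s o V PO (0, v) = V v := by simp [yv, yent, cvalR0, ys]
theorem yAY {g : ℕ} (hg : g < s.2.1.length) :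
    yv s o V (PA (gate s o g).1) (1, g) = V (gate s o g).2.1 := by
  simp [yv, yent, cvalR0, ys, hg]
theorem yQY : yv s o V PQ (1, s.2.1.length) = V o := by
  simp [yv, yent, cvalR0, ys, gate]

variable {s o V} (hs : s.WF) (hV : s.Sol V)

include hs hV in
theorem dot_all {i : RowC} (hi : i ∈ rows s) {j : ColC} (hj : j ∈ cols s) :
    dot s o (xv s o V i) (fun l => yv s o V l j) =
      if i = (2, 0) ∧ j = (1, s.2.1.length) then V o else 0 := by
  have hY := fy s o V j
  have hX := fx s o V i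
  obtain ⟨j1, j2⟩ := j
  rcases (mem_rows s _).1 hi with rfl | rfl | ⟨hi1, hi2⟩
  · rw [if_neg (by simp)]
    rcases (mem_cols s _).1 hj with ⟨h1, h2⟩ | ⟨h1, h2⟩ | ⟨h1, h2⟩ | ⟨h1, h2⟩ <;>
      simp only at h1 h2 <;> subst h1
    · rw [dotMK hX h2 hY]
      rw [xMB, yOK, sub_self]
    · rcases Nat.lt_succ_iff_lt_or_eq.1 h2 with h3 | h3
      · rw [dotMY hs hX h3 hY]
        rw [xMA, xMB, yAY s o V h3]
        have hmem : gate s o j2 ∈ s.2.1 := by
          rw [gate, List.getD_eq_getElem _ _ h3]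
          exact List.getElem_mem h3
        rw [hV.1 _ hmem, sub_self]
      · subst h3
        rw [dotMQ hX hY]
    · rw [dotMC hX h2 hY, xMA, xMB, sub_self]
    · have hmem : s.2.2.getD j2 (0, 0, 0) ∈ s.2.2 := by
        rw [List.getD_eq_getElem _ _ h2]
        exact List.getElem_mem h2
      obtain ⟨ha, hb, hc⟩ := hs.2.2 _ hmem
      rw [dotMS hX ha hb hc (colS hY), xMA, xMB, xMB, hV.2 _ hmem, sub_self]
  · rw [dotZ hX]
    rcases (mem_cols s _).1 hj with ⟨h1, h2⟩ | ⟨h1, h2⟩ | ⟨h1, h2⟩ | ⟨h1, h2⟩ <;>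
      simp only at h1 h2 <;> subst h1
    · rw [if_neg (by simp)]
      exact (colK hY).q
    · rcases Nat.lt_succ_iff_lt_or_eq.1 h2 with h3 | h3
      · rw [if_neg (by simp; omega)]
        exact (colY hY).q h3
      · subst h3
        rw [if_pos ⟨rfl, rfl⟩, yQY]
    · rw [if_neg (by simp)]
      exact (colC hY).q
    · rw [if_neg (by simp)]
      exact (colS hY).q
  · obtain ⟨i1, g⟩ := i
    simp only at hi1 hi2
    subst hi1
    rw [if_neg (by simp)]
    rcases (mem_cols s _).1 hj with ⟨h1, h2⟩ | ⟨h1, h2⟩ | ⟨h1, h2⟩ | ⟨h1, h2⟩ <;>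
      simp only at h1 h2 <;> subst h1
    · rw [dotRK hi2 hX h2 hY, xRT, yOK, xRS]
      split_ifs with ha
      · have : j2 = (gate s o g).2.1 := by simpa [active] using ha
        rw [this]; ring
      · simp only [Pv, if_true]; ring
    · rw [dotRY hs hi2 hX h2 hY, xRT, xRS]
      by_cases ha : active s o g (1, j2) = true
      · rw [if_pos ha]
        have : j2 = g := by simpa [active] using ha
        subst this
        split_ifs with h3
        · rw [yAY s o V h3]; ring
        · have : j2 = s.2.1.length := by omega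
          subst this
          rw [yQY]
          simp [gate]
      · rw [if_neg ha]
        simp only [Pv, if_true, one_ne_zero, if_false]; ring
    · rw [dotRC hi2 hX h2 hY, xRS]
      rw [if_neg (c := active s o g (2, j2) = true) (by simp [active])]
      simp only [Pv, if_true, OfNat.ofNat_ne_zero, OfNat.ofNat_ne_one, if_false]
      ring
    · have hmem : s.2.2.getD j2 (0, 0, 0) ∈ s.2.2 := by
        rw [List.getD_eq_getElem _ _ h2]
        exact List.getElem_mem h2
      obtain ⟨ha, hb, hc⟩ := hs.2.2 _ hmem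
      rw [dotRS hi2 hX ha h2 hY (colS hY), xRS]
      rw [if_neg (c := active s o g (3, j2) = true) (by simp [active])]
      simp only [Pv, OfNat.ofNat_ne_zero, OfNat.ofNat_ne_one, if_false]
      rw [if_neg (c := (3 : ℕ) = 2) (by norm_num)]
      ring

end

/-- functions on the index sets extend to all codes -/
theorem exists_ext (x : IT s → LT s o → ℝ) (y : LT s o → JT s → ℝ) :
    ∃ (X : RowC → PivC → ℝ) (Y : PivC → ColC → ℝ), (∀ i l, X i.1 l.1 = x i l) ∧
      ∀ l j, Y l.1 j.1 = y l j := by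
  classical
  refine ⟨fun i l => if h : i ∈ rows s ∧ l ∈ pivs s o then x ⟨i, h.1⟩ ⟨l, h.2⟩ else 0,
    fun l j => if h : l ∈ pivs s o ∧ j ∈ cols s then y ⟨l, h.1⟩ ⟨j, h.2⟩ else 0, ?_, ?_⟩
  · intro i l
    simp only
    rw [dif_pos ⟨i.2, l.2⟩]
  · intro l j
    simp only
    rw [dif_pos ⟨l.2, j.2⟩]

end Gad

end Pool.Agent.LRA67
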