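import Pool.Agent.LRA67.Gad

set_option autoImplicit false

namespace Pool.Agent.LRA67

open Function

theorem ZZ_eq (s : Sys) (i : IT s) (j : JT s) :
    ZZ s i j = if i.1 = (2, 0) ∧ j.1 = (1, s.2.1.length) then 1 else 0 := by
  rw [ZZ, zent]
  split_ifs with h <;> simp [cvalR, cval]

/-- Task D0 -/
theorem bil_iff (s : Sys) (o : ℕ) (hs : s.WF) (ho : o < s.1) :
    Bil (XX s o) (YY s o) (ZZ s) ↔ ∃ v : ℕ → ℝ, s.Sol v ∧ v o = 1 := by
  constructor
  · rintro ⟨x, y, hx, hy, hz⟩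
    obtain ⟨X, Y, hXx, hYy⟩ := Gad.exists_ext x y
    have hX : ∀ i ∈ rows s, Gad.FX s o i (X i) := by
      intro i hi l hl
      have := hx ⟨i, hi⟩ ⟨l, hl⟩
      rw [← hXx] at this
      exact this
    have hY : ∀ j ∈ cols s, Gad.FY s o j fun l => Y l j := by
      intro j hj l hl
      have := hy ⟨l, hl⟩ ⟨j, hj⟩
      rw [← hYy] at this
      exact this
    have hD : ∀ i ∈ rows s, ∀ j ∈ cols s, Gad.D s o X Y i j =
        if i = (2, 0) ∧ j = (1, s.2.1.length) then 1 else 0 := by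
      intro i hi j hj
      rw [← ZZ_eq s ⟨i, hi⟩ ⟨j, hj⟩, ← hz, Gad.D, Gad.dot]
      refine Finset.sum_congr rfl fun l _ => ?_
      rw [← hXx ⟨i, hi⟩ l, ← hYy l ⟨j, hj⟩]
    have hD0 : ∀ i ∈ rows s, ∀ j ∈ cols s, i ≠ (2, 0) → Gad.D s o X Y i j = 0 := by
      intro i hi j hj hne
      rw [hD i hi j hj, if_neg (fun h => hne h.1)]
    refine ⟨fun v => X (0, 0) (Gad.PB v), ⟨?_, ?_⟩, ?_⟩
    · intro p hp
      obtain ⟨g, hg, rfl⟩ := List.mem_iff_getElem.1 hp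
      have hg' : g < s.2.1.length + 1 := hg.trans (Nat.lt_succ_self _)
      have ha := Gad.gate_a_lt (o := o) hs hg
      have hb := Gad.gate_b_lt hs ho g
      have h := Gad.prod_id hs ho X Y hX hY hg
      rw [hD0 _ Gad.mem_r0 _ (Gad.mem_c1 hg') (by simp),
        hD0 _ (Gad.mem_r1 hg') _ (Gad.mem_c1 hg') (by simp),
        hD0 _ (Gad.mem_r1 hg') _ (Gad.mem_c0 hb) (by simp),
        hD0 _ Gad.mem_r0 _ (Gad.mem_c0 hb) (by simp),
        hD0 _ Gad.mem_r0 _ (Gad.mem_c2 ha) (by simp)] at h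
      rw [gate, List.getD_eq_getElem _ _ hg] at h
      linarith
    · intro p hp
      obtain ⟨g, hg, rfl⟩ := List.mem_iff_getElem.1 hp
      have h := Gad.sum_id hs X Y hX hY hg
      have hmem : s.2.2.getD g (0, 0, 0) ∈ s.2.2 := by
        rw [List.getD_eq_getElem _ _ hg]
        exact List.getElem_mem hg
      rw [hD0 _ Gad.mem_r0 _ (Gad.mem_c3 hg) (by simp),
        hD0 _ Gad.mem_r0 _ (Gad.mem_c2 (hs.2.2 _ hmem).1) (by simp)] at h
      rw [List.getD_eq_getElem _ _ hg] at h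
      linarith
    · have h := Gad.obj_id hs ho X Y hX hY
      have hg' : s.2.1.length < s.2.1.length + 1 := Nat.lt_succ_self _
      rw [hD0 _ (Gad.mem_r1 hg') _ (Gad.mem_c1 hg') (by simp),
        hD0 _ (Gad.mem_r1 hg') _ (Gad.mem_c0 ho) (by simp),
        hD0 _ Gad.mem_r0 _ (Gad.mem_c0 ho) (by simp)] at h
      have h2 : Gad.D s o X Y (2, 0) (1, s.2.1.length) = Y Gad.PQ (1, s.2.1.length) :=
        Gad.dotZ (hX _ Gad.mem_r2)
      rw [hD _ Gad.mem_r2 _ (Gad.mem_c1 hg'), if_pos ⟨rfl, rfl⟩] at h2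
      simp only
      linarith
  · rintro ⟨V, hV, hVo⟩
    refine ⟨fun i l => Gad.xv s o V i.1 l.1, fun l j => Gad.yv s o V l.1 j.1, ?_, ?_, ?_⟩
    · intro i l
      exact Gad.fx s o V i.1 l.1 l.2
    · intro l j
      exact Gad.fy s o V j.1 l.1 l.2
    · intro i j
      rw [ZZ_eq, ← hVo]
      exact Gad.dot_all hs hV i.2 j.2

end Pool.Agent.LRA67
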