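import Pool.Agent.LRA67.Gad

set_option autoImplicit false

namespace Pool.Agent.LRA67

open Function

namespace Gad1

variable {s : Sys} {o : ℕ}

theorem ZZ_eq' (s : Sys) (i : IT s) (j : JT s) :
    ZZ s i j = if i.1 = (2, 0) ∧ j.1 = (1, s.2.1.length) then 1 else 0 := by
  rw [ZZ, zent]
  split_ifs with h <;> simp [cvalR, cval]

theorem cvalR_none {c : ℕ} (h : cvalR c = none) : c = 0 := by
  unfold cvalR cval at h
  split_ifs at h <;> simp_all

theorem piv_lt {l : PivC} (hl : l ∈ pivs s o) (h : l.1.1 ≤ 1) : l.1.2 < s.1 := by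
  simp only [pivs, List.mem_append, List.mem_map, List.mem_range, List.mem_cons,
    List.mem_flatMap, List.not_mem_nil, or_false] at hl
  rcases hl with ((⟨v, hv, rfl⟩ | ⟨v, hv, rfl⟩) | rfl | rfl | rfl) | ⟨g, _, j, _, rfl⟩
  · exact hv
  · exact hv
  all_goals simp at h

theorem piv_slack {l : PivC} (hl : l ∈ pivs s o) (h : l.1.1 = 5) : l.2 ∈ cols s := by
  simp only [pivs, List.mem_append, List.mem_map, List.mem_range, List.mem_cons,
    List.mem_flatMap, List.not_mem_nil, or_false, List.mem_filter] at hl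
  rcases hl with ((⟨v, hv, rfl⟩ | ⟨v, hv, rfl⟩) | rfl | rfl | rfl) | ⟨g, _, j, hj, rfl⟩
  · simp at h
  · simp at h
  · simp at h
  · simp at h
  · simp at h
  · exact hj.1

theorem pv_le (hs : s.WF) (ho : o < s.1) (V : ℕ → ℝ) (hv : ∀ i < s.1, |V i| ≤ 1) (g : ℕ)
    {j : ColC} (hj : j ∈ cols s) : |Gad.Pv s o V g j| ≤ 2 := by
  have hb := hv _ (Gad.gate_b_lt hs ho g)
  have hb' := abs_le.1 hb
  obtain ⟨j1, j2⟩ := j
  rcases (Gad.mem_cols s _).1 hj with ⟨h1, h2⟩ | ⟨h1, h2⟩ | ⟨h1, h2⟩ | ⟨h1, h2⟩ <;>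
    simp only at h1 h2 <;> subst h1
  · simp only [Gad.Pv, if_true]
    have := abs_le.1 (hv _ h2)
    rw [abs_le]
    constructor <;> linarith
  · simp only [Gad.Pv, if_true, one_ne_zero, if_false]
    have hY := Gad.colY (Gad.fy s o V (1, j2))
    have key : |if g < s.2.1.length then Gad.yv s o V (Gad.PA (gate s o g).1) (1, j2)
        else Gad.yv s o V Gad.PQ (1, j2)| ≤ 1 := by
      split_ifs with h3
      · by_cases h4 : j2 < s.2.1.length ∧ (gate s o j2).1 = (gate s o g).1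
        · rw [← h4.2, Gad.yAY s o V h4.1]
          exact hv _ (Gad.gate_b_lt hs ho j2)
        · have := hY.a _ (Gad.gate_a_lt (o := o) hs h3) h4
          rw [this]; simp
      · rcases Nat.lt_succ_iff_lt_or_eq.1 h2 with h4 | h4
        · rw [hY.q h4]; simp
        · subst h4
          rw [Gad.yQY]
          exact hv _ ho
    have := abs_le.1 key
    rw [abs_le]
    constructor <;> linarith
  · simp only [Gad.Pv, if_true, OfNat.ofNat_ne_zero, OfNat.ofNat_ne_one, if_false]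
    split_ifs <;> norm_num
  · simp only [Gad.Pv, OfNat.ofNat_ne_zero, OfNat.ofNat_ne_one, if_false]
    rw [if_neg (c := (3 : ℕ) = 2) (by norm_num)]
    split_ifs <;> norm_num

theorem xs_le (hs : s.WF) (ho : o < s.1) (V : ℕ → ℝ) (hv : ∀ i < s.1, |V i| ≤ 1) (i : RowC)
    {l : PivC} (hl : l ∈ pivs s o) : |Gad.xs s o V i l| ≤ 1 := by
  rw [Gad.xs]
  split_ifs with h1 h2 h3 h4
  · exact hv _ (piv_lt hl h2)
  · simp
  · exact hv _ (Gad.gate_b_lt hs ho _)
  · have := abs_le.1 (pv_le hs ho V hv i.2 (piv_slack hl h4))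
    rw [abs_le]
    constructor <;> linarith
  · simp

theorem ys_le (hs : s.WF) (ho : o < s.1) (V : ℕ → ℝ) (hv : ∀ i < s.1, |V i| ≤ 1) {j : ColC}
    (hj : j ∈ cols s) : |Gad.ys s o V j| ≤ 1 := by
  rw [Gad.ys]
  split_ifs with h1
  · rcases (Gad.mem_cols s _).1 hj with h | h | h | h
    · exact hv _ h.2
    all_goals omega
  · exact hv _ (Gad.gate_b_lt hs ho _)

end Gad1

open Gad1

/-- Task D1 -/
theorem bilB_of (s : Sys) (o : ℕ) (hs : s.WF) (ho : o < s.1) (v : ℕ → ℝ)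
    (hv : ∀ i < s.1, |v i| ≤ 1) (hsol : s.Sol v) (hpos : 0 < v o) (W : ℝ) :
    BilB (XX s o) (YY s o) (ZZ s) (wt s W) := by
  refine ⟨fun i l => Gad.xv s o v i.1 l.1, fun l j => Gad.yv s o v l.1 j.1, ?_, ?_, ?_⟩
  · intro i l
    refine ⟨Gad.fx s o v i.1 l.1 l.2, fun h => ?_⟩
    rw [XX] at h
    simp only [Gad.xv]
    rw [h, Option.getD_none]
    exact xs_le hs ho v hv _ l.2
  · intro l j
    refine ⟨Gad.fy s o v j.1 l.1 l.2, fun h => ?_⟩
    rw [YY] at h
    simp only [Gad.yv]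
    rw [h, Option.getD_none]
    exact ys_le hs ho v hv j.2
  · have h1 : ∀ (i : IT s) (j : JT s), ∑ l : LT s o, Gad.xv s o v i.1 l.1 * Gad.yv s o v l.1 j.1 =
        if i.1 = (2, 0) ∧ j.1 = (1, s.2.1.length) then v o else 0 :=
      fun i j => Gad.dot_all hs hsol i.2 j.2
    simp only [h1, ZZ_eq']
    rw [Finset.sum_eq_single ⟨(2, 0), Gad.mem_r2⟩, Finset.sum_eq_single
      ⟨(1, s.2.1.length), Gad.mem_c1 (Nat.lt_succ_self _)⟩]
    · simp only [wt, true_and, if_true, one_mul]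
      have := abs_le.1 (hv o ho)
      rw [abs_of_nonneg (by linarith)]
      linarith
    · intro j _ hne
      rw [if_neg, if_neg]
      · simp
      · rintro ⟨_, h⟩; exact hne (Subtype.ext h)
      · rintro ⟨_, h⟩; exact hne (Subtype.ext h)
    · intro h; exact absurd (Finset.mem_univ _) h
    · intro i _ hne
      refine Finset.sum_eq_zero fun j _ => ?_
      rw [if_neg, if_neg]
      · simp
      · rintro ⟨h, _⟩; exact hne (Subtype.ext h)
      · rintro ⟨h, _⟩; exact hne (Subtype.ext h)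
    · intro h; exact absurd (Finset.mem_univ _) h

/-- Task D1 -/
theorem of_bilB (s : Sys) (o : ℕ) (hs : s.WF) (ho : o < s.1) (W : ℝ) (hW : 0 ≤ W)
    (h : BilB (XX s o) (YY s o) (ZZ s) (wt s W)) :
    ∃ (v : ℕ → ℝ) (E : ℝ), 0 ≤ E ∧ (∀ i < s.1, |v i| ≤ 1) ∧ s.Approx v (5 * E) ∧
      (W - 3) * E < v o := by
  obtain ⟨x, y, hx, hy, hz⟩ := h
  obtain ⟨X, Y, hXx, hYy⟩ := Gad.exists_ext x y
  have hX : ∀ i ∈ rows s, Gad.FX s o i (X i) := by
    intro i hi l hl
    have := (hx ⟨i, hi⟩ ⟨l, hl⟩).1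
    rw [← hXx] at this
    exact this
  have hY : ∀ j ∈ cols s, Gad.FY s o j fun l => Y l j := by
    intro j hj l hl
    have := (hy ⟨l, hl⟩ ⟨j, hj⟩).1
    rw [← hYy] at this
    exact this
  have hsum : ∀ (i : IT s) (j : JT s), ∑ l, x i l * y l j = Gad.D s o X Y i.1 j.1 := by
    intro i j
    rw [Gad.D, Gad.dot]
    refine Finset.sum_congr rfl fun l _ => ?_
    rw [← hXx i l, ← hYy l j]
  simp only [hsum] at hz
  set E : ℝ := ∑ i : IT s, ∑ j : JT s, (if i.1 = (2, 0) then 0 else |Gad.D s o X Y i.1 j.1|) with hE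
  set F : ℝ := ∑ i : IT s, ∑ j : JT s,
    (if i.1 = (2, 0) then |ZZ s i j - Gad.D s o X Y i.1 j.1| else 0) with hF
  have hnn : ∀ (i : IT s) (j : JT s),
      0 ≤ (if i.1 = (2, 0) then 0 else |Gad.D s o X Y i.1 j.1|) := by
    intro i j
    split_ifs
    · exact le_rfl
    · exact abs_nonneg _
  have hnn' : ∀ (i : IT s) (j : JT s),
      0 ≤ (if i.1 = (2, 0) then |ZZ s i j - Gad.D s o X Y i.1 j.1| else 0) := by
    intro i j
    split_ifs
    · exact abs_nonneg _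
    · exact le_rfl
  have hE0 : 0 ≤ E := Finset.sum_nonneg fun i _ => Finset.sum_nonneg fun j _ => hnn i j
  have htot : W * E + F < 1 := by
    refine lt_of_le_of_lt (le_of_eq ?_) hz
    rw [hE, hF, Finset.mul_sum, ← Finset.sum_add_distrib]
    refine Finset.sum_congr rfl fun i _ => ?_
    rw [Finset.mul_sum, ← Finset.sum_add_distrib]
    refine Finset.sum_congr rfl fun j _ => ?_
    rw [wt]
    split_ifs with h
    · ring
    · rw [ZZ_eq', if_neg (fun h' => h h'.1), zero_sub, abs_neg]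
      ring
  have hDE : ∀ i ∈ rows s, ∀ j ∈ cols s, i ≠ (2, 0) → |Gad.D s o X Y i j| ≤ E := by
    intro i hi j hj hne
    have h1 : (∑ j : JT s, (if i = (2, 0) then 0 else |Gad.D s o X Y i j.1|)) ≤ E :=
      Finset.single_le_sum (f := fun i : IT s => ∑ j : JT s,
        (if i.1 = (2, 0) then 0 else |Gad.D s o X Y i.1 j.1|))
        (fun i _ => Finset.sum_nonneg fun j _ => hnn i j) (Finset.mem_univ (⟨i, hi⟩ : IT s))
    refine le_trans ?_ h1
    have h2 := Finset.single_le_sum (f := fun j : JT s =>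
      (if i = (2, 0) then 0 else |Gad.D s o X Y i j.1|))
      (fun j _ => hnn ⟨i, hi⟩ j) (Finset.mem_univ (⟨j, hj⟩ : JT s))
    refine le_trans (le_of_eq ?_) h2
    simp only
    rw [if_neg hne]
  have hFZ : |1 - Y Gad.PQ (1, s.2.1.length)| ≤ F := by
    have h1 : (∑ j : JT s, (if ((2, 0) : RowC) = (2, 0) then
        |ZZ s ⟨(2, 0), Gad.mem_r2⟩ j - Gad.D s o X Y (2, 0) j.1| else 0)) ≤ F :=
      Finset.single_le_sum (f := fun i : IT s => ∑ j : JT s,
        (if i.1 = (2, 0) then |ZZ s i j - Gad.D s o X Y i.1 j.1| else 0))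
        (fun i _ => Finset.sum_nonneg fun j _ => hnn' i j)
        (Finset.mem_univ (⟨(2, 0), Gad.mem_r2⟩ : IT s))
    refine le_trans ?_ h1
    have h2 := Finset.single_le_sum (f := fun j : JT s => (if ((2, 0) : RowC) = (2, 0) then
        |ZZ s ⟨(2, 0), Gad.mem_r2⟩ j - Gad.D s o X Y (2, 0) j.1| else 0))
      (fun j _ => hnn' ⟨(2, 0), Gad.mem_r2⟩ j)
      (Finset.mem_univ (⟨(1, s.2.1.length), Gad.mem_c1 (Nat.lt_succ_self _)⟩ : JT s))
    refine le_trans (le_of_eq ?_) h2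
    simp only [if_true]
    rw [ZZ_eq', if_pos ⟨rfl, rfl⟩]
    have h3 : Gad.D s o X Y (2, 0) (1, s.2.1.length) = Y Gad.PQ (1, s.2.1.length) :=
      Gad.dotZ (hX _ Gad.mem_r2)
    rw [h3]
  have hA : ∀ v < s.1, |X (0, 0) (Gad.PA v)| ≤ 1 := by
    intro v hv
    have := (hx ⟨(0, 0), Gad.mem_r0⟩ ⟨Gad.PA v, (Gad.mem_PA s o).2 hv⟩).2
      (by simp [XX, xent, Gad.cvalR0])
    rwa [← hXx] at this
  have hB : ∀ v < s.1, |X (0, 0) (Gad.PB v)| ≤ 1 := by
    intro v hv
    have := (hx ⟨(0, 0), Gad.mem_r0⟩ ⟨Gad.PB v, (Gad.mem_PB s o).2 hv⟩).2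
      (by simp [XX, xent, Gad.cvalR0])
    rwa [← hXx] at this
  refine ⟨fun v => X (0, 0) (Gad.PB v), E, hE0, hB, ⟨?_, ?_⟩, ?_⟩
  · intro p hp
    obtain ⟨g, hg, rfl⟩ := List.mem_iff_getElem.1 hp
    have hg' : g < s.2.1.length + 1 := hg.trans (Nat.lt_succ_self _)
    have ha := Gad.gate_a_lt (o := o) hs hg
    have hb := Gad.gate_b_lt hs ho g
    have h := Gad.prod_id hs ho X Y hX hY hg
    have e1 := hDE _ Gad.mem_r0 _ (Gad.mem_c1 hg') (by simp)
    have e2 := hDE _ (Gad.mem_r1 hg') _ (Gad.mem_c1 hg') (by simp)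
    have e3 := hDE _ (Gad.mem_r1 hg') _ (Gad.mem_c0 hb) (by simp)
    have e4 := hDE _ Gad.mem_r0 _ (Gad.mem_c0 hb) (by simp)
    have e5 := hDE _ Gad.mem_r0 _ (Gad.mem_c2 ha) (by simp)
    have f1 := hA _ ha
    have f2 := hB _ hb
    have hgd : gate s o g = s.2.1[g] := by rw [gate, List.getD_eq_getElem _ _ hg]
    rw [← hgd]
    simp only
    rw [h]
    set d1 := Gad.D s o X Y (0, 0) (1, g)
    set d2 := Gad.D s o X Y (1, g) (1, g)
    set d3 := Gad.D s o X Y (1, g) (0, (gate s o g).2.1)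
    set d4 := Gad.D s o X Y (0, 0) (0, (gate s o g).2.1)
    set d5 := Gad.D s o X Y (0, 0) (2, (gate s o g).1)
    set xa := X (0, 0) (Gad.PA (gate s o g).1)
    set xb := X (0, 0) (Gad.PB (gate s o g).2.1)
    have g1 : |xa * (d2 + d3 - d4)| ≤ 3 * E := by
      rw [abs_mul]
      calc |xa| * |d2 + d3 - d4| ≤ 1 * (3 * E) := by
            apply mul_le_mul f1 _ (abs_nonneg _) zero_le_one
            rw [abs_le] at *
            constructor <;> linarith
        _ = 3 * E := one_mul _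
    have g2 : |d5 * xb| ≤ E := by
      rw [abs_mul]
      calc |d5| * |xb| ≤ E * 1 := mul_le_mul e5 f2 (abs_nonneg _) hE0
        _ = E := mul_one _
    rw [abs_le] at *
    constructor <;> linarith
  · intro p hp
    obtain ⟨g, hg, rfl⟩ := List.mem_iff_getElem.1 hp
    have h := Gad.sum_id hs X Y hX hY hg
    have hmem : s.2.2.getD g (0, 0, 0) ∈ s.2.2 := by
      rw [List.getD_eq_getElem _ _ hg]
      exact List.getElem_mem hg
    have e1 := hDE _ Gad.mem_r0 _ (Gad.mem_c3 hg) (by simp)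
    have e2 := hDE _ Gad.mem_r0 _ (Gad.mem_c2 (hs.2.2 _ hmem).1) (by simp)
    have hgd : s.2.2.getD g (0, 0, 0) = s.2.2[g] := List.getD_eq_getElem _ _ hg
    rw [← hgd]
    simp only
    rw [h]
    rw [abs_le] at *
    constructor <;> linarith
  · have h := Gad.obj_id hs ho X Y hX hY
    have hg' : s.2.1.length < s.2.1.length + 1 := Nat.lt_succ_self _
    have e1 := hDE _ (Gad.mem_r1 hg') _ (Gad.mem_c1 hg') (by simp)
    have e2 := hDE _ (Gad.mem_r1 hg') _ (Gad.mem_c0 ho) (by simp)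
    have e3 := hDE _ Gad.mem_r0 _ (Gad.mem_c0 ho) (by simp)
    have e4 := le_abs_self (1 - Y Gad.PQ (1, s.2.1.length))
    simp only
    rw [abs_le] at e1 e2 e3
    nlinarith

end Pool.Agent.LRA67
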