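import Mathlib

/-!
# An effective gap theorem for integer polynomials of degree at most four

Let `S` be an integer polynomial of degree at most four in finitely many variables, written as a
finite combination of monomials, and suppose that it is nonnegative on the real space.  If `S` is
extremely small (doubly exponentially small in the number of variables) at some point that is not
too large, then `S` has a real zero.  The proof is elementary: if `S` had no zero we could look at
the minimum of `6 T S(x) + ∑ x_i^6`; critical points satisfy `x_i^5 = - T ∂_i S`, so every monomial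
reduces to a combination of the monomials with exponents at most four, and the minimum value is an
eigenvalue of an integer matrix depending polynomially on `T`.
-/

open Finset Polynomial

namespace Pool.Agent.LRA67.GapGen

/-! ## The sum of the absolute values of the coefficients -/

/-- Sum of the absolute values of the coefficients. -/
def nrm (p : ℤ[X]) : ℤ := ∑ i ∈ p.support, |p.coeff i|

theorem nrm_eq_sum (p : ℤ[X]) (s : Finset ℕ) (h : p.support ⊆ s) :
    nrm p = ∑ i ∈ s, |p.coeff i| := by
  unfold nrm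
  apply Finset.sum_subset h
  intro i _ hi
  simp [Polynomial.notMem_support_iff.1 hi]

theorem nrm_nonneg (p : ℤ[X]) : 0 ≤ nrm p := Finset.sum_nonneg fun _ _ => abs_nonneg _

@[simp] theorem nrm_zero : nrm 0 = 0 := by simp [nrm]

theorem nrm_add (p q : ℤ[X]) : nrm (p + q) ≤ nrm p + nrm q := by
  classical
  rw [nrm_eq_sum p (p.support ∪ q.support ∪ (p + q).support)
      (fun i hi => by simp only [Finset.mem_union]; tauto),
    nrm_eq_sum q (p.support ∪ q.support ∪ (p + q).support)
      (fun i hi => by simp only [Finset.mem_union]; tauto),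
    nrm_eq_sum (p + q) (p.support ∪ q.support ∪ (p + q).support)
      (fun i hi => by simp only [Finset.mem_union]; tauto),
    ← Finset.sum_add_distrib]
  apply Finset.sum_le_sum
  intro i _
  rw [Polynomial.coeff_add]
  exact abs_add_le _ _

theorem nrm_neg (p : ℤ[X]) : nrm (-p) = nrm p := by
  unfold nrm
  rw [Polynomial.support_neg]
  simp

theorem nrm_sub (p q : ℤ[X]) : nrm (p - q) ≤ nrm p + nrm q := by
  rw [sub_eq_add_neg]
  exact (nrm_add _ _).trans_eq (by rw [nrm_neg])

theorem nrm_sum {α : Type*} (s : Finset α) (f : α → ℤ[X]) :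
    nrm (∑ a ∈ s, f a) ≤ ∑ a ∈ s, nrm (f a) := by
  classical
  induction s using Finset.induction_on with
  | empty => simp
  | insert a s ha ih =>
      rw [Finset.sum_insert ha, Finset.sum_insert ha]
      exact (nrm_add _ _).trans (by linarith)

theorem nrm_monomial (k : ℕ) (a : ℤ) : nrm (Polynomial.monomial k a) ≤ |a| := by
  by_cases h : a = 0
  · simp [h]
  · unfold nrm
    rw [Polynomial.support_monomial k h]
    simp

theorem nrm_mul (p q : ℤ[X]) : nrm (p * q) ≤ nrm p * nrm q := by
  have h : p * q = ∑ i ∈ p.support, ∑ j ∈ q.support,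
      Polynomial.monomial (i + j) (p.coeff i * q.coeff j) := by
    rw [Polynomial.mul_eq_sum_sum]
    rfl
  rw [h]
  refine (nrm_sum _ _).trans ?_
  unfold nrm at *
  rw [Finset.sum_mul_sum]
  apply Finset.sum_le_sum
  intro i _
  refine (nrm_sum _ _).trans ?_
  apply Finset.sum_le_sum
  intro j _
  refine (nrm_monomial _ _).trans_eq ?_
  rw [abs_mul]

theorem nrm_C (a : ℤ) : nrm (Polynomial.C a) ≤ |a| := by
  simpa using nrm_monomial 0 a

theorem nrm_intCast (a : ℤ) : nrm (a : ℤ[X]) ≤ |a| := by
  simpa using nrm_C a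

theorem nrm_one : nrm (1 : ℤ[X]) ≤ 1 := by
  simpa using nrm_C 1

theorem nrm_X : nrm (Polynomial.X : ℤ[X]) ≤ 1 := by
  have := nrm_monomial 1 1
  rw [Polynomial.monomial_one_one_eq_X] at this
  simpa using this

theorem nrm_prod {α : Type*} (s : Finset α) (f : α → ℤ[X]) :
    nrm (∏ a ∈ s, f a) ≤ ∏ a ∈ s, nrm (f a) := by
  classical
  induction s using Finset.induction_on with
  | empty => simpa using nrm_one
  | insert a s ha ih =>
      rw [Finset.prod_insert ha, Finset.prod_insert ha]
      exact (nrm_mul _ _).trans (mul_le_mul_of_nonneg_left ih (nrm_nonneg _))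

/-- The determinant is bounded by the product of the column sums. -/
theorem nrm_det {α : Type*} [Fintype α] [DecidableEq α] (A : Matrix α α ℤ[X]) :
    nrm A.det ≤ ∏ i, ∑ j, nrm (A i j) := by
  rw [← Matrix.det_transpose, Matrix.det_apply]
  refine (nrm_sum _ _).trans ?_
  rw [Finset.prod_univ_sum]
  have h1 : ∀ σ : Equiv.Perm α,
      nrm (Equiv.Perm.sign σ • ∏ i, A.transpose (σ i) i) ≤ ∏ i, nrm (A i (σ i)) := by
    intro σ
    rcases Int.units_eq_one_or (Equiv.Perm.sign σ) with h | h
    · rw [h, one_smul]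
      exact nrm_prod _ _
    · rw [h, Units.neg_smul, one_smul, nrm_neg]
      exact nrm_prod _ _
  refine (Finset.sum_le_sum fun σ _ => h1 σ).trans ?_
  have h2 : ∑ σ : Equiv.Perm α, ∏ i, nrm (A i (σ i)) =
      ∑ f ∈ (Finset.univ : Finset (Equiv.Perm α)).map
        ⟨fun σ : Equiv.Perm α => (fun i => σ i : α → α), fun a b h => by
          ext i; exact congrFun h i⟩, ∏ i, nrm (A i (f i)) := by
    rw [Finset.sum_map]
    rfl
  rw [h2]
  apply Finset.sum_le_sum_of_subset_of_nonneg
  · intro f _
    simp
  · intro f _ _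
    exact Finset.prod_nonneg fun i _ => nrm_nonneg _

/-- A root `T ≥ 1` of a nonzero integer polynomial is less than the sum of the absolute values of
the coefficients. -/
theorem root_lt_nrm (p : ℤ[X]) (hp : p ≠ 0) (T : ℝ) (hT : 1 ≤ T)
    (h : Polynomial.eval₂ (Int.castRingHom ℝ) T p = 0) : T < nrm p := by
  set d := p.natDegree with hd
  have hlead : (1 : ℤ) ≤ |p.coeff d| := by
    have : p.coeff d ≠ 0 := by
      rw [hd]; exact Polynomial.leadingCoeff_ne_zero.2 hp
    exact Int.one_le_abs this
  have hsum : nrm p = ∑ i ∈ Finset.range (d + 1), |p.coeff i| := by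
    apply nrm_eq_sum
    intro i hi
    rw [Finset.mem_range]
    have := Polynomial.le_natDegree_of_mem_supp i hi
    omega
  rw [Finset.sum_range_succ] at hsum
  rw [Polynomial.eval₂_eq_sum_range, Finset.sum_range_succ] at h
  have hd0 : d ≠ 0 := by
    intro h0
    rw [← hd, h0] at h
    simp only [Finset.range_zero, Finset.sum_empty, pow_zero, mul_one, zero_add] at h
    rw [h0] at hlead
    have : p.coeff 0 = 0 := by
      have := h
      simpa using this
    rw [this] at hlead
    simp at hlead
  obtain ⟨e, he⟩ := Nat.exists_eq_succ_of_ne_zero hd0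
  have hTpos : (0 : ℝ) < T := by linarith
  have h1 : |(p.coeff d : ℝ)| * T ^ d ≤ (∑ i ∈ Finset.range d, |(p.coeff i : ℝ)|) * T ^ e := by
    have h2 : (p.coeff d : ℝ) * T ^ d = - ∑ i ∈ Finset.range d, (p.coeff i : ℝ) * T ^ i := by
      have := h
      simp only [eq_intCast, ← hd] at this
      linarith
    calc |(p.coeff d : ℝ)| * T ^ d = |(p.coeff d : ℝ) * T ^ d| := by
            rw [abs_mul, abs_of_pos (pow_pos hTpos d)]
      _ = |∑ i ∈ Finset.range d, (p.coeff i : ℝ) * T ^ i| := by rw [h2, abs_neg]
      _ ≤ ∑ i ∈ Finset.range d, |(p.coeff i : ℝ) * T ^ i| := Finset.abs_sum_le_sum_abs _ _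
      _ ≤ ∑ i ∈ Finset.range d, |(p.coeff i : ℝ)| * T ^ e := by
            apply Finset.sum_le_sum
            intro i hi
            rw [abs_mul, abs_of_pos (pow_pos hTpos i)]
            apply mul_le_mul_of_nonneg_left _ (abs_nonneg _)
            apply pow_le_pow_right₀ hT
            have := Finset.mem_range.1 hi
            omega
      _ = _ := by rw [Finset.sum_mul]
  have h3 : T ≤ ∑ i ∈ Finset.range d, |(p.coeff i : ℝ)| := by
    have h4 : T ^ d = T * T ^ e := by rw [he, pow_succ]; ring
    have h5 : (1 : ℝ) ≤ |(p.coeff d : ℝ)| := by exact_mod_cast hlead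
    have h6 : T * T ^ e ≤ (∑ i ∈ Finset.range d, |(p.coeff i : ℝ)|) * T ^ e := by
      calc T * T ^ e = 1 * T ^ d := by rw [h4, one_mul]
        _ ≤ |(p.coeff d : ℝ)| * T ^ d := by
            apply mul_le_mul_of_nonneg_right h5 (pow_nonneg hTpos.le d)
        _ ≤ _ := h1
    exact le_of_mul_le_mul_right h6 (pow_pos hTpos e)
  have h7 : (nrm p : ℝ) = ∑ i ∈ Finset.range d, |(p.coeff i : ℝ)| + |(p.coeff d : ℝ)| := by
    rw [hsum]; push_cast; rfl
  rw [h7]
  have h5 : (1 : ℝ) ≤ |(p.coeff d : ℝ)| := by exact_mod_cast hlead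
  linarith

/-! ## Monomials -/

variable {ι κ : Type} [Fintype ι] [DecidableEq ι] [Fintype κ]

/-- The monomial with exponent vector `a`. -/
def mon (a : ι → ℕ) (x : ι → ℝ) : ℝ := ∏ j, x j ^ a j

omit [DecidableEq ι] in
theorem mon_add (a b : ι → ℕ) (x : ι → ℝ) : mon (a + b) x = mon a x * mon b x := by
  unfold mon
  rw [← Finset.prod_mul_distrib]
  apply Finset.prod_congr rfl
  intro j _
  rw [Pi.add_apply, pow_add]

omit [DecidableEq ι] in
@[simp] theorem mon_zero (x : ι → ℝ) : mon 0 x = 1 := by
  simp [mon]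

theorem mon_single (i : ι) (k : ℕ) (x : ι → ℝ) : mon (Pi.single i k) x = x i ^ k := by
  unfold mon
  rw [Finset.prod_eq_single i]
  · simp
  · intro j _ hj
    simp [Pi.single_eq_of_ne hj]
  · simp

omit [DecidableEq ι] in
theorem continuous_mon (a : ι → ℕ) : Continuous (mon a) := by
  unfold mon
  fun_prop

/-- The exponent vector of the derivative. -/
def dec (i : ι) (a : ι → ℕ) : ι → ℕ := Function.update a i (a i - 1)

theorem mon_update (a : ι → ℕ) (i : ι) (x : ι → ℝ) (t : ℝ) :
    mon a (Function.update x i t) = (∏ j ∈ univ.erase i, x j ^ a j) * t ^ a i := by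
  unfold mon
  rw [← Finset.prod_erase_mul _ _ (Finset.mem_univ i)]
  congr 1
  · apply Finset.prod_congr rfl
    intro j hj
    rw [Function.update_of_ne (Finset.ne_of_mem_erase hj)]
  · simp

theorem mon_dec (a : ι → ℕ) (i : ι) (x : ι → ℝ) :
    mon (dec i a) x = (∏ j ∈ univ.erase i, x j ^ a j) * x i ^ (a i - 1) := by
  unfold mon dec
  rw [← Finset.prod_erase_mul _ _ (Finset.mem_univ i)]
  congr 1
  · apply Finset.prod_congr rfl
    intro j hj
    rw [Function.update_of_ne (Finset.ne_of_mem_erase hj)]
  · simp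

theorem hasDerivAt_mon (a : ι → ℕ) (i : ι) (x : ι → ℝ) :
    HasDerivAt (fun t => mon a (Function.update x i t)) (a i * mon (dec i a) x) (x i) := by
  have h : (fun t => mon a (Function.update x i t)) =
      fun t => (∏ j ∈ univ.erase i, x j ^ a j) * t ^ a i := by
    funext t
    exact mon_update a i x t
  rw [h, mon_dec]
  have := (hasDerivAt_pow (a i) (x i)).const_mul (∏ j ∈ univ.erase i, x j ^ a j)
  have h2 : (a i : ℝ) * ((∏ j ∈ univ.erase i, x j ^ a j) * x i ^ (a i - 1)) =
      (∏ j ∈ univ.erase i, x j ^ a j) * ((a i : ℝ) * x i ^ (a i - 1)) := by ring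
  rw [h2]
  exact this

theorem euler_mon (a : ι → ℕ) (i : ι) (x : ι → ℝ) :
    x i * (a i * mon (dec i a) x) = a i * mon a x := by
  rw [mon_dec]
  have h : mon a x = (∏ j ∈ univ.erase i, x j ^ a j) * x i ^ a i := by
    have := mon_update a i x (x i)
    rwa [Function.update_eq_self] at this
  rw [h]
  rcases Nat.eq_zero_or_pos (a i) with h0 | h0
  · simp [h0]
  · obtain ⟨m, hm⟩ := Nat.exists_eq_succ_of_ne_zero (Nat.pos_iff_ne_zero.1 h0)
    rw [hm]
    simp only [Nat.succ_eq_add_one, Nat.add_sub_cancel, pow_succ]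
    ring

/-! ## Reduction of monomials at a critical point -/

/-- Degree of an exponent vector. -/
def deg (a : ι → ℕ) : ℕ := ∑ i, a i

omit [DecidableEq ι] in
theorem deg_add (a b : ι → ℕ) : deg (a + b) = deg a + deg b := by
  simp [deg, Finset.sum_add_distrib]

theorem deg_dec_le (i : ι) (a : ι → ℕ) : deg (dec i a) ≤ deg a := by
  unfold deg dec
  apply Finset.sum_le_sum
  intro j _
  by_cases h : j = i
  · subst h; simp
  · rw [Function.update_of_ne h]

/-- Value of the integer polynomial with coefficients `s` and exponents `g`. -/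
def val (s : κ → ℤ) (g : κ → ι → ℕ) (x : ι → ℝ) : ℝ := ∑ k, (s k : ℝ) * mon (g k) x

/-- Partial derivative. -/
def pd (s : κ → ℤ) (g : κ → ι → ℕ) (i : ι) (x : ι → ℝ) : ℝ :=
  ∑ k, (s k : ℝ) * ((g k i : ℝ) * mon (dec i (g k)) x)

/-- The critical point equations. -/
def Crit (s : κ → ℤ) (g : κ → ι → ℕ) (T : ℝ) (x : ι → ℝ) : Prop :=
  ∀ i, x i ^ 5 = - T * pd s g i x

/-- Evaluation of an integer polynomial at a real number. -/
noncomputable def ev (T : ℝ) (p : ℤ[X]) : ℝ := Polynomial.eval₂ (Int.castRingHom ℝ) T p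

theorem exists_reduce (s : κ → ℤ) (g : κ → ι → ℕ) (hdeg : ∀ k, deg (g k) ≤ 4) (L : ℤ)
    (hL : ∑ k, |s k| ≤ L) (hL1 : 1 ≤ L) :
    ∀ (d : ℕ) (b : ι → ℕ), deg b ≤ d → ∃ c : (ι → Fin 5) → ℤ[X],
      (∑ a, nrm (c a) ≤ (4 * L) ^ d) ∧
      ∀ (T : ℝ) (x : ι → ℝ), Crit s g T x →
        mon b x = ∑ a, ev T (c a) * mon (fun i => (a i : ℕ)) x := by
  intro d
  induction d with
  | zero =>
      intro b hb
      have hb0 : b = 0 := by
        funext i
        have : deg b = 0 := by omega
        have h2 : b i ≤ deg b := Finset.single_le_sum (f := b) (fun j _ => Nat.zero_le _)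
          (Finset.mem_univ i)
        simp only [Pi.zero_apply]
        omega
      refine ⟨Pi.single 0 1, ?_, ?_⟩
      · rw [Finset.sum_eq_single (0 : ι → Fin 5)]
        · simpa using nrm_one
        · intro a _ ha
          rw [Pi.single_eq_of_ne ha]
          simp
        · simp
      · intro T x _
        rw [Finset.sum_eq_single (0 : ι → Fin 5)]
        · simp [hb0, ev, mon]
        · intro a _ ha
          rw [Pi.single_eq_of_ne ha]
          simp [ev]
        · simp
  | succ d ih =>
      intro b hb
      have hL4 : (1 : ℤ) ≤ 4 * L := by linarith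
      by_cases hsmall : ∀ i, b i < 5
      · set a0 : ι → Fin 5 := fun i => ⟨b i, hsmall i⟩ with ha0
        refine ⟨Pi.single a0 1, ?_, ?_⟩
        · rw [Finset.sum_eq_single a0]
          · simp only [Pi.single_eq_same]
            exact nrm_one.trans (one_le_pow₀ hL4)
          · intro a _ ha
            rw [Pi.single_eq_of_ne ha]
            simp
          · simp
        · intro T x _
          rw [Finset.sum_eq_single a0]
          · simp [ev, ha0]
          · intro a _ ha
            rw [Pi.single_eq_of_ne ha]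
            simp [ev]
          · simp
      · push Not at hsmall
        obtain ⟨i, hi⟩ := hsmall
        set b' : ι → ℕ := Function.update b i (b i - 5) with hb'
        have hbb : b = b' + Pi.single i 5 := by
          funext j
          by_cases hj : j = i
          · subst hj
            simp [hb']
            omega
          · simp [hb', Function.update_of_ne hj, Pi.single_eq_of_ne hj]
        have hdb : deg b = deg b' + 5 := by
          rw [hbb, deg_add]
          congr 1
          unfold deg
          rw [Fintype.sum_eq_single i (fun j hj => Pi.single_eq_of_ne hj _)]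
          simp
        have hk : ∀ k, deg (b' + dec i (g k)) ≤ d := by
          intro k
          rw [deg_add]
          have := deg_dec_le i (g k)
          have := hdeg k
          omega
        choose c hc1 hc2 using fun k => ih (b' + dec i (g k)) (hk k)
        refine ⟨fun a => ∑ k, (-(Polynomial.X * Polynomial.C (s k * (g k i : ℤ)))) * c k a,
          ?_, ?_⟩
        · have h1 : ∀ a, nrm (∑ k, (-(Polynomial.X * Polynomial.C (s k * (g k i : ℤ)))) * c k a)
              ≤ ∑ k, (4 * |s k|) * nrm (c k a) := by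
            intro a
            refine (nrm_sum _ _).trans (Finset.sum_le_sum fun k _ => ?_)
            refine (nrm_mul _ _).trans ?_
            apply mul_le_mul_of_nonneg_right _ (nrm_nonneg _)
            rw [nrm_neg]
            refine (nrm_mul _ _).trans ?_
            have hX := nrm_X
            have hC := nrm_C (s k * (g k i : ℤ))
            have hgi : (g k i : ℤ) ≤ 4 := by
              have h2 : g k i ≤ deg (g k) :=
                Finset.single_le_sum (f := g k) (fun j _ => Nat.zero_le _) (Finset.mem_univ i)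
              have := hdeg k
              exact_mod_cast h2.trans this
            have habs : |s k * (g k i : ℤ)| ≤ 4 * |s k| := by
              rw [abs_mul, abs_of_nonneg (by positivity : (0 : ℤ) ≤ (g k i : ℤ))]
              nlinarith [abs_nonneg (s k)]
            calc nrm Polynomial.X * nrm (Polynomial.C (s k * (g k i : ℤ)))
                ≤ 1 * nrm (Polynomial.C (s k * (g k i : ℤ))) :=
                  mul_le_mul_of_nonneg_right hX (nrm_nonneg _)
              _ ≤ 4 * |s k| := by rw [one_mul]; exact hC.trans habs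
          refine (Finset.sum_le_sum fun a _ => h1 a).trans ?_
          rw [Finset.sum_comm]
          calc ∑ k, ∑ a, 4 * |s k| * nrm (c k a) = ∑ k, 4 * |s k| * ∑ a, nrm (c k a) := by
                apply Finset.sum_congr rfl
                intro k _
                rw [Finset.mul_sum]
            _ ≤ ∑ k, 4 * |s k| * (4 * L) ^ d := by
                apply Finset.sum_le_sum
                intro k _
                apply mul_le_mul_of_nonneg_left (hc1 k)
                positivity
            _ = 4 * (∑ k, |s k|) * (4 * L) ^ d := by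
                rw [Finset.mul_sum, Finset.sum_mul]
            _ ≤ 4 * L * (4 * L) ^ d := by
                apply mul_le_mul_of_nonneg_right _ (by positivity)
                linarith
            _ = (4 * L) ^ (d + 1) := by rw [pow_succ]; ring
        · intro T x hx
          have h1 : mon b x = mon b' x * x i ^ 5 := by
            rw [hbb, mon_add, mon_single]
          rw [h1, hx i]
          unfold pd
          rw [Finset.mul_sum, Finset.mul_sum]
          have h2 : ∀ k, mon b' x * (-T * ((s k : ℝ) * ((g k i : ℝ) * mon (dec i (g k)) x))) =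
              ∑ a, (-(T * ((s k : ℝ) * (g k i : ℝ)))) * ev T (c k a) *
                mon (fun i => ((a i : Fin 5) : ℕ)) x := by
            intro k
            have h3 := hc2 k T x hx
            rw [mon_add] at h3
            have h4 : mon b' x * (-T * ((s k : ℝ) * ((g k i : ℝ) * mon (dec i (g k)) x))) =
                (-(T * ((s k : ℝ) * (g k i : ℝ)))) * (mon b' x * mon (dec i (g k)) x) := by ring
            rw [h4, h3, Finset.mul_sum]
            apply Finset.sum_congr rfl
            intro a _
            ring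
          rw [Finset.sum_congr rfl fun k _ => h2 k, Finset.sum_comm]
          apply Finset.sum_congr rfl
          intro a _
          rw [← Finset.sum_mul]
          congr 1
          unfold ev
          rw [Polynomial.eval₂_finsetSum]
          apply Finset.sum_congr rfl
          intro k _
          rw [Polynomial.eval₂_mul, Polynomial.eval₂_neg, Polynomial.eval₂_mul,
            Polynomial.eval₂_X, Polynomial.eval₂_C]
          simp

/-! ## The matrix -/

/-- At a critical point the value of `6 T S + ∑ x_i^6` is a combination of monomials of degree at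
most four with integer coefficients times `T`. -/
theorem value_at_crit (s : κ → ℤ) (g : κ → ι → ℕ) (T : ℝ) (x : ι → ℝ) (hx : Crit s g T x) :
    6 * T * val s g x + ∑ i, x i ^ 6 =
      ∑ k, (T * ((s k * (6 - (deg (g k) : ℤ)) : ℤ) : ℝ)) * mon (g k) x := by
  have h1 : ∑ i, x i ^ 6 = - T * ∑ k, (s k : ℝ) * ((deg (g k) : ℝ) * mon (g k) x) := by
    have h2 : ∀ i, x i ^ 6 = - T * ∑ k, (s k : ℝ) * ((g k i : ℝ) * mon (g k) x) := by
      intro i
      have h3 : x i ^ 6 = x i * x i ^ 5 := by ring
      rw [h3, hx i]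
      unfold pd
      rw [Finset.mul_sum, Finset.mul_sum, Finset.mul_sum]
      apply Finset.sum_congr rfl
      intro k _
      rw [← euler_mon (g k) i x]
      ring
    rw [Finset.sum_congr rfl fun i _ => h2 i, ← Finset.mul_sum, Finset.sum_comm]
    congr 1
    apply Finset.sum_congr rfl
    intro k _
    rw [← Finset.mul_sum, ← Finset.sum_mul]
    congr 2
    unfold deg
    push_cast
    rfl
  rw [h1]
  unfold val
  rw [Finset.mul_sum, Finset.mul_sum, ← Finset.sum_add_distrib]
  apply Finset.sum_congr rfl
  intro k _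
  push_cast
  ring

/-- The integer matrix whose eigenvalues contain all critical values. -/
theorem exists_matrix (s : κ → ℤ) (g : κ → ι → ℕ) (hdeg : ∀ k, deg (g k) ≤ 4) (L : ℤ)
    (hL : ∑ k, |s k| ≤ L) (hL1 : 1 ≤ L) :
    ∃ M : Matrix (ι → Fin 5) (ι → Fin 5) ℤ[X],
      (∀ a, ∑ a', nrm (M a a') ≤ 6 * L * (4 * L) ^ (4 * Fintype.card ι + 4)) ∧
      ∀ (T : ℝ) (x : ι → ℝ), Crit s g T x → ∀ a,
        (6 * T * val s g x + ∑ i, x i ^ 6) * mon (fun i => ((a i : Fin 5) : ℕ)) x =
          ∑ a', ev T (M a a') * mon (fun i => ((a' i : Fin 5) : ℕ)) x := by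
  have hk : ∀ (k : κ) (a : ι → Fin 5),
      deg (g k + fun i => ((a i : Fin 5) : ℕ)) ≤ 4 * Fintype.card ι + 4 := by
    intro k a
    rw [deg_add]
    have h1 : deg (fun i => ((a i : Fin 5) : ℕ)) ≤ 4 * Fintype.card ι := by
      unfold deg
      calc ∑ i, ((a i : Fin 5) : ℕ) ≤ ∑ _i : ι, 4 :=
            Finset.sum_le_sum fun i _ => by have := (a i).isLt; omega
        _ = 4 * Fintype.card ι := by simp [mul_comm]
    have := hdeg k
    omega
  choose c hc1 hc2 using fun (k : κ) (a : ι → Fin 5) =>
    exists_reduce s g hdeg L hL hL1 (4 * Fintype.card ι + 4) _ (hk k a)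
  refine ⟨fun a a' => ∑ k, (Polynomial.X * Polynomial.C (s k * (6 - (deg (g k) : ℤ)))) * c k a a',
    ?_, ?_⟩
  · intro a
    have h1 : ∀ a', nrm (∑ k, (Polynomial.X * Polynomial.C (s k * (6 - (deg (g k) : ℤ)))) *
        c k a a') ≤ ∑ k, (6 * |s k|) * nrm (c k a a') := by
      intro a'
      refine (nrm_sum _ _).trans (Finset.sum_le_sum fun k _ => ?_)
      refine (nrm_mul _ _).trans ?_
      apply mul_le_mul_of_nonneg_right _ (nrm_nonneg _)
      refine (nrm_mul _ _).trans ?_
      have hX := nrm_X
      have hC := nrm_C (s k * (6 - (deg (g k) : ℤ)))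
      have hgi : (deg (g k) : ℤ) ≤ 4 := by exact_mod_cast hdeg k
      have hgi0 : (0 : ℤ) ≤ (deg (g k) : ℤ) := by positivity
      have habs : |s k * (6 - (deg (g k) : ℤ))| ≤ 6 * |s k| := by
        rw [abs_mul, abs_of_nonneg (by linarith : (0 : ℤ) ≤ 6 - (deg (g k) : ℤ))]
        nlinarith [abs_nonneg (s k)]
      calc nrm Polynomial.X * nrm (Polynomial.C (s k * (6 - (deg (g k) : ℤ))))
          ≤ 1 * nrm (Polynomial.C (s k * (6 - (deg (g k) : ℤ)))) :=
            mul_le_mul_of_nonneg_right hX (nrm_nonneg _)
        _ ≤ 6 * |s k| := by rw [one_mul]; exact hC.trans habs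
    refine (Finset.sum_le_sum fun a' _ => h1 a').trans ?_
    rw [Finset.sum_comm]
    calc ∑ k, ∑ a', 6 * |s k| * nrm (c k a a') = ∑ k, 6 * |s k| * ∑ a', nrm (c k a a') := by
          apply Finset.sum_congr rfl
          intro k _
          rw [Finset.mul_sum]
      _ ≤ ∑ k, 6 * |s k| * (4 * L) ^ (4 * Fintype.card ι + 4) := by
          apply Finset.sum_le_sum
          intro k _
          apply mul_le_mul_of_nonneg_left (hc1 k a)
          positivity
      _ = 6 * (∑ k, |s k|) * (4 * L) ^ (4 * Fintype.card ι + 4) := by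
          rw [Finset.mul_sum, Finset.sum_mul]
      _ ≤ _ := by
          apply mul_le_mul_of_nonneg_right _ (by positivity)
          linarith
  · intro T x hx a
    rw [value_at_crit s g T x hx, Finset.sum_mul]
    have h2 : ∀ k, (T * ((s k * (6 - (deg (g k) : ℤ)) : ℤ) : ℝ)) * mon (g k) x *
        mon (fun i => ((a i : Fin 5) : ℕ)) x =
        ∑ a', (T * ((s k * (6 - (deg (g k) : ℤ)) : ℤ) : ℝ)) * ev T (c k a a') *
          mon (fun i => ((a' i : Fin 5) : ℕ)) x := by
      intro k
      have h3 := hc2 k a T x hx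
      rw [mon_add] at h3
      rw [mul_assoc, h3, Finset.mul_sum]
      apply Finset.sum_congr rfl
      intro a' _
      ring
    rw [Finset.sum_congr rfl fun k _ => h2 k, Finset.sum_comm]
    apply Finset.sum_congr rfl
    intro a' _
    rw [← Finset.sum_mul]
    congr 1
    unfold ev
    rw [Polynomial.eval₂_finsetSum]
    apply Finset.sum_congr rfl
    intro k _
    rw [Polynomial.eval₂_mul, Polynomial.eval₂_mul,
      Polynomial.eval₂_X, Polynomial.eval₂_C]
    simp

/-- If a critical value equals an integer, then the corresponding determinant vanishes at `T`. -/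
theorem det_eq_zero (s : κ → ℤ) (g : κ → ι → ℕ)
    (M : Matrix (ι → Fin 5) (ι → Fin 5) ℤ[X])
    (hM : ∀ (T : ℝ) (x : ι → ℝ), Crit s g T x → ∀ a,
        (6 * T * val s g x + ∑ i, x i ^ 6) * mon (fun i => ((a i : Fin 5) : ℕ)) x =
          ∑ a', ev T (M a a') * mon (fun i => ((a' i : Fin 5) : ℕ)) x)
    (T : ℝ) (x : ι → ℝ) (hx : Crit s g T x) (l : ℤ)
    (hl : 6 * T * val s g x + ∑ i, x i ^ 6 = l) :
    ev T (Matrix.det (Matrix.scalar (ι → Fin 5) (l : ℤ[X]) - M)) = 0 := by
  classical
  have h1 : ev T (Matrix.det (Matrix.scalar (ι → Fin 5) (l : ℤ[X]) - M)) =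
      Matrix.det ((Polynomial.eval₂RingHom (Int.castRingHom ℝ) T).mapMatrix
        (Matrix.scalar (ι → Fin 5) (l : ℤ[X]) - M)) := by
    rw [← RingHom.map_det]
    rfl
  rw [h1]
  by_contra hdet
  have h2 : (fun a : ι → Fin 5 => mon (fun i => ((a i : Fin 5) : ℕ)) x) = 0 := by
    apply Matrix.eq_zero_of_mulVec_eq_zero hdet
    funext a
    simp only [RingHom.mapMatrix_apply, Matrix.mulVec, dotProduct, Matrix.map_apply,
      Matrix.sub_apply, Matrix.scalar_apply, Pi.zero_apply, map_sub, sub_mul,
      Finset.sum_sub_distrib]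
    have h3 := hM T x hx a
    rw [hl] at h3
    have h4 : ∑ a', (Polynomial.eval₂RingHom (Int.castRingHom ℝ) T) (M a a') *
        mon (fun i => ((a' i : Fin 5) : ℕ)) x =
        ∑ a', ev T (M a a') * mon (fun i => ((a' i : Fin 5) : ℕ)) x := rfl
    rw [h4, ← h3, Finset.sum_eq_single a]
    · simp [Matrix.diagonal_apply_eq]
    · intro a' _ ha'
      simp [Matrix.diagonal_apply_ne _ (Ne.symm ha')]
    · simp
  have h5 := congrFun h2 0
  simp [mon] at h5

/-! ## Critical points -/

omit [DecidableEq ι] in
theorem continuous_val (s : κ → ℤ) (g : κ → ι → ℕ) : Continuous (val s g) := by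
  unfold val
  apply continuous_finsetSum
  intro k _
  exact continuous_const.mul (continuous_mon _)

/-- A global minimum point of `6 T S + ∑ x_i^6` is critical. -/
theorem crit_of_min (s : κ → ℤ) (g : κ → ι → ℕ) (T : ℝ) (x : ι → ℝ)
    (h : ∀ y : ι → ℝ, 6 * T * val s g x + ∑ i, x i ^ 6 ≤ 6 * T * val s g y + ∑ i, y i ^ 6) :
    Crit s g T x := by
  intro i
  have h1 : HasDerivAt (fun t => 6 * T * val s g (Function.update x i t) +
      ∑ j, (Function.update x i t) j ^ 6) (6 * T * pd s g i x + 6 * x i ^ 5) (x i) := by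
    apply HasDerivAt.add
    · apply HasDerivAt.const_mul
      unfold val pd
      have := HasDerivAt.fun_sum (u := (univ : Finset κ))
        (A := fun k t => (s k : ℝ) * mon (g k) (Function.update x i t))
        (A' := fun k => (s k : ℝ) * ((g k i : ℝ) * mon (dec i (g k)) x)) (x := x i)
        (fun k _ => (hasDerivAt_mon (g k) i x).const_mul (s k : ℝ))
      exact this
    · have h2 : (fun t => ∑ j, (Function.update x i t) j ^ 6) =
          fun t => (∑ j ∈ univ.erase i, x j ^ 6) + t ^ 6 := by
        funext t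
        rw [← Finset.sum_erase_add _ _ (Finset.mem_univ i)]
        congr 1
        · apply Finset.sum_congr rfl
          intro j hj
          rw [Function.update_of_ne (Finset.ne_of_mem_erase hj)]
        · simp
      rw [h2]
      have h3 := (hasDerivAt_pow 6 (x i)).const_add (∑ j ∈ univ.erase i, x j ^ 6)
      have h6 : ((6 : ℕ) : ℝ) * x i ^ (6 - 1) = 6 * x i ^ 5 := by norm_num
      rw [h6] at h3
      exact h3
  have h4 : IsLocalMin (fun t => 6 * T * val s g (Function.update x i t) +
      ∑ j, (Function.update x i t) j ^ 6) (x i) := by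
    apply Filter.Eventually.of_forall
    intro t
    have := h (Function.update x i t)
    simp only [Function.update_eq_self]
    exact this
  have h5 := h4.hasDerivAt_eq_zero h1
  linarith

omit [DecidableEq ι] in
/-- If `S` is positive everywhere then some `T ≥ T₀` has minimum value exactly `l`. -/
theorem exists_min (s : κ → ℤ) (g : κ → ι → ℕ) (hpos : ∀ x, 0 < val s g x)
    (T0 : ℝ) (hT0 : 0 ≤ T0) (l : ℝ) (x0 : ι → ℝ)
    (hx0 : 6 * T0 * val s g x0 + ∑ i, x0 i ^ 6 ≤ l) :
    ∃ (T : ℝ) (x : ι → ℝ), T0 ≤ T ∧ 6 * T * val s g x + ∑ i, x i ^ 6 = l ∧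
      ∀ y : ι → ℝ, l ≤ 6 * T * val s g y + ∑ i, y i ^ 6 := by
  set K : Set (ι → ℝ) := {x | ∑ i, x i ^ 6 ≤ l} with hK
  have hl0 : 0 ≤ l := by
    refine le_trans ?_ hx0
    have := hpos x0
    have h2 : 0 ≤ ∑ i, x0 i ^ 6 := Finset.sum_nonneg fun i _ => by positivity
    positivity
  have hKc : IsCompact K := by
    have hsub : K ⊆ Set.pi Set.univ (fun _ : ι => Set.Icc (-(l + 1)) (l + 1)) := by
      intro x hx i _
      have h1 : x i ^ 6 ≤ l := by
        refine le_trans ?_ hx
        exact Finset.single_le_sum (f := fun i => x i ^ 6) (fun j _ => by positivity)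
          (Finset.mem_univ i)
      have h2 : |x i| ≤ l + 1 := by
        by_contra hc
        push Not at hc
        have h3 : 1 ≤ |x i| := by linarith
        have h4 : |x i| ≤ |x i| ^ 6 := le_self_pow₀ h3 (by norm_num)
        have h5 : |x i| ^ 6 = x i ^ 6 := by
          rw [← abs_pow]
          exact abs_of_nonneg (by positivity)
        rw [h5] at h4
        linarith
      exact abs_le.1 h2
    have hclosed : IsClosed K := by
      apply isClosed_le
      · fun_prop
      · exact continuous_const
    exact IsCompact.of_isClosed_subset (isCompact_univ_pi fun _ => isCompact_Icc) hclosed hsub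
  have hne : K.Nonempty := ⟨x0, by
    have h1 : 0 ≤ 6 * T0 * val s g x0 := by have := hpos x0; positivity
    show ∑ i, x0 i ^ 6 ≤ l
    linarith⟩
  have hcont : ContinuousOn (fun x => (l - ∑ i, x i ^ 6) / (6 * val s g x)) K := by
    apply ContinuousOn.div
    · fun_prop
    · exact (continuous_const.mul (continuous_val s g)).continuousOn
    · intro x _
      have := hpos x
      positivity
  obtain ⟨x1, hx1K, hx1⟩ := hKc.exists_isMaxOn hne hcont
  set T := (l - ∑ i, x1 i ^ 6) / (6 * val s g x1) with hT
  have hle : ∀ y ∈ K, l - ∑ i, y i ^ 6 ≤ 6 * T * val s g y := by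
    intro y hy
    have h1 : (l - ∑ i, y i ^ 6) / (6 * val s g y) ≤ T := hx1 hy
    have h2 := hpos y
    rw [div_le_iff₀ (by positivity)] at h1
    linarith
  have hT0T : T0 ≤ T := by
    have hx0K : x0 ∈ K := by
      have h1 : 0 ≤ 6 * T0 * val s g x0 := by have := hpos x0; positivity
      show ∑ i, x0 i ^ 6 ≤ l
      linarith
    refine le_trans ?_ (hx1 hx0K)
    have h2 := hpos x0
    rw [le_div_iff₀ (by positivity)]
    linarith
  refine ⟨T, x1, hT0T, ?_, ?_⟩
  · have h2 := hpos x1
    have h3 : T * (6 * val s g x1) = l - ∑ i, x1 i ^ 6 := by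
      rw [hT]
      field_simp
    linarith
  · intro y
    by_cases hy : y ∈ K
    · have := hle y hy
      linarith
    · have h1 : l < ∑ i, y i ^ 6 := not_le.1 hy
      have h2 := hpos y
      have h3 : 0 ≤ 6 * T * val s g y := by
        have : 0 ≤ T := hT0.trans hT0T
        positivity
      linarith

/-! ## The gap theorem -/

/-- The bound. -/
def bd (n : ℕ) (L R : ℤ) : ℤ :=
  (R + 5 ^ n + 2 + 6 * L * (4 * L) ^ (4 * n + 4)) ^ 5 ^ n

/-- **Gap theorem.**  Let `S` be an integer polynomial of degree at most four in `n` variables,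
nonnegative on the reals, with the sum of the absolute values of the coefficients at most `L`.
If at some point `x` with `∑ x_i^6 ≤ R` we have `6 T₀ S(x) ≤ 1` with `T₀ = bd n L R`, then `S` has
a real zero. -/
theorem gap (s : κ → ℤ) (g : κ → ι → ℕ) (hdeg : ∀ k, deg (g k) ≤ 4) (L : ℤ)
    (hL : ∑ k, |s k| ≤ L) (hL1 : 1 ≤ L) (hnn : ∀ x, 0 ≤ val s g x) (R : ℤ) (hR : 0 ≤ R)
    (x : ι → ℝ) (hx : ∑ i, x i ^ 6 ≤ R)
    (hS : 6 * (bd (Fintype.card ι) L R : ℝ) * val s g x ≤ 1) :
    ∃ y, val s g y = 0 := by
  classical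
  by_contra hno
  push Not at hno
  have hpos : ∀ y, 0 < val s g y := fun y => lt_of_le_of_ne (hnn y) (Ne.symm (hno y))
  obtain ⟨M, hM1, hM2⟩ := exists_matrix s g hdeg L hL hL1
  set n := Fintype.card ι with hn
  have hcard : Fintype.card (ι → Fin 5) = 5 ^ n := by simp [hn]
  -- choose the level
  obtain ⟨l, hl1, hl2, hl3⟩ : ∃ l : ℤ, R + 1 ≤ l ∧ l ≤ R + 1 + 5 ^ n ∧
      Matrix.det (Matrix.scalar (ι → Fin 5) (l : ℤ[X]) - M) ≠ 0 := by
    by_contra hall
    push Not at hall
    have hroots : ∀ j ∈ Finset.range (5 ^ n + 1),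
        ((R + 1 + (j : ℤ) : ℤ) : ℤ[X]) ∈ M.charpoly.roots.toFinset := by
      intro j hj
      rw [Multiset.mem_toFinset, Polynomial.mem_roots (Matrix.charpoly_monic M).ne_zero,
        Polynomial.IsRoot.def, Matrix.eval_charpoly]
      apply hall
      · have : (0 : ℤ) ≤ (j : ℤ) := by positivity
        linarith
      · have h1 : j ≤ 5 ^ n := by have := Finset.mem_range.1 hj; omega
        have h2 : (j : ℤ) ≤ 5 ^ n := by exact_mod_cast h1
        linarith
    have hinj : Set.InjOn (fun j : ℕ => ((R + 1 + (j : ℤ) : ℤ) : ℤ[X]))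
        (Finset.range (5 ^ n + 1)) := by
      intro a _ b _ hab
      have h1 : (R + 1 + (a : ℤ)) = (R + 1 + (b : ℤ)) := by
        have h2 : ((R + 1 + (a : ℤ) : ℤ) : ℤ[X]) = ((R + 1 + (b : ℤ) : ℤ) : ℤ[X]) := hab
        exact_mod_cast h2
      have h3 : (a : ℤ) = b := by linarith
      exact_mod_cast h3
    have hc := Finset.card_le_card_of_injOn _ hroots hinj
    rw [Finset.card_range] at hc
    have h2 : M.charpoly.roots.toFinset.card ≤ 5 ^ n := by
      refine (Multiset.toFinset_card_le _).trans ?_
      refine (Polynomial.card_roots' _).trans ?_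
      rw [Matrix.charpoly_natDegree_eq_dim, hcard]
    omega
  set p := Matrix.det (Matrix.scalar (ι → Fin 5) (l : ℤ[X]) - M) with hp
  have hl0 : 0 ≤ l := by linarith
  have hpow5 : (0 : ℤ) < 5 ^ n := by positivity
  have hN : nrm p < bd n L R := by
    have h1 : nrm p ≤ (l + 6 * L * (4 * L) ^ (4 * n + 4)) ^ 5 ^ n := by
      rw [hp]
      refine (nrm_det _).trans ?_
      have h2 : ∀ a : ι → Fin 5,
          ∑ a', nrm ((Matrix.scalar (ι → Fin 5) (l : ℤ[X]) - M) a a') ≤
            l + 6 * L * (4 * L) ^ (4 * n + 4) := by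
        intro a
        have h3 : ∀ a', nrm ((Matrix.scalar (ι → Fin 5) (l : ℤ[X]) - M) a a') ≤
            nrm ((Matrix.scalar (ι → Fin 5) (l : ℤ[X])) a a') + nrm (M a a') := by
          intro a'
          rw [Matrix.sub_apply]
          exact nrm_sub _ _
        refine (Finset.sum_le_sum fun a' _ => h3 a').trans ?_
        rw [Finset.sum_add_distrib]
        apply add_le_add _ (hM1 a)
        rw [Finset.sum_eq_single a]
        · rw [Matrix.scalar_apply, Matrix.diagonal_apply_eq]
          exact (nrm_intCast l).trans_eq (abs_of_nonneg hl0)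
        · intro a' _ ha'
          rw [Matrix.scalar_apply, Matrix.diagonal_apply_ne _ (Ne.symm ha')]
          simp
        · simp
      calc ∏ a, ∑ a', nrm ((Matrix.scalar (ι → Fin 5) (l : ℤ[X]) - M) a a')
          ≤ ∏ _a : ι → Fin 5, (l + 6 * L * (4 * L) ^ (4 * n + 4)) :=
            Finset.prod_le_prod (fun a _ => Finset.sum_nonneg fun _ _ => nrm_nonneg _)
              fun a _ => h2 a
        _ = (l + 6 * L * (4 * L) ^ (4 * n + 4)) ^ 5 ^ n := by
            rw [Finset.prod_const, Finset.card_univ, hcard]
    refine lt_of_le_of_lt h1 ?_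
    unfold bd
    apply pow_lt_pow_left₀
    · linarith
    · positivity
    · positivity
  have hbd0 : (1 : ℤ) ≤ bd n L R := by
    have := nrm_nonneg p
    linarith
  have hbd1 : (1 : ℝ) ≤ (bd n L R : ℝ) := by exact_mod_cast hbd0
  obtain ⟨T, x1, hT, hx1, hmin⟩ := exists_min s g hpos (bd n L R : ℝ) (by linarith) (l : ℝ) x (by
    have h1 : ((R : ℝ) + 1) ≤ l := by exact_mod_cast hl1
    linarith)
  have hcrit : Crit s g T x1 := by
    apply crit_of_min
    intro y
    rw [hx1]
    exact hmin y
  have hroot := det_eq_zero s g M hM2 T x1 hcrit l hx1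
  have hlt := root_lt_nrm p hl3 T (by linarith) hroot
  have h3 : (nrm p : ℝ) < (bd n L R : ℝ) := by exact_mod_cast hN
  linarith

end Pool.Agent.LRA67.GapGen
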