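import Pool.Agent.LRA67.Sys
import Pool.Agent.LRA67.GapGen

/-!
# The gap theorem for systems of equations
-/

set_option autoImplicit false

namespace Pool.Agent.LRA67

open Finset

namespace GapSys

open GapGen

/-- Exponent vector of the unknown `a`. -/
def e (n a : ℕ) : Fin n → ℕ := fun i => if i.1 = a then 1 else 0

/-- Extension of a vector. -/
def ext {n : ℕ} (v : Fin n → ℝ) (a : ℕ) : ℝ := if h : a < n then v ⟨a, h⟩ else 1

theorem mon_e {n : ℕ} (v : Fin n → ℝ) (a : ℕ) : mon (e n a) v = ext v a := by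
  unfold mon e ext
  split_ifs with h
  · rw [Finset.prod_eq_single (⟨a, h⟩ : Fin n)]
    · simp
    · intro j _ hj
      have : j.1 ≠ a := fun h2 => hj (Fin.ext h2)
      simp [this]
    · simp
  · apply Finset.prod_eq_one
    intro j _
    have : j.1 ≠ a := by have := j.2; omega
    simp [this]

theorem deg_e (n a : ℕ) : deg (e n a) ≤ 1 := by
  unfold deg e
  by_cases h : a < n
  · rw [Finset.sum_eq_single (⟨a, h⟩ : Fin n)]
    · simp
    · intro j _ hj
      have : j.1 ≠ a := fun h2 => hj (Fin.ext h2)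
      simp [this]
    · simp
  · rw [Finset.sum_eq_zero]
    · simp
    · intro j _
      have : j.1 ≠ a := by have := j.2; omega
      simp [this]

/-- Monomials of the square of a product equation. -/
def prodL (n : ℕ) (p : ℕ × ℕ × ℕ) : List (ℤ × (Fin n → ℕ)) :=
  [(1, e n p.1 + e n p.1 + (e n p.2.1 + e n p.2.1)), (-2, e n p.1 + e n p.2.1 + e n p.2.2),
    (1, e n p.2.2 + e n p.2.2)]

/-- Monomials of the square of a sum equation. -/
def sumL (n : ℕ) (p : ℕ × ℕ × ℕ) : List (ℤ × (Fin n → ℕ)) :=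
  [(1, e n p.1 + e n p.1), (1, e n p.2.1 + e n p.2.1), (1, e n p.2.2 + e n p.2.2),
    (2, e n p.1 + e n p.2.1), (-2, e n p.1 + e n p.2.2), (-2, e n p.2.1 + e n p.2.2)]

/-- Monomials of `(x 0 - 1) ^ 2`. -/
def oneL (n : ℕ) : List (ℤ × (Fin n → ℕ)) :=
  [(1, e n 0 + e n 0), (-2, e n 0), (1, 0)]

/-- All monomials. -/
def full (s : Sys) : List (ℤ × (Fin s.1 → ℕ)) :=
  oneL s.1 ++ s.2.1.flatMap (prodL s.1) ++ s.2.2.flatMap (sumL s.1)

/-- Value of a list of monomials. -/
noncomputable def lval {n : ℕ} (l : List (ℤ × (Fin n → ℕ))) (v : Fin n → ℝ) : ℝ :=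
  (l.map fun p => (p.1 : ℝ) * mon p.2 v).sum

theorem lval_append {n : ℕ} (l l' : List (ℤ × (Fin n → ℕ))) (v : Fin n → ℝ) :
    lval (l ++ l') v = lval l v + lval l' v := by
  simp [lval]

theorem lval_flatMap {n : ℕ} {α : Type} (l : List α) (f : α → List (ℤ × (Fin n → ℕ)))
    (v : Fin n → ℝ) : lval (l.flatMap f) v = (l.map fun a => lval (f a) v).sum := by
  induction l with
  | nil => simp [lval]
  | cons a l ih => rw [List.flatMap_cons, lval_append, ih]; simp

theorem lval_prodL {n : ℕ} (p : ℕ × ℕ × ℕ) (v : Fin n → ℝ) :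
    lval (prodL n p) v = (ext v p.1 * ext v p.2.1 - ext v p.2.2) ^ 2 := by
  simp only [lval, prodL, List.map_cons, List.map_nil, List.sum_cons, List.sum_nil, mon_add, mon_e]
  push_cast
  ring

theorem lval_sumL {n : ℕ} (p : ℕ × ℕ × ℕ) (v : Fin n → ℝ) :
    lval (sumL n p) v = (ext v p.1 + ext v p.2.1 - ext v p.2.2) ^ 2 := by
  simp only [lval, sumL, List.map_cons, List.map_nil, List.sum_cons, List.sum_nil, mon_add, mon_e]
  push_cast
  ring

theorem lval_oneL {n : ℕ} (v : Fin n → ℝ) : lval (oneL n) v = (ext v 0 - 1) ^ 2 := by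
  simp only [lval, oneL, List.map_cons, List.map_nil, List.sum_cons, List.sum_nil, mon_add, mon_e,
    mon_zero]
  push_cast
  ring

theorem lval_full (s : Sys) (v : Fin s.1 → ℝ) : lval (full s) v = (ext v 0 - 1) ^ 2 +
    (s.2.1.map fun p => (ext v p.1 * ext v p.2.1 - ext v p.2.2) ^ 2).sum +
    (s.2.2.map fun p => (ext v p.1 + ext v p.2.1 - ext v p.2.2) ^ 2).sum := by
  unfold full
  rw [lval_append, lval_append, lval_flatMap, lval_flatMap, lval_oneL]
  simp only [lval_prodL, lval_sumL]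

theorem val_full (s : Sys) (v : Fin s.1 → ℝ) :
    GapGen.val (fun k : Fin (full s).length => ((full s)[k]).1) (fun k => ((full s)[k]).2) v =
      lval (full s) v := by
  unfold GapGen.val lval
  exact Fin.sum_univ_fun_getElem (full s) (fun p => (p.1 : ℝ) * mon p.2 v)

theorem mem_full (s : Sys) (p : ℤ × (Fin s.1 → ℕ)) (hp : p ∈ full s) : deg p.2 ≤ 4 := by
  unfold full at hp
  rw [List.mem_append, List.mem_append, List.mem_flatMap, List.mem_flatMap] at hp
  rcases hp with (hp | ⟨q, _, hp⟩) | ⟨q, _, hp⟩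
  · simp only [oneL, List.mem_cons, List.not_mem_nil, or_false] at hp
    have h1 := deg_e s.1 0
    rcases hp with h | h | h <;> rw [h] <;> simp only [deg_add]
    · omega
    · omega
    · simp [deg]
  · simp only [prodL, List.mem_cons, List.not_mem_nil, or_false] at hp
    have h1 := deg_e s.1 q.1
    have h2 := deg_e s.1 q.2.1
    have h3 := deg_e s.1 q.2.2
    rcases hp with h | h | h <;> rw [h] <;> simp only [deg_add] <;> omega
  · simp only [sumL, List.mem_cons, List.not_mem_nil, or_false] at hp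
    have h1 := deg_e s.1 q.1
    have h2 := deg_e s.1 q.2.1
    have h3 := deg_e s.1 q.2.2
    rcases hp with h | h | h | h | h | h <;> rw [h] <;> simp only [deg_add] <;> omega

/-- Sum of the absolute values of the coefficients of a list. -/
def labs {n : ℕ} (l : List (ℤ × (Fin n → ℕ))) : ℤ := (l.map fun p => |p.1|).sum

theorem labs_append {n : ℕ} (l l' : List (ℤ × (Fin n → ℕ))) :
    labs (l ++ l') = labs l + labs l' := by
  simp [labs]

theorem labs_flatMap_le {n : ℕ} {α : Type} (l : List α) (f : α → List (ℤ × (Fin n → ℕ)))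
    (hf : ∀ a, labs (f a) ≤ 9) : labs (l.flatMap f) ≤ 9 * l.length := by
  induction l with
  | nil => simp [labs]
  | cons a l ih =>
      rw [List.flatMap_cons, labs_append]
      have := hf a
      push_cast [List.length_cons]
      linarith

theorem labs_full (s : Sys) :
    labs (full s) ≤ 9 * ((s.2.1.length + s.2.2.length : ℕ) + 1) := by
  unfold full
  rw [labs_append, labs_append]
  have h1 : labs (oneL s.1) ≤ 9 := by simp [labs, oneL]
  have h2 := labs_flatMap_le s.2.1 (prodL s.1) (fun p => by simp [labs, prodL])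
  have h3 := labs_flatMap_le s.2.2 (sumL s.1) (fun p => by simp [labs, sumL])
  push_cast
  linarith

/-! ### Numbers -/

/-- The exponent in the bound. -/
def aexp (n m : ℕ) : ℕ := (6 + m) * (4 * n + 6) + 1

theorem num1 (n m : ℕ) (hn : 1 ≤ n) :
    n + 3 + 5 ^ n + 6 * (9 * (m + 1)) * (4 * (9 * (m + 1))) ^ (4 * n + 4) ≤ 2 ^ aexp n m := by
  have h1 : n + 3 ≤ 5 ^ n := by
    induction n, hn using Nat.le_induction with
    | base => norm_num
    | succ k hk ih =>
        rw [pow_succ]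
        omega
  have h2 : 5 ^ n ≤ 2 ^ (3 * n) := by
    rw [pow_mul]
    exact Nat.pow_le_pow_left (by norm_num) n
  have h3 : 2 ^ (3 * n) * 2 ≤ 2 ^ ((6 + m) * (4 * n + 6)) := by
    rw [← pow_succ]
    apply Nat.pow_le_pow_right (by norm_num)
    nlinarith
  have h4 : m + 1 ≤ 2 ^ m := Nat.lt_two_pow_self
  have h5 : 4 * (9 * (m + 1)) ≤ 2 ^ (6 + m) := by
    rw [pow_add]
    nlinarith
  have h6 : 6 * (9 * (m + 1)) * (4 * (9 * (m + 1))) ^ (4 * n + 4) ≤
      2 ^ ((6 + m) * (4 * n + 6)) := by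
    rw [pow_mul]
    calc 6 * (9 * (m + 1)) * (4 * (9 * (m + 1))) ^ (4 * n + 4)
        ≤ (4 * (9 * (m + 1))) ^ 2 * (4 * (9 * (m + 1))) ^ (4 * n + 4) := by
          apply Nat.mul_le_mul_right
          nlinarith
      _ = (4 * (9 * (m + 1))) ^ (4 * n + 6) := by rw [← pow_add]; ring_nf
      _ ≤ (2 ^ (6 + m)) ^ (4 * n + 6) := Nat.pow_le_pow_left h5 _
  have h7 : 2 ^ aexp n m = 2 ^ ((6 + m) * (4 * n + 6)) + 2 ^ ((6 + m) * (4 * n + 6)) := by
    unfold aexp
    rw [pow_succ]
    ring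
  omega

theorem num2 (n m c : ℕ) (hc : cB n m ≤ c) :
    (14 + m) + (aexp n m + 6) * 5 ^ n ≤ 2 ^ (c + 1) := by
  have h2 : 5 ^ n ≤ 2 ^ (3 * n) := by
    rw [pow_mul]
    exact Nat.pow_le_pow_left (by norm_num) n
  have h3 : 1 ≤ 2 ^ (3 * n) := Nat.one_le_two_pow
  have h4 : 4 * ((m + 20) * (n + 2)) ≤ 2 ^ (4 * ((m + 20) * (n + 2))) := Nat.lt_two_pow_self.le
  have h5 : (14 + m) + (aexp n m + 6) ≤ 4 * ((m + 20) * (n + 2)) := by
    unfold aexp
    nlinarith
  calc (14 + m) + (aexp n m + 6) * 5 ^ n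
      ≤ (14 + m) * 2 ^ (3 * n) + (aexp n m + 6) * 2 ^ (3 * n) := by
        apply Nat.add_le_add
        · nlinarith
        · exact Nat.mul_le_mul_left _ h2
    _ = ((14 + m) + (aexp n m + 6)) * 2 ^ (3 * n) := by ring
    _ ≤ 2 ^ (4 * ((m + 20) * (n + 2))) * 2 ^ (3 * n) := Nat.mul_le_mul_right _ (h5.trans h4)
    _ = 2 ^ (4 * ((m + 20) * (n + 2)) + 3 * n) := by rw [← pow_add]
    _ ≤ 2 ^ (c + 1) := by
        apply Nat.pow_le_pow_right (by norm_num)
        unfold cB at hc
        nlinarith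

theorem sq_sum_le {α : Type} (l : List α) (f : α → ℝ) (d : ℝ) (h : ∀ a ∈ l, |f a| ≤ d) :
    (l.map fun a => f a ^ 2).sum ≤ l.length * d ^ 2 := by
  induction l with
  | nil => simp
  | cons a l ih =>
      have h1 := ih fun b hb => h b (List.mem_cons_of_mem _ hb)
      have h2 := h a List.mem_cons_self
      have h3 : f a ^ 2 ≤ d ^ 2 := by
        rw [← sq_abs]
        exact pow_le_pow_left₀ (abs_nonneg _) h2 2
      simp only [List.map_cons, List.sum_cons, List.length_cons]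
      push_cast
      linarith

theorem sum_sq_zero {α : Type} (l : List α) (f : α → ℝ)
    (h : (l.map fun a => f a ^ 2).sum ≤ 0) : ∀ a ∈ l, f a = 0 := by
  induction l with
  | nil => simp
  | cons b l ih =>
      simp only [List.map_cons, List.sum_cons] at h
      have h1 : 0 ≤ (l.map fun a => f a ^ 2).sum :=
        List.sum_nonneg (by
          intro x hx
          rw [List.mem_map] at hx
          obtain ⟨a, _, rfl⟩ := hx
          positivity)
      have h2 : f b ^ 2 = 0 := le_antisymm (by linarith) (by positivity)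
      intro a ha
      rcases List.mem_cons.1 ha with h3 | h3
      · rw [h3]; exact pow_eq_zero_iff (two_ne_zero) |>.1 h2
      · exact ih (by nlinarith [sq_nonneg (f b)]) a h3

theorem sum_sq_nonneg {α : Type} (l : List α) (f : α → ℝ) :
    0 ≤ (l.map fun a => f a ^ 2).sum :=
  List.sum_nonneg (by
    intro x hx
    rw [List.mem_map] at hx
    obtain ⟨a, _, rfl⟩ := hx
    positivity)

end GapSys

open GapSys GapGen in
/-- Task G5: an approximate solution with a doubly exponentially small error that is not too large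
gives an exact solution. -/
theorem Sys.gap (s : Sys) (hs : s.WF) (x : ℕ → ℝ) (hx0 : x 0 = 1) (r : ℝ) (hr : 1 ≤ r)
    (hx : ∀ i < s.1, |x i| ≤ r) (c : ℕ) (hc : cB s.1 (s.2.1.length + s.2.2.length) ≤ c)
    (happ : s.Approx x (10 * r ^ 2 / (2 * r) ^ (2 ^ c))) : s.Solvable := by
  obtain ⟨hn, hw1, hw2⟩ := hs
  set n := s.1 with hndef
  set m := s.2.1.length + s.2.2.length with hm
  set δ := 10 * r ^ 2 / (2 * r) ^ (2 ^ c) with hδ
  set v : Fin s.1 → ℝ := fun i => x i.1 with hv
  have hext : ∀ a < s.1, GapSys.ext v a = x a := by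
    intro a ha
    unfold GapSys.ext
    rw [dif_pos ha]
  have hr0 : 0 < r := by linarith
  -- the value at `v`
  have hval : lval (full s) v ≤ m * δ ^ 2 := by
    rw [lval_full, hext 0 hn, hx0]
    have h1 := sq_sum_le s.2.1 (fun p => GapSys.ext v p.1 * GapSys.ext v p.2.1 -
      GapSys.ext v p.2.2) δ (by
        intro p hp
        obtain ⟨ha, hb, hc'⟩ := hw1 p hp
        rw [hext _ ha, hext _ hb, hext _ hc']
        exact happ.1 p hp)
    have h2 := sq_sum_le s.2.2 (fun p => GapSys.ext v p.1 + GapSys.ext v p.2.1 -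
      GapSys.ext v p.2.2) δ (by
        intro p hp
        obtain ⟨ha, hb, hc'⟩ := hw2 p hp
        rw [hext _ ha, hext _ hb, hext _ hc']
        exact happ.2 p hp)
    rw [hm]
    push_cast
    linarith
  have hnn : ∀ u : Fin s.1 → ℝ, 0 ≤ lval (full s) u := by
    intro u
    rw [lval_full]
    have h1 := sum_sq_nonneg s.2.1 (fun p => GapSys.ext u p.1 * GapSys.ext u p.2.1 -
      GapSys.ext u p.2.2)
    have h2 := sum_sq_nonneg s.2.2 (fun p => GapSys.ext u p.1 + GapSys.ext u p.2.1 -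
      GapSys.ext u p.2.2)
    have h3 : 0 ≤ (GapSys.ext u 0 - 1) ^ 2 := by positivity
    linarith
  -- the bounds
  set L : ℤ := 9 * ((m : ℤ) + 1) with hL
  set R : ℤ := ⌈(n : ℝ) * r ^ 6⌉ with hR
  have hsum6 : ∑ i, v i ^ 6 ≤ R := by
    refine le_trans ?_ (Int.le_ceil _)
    have h1 : ∀ i : Fin s.1, v i ^ 6 ≤ r ^ 6 := by
      intro i
      have h2 : |v i| ^ 6 = v i ^ 6 := by
        rw [← abs_pow]
        exact abs_of_nonneg (by positivity)
      rw [← h2]
      exact pow_le_pow_left₀ (abs_nonneg _) (hx i.1 i.2) 6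
    refine (Finset.sum_le_sum fun i _ => h1 i).trans_eq ?_
    simp [hndef]
  have hR0 : 0 ≤ R := by
    have : (0 : ℝ) ≤ R := le_trans (by positivity) (Int.le_ceil ((n : ℝ) * r ^ 6))
    exact_mod_cast this
  have hR1 : (R : ℝ) ≤ n * r ^ 6 + 1 := (Int.ceil_lt_add_one _).le
  set q := 2 * r with hq
  have hq2 : 2 ≤ q := by linarith
  have hq1 : 1 ≤ q := by linarith
  have hq0 : 0 < q := by linarith
  have hbase : ((R + 5 ^ n + 2 + 6 * L * (4 * L) ^ (4 * n + 4) : ℤ) : ℝ) ≤
      q ^ (aexp n m + 6) := by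
    have h1 : ((n + 3 + 5 ^ n + 6 * (9 * (m + 1)) * (4 * (9 * (m + 1))) ^ (4 * n + 4) : ℕ) : ℝ) ≤
        2 ^ aexp n m := by
      exact_mod_cast num1 n m hn
    have h2 : (2 : ℝ) ^ aexp n m ≤ q ^ aexp n m := pow_le_pow_left₀ (by norm_num) hq2 _
    have h3 : r ^ 6 ≤ q ^ 6 := pow_le_pow_left₀ hr0.le (by linarith) 6
    have h4 : (1 : ℝ) ≤ r ^ 6 := one_le_pow₀ hr
    have h5 : ((R + 5 ^ n + 2 + 6 * L * (4 * L) ^ (4 * n + 4) : ℤ) : ℝ) ≤
        ((n + 3 + 5 ^ n + 6 * (9 * (m + 1)) * (4 * (9 * (m + 1))) ^ (4 * n + 4) : ℕ) : ℝ) *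
          r ^ 6 := by
      rw [hL]
      push_cast
      have h6 : (0 : ℝ) ≤ 3 + 5 ^ n + 6 * (9 * (m + 1)) * (4 * (9 * (m + 1))) ^ (4 * n + 4) := by
        positivity
      have h7 : (3 + 5 ^ n + 6 * (9 * ((m : ℝ) + 1)) * (4 * (9 * (m + 1))) ^ (4 * n + 4)) * 1 ≤
          (3 + 5 ^ n + 6 * (9 * (m + 1)) * (4 * (9 * (m + 1))) ^ (4 * n + 4)) * r ^ 6 :=
        mul_le_mul_of_nonneg_left h4 h6
      linarith
    calc _ ≤ _ := h5
      _ ≤ 2 ^ aexp n m * r ^ 6 := mul_le_mul_of_nonneg_right h1 (by positivity)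
      _ ≤ q ^ aexp n m * q ^ 6 := mul_le_mul h2 h3 (by positivity) (by positivity)
      _ = q ^ (aexp n m + 6) := by rw [← pow_add]
  have hbd : ((bd n L R : ℤ) : ℝ) ≤ q ^ ((aexp n m + 6) * 5 ^ n) := by
    have h1 : ((bd n L R : ℤ) : ℝ) =
        ((R + 5 ^ n + 2 + 6 * L * (4 * L) ^ (4 * n + 4) : ℤ) : ℝ) ^ 5 ^ n := by
      unfold bd
      push_cast
      rfl
    rw [h1, pow_mul]
    apply pow_le_pow_left₀ _ hbase
    have h2 : (0 : ℤ) ≤ R + 5 ^ n + 2 + 6 * L * (4 * L) ^ (4 * n + 4) := by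
      rw [hL]
      positivity
    exact_mod_cast h2
  have hfinal : 6 * ((bd n L R : ℤ) : ℝ) * lval (full s) v ≤ 1 := by
    have h1 : 6 * ((bd n L R : ℤ) : ℝ) * lval (full s) v ≤
        6 * q ^ ((aexp n m + 6) * 5 ^ n) * (m * δ ^ 2) := by
      apply mul_le_mul _ hval (hnn v) (by positivity)
      linarith
    refine h1.trans ?_
    have h2 : (600 * m * r ^ 4 : ℝ) ≤ q ^ (14 + m) := by
      have h3 : (m : ℝ) ≤ 2 ^ m := by exact_mod_cast (Nat.lt_two_pow_self (n := m)).le
      have h4 : (2 : ℝ) ^ m ≤ q ^ m := pow_le_pow_left₀ (by norm_num) hq2 _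
      have h5 : (2 : ℝ) ^ 10 ≤ q ^ 10 := pow_le_pow_left₀ (by norm_num) hq2 _
      have h6 : r ^ 4 ≤ q ^ 4 := pow_le_pow_left₀ hr0.le (by linarith) 4
      calc (600 * m * r ^ 4 : ℝ) ≤ 2 ^ 10 * m * r ^ 4 := by
            apply mul_le_mul_of_nonneg_right _ (by positivity)
            apply mul_le_mul_of_nonneg_right _ (by positivity)
            norm_num
        _ ≤ q ^ 10 * q ^ m * q ^ 4 := by
            apply mul_le_mul _ h6 (by positivity) (by positivity)
            exact mul_le_mul h5 (h3.trans h4) (by positivity) (by positivity)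
        _ = q ^ (14 + m) := by rw [← pow_add, ← pow_add]; congr 1; ring
    have h7 : q ^ (14 + m) * q ^ ((aexp n m + 6) * 5 ^ n) ≤ q ^ (2 ^ (c + 1)) := by
      rw [← pow_add]
      exact pow_le_pow_right₀ hq1 (num2 n m c hc)
    have h8 : q ^ (2 ^ (c + 1)) = (q ^ (2 ^ c)) ^ 2 := by
      rw [← pow_mul, pow_succ 2 c]
    have h9 : 0 < q ^ (2 ^ c) := by positivity
    have h10 : 6 * q ^ ((aexp n m + 6) * 5 ^ n) * (m * δ ^ 2) =
        (600 * m * r ^ 4) * q ^ ((aexp n m + 6) * 5 ^ n) / (q ^ (2 ^ c)) ^ 2 := by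
      rw [hδ]
      field_simp
      ring
    rw [h10, div_le_one (by positivity), ← h8]
    exact (mul_le_mul_of_nonneg_right h2 (by positivity)).trans h7
  have hkey := GapGen.gap (fun k : Fin (full s).length => ((full s)[k]).1)
    (fun k => ((full s)[k]).2) (fun k => mem_full s _ (List.getElem_mem _)) L
    (by
      have h1 : ∑ k : Fin (full s).length, |((full s)[k]).1| = labs (full s) :=
        Fin.sum_univ_fun_getElem (full s) (fun p => |p.1|)
      rw [h1, hL]
      exact labs_full s)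
    (by rw [hL]; have : (0 : ℤ) ≤ m := by positivity
        linarith)
    (fun u => by rw [val_full]; exact hnn u) R hR0 v hsum6
    (by
      rw [Fintype.card_fin, val_full]
      exact hfinal)
  obtain ⟨y, hy⟩ := hkey
  rw [val_full, lval_full] at hy
  have h1 := sum_sq_nonneg s.2.1 (fun p => GapSys.ext y p.1 * GapSys.ext y p.2.1 -
      GapSys.ext y p.2.2)
  have h2 := sum_sq_nonneg s.2.2 (fun p => GapSys.ext y p.1 + GapSys.ext y p.2.1 -
      GapSys.ext y p.2.2)
  have h3 : 0 ≤ (GapSys.ext y 0 - 1) ^ 2 := by positivity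
  refine ⟨GapSys.ext y, ⟨?_, ?_⟩, ?_⟩
  · intro p hp
    have := sum_sq_zero s.2.1 (fun p => GapSys.ext y p.1 * GapSys.ext y p.2.1 -
      GapSys.ext y p.2.2) (by linarith) p hp
    linarith
  · intro p hp
    have := sum_sq_zero s.2.2 (fun p => GapSys.ext y p.1 + GapSys.ext y p.2.1 -
      GapSys.ext y p.2.2) (by linarith) p hp
    linarith
  · have h4 : (GapSys.ext y 0 - 1) ^ 2 = 0 := by linarith
    have h5 := pow_eq_zero_iff (two_ne_zero) |>.1 h4
    linarith

end Pool.Agent.LRA67
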