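import Pool.Agent.LRA67.Out
import Pool.Agent.LRA67.Core0
import Pool.Agent.LRA67.Core1
import Pool.Agent.LRA67.Gad0
import Pool.Agent.LRA67.Gad1
import Pool.Agent.LRA67.Chain

/-!
The instances of the low-rank approximation problems for a system.
-/

set_option autoImplicit false

namespace Pool.Agent.LRA67

open Pool.Agent.LibComplexity Function Enc Gad

/-- labels of the rows and columns: `(true, l, r)` is the `r`-th copy of the pivot `l`,
`(false, (i, (0, 0)), r)` is the `r`-th copy of the row (column) `i` -/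
abbrev Lab := Bool × PivC × ℕ

/-- all labels, with `R₁` copies of the pivots and `R₂` copies of the others -/
def labs (P : List PivC) (Q : List (ℕ × ℕ)) (R₁ R₂ : ℕ) : List Lab :=
  (P.flatMap fun l => (List.range R₁).map fun r => (true, l, r)) ++
    Q.flatMap fun i => (List.range R₂).map fun r => (false, (i, (0, 0)), r)

theorem mem_labs {P : List PivC} {Q : List (ℕ × ℕ)} {R₁ R₂ : ℕ} {x : Lab} :
    x ∈ labs P Q R₁ R₂ ↔ (∃ l ∈ P, ∃ r < R₁, x = (true, l, r)) ∨
      ∃ i ∈ Q, ∃ r < R₂, x = (false, (i, (0, 0)), r) := by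
  simp only [labs, List.mem_append, List.mem_flatMap, List.mem_map, List.mem_range]
  constructor
  · rintro (⟨l, hl, r, hr, rfl⟩ | ⟨l, hl, r, hr, rfl⟩)
    · exact Or.inl ⟨l, hl, r, hr, rfl⟩
    · exact Or.inr ⟨l, hl, r, hr, rfl⟩
  · rintro (⟨l, hl, r, hr, rfl⟩ | ⟨l, hl, r, hr, rfl⟩)
    · exact Or.inl ⟨l, hl, r, hr, rfl⟩
    · exact Or.inr ⟨l, hl, r, hr, rfl⟩

theorem nodup_labs {P : List PivC} {Q : List (ℕ × ℕ)} (hP : P.Nodup) (hQ : Q.Nodup) (R₁ R₂ : ℕ) :
    (labs P Q R₁ R₂).Nodup := by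
  have h1 : (P.flatMap fun l => (List.range R₁).map fun r => ((true, l, r) : Lab)) =
      (P.product (List.range R₁)).map fun p => (true, p.1, p.2) := by
    simp [List.product, List.map_flatMap, Function.comp_def]
  have h2 : (Q.flatMap fun i => (List.range R₂).map fun r => ((false, (i, (0, 0)), r) : Lab)) =
      (Q.product (List.range R₂)).map fun p => (false, (p.1, (0, 0)), p.2) := by
    simp [List.product, List.map_flatMap, Function.comp_def]
  unfold labs
  rw [h1, h2, List.nodup_append]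
  refine ⟨(hP.product List.nodup_range).map ?_, (hQ.product List.nodup_range).map ?_, ?_⟩
  · rintro ⟨a, b⟩ ⟨c, d⟩ h
    simpa using h
  · rintro ⟨a, b⟩ ⟨c, d⟩ h
    simpa using h
  · intro a ha b hb hab
    simp only [List.mem_map] at ha hb
    obtain ⟨p, _, rfl⟩ := ha
    obtain ⟨q, _, rfl⟩ := hb
    simp at hab

section codes
variable {P : List PivC} {Q : List (ℕ × ℕ)}

/-- labels of typed indices -/
def code0 {R₁ R₂ : ℕ} : ({l // l ∈ P} × Fin R₁) ⊕ ({i // i ∈ Q} × Fin R₂) → Lab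
  | .inl a => (true, a.1.1, a.2)
  | .inr a => (false, (a.1.1, (0, 0)), a.2)

theorem code0_inj {R₁ R₂ : ℕ} : Injective (code0 (P := P) (Q := Q) (R₁ := R₁) (R₂ := R₂)) := by
  rintro (⟨⟨l, hl⟩, r⟩ | ⟨⟨l, hl⟩, r⟩) (⟨⟨l', hl'⟩, r'⟩ | ⟨⟨l', hl'⟩, r'⟩) h <;>
    simp [code0, Fin.ext_iff] at h ⊢
  · exact h
  · exact h

theorem code0_range {R₁ R₂ : ℕ} (x : Lab) : x ∈ labs P Q R₁ R₂ ↔
    x ∈ Set.range (code0 (P := P) (Q := Q) (R₁ := R₁) (R₂ := R₂)) := by
  rw [mem_labs]
  constructor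
  · rintro (⟨l, hl, r, hr, rfl⟩ | ⟨l, hl, r, hr, rfl⟩)
    · exact ⟨.inl (⟨l, hl⟩, ⟨r, hr⟩), rfl⟩
    · exact ⟨.inr (⟨l, hl⟩, ⟨r, hr⟩), rfl⟩
  · rintro ⟨(⟨⟨l, hl⟩, r⟩ | ⟨⟨l, hl⟩, r⟩), rfl⟩
    · exact Or.inl ⟨l, hl, r, r.2, rfl⟩
    · exact Or.inr ⟨l, hl, r, r.2, rfl⟩

/-- labels of typed indices -/
def code1 : ({l // l ∈ P} × Bool) ⊕ {i // i ∈ Q} → Lab
  | .inl a => (true, a.1.1, if a.2 then 1 else 0)
  | .inr a => (false, (a.1, (0, 0)), 0)

theorem code1_inj : Injective (code1 (P := P) (Q := Q)) := by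
  rintro (⟨⟨l, hl⟩, r⟩ | ⟨l, hl⟩) (⟨⟨l', hl'⟩, r'⟩ | ⟨l', hl'⟩) h
  · cases r <;> cases r' <;> simp [code1] at h ⊢ <;> exact h
  · simp [code1] at h
  · simp [code1] at h
  · simpa [code1] using h

theorem code1_range (x : Lab) : x ∈ labs P Q 2 1 ↔ x ∈ Set.range (code1 (P := P) (Q := Q)) := by
  rw [mem_labs]
  constructor
  · rintro (⟨l, hl, r, hr, rfl⟩ | ⟨l, hl, r, hr, rfl⟩)
    · refine ⟨.inl (⟨l, hl⟩, decide (r = 1)), ?_⟩
      simp only [code1, Prod.mk.injEq, true_and, decide_eq_true_eq]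
      split_ifs <;> omega
    · refine ⟨.inr ⟨l, hl⟩, ?_⟩
      simp only [code1, Prod.mk.injEq, true_and]
      omega
  · rintro ⟨(⟨⟨l, hl⟩, r⟩ | ⟨l, hl⟩), rfl⟩
    · refine Or.inl ⟨l, hl, if r then 1 else 0, ?_, rfl⟩
      split_ifs <;> omega
    · exact Or.inr ⟨l, hl, 0, Nat.one_pos, rfl⟩

end codes

/-- the size of a subtype of a list without duplicates -/
theorem card_subtype_list {α : Type} [DecidableEq α] {l : List α} (hl : l.Nodup)
    [Fintype {x // x ∈ l}] : Fintype.card {x // x ∈ l} = l.length := by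
  rw [Fintype.card_of_subtype l.toFinset (fun x => List.mem_toFinset),
    List.toFinset_card_of_nodup hl]

/-- counting pairs -/
theorem ncard_pairs {α β : Type} [DecidableEq α] [DecidableEq β] {P : List α} {Q : List β}
    (hP : P.Nodup) (hQ : Q.Nodup) (p : α → β → Bool) :
    {x : {i // i ∈ P} × {l // l ∈ Q} | p x.1.1 x.2.1 = true}.ncard =
      ((P.flatMap fun i => Q.map fun l => (i, l)).filter fun x => p x.1 x.2).length := by
  have h1 : ((P.product Q).filter fun x => p x.1 x.2).Nodup := (hP.product hQ).filter _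
  have h2 : (P.flatMap fun i => Q.map fun l => (i, l)) = P.product Q := rfl
  rw [h2, ← List.toFinset_card_of_nodup h1, ← Set.ncard_coe_finset]
  symm
  have h3 : (↑((P.product Q).filter fun x => p x.1 x.2).toFinset : Set (α × β)) =
      (fun x : {i // i ∈ P} × {l // l ∈ Q} => (x.1.1, x.2.1)) ''
        {x : {i // i ∈ P} × {l // l ∈ Q} | p x.1.1 x.2.1 = true} := by
    ext ⟨a, b⟩
    simp only [List.coe_toFinset, List.mem_filter, Set.mem_ofPred_eq, Set.mem_image,
      List.pair_mem_product, Prod.exists, Subtype.exists, Prod.mk.injEq]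
    constructor
    · rintro ⟨⟨ha, hb⟩, hp⟩
      exact ⟨a, ha, b, hb, hp, rfl, rfl⟩
    · rintro ⟨a', ha, b', hb, hp, rfl, rfl⟩
      exact ⟨⟨ha, hb⟩, hp⟩
  rw [h3]
  apply Set.ncard_image_of_injective
  rintro ⟨⟨a, ha⟩, ⟨b, hb⟩⟩ ⟨⟨c, hc⟩, ⟨d, hd⟩⟩ h
  simpa using h

section
variable (s : Sys) (o : ℕ)

/-- free entries in rows -/
def starsX : List (RowC × PivC) :=
  ((rows s).flatMap fun i => (pivs s o).map fun l => (i, l)).filter fun x =>
    xent s o x.1 x.2 == 0

/-- free entries in columns -/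
def starsY : List (PivC × ColC) :=
  ((pivs s o).flatMap fun l => (cols s).map fun j => (l, j)).filter fun x =>
    yent s o x.1 x.2 == 0

/-- number of free entries -/
def nst : ℕ := (starsX s o).length + (starsY s o).length

/-- entry of the matrix for `p = 0` -/
def ent0 (a b : Lab) : ℕ × ℕ :=
  if a.1 = true then
    if b.1 = true then (if a.2.1 = b.2.1 then (2, 0) else (1, 0))
    else if yent s o a.2.1 b.2.1.1 = 0 then (2, a.2.2) else (yent s o a.2.1 b.2.1.1, 0)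
  else if b.1 = true then
    if xent s o a.2.1.1 b.2.1 = 0 then (2, b.2.2) else (xent s o a.2.1.1 b.2.1, 0)
  else (zent s a.2.1.1 b.2.1.1, 0)

/-- exponent of the weight of a row -/
def wex (ω : ℕ) (i : RowC) : ℕ := if i = (2, 0) then 0 else ω

/-- entry of the matrix for `p = 1` -/
def ent1 (ω lam : ℕ) (a b : Lab) : ℕ × ℕ :=
  if a.1 = true then
    if b.1 = true then (if a.2.1 = b.2.1 then (2, ω + lam + lam) else (1, 0))
    else if yent s o a.2.1 b.2.1.1 = 0 then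
      (if a.2.2 = 1 then (2, ω + lam) else (3, ω + lam))
    else (yent s o a.2.1 b.2.1.1, ω + lam)
  else if b.1 = true then
    if xent s o a.2.1.1 b.2.1 = 0 then
      (if b.2.2 = 1 then (2, wex ω a.2.1.1 + lam) else (3, wex ω a.2.1.1 + lam))
    else (xent s o a.2.1.1 b.2.1, wex ω a.2.1.1 + lam)
  else (zent s a.2.1.1 b.2.1.1, wex ω a.2.1.1)

end

theorem rows_nodup (s : Sys) : (rows s).Nodup := by
  unfold rows
  rw [List.nodup_cons, List.nodup_cons]
  refine ⟨?_, ?_, nodup_map_pair _ _⟩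
  · simp
  · simp

theorem cvalR_none_iff (c : ℕ) : cvalR c = none ↔ c = 0 := by
  unfold cvalR cval
  split_ifs <;> simp_all

theorem nStar_eq (s : Sys) (o : ℕ) : nStar (XX s o) (YY s o) = nst s o := by
  unfold nStar nst starsX starsY
  congr 1
  · rw [← ncard_pairs (rows_nodup s) (pivs_nodup s o) (fun i l => xent s o i l == 0)]
    congr 1
    ext x
    simp [XX, cvalR_none_iff]
  · rw [← ncard_pairs (pivs_nodup s o) (cols_nodup s) (fun l j => yent s o l j == 0)]
    congr 1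
    ext x
    simp [YY, cvalR_none_iff]

theorem cvalR_getD {c : ℕ} (h : c ≠ 0) (d : ℝ) : (cvalR c).getD d = (((cval c).getD 0 : ℤ) : ℝ) := by
  unfold cvalR cval
  split_ifs <;> simp_all

theorem zent_ne (s : Sys) (i : RowC) (j : ColC) : zent s i j ≠ 0 := by
  unfold zent; split_ifs <;> omega

theorem powVal_zero (c : ℕ) : ((powVal (c, 0) : ℤ) : ℝ) = (((cval c).getD 0 : ℤ) : ℝ) := by
  simp [powVal]

theorem powVal_cast (c a : ℕ) : ((powVal (c, a) : ℤ) : ℝ) =
    (((cval c).getD 0 : ℤ) : ℝ) * 2 ^ a := by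
  simp [powVal]

theorem cval1 : cval 1 = some 0 := by simp [cval]
theorem cval2 : cval 2 = some 1 := by simp [cval]
theorem cval3 : cval 3 = some (-1) := by simp [cval]

theorem mat0_eq (s : Sys) (o R₁ R₂ : ℕ) (i : (LT s o × Fin R₁) ⊕ (IT s × Fin R₂))
    (j : (LT s o × Fin R₁) ⊕ (JT s × Fin R₂)) :
    mat0 (XX s o) (YY s o) (ZZ s) (fun r => (2 : ℝ) ^ r) R₁ R₂ i j =
      ((powVal (ent0 s o (code0 i) (code0 j)) : ℤ) : ℝ) := by
  rcases i with ⟨⟨l, hl⟩, r⟩ | ⟨⟨i, hi⟩, r⟩ <;> rcases j with ⟨⟨l', hl'⟩, r'⟩ | ⟨⟨j, hj⟩, r'⟩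
  · simp only [mat0, code0, ent0, if_true, Subtype.mk.injEq]
    split_ifs with h
    · rw [powVal_zero, cval2]; simp
    · rw [powVal_zero, cval1]; simp
  · simp only [mat0, code0, ent0, if_true, if_false, YY, Bool.false_eq_true]
    split_ifs with h
    · rw [(cvalR_none_iff _).2 h, powVal_cast, cval2]; simp
    · rw [cvalR_getD h, powVal_zero]
  · simp only [mat0, code0, ent0, if_true, if_false, XX, Bool.false_eq_true]
    split_ifs with h
    · rw [(cvalR_none_iff _).2 h, powVal_cast, cval2]; simp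
    · rw [cvalR_getD h, powVal_zero]
  · simp only [mat0, code0, ent0, if_false, ZZ, Bool.false_eq_true]
    rw [cvalR_getD (zent_ne _ _ _), powVal_zero]

theorem ent0_ne (s : Sys) (o : ℕ) (a b : Lab) : (ent0 s o a b).1 ≠ 0 := by
  have := zent_ne s a.2.1.1 b.2.1.1
  unfold ent0
  split_ifs <;> simp_all

theorem ent1_ne (s : Sys) (o ω lam : ℕ) (a b : Lab) : (ent1 s o ω lam a b).1 ≠ 0 := by
  have := zent_ne s a.2.1.1 b.2.1.1
  unfold ent1
  split_ifs <;> simp_all

theorem wt_eq (s : Sys) (ω : ℕ) (i : IT s) : wt s (2 ^ ω) i = 2 ^ wex ω i.1 := by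
  unfold wt wex
  split_ifs <;> simp

theorem mat1_eq (s : Sys) (o ω lam : ℕ) (i : (LT s o × Bool) ⊕ IT s)
    (j : (LT s o × Bool) ⊕ JT s) :
    mat1 (XX s o) (YY s o) (ZZ s) (wt s (2 ^ ω)) (2 ^ ω) (2 ^ lam) i j =
      ((powVal (ent1 s o ω lam (code1 i) (code1 j)) : ℤ) : ℝ) := by
  rcases i with ⟨⟨l, hl⟩, r⟩ | ⟨i, hi⟩ <;> rcases j with ⟨⟨l', hl'⟩, r'⟩ | ⟨j, hj⟩
  · simp only [mat1, code1, ent1, if_true, Subtype.mk.injEq]
    split_ifs with h
    · rw [powVal_cast, cval2]; simp [pow_add]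
    · rw [powVal_cast, cval1]; simp
  · simp only [mat1, code1, ent1, if_true, if_false, YY, Bool.false_eq_true]
    by_cases h : yent s o l j = 0
    · rw [(cvalR_none_iff _).2 h, if_pos h]
      cases r
      · simp [powVal_cast, cval3, pow_add]
      · simp [powVal_cast, cval2, pow_add]
    · rw [cvalR_getD h, if_neg h, powVal_cast, pow_add]; ring
  · simp only [mat1, code1, ent1, if_true, if_false, XX, Bool.false_eq_true, wt_eq]
    by_cases h : xent s o i l' = 0
    · rw [(cvalR_none_iff _).2 h, if_pos h]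
      cases r'
      · simp [powVal_cast, cval3, pow_add]
      · simp [powVal_cast, cval2, pow_add]
    · rw [cvalR_getD h, if_neg h, powVal_cast, pow_add]; ring
  · simp only [mat1, code1, ent1, if_false, ZZ, Bool.false_eq_true, wt_eq]
    rw [cvalR_getD (zent_ne _ _ _), powVal_cast]; ring

/-! ### `p = 0` -/

/-- number of copies of the other rows and columns -/
def R2 (s : Sys) (o : ℕ) : ℕ := nst s o + 1

/-- number of copies of the pivots -/
def R1 (s : Sys) (o : ℕ) : ℕ :=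
  R2 s o * ((rows s).length + 2 * (cols s).length) + 2 * nst s o * R2 s o + 1

/-- the instance for `p = 0` -/
def out0 (s : Sys) (o : ℕ) : List Bool :=
  instL (labs (pivs s o) (rows s) (R1 s o) (R2 s o)) (labs (pivs s o) (cols s) (R1 s o) (R2 s o))
    (ent0 s o) (pivs s o).length (false, (nst s o * R1 s o * R2 s o + 1).bits, [true])

theorem labs_ne_nil (s : Sys) (o : ℕ) (Q : List (ℕ × ℕ)) {R₁ R₂ : ℕ} (hR : 0 < R₁) :
    labs (pivs s o) Q R₁ R₂ ≠ [] := by
  intro h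
  have : ((true, PQ, 0) : Lab) ∈ labs (pivs s o) Q R₁ R₂ :=
    mem_labs.2 (Or.inl ⟨PQ, mem_PQ _ _, 0, hR, rfl⟩)
  rw [h] at this
  simp at this

theorem out0_mem (s : Sys) (o : ℕ) (hs : s.WF) (ho : o < s.1) :
    out0 s o ∈ LRA 0 ↔ ∃ v : ℕ → ℝ, s.Sol v ∧ v o = 1 := by
  rw [← bil_iff s o hs ho]
  have hinj : Injective (fun r : ℕ => (2 : ℝ) ^ r) := fun a b h =>
    (pow_right_injective₀ (by norm_num) (by norm_num)) h
  have h := core0 (XX s o) (YY s o) (ZZ s) (fun r => (2 : ℝ) ^ r) hinj (R1 s o) (R2 s o)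
    (by rw [nStar_eq]; exact Nat.lt_succ_self _)
    (by rw [nStar_eq]; unfold R1; omega)
    (by
      rw [card_subtype_list (rows_nodup s), card_subtype_list (cols_nodup s)]
      unfold R1; omega)
  rw [← h, nStar_eq, card_subtype_list (pivs_nodup s o)]
  unfold out0
  rw [← encRat_nat]
  exact mem_LRA0_list (nodup_labs (pivs_nodup s o) (rows_nodup s) _ _)
    (nodup_labs (pivs_nodup s o) (cols_nodup s) _ _) (labs_ne_nil s o _ (Nat.succ_pos _))
    (fun a _ b _ => ent0_ne s o a b) code0 code0_inj code0_range code0 code0_inj code0_range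
    _ (mat0_eq s o _ _) _ _

/-! ### `p = 1` -/

/-- code of `2 ^ (a + 1) * n + 1` -/
def epsCode (a n : ℕ) : Bool × List Bool × List Bool :=
  if n = 0 then (false, [true], [true])
  else (false, true :: (List.replicate a false ++ n.bits), [true])

theorem epsCode_eq (a n : ℕ) : epsCode a n = encRat ((2 ^ (a + 1) * n + 1 : ℕ) : ℚ) := by
  rw [encRat_nat]
  unfold epsCode
  by_cases hn : n = 0
  · subst hn; simp
  · rw [if_neg hn]
    have : 2 ^ (a + 1) * n + 1 = 2 * (n * 2 ^ a) + 1 := by ring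
    rw [this, Nat.bit1_bits, bits_mul_pow n a hn]

/-- exponent of the weight of the pivots -/
def lamE (s : Sys) (o ω : ℕ) : ℕ :=
  2 * (ω + nst s o + 2) + 2 * ((pivs s o).length + (rows s).length + (cols s).length + nst s o) + 4

/-- the instance for `p = 1` -/
def out1 (s : Sys) (o ω : ℕ) : List Bool :=
  instL (labs (pivs s o) (rows s) 2 1) (labs (pivs s o) (cols s) 2 1) (ent1 s o ω (lamE s o ω))
    (pivs s o).length (epsCode (ω + lamE s o ω) (nst s o))

theorem lam_bound (n l i j μ : ℕ) (M : ℝ) (hM : M = 2 ^ μ) :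
    4 * M * l * (i + j) + 2 * M ^ 2 * i * j + 4 * n + 2 + M * j + 2 * i ≤
      (2 : ℝ) ^ (2 * μ + 2 * (l + i + j + n) + 4) := by
  have hM1 : 1 ≤ M := by rw [hM]; exact one_le_pow₀ (by norm_num)
  have hM2 : M ≤ M ^ 2 := by nlinarith
  have hM3 : 1 ≤ M ^ 2 := by nlinarith
  set N : ℝ := (l + i + j + n : ℝ) with hN
  have hl : (0 : ℝ) ≤ l := Nat.cast_nonneg _
  have hi : (0 : ℝ) ≤ i := Nat.cast_nonneg _
  have hj : (0 : ℝ) ≤ j := Nat.cast_nonneg _
  have hn : (0 : ℝ) ≤ n := Nat.cast_nonneg _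
  have h1 : (l + i + j + n : ℕ) + 1 ≤ 2 ^ (l + i + j + n : ℕ) := Nat.lt_two_pow_self
  have h2 : N + 1 ≤ 2 ^ (l + i + j + n : ℕ) := by
    rw [hN]; exact_mod_cast h1
  have h3 : (N + 1) ^ 2 ≤ (2 ^ (l + i + j + n : ℕ)) ^ 2 := by
    apply pow_le_pow_left₀ _ h2
    positivity
  have h4 : (2 : ℝ) ^ (2 * μ + 2 * (l + i + j + n) + 4) =
      16 * M ^ 2 * (2 ^ (l + i + j + n : ℕ)) ^ 2 := by
    rw [hM, pow_add, pow_add, ← pow_mul, ← pow_mul]
    ring
  rw [h4]
  have h5 : 4 * M * l * (i + j) ≤ 4 * M ^ 2 * (N + 1) ^ 2 := by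
    have a1 : (l : ℝ) ≤ N + 1 := by rw [hN]; linarith
    have a2 : (i + j : ℝ) ≤ N + 1 := by rw [hN]; linarith
    have a3 : (l : ℝ) * (i + j) ≤ (N + 1) * (N + 1) :=
      mul_le_mul a1 a2 (by positivity) (by positivity)
    calc 4 * M * l * (i + j) = 4 * M * (l * (i + j)) := by ring
      _ ≤ 4 * M ^ 2 * ((N + 1) * (N + 1)) :=
          mul_le_mul (by linarith) a3 (by positivity) (by positivity)
      _ = 4 * M ^ 2 * (N + 1) ^ 2 := by ring
  have h6 : 2 * M ^ 2 * i * j ≤ 2 * M ^ 2 * (N + 1) ^ 2 := by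
    have a1 : (i : ℝ) ≤ N + 1 := by rw [hN]; linarith
    have a2 : (j : ℝ) ≤ N + 1 := by rw [hN]; linarith
    have a3 : (i : ℝ) * j ≤ (N + 1) * (N + 1) :=
      mul_le_mul a1 a2 (by positivity) (by positivity)
    calc 2 * M ^ 2 * i * j = 2 * M ^ 2 * (i * j) := by ring
      _ ≤ 2 * M ^ 2 * ((N + 1) * (N + 1)) :=
          mul_le_mul le_rfl a3 (by positivity) (by positivity)
      _ = 2 * M ^ 2 * (N + 1) ^ 2 := by ring
  have hN0 : 0 ≤ N := by rw [hN]; positivity
  have h7 : 4 * n + 2 + M * j + 2 * i ≤ 5 * M ^ 2 * (N + 1) ^ 2 := by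
    have a1 : M * j ≤ M ^ 2 * N := by
      apply mul_le_mul hM2 _ hj (by positivity)
      rw [hN]; linarith
    have a2 : 4 * (n : ℝ) + 2 * i ≤ 4 * N := by rw [hN]; linarith
    have a3 : 4 * N + 2 ≤ M ^ 2 * (4 * N + 2) := by nlinarith
    have a4 : M ^ 2 * N + M ^ 2 * (4 * N + 2) ≤ 5 * M ^ 2 * (N + 1) ^ 2 := by
      have : N + (4 * N + 2) ≤ 5 * (N + 1) ^ 2 := by nlinarith
      nlinarith
    linarith
  have h8 : 11 * M ^ 2 * (N + 1) ^ 2 ≤ 16 * M ^ 2 * (2 ^ (l + i + j + n : ℕ)) ^ 2 := by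
    apply mul_le_mul _ h3 (by positivity) (by positivity)
    nlinarith
  linarith

theorem out1_mem (s : Sys) (o ω : ℕ) :
    out1 s o ω ∈ LRA 1 ↔ BilB (XX s o) (YY s o) (ZZ s) (wt s (2 ^ ω)) := by
  have hμ : (2 : ℝ) * 2 ^ ω * nst s o + 3 ≤ 2 ^ (ω + nst s o + 2) := by
    have h1 : nst s o + 2 ≤ 2 ^ (nst s o + 1) := by
      have : nst s o + 1 ≤ 2 ^ nst s o := Nat.lt_two_pow_self
      rw [pow_succ]; omega
    have h2 : (nst s o : ℝ) + 2 ≤ 2 ^ (nst s o + 1) := by exact_mod_cast h1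
    have h3 : (1 : ℝ) ≤ 2 ^ ω := one_le_pow₀ (by norm_num)
    calc (2 : ℝ) * 2 ^ ω * nst s o + 3 ≤ 2 * 2 ^ ω * (nst s o + 2) := by nlinarith
      _ ≤ 2 * 2 ^ ω * 2 ^ (nst s o + 1) := by
          apply mul_le_mul_of_nonneg_left h2; positivity
      _ = 2 ^ (ω + nst s o + 2) := by ring
  have h := core1 (XX s o) (YY s o) (ZZ s)
    (fun i l a h => by
      unfold XX cvalR cval at h
      split_ifs at h <;> simp at h <;> subst h <;> norm_num)
    (fun i l a h => by
      unfold YY cvalR cval at h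
      split_ifs at h <;> simp at h <;> subst h <;> norm_num)
    (wt s (2 ^ ω)) (2 ^ ω) (2 ^ lamE s o ω) (2 ^ (ω + nst s o + 2))
    (fun i => by
      have h3 : (1 : ℝ) ≤ 2 ^ ω := one_le_pow₀ (by norm_num)
      unfold wt
      split_ifs <;> constructor <;> linarith)
    (one_le_pow₀ (by norm_num))
    (fun i l h => by
      have h1 : xent s o i.1 l.1 = 0 := (cvalR_none_iff _).1 h
      unfold wt
      rw [if_neg]
      intro h2
      rw [h2] at h1
      unfold xent at h1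
      split_ifs at h1 <;> simp_all)
    (by rw [nStar_eq]; exact hμ)
    (by
      rw [nStar_eq, card_subtype_list (rows_nodup s), card_subtype_list (cols_nodup s),
        card_subtype_list (pivs_nodup s o)]
      have := lam_bound (nst s o) (pivs s o).length (rows s).length (cols s).length
        (ω + nst s o + 2) _ rfl
      exact this)
  rw [← h, nStar_eq, card_subtype_list (pivs_nodup s o)]
  unfold out1
  rw [epsCode_eq]
  have e1 : (2 : ℝ) * 2 ^ ω * 2 ^ lamE s o ω * (nst s o : ℝ) + 1 =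
      ((2 ^ (ω + lamE s o ω + 1) * nst s o + 1 : ℕ) : ℝ) := by
    push_cast
    ring
  rw [e1]
  exact mem_LRA1_list (nodup_labs (pivs_nodup s o) (rows_nodup s) _ _)
    (nodup_labs (pivs_nodup s o) (cols_nodup s) _ _) (labs_ne_nil s o _ Nat.two_pos)
    (fun a _ b _ => ent1_ne s o _ _ a b) code1 code1_inj code1_range code1 code1_inj code1_range
    _ (mat1_eq s o _ _) _ _ (Nat.succ_pos _)

/-! ### From systems to instances -/

/-- the number of squarings for the system -/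
def cS (s : Sys) : ℕ := cB s.1 (s.2.1.length + s.2.2.length)

theorem out0_solvable (s : Sys) (hs : s.WF) : out0 s 0 ∈ LRA 0 ↔ s.Solvable :=
  out0_mem s 0 hs hs.1

theorem out1_solvable (s : Sys) (hs : s.WF) :
    out1 (hom s (cS s)) (s.1 + s.2.1.length + cS s) (cS s + 4) ∈ LRA 1 ↔ s.Solvable := by
  have hw := hom_wf s hs (cS s)
  have ho : s.1 + s.2.1.length + cS s < (hom s (cS s)).1 := Nat.lt_succ_self _
  rw [out1_mem]
  constructor
  · intro h
    obtain ⟨v, E, hE, hv, happ, hobj⟩ := of_bilB _ _ hw ho _ (by positivity) h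
    exact solvable_of_hom s hs (cS s) le_rfl v hv E hE happ hobj
  · intro h
    obtain ⟨v, hv, hsol, hpos⟩ := hom_of_solvable s hs (cS s) h
    exact bilB_of _ _ hw ho v hv hsol hpos _

end Pool.Agent.LRA67
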