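import Pool.Agent.LRA67.Sys

/-!
Linear algebra: a matrix of rank at most `|L|` with an invertible `L × L` block is determined by
the rows and columns of the block.
-/

set_option autoImplicit false

namespace Pool.Agent.LRA67

open Function Matrix

theorem eq_of_rank_le {R C L : Type} [Fintype R] [Fintype C] [Fintype L] [DecidableEq L]
    (B : Matrix R C ℝ) (hB : B.rank ≤ Fintype.card L) (ρ : L → R) (κ : L → C)
    (hdet : IsUnit (B.submatrix ρ κ)) :
    B = B.submatrix id κ * (B.submatrix ρ κ)⁻¹ * B.submatrix ρ id := by
  classical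
  set K : Matrix R L ℝ := B.submatrix id κ with hK
  have hKB : K = B * (1 : Matrix C C ℝ).submatrix id κ := by
    ext i l
    simp [hK, Matrix.mul_apply, Matrix.one_apply]
  have hinj : Function.Injective K.mulVecLin := by
    rw [← LinearMap.ker_eq_bot, LinearMap.ker_eq_bot']
    intro v hv
    have h1 : (B.submatrix ρ κ).mulVec v = 0 := by
      funext l
      have := congrFun hv (ρ l)
      simpa [Matrix.mulVec, dotProduct, hK] using this
    have h2 : (B.submatrix ρ κ)⁻¹.mulVec ((B.submatrix ρ κ).mulVec v) = v := by
      rw [Matrix.mulVec_mulVec, Matrix.nonsing_inv_mul _ ((Matrix.isUnit_iff_isUnit_det _).1 hdet),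
        Matrix.one_mulVec]
    rw [← h2, h1, Matrix.mulVec_zero]
  have hrank : Module.finrank ℝ (LinearMap.range K.mulVecLin) = Fintype.card L := by
    rw [LinearMap.finrank_range_of_inj hinj, Module.finrank_fintype_fun_eq_card]
  have hle : LinearMap.range K.mulVecLin ≤ LinearMap.range B.mulVecLin := by
    rw [hKB, Matrix.mulVecLin_mul]
    exact LinearMap.range_comp_le_range _ _
  have heq : LinearMap.range K.mulVecLin = LinearMap.range B.mulVecLin := by
    apply Submodule.eq_of_le_of_finrank_le hle
    rw [hrank]
    exact hB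
  have hcol : ∀ c : C, ∃ a : L → ℝ, K.mulVec a = fun i => B i c := by
    intro c
    have h1 : (fun i => B i c) ∈ LinearMap.range B.mulVecLin := by
      refine ⟨Pi.single c 1, ?_⟩
      funext i
      simp
    rw [← heq] at h1
    obtain ⟨a, ha⟩ := h1
    exact ⟨a, ha⟩
  choose a ha using hcol
  have h1 : B = K * Matrix.of fun l c => a c l := by
    ext i c
    have := congrFun (ha c) i
    simp only [Matrix.mulVec, dotProduct] at this
    simp [Matrix.mul_apply, ← this]
  have h2 : B.submatrix ρ id = B.submatrix ρ κ * Matrix.of fun l c => a c l := by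
    conv_lhs => rw [h1]
    ext l c
    simp [Matrix.mul_apply, hK]
  rw [h2, Matrix.mul_assoc, ← Matrix.mul_assoc _ (B.submatrix ρ κ),
    Matrix.nonsing_inv_mul _ ((Matrix.isUnit_iff_isUnit_det _).1 hdet), Matrix.one_mul]
  exact h1

theorem rank_le_of_factor {R C L : Type} [Fintype R] [Fintype C] [Fintype L]
    (U : Matrix R L ℝ) (V : Matrix L C ℝ) : (U * V).rank ≤ Fintype.card L :=
  (Matrix.rank_mul_le_left U V).trans (Matrix.rank_le_card_width U)

end Pool.Agent.LRA67
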