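import Pool.Agent.LRA67.Chk

/-!
The system of a formula is computed in polynomial time.
-/

set_option autoImplicit false

namespace Pool.Agent.LRA67

open Pool.Agent.LibComplexity Function Enc

variable {𝒜 : Set Orc}

theorem ptf_V {κ : ℕ} {α : Type} [Enc α] {r t : Orc → α → Tr}
    (hr : PTf 𝒜 r) (ht : PTf 𝒜 t) : PTf 𝒜 (fun A x => V (r A x) κ (t A x)) := by
  unfold V
  have h := ptf_idxOf (ptf_subs.comp hr) ht
  exact ((PTf.const 2).add ((PTf.const 12).mul h)).add (PTf.const κ)

theorem ptf_prodsAt : PTf 𝒜 (fun _ (p : Tr × Tr) => prodsAt p.1 p.2) := by
  unfold prodsAt
  with_reducible apply PTf.ifP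
  with_reducible apply PTf.decide_eq
  with_reducible apply PTf.tfst'
  with_reducible apply PTf.snd
  exact PTf.id
  exact PTf.const _
  with_reducible apply PTf.cons
  with_reducible apply PTf.pair
  with_reducible apply ptf_V
  with_reducible apply PTf.fst
  exact PTf.id
  with_reducible apply PTf.snd
  exact PTf.id
  with_reducible apply PTf.pair
  with_reducible apply ptf_V
  with_reducible apply PTf.fst
  exact PTf.id
  with_reducible apply PTf.snd
  exact PTf.id
  with_reducible apply ptf_V
  with_reducible apply PTf.fst
  exact PTf.id
  with_reducible apply PTf.snd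
  exact PTf.id
  exact PTf.const _
  with_reducible apply PTf.ifP
  with_reducible apply PTf.decide_eq
  with_reducible apply PTf.tfst'
  with_reducible apply PTf.snd
  exact PTf.id
  exact PTf.const _
  with_reducible apply PTf.cons
  with_reducible apply PTf.pair
  with_reducible apply ptf_V
  with_reducible apply PTf.fst
  exact PTf.id
  with_reducible apply PTf.snd
  exact PTf.id
  with_reducible apply PTf.pair
  with_reducible apply ptf_V
  with_reducible apply PTf.fst
  exact PTf.id
  with_reducible apply PTf.snd
  exact PTf.id
  with_reducible apply ptf_V
  with_reducible apply PTf.fst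
  exact PTf.id
  with_reducible apply PTf.snd
  exact PTf.id
  with_reducible apply PTf.cons
  with_reducible apply PTf.pair
  with_reducible apply ptf_V
  with_reducible apply PTf.fst
  exact PTf.id
  with_reducible apply PTf.snd
  exact PTf.id
  with_reducible apply PTf.pair
  with_reducible apply ptf_V
  with_reducible apply PTf.fst
  exact PTf.id
  with_reducible apply PTf.snd
  exact PTf.id
  with_reducible apply ptf_V
  with_reducible apply PTf.fst
  exact PTf.id
  with_reducible apply PTf.snd
  exact PTf.id
  with_reducible apply PTf.cons
  with_reducible apply PTf.pair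
  with_reducible apply ptf_V
  with_reducible apply PTf.fst
  exact PTf.id
  with_reducible apply PTf.snd
  exact PTf.id
  with_reducible apply PTf.pair
  with_reducible apply ptf_V
  with_reducible apply PTf.fst
  exact PTf.id
  with_reducible apply PTf.snd
  exact PTf.id
  with_reducible apply ptf_V
  with_reducible apply PTf.fst
  exact PTf.id
  with_reducible apply PTf.snd
  exact PTf.id
  exact PTf.const _
  with_reducible apply PTf.ifP
  with_reducible apply PTf.decide_eq
  with_reducible apply PTf.tfst'
  with_reducible apply PTf.snd
  exact PTf.id
  exact PTf.const _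
  with_reducible apply PTf.cons
  with_reducible apply PTf.pair
  with_reducible apply ptf_V
  with_reducible apply PTf.fst
  exact PTf.id
  with_reducible apply PTf.snd
  exact PTf.id
  with_reducible apply PTf.pair
  with_reducible apply ptf_V
  with_reducible apply PTf.fst
  exact PTf.id
  with_reducible apply PTf.snd
  exact PTf.id
  with_reducible apply ptf_V
  with_reducible apply PTf.fst
  exact PTf.id
  with_reducible apply PTf.snd
  exact PTf.id
  with_reducible apply PTf.cons
  with_reducible apply PTf.pair
  with_reducible apply ptf_V
  with_reducible apply PTf.fst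
  exact PTf.id
  with_reducible apply PTf.snd
  exact PTf.id
  with_reducible apply PTf.pair
  with_reducible apply ptf_V
  with_reducible apply PTf.fst
  exact PTf.id
  with_reducible apply PTf.snd
  exact PTf.id
  with_reducible apply ptf_V
  with_reducible apply PTf.fst
  exact PTf.id
  with_reducible apply PTf.snd
  exact PTf.id
  with_reducible apply PTf.cons
  with_reducible apply PTf.pair
  with_reducible apply ptf_V
  with_reducible apply PTf.fst
  exact PTf.id
  with_reducible apply PTf.snd
  exact PTf.id
  with_reducible apply PTf.pair
  with_reducible apply ptf_V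
  with_reducible apply PTf.fst
  exact PTf.id
  with_reducible apply PTf.snd
  exact PTf.id
  with_reducible apply ptf_V
  with_reducible apply PTf.fst
  exact PTf.id
  with_reducible apply PTf.snd
  exact PTf.id
  exact PTf.const _
  with_reducible apply PTf.ifP
  with_reducible apply PTf.decide_eq
  with_reducible apply PTf.tfst'
  with_reducible apply PTf.snd
  exact PTf.id
  exact PTf.const _
  with_reducible apply PTf.cons
  with_reducible apply PTf.pair
  with_reducible apply ptf_V
  with_reducible apply PTf.fst
  exact PTf.id
  with_reducible apply PTf.tfst'
  with_reducible apply PTf.tsnd'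
  with_reducible apply PTf.snd
  exact PTf.id
  with_reducible apply PTf.pair
  with_reducible apply ptf_V
  with_reducible apply PTf.fst
  exact PTf.id
  with_reducible apply PTf.tsnd'
  with_reducible apply PTf.tsnd'
  with_reducible apply PTf.snd
  exact PTf.id
  with_reducible apply ptf_V
  with_reducible apply PTf.fst
  exact PTf.id
  with_reducible apply PTf.snd
  exact PTf.id
  exact PTf.const _
  with_reducible apply PTf.ifP
  with_reducible apply PTf.decide_eq
  with_reducible apply PTf.tfst'
  with_reducible apply PTf.snd
  exact PTf.id
  exact PTf.const _
  with_reducible apply PTf.cons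
  with_reducible apply PTf.pair
  with_reducible apply ptf_V
  with_reducible apply PTf.fst
  exact PTf.id
  with_reducible apply PTf.tfst'
  with_reducible apply PTf.tsnd'
  with_reducible apply PTf.snd
  exact PTf.id
  with_reducible apply PTf.pair
  with_reducible apply ptf_V
  with_reducible apply PTf.fst
  exact PTf.id
  with_reducible apply PTf.tfst'
  with_reducible apply PTf.tsnd'
  with_reducible apply PTf.snd
  exact PTf.id
  with_reducible apply ptf_V
  with_reducible apply PTf.fst
  exact PTf.id
  with_reducible apply PTf.snd
  exact PTf.id
  with_reducible apply PTf.cons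
  with_reducible apply PTf.pair
  with_reducible apply ptf_V
  with_reducible apply PTf.fst
  exact PTf.id
  with_reducible apply PTf.tsnd'
  with_reducible apply PTf.tsnd'
  with_reducible apply PTf.snd
  exact PTf.id
  with_reducible apply PTf.pair
  with_reducible apply ptf_V
  with_reducible apply PTf.fst
  exact PTf.id
  with_reducible apply PTf.tsnd'
  with_reducible apply PTf.tsnd'
  with_reducible apply PTf.snd
  exact PTf.id
  with_reducible apply ptf_V
  with_reducible apply PTf.fst
  exact PTf.id
  with_reducible apply PTf.snd
  exact PTf.id
  with_reducible apply PTf.cons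
  with_reducible apply PTf.pair
  with_reducible apply ptf_V
  with_reducible apply PTf.fst
  exact PTf.id
  with_reducible apply PTf.tfst'
  with_reducible apply PTf.tsnd'
  with_reducible apply PTf.snd
  exact PTf.id
  with_reducible apply PTf.pair
  with_reducible apply ptf_V
  with_reducible apply PTf.fst
  exact PTf.id
  with_reducible apply PTf.tsnd'
  with_reducible apply PTf.tsnd'
  with_reducible apply PTf.snd
  exact PTf.id
  with_reducible apply ptf_V
  with_reducible apply PTf.fst
  exact PTf.id
  with_reducible apply PTf.snd
  exact PTf.id
  exact PTf.const _
  with_reducible apply PTf.ifP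
  with_reducible apply PTf.decide_eq
  with_reducible apply PTf.tfst'
  with_reducible apply PTf.snd
  exact PTf.id
  exact PTf.const _
  with_reducible apply PTf.cons
  with_reducible apply PTf.pair
  with_reducible apply ptf_V
  with_reducible apply PTf.fst
  exact PTf.id
  with_reducible apply PTf.tfst'
  with_reducible apply PTf.tsnd'
  with_reducible apply PTf.snd
  exact PTf.id
  with_reducible apply PTf.pair
  with_reducible apply ptf_V
  with_reducible apply PTf.fst
  exact PTf.id
  with_reducible apply PTf.tfst'
  with_reducible apply PTf.tsnd'
  with_reducible apply PTf.snd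
  exact PTf.id
  with_reducible apply ptf_V
  with_reducible apply PTf.fst
  exact PTf.id
  with_reducible apply PTf.snd
  exact PTf.id
  with_reducible apply PTf.cons
  with_reducible apply PTf.pair
  with_reducible apply ptf_V
  with_reducible apply PTf.fst
  exact PTf.id
  with_reducible apply PTf.tsnd'
  with_reducible apply PTf.tsnd'
  with_reducible apply PTf.snd
  exact PTf.id
  with_reducible apply PTf.pair
  with_reducible apply ptf_V
  with_reducible apply PTf.fst
  exact PTf.id
  with_reducible apply PTf.tsnd'
  with_reducible apply PTf.tsnd'
  with_reducible apply PTf.snd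
  exact PTf.id
  with_reducible apply ptf_V
  with_reducible apply PTf.fst
  exact PTf.id
  with_reducible apply PTf.snd
  exact PTf.id
  with_reducible apply PTf.cons
  with_reducible apply PTf.pair
  with_reducible apply ptf_V
  with_reducible apply PTf.fst
  exact PTf.id
  with_reducible apply PTf.tfst'
  with_reducible apply PTf.tsnd'
  with_reducible apply PTf.snd
  exact PTf.id
  with_reducible apply PTf.pair
  with_reducible apply ptf_V
  with_reducible apply PTf.fst
  exact PTf.id
  with_reducible apply PTf.tsnd'
  with_reducible apply PTf.tsnd'
  with_reducible apply PTf.snd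
  exact PTf.id
  with_reducible apply ptf_V
  with_reducible apply PTf.fst
  exact PTf.id
  with_reducible apply PTf.snd
  exact PTf.id
  exact PTf.const _
  exact PTf.const _

theorem ptf_sumsW : PTf 𝒜 (fun _ (p : Tr × Tr) => sumsW p.1 p.2) := by
  unfold sumsW
  with_reducible apply PTf.ifP
  with_reducible apply PTf.decide_eq
  with_reducible apply PTf.snd
  exact PTf.id
  exact PTf.const _
  with_reducible apply PTf.cons
  with_reducible apply PTf.pair
  with_reducible apply ptf_V
  with_reducible apply PTf.fst
  exact PTf.id
  with_reducible apply PTf.snd
  exact PTf.id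
  exact PTf.const _
  exact PTf.const _
  with_reducible apply PTf.ifP
  with_reducible apply PTf.decide_eq
  with_reducible apply PTf.tfst'
  with_reducible apply PTf.snd
  exact PTf.id
  exact PTf.const _
  with_reducible apply PTf.cons
  with_reducible apply PTf.pair
  with_reducible apply ptf_V
  with_reducible apply PTf.fst
  exact PTf.id
  with_reducible apply PTf.tsnd'
  with_reducible apply PTf.snd
  exact PTf.id
  with_reducible apply PTf.pair
  with_reducible apply ptf_V
  with_reducible apply PTf.fst
  exact PTf.id
  with_reducible apply PTf.tsnd'
  with_reducible apply PTf.snd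
  exact PTf.id
  with_reducible apply ptf_V
  with_reducible apply PTf.fst
  exact PTf.id
  with_reducible apply PTf.snd
  exact PTf.id
  exact PTf.const _
  with_reducible apply PTf.cons
  with_reducible apply PTf.pair
  with_reducible apply ptf_V
  with_reducible apply PTf.fst
  exact PTf.id
  with_reducible apply PTf.tsnd'
  with_reducible apply PTf.snd
  exact PTf.id
  with_reducible apply PTf.pair
  with_reducible apply ptf_V
  with_reducible apply PTf.fst
  exact PTf.id
  with_reducible apply PTf.tsnd'
  with_reducible apply PTf.snd
  exact PTf.id
  with_reducible apply ptf_V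
  with_reducible apply PTf.fst
  exact PTf.id
  with_reducible apply PTf.snd
  exact PTf.id
  with_reducible apply PTf.cons
  with_reducible apply PTf.pair
  with_reducible apply ptf_V
  with_reducible apply PTf.fst
  exact PTf.id
  with_reducible apply PTf.snd
  exact PTf.id
  with_reducible apply PTf.pair
  exact PTf.const _
  with_reducible apply ptf_V
  with_reducible apply PTf.fst
  exact PTf.id
  with_reducible apply PTf.snd
  exact PTf.id
  exact PTf.const _

theorem ptf_sumsT : PTf 𝒜 (fun _ (p : Tr × Tr) => sumsT p.1 p.2) := by
  unfold sumsT
  with_reducible apply PTf.ifP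
  with_reducible apply PTf.decide_eq
  with_reducible apply PTf.tfst'
  with_reducible apply PTf.snd
  exact PTf.id
  exact PTf.const _
  with_reducible apply PTf.ifP
  with_reducible apply PTf.decide_eq
  with_reducible apply PTf.tfst'
  with_reducible apply PTf.tsnd'
  with_reducible apply PTf.snd
  exact PTf.id
  exact PTf.const _
  with_reducible apply PTf.cons
  with_reducible apply PTf.pair
  with_reducible apply ptf_V
  with_reducible apply PTf.fst
  exact PTf.id
  with_reducible apply PTf.snd
  exact PTf.id
  with_reducible apply PTf.pair
  exact PTf.const _
  with_reducible apply ptf_V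
  with_reducible apply PTf.fst
  exact PTf.id
  with_reducible apply PTf.tsnd'
  with_reducible apply PTf.tsnd'
  with_reducible apply PTf.snd
  exact PTf.id
  exact PTf.const _
  with_reducible apply PTf.cons
  with_reducible apply PTf.pair
  with_reducible apply ptf_V
  with_reducible apply PTf.fst
  exact PTf.id
  with_reducible apply PTf.snd
  exact PTf.id
  with_reducible apply PTf.pair
  with_reducible apply ptf_V
  with_reducible apply PTf.fst
  exact PTf.id
  with_reducible apply PTf.tsnd'
  with_reducible apply PTf.tsnd'
  with_reducible apply PTf.snd
  exact PTf.id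
  exact PTf.const _
  exact PTf.const _
  with_reducible apply PTf.ifP
  with_reducible apply PTf.decide_eq
  with_reducible apply PTf.tfst'
  with_reducible apply PTf.snd
  exact PTf.id
  exact PTf.const _
  with_reducible apply PTf.cons
  with_reducible apply PTf.pair
  with_reducible apply ptf_V
  with_reducible apply PTf.fst
  exact PTf.id
  with_reducible apply PTf.tfst'
  with_reducible apply PTf.tsnd'
  with_reducible apply PTf.snd
  exact PTf.id
  with_reducible apply PTf.pair
  with_reducible apply ptf_V
  with_reducible apply PTf.fst
  exact PTf.id
  with_reducible apply PTf.tsnd'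
  with_reducible apply PTf.tsnd'
  with_reducible apply PTf.snd
  exact PTf.id
  with_reducible apply ptf_V
  with_reducible apply PTf.fst
  exact PTf.id
  with_reducible apply PTf.snd
  exact PTf.id
  exact PTf.const _
  exact PTf.const _

theorem ptf_sumsF : PTf 𝒜 (fun _ (p : Tr × Tr) => sumsF p.1 p.2) := by
  unfold sumsF
  with_reducible apply PTf.ifP
  with_reducible apply PTf.decide_eq
  with_reducible apply PTf.tfst'
  with_reducible apply PTf.snd
  exact PTf.id
  exact PTf.const _
  with_reducible apply PTf.cons
  with_reducible apply PTf.pair
  with_reducible apply ptf_V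
  with_reducible apply PTf.fst
  exact PTf.id
  with_reducible apply PTf.snd
  exact PTf.id
  with_reducible apply PTf.pair
  with_reducible apply ptf_V
  with_reducible apply PTf.fst
  exact PTf.id
  with_reducible apply PTf.tsnd'
  with_reducible apply PTf.tsnd'
  with_reducible apply PTf.snd
  exact PTf.id
  with_reducible apply ptf_V
  with_reducible apply PTf.fst
  exact PTf.id
  with_reducible apply PTf.tfst'
  with_reducible apply PTf.tsnd'
  with_reducible apply PTf.snd
  exact PTf.id
  with_reducible apply PTf.cons
  with_reducible apply PTf.pair
  with_reducible apply ptf_V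
  with_reducible apply PTf.fst
  exact PTf.id
  with_reducible apply PTf.snd
  exact PTf.id
  with_reducible apply PTf.pair
  exact PTf.const _
  with_reducible apply ptf_V
  with_reducible apply PTf.fst
  exact PTf.id
  with_reducible apply PTf.snd
  exact PTf.id
  exact PTf.const _
  with_reducible apply PTf.ifP
  with_reducible apply PTf.decide_eq
  with_reducible apply PTf.tfst'
  with_reducible apply PTf.snd
  exact PTf.id
  exact PTf.const _
  with_reducible apply PTf.cons
  with_reducible apply PTf.pair
  with_reducible apply ptf_V
  with_reducible apply PTf.fst
  exact PTf.id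
  with_reducible apply PTf.snd
  exact PTf.id
  with_reducible apply PTf.pair
  with_reducible apply ptf_V
  with_reducible apply PTf.fst
  exact PTf.id
  with_reducible apply PTf.tfst'
  with_reducible apply PTf.tsnd'
  with_reducible apply PTf.snd
  exact PTf.id
  with_reducible apply ptf_V
  with_reducible apply PTf.fst
  exact PTf.id
  with_reducible apply PTf.tsnd'
  with_reducible apply PTf.tsnd'
  with_reducible apply PTf.snd
  exact PTf.id
  with_reducible apply PTf.cons
  with_reducible apply PTf.pair
  with_reducible apply ptf_V
  with_reducible apply PTf.fst
  exact PTf.id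
  with_reducible apply PTf.snd
  exact PTf.id
  with_reducible apply PTf.pair
  with_reducible apply ptf_V
  with_reducible apply PTf.fst
  exact PTf.id
  with_reducible apply PTf.snd
  exact PTf.id
  exact PTf.const _
  with_reducible apply PTf.cons
  with_reducible apply PTf.pair
  with_reducible apply ptf_V
  with_reducible apply PTf.fst
  exact PTf.id
  with_reducible apply PTf.snd
  exact PTf.id
  with_reducible apply PTf.pair
  with_reducible apply ptf_V
  with_reducible apply PTf.fst
  exact PTf.id
  with_reducible apply PTf.snd
  exact PTf.id
  with_reducible apply ptf_V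
  with_reducible apply PTf.fst
  exact PTf.id
  with_reducible apply PTf.snd
  exact PTf.id
  with_reducible apply PTf.cons
  with_reducible apply PTf.pair
  with_reducible apply ptf_V
  with_reducible apply PTf.fst
  exact PTf.id
  with_reducible apply PTf.snd
  exact PTf.id
  with_reducible apply PTf.pair
  exact PTf.const _
  with_reducible apply ptf_V
  with_reducible apply PTf.fst
  exact PTf.id
  with_reducible apply PTf.snd
  exact PTf.id
  exact PTf.const _
  with_reducible apply PTf.ifP
  with_reducible apply PTf.decide_eq
  with_reducible apply PTf.tfst'
  with_reducible apply PTf.snd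
  exact PTf.id
  exact PTf.const _
  with_reducible apply PTf.cons
  with_reducible apply PTf.pair
  with_reducible apply ptf_V
  with_reducible apply PTf.fst
  exact PTf.id
  with_reducible apply PTf.snd
  exact PTf.id
  with_reducible apply PTf.pair
  with_reducible apply ptf_V
  with_reducible apply PTf.fst
  exact PTf.id
  with_reducible apply PTf.tfst'
  with_reducible apply PTf.tsnd'
  with_reducible apply PTf.snd
  exact PTf.id
  with_reducible apply ptf_V
  with_reducible apply PTf.fst
  exact PTf.id
  with_reducible apply PTf.tsnd'
  with_reducible apply PTf.tsnd'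
  with_reducible apply PTf.snd
  exact PTf.id
  with_reducible apply PTf.cons
  with_reducible apply PTf.pair
  with_reducible apply ptf_V
  with_reducible apply PTf.fst
  exact PTf.id
  with_reducible apply PTf.snd
  exact PTf.id
  with_reducible apply PTf.pair
  with_reducible apply ptf_V
  with_reducible apply PTf.fst
  exact PTf.id
  with_reducible apply PTf.snd
  exact PTf.id
  exact PTf.const _
  with_reducible apply PTf.cons
  with_reducible apply PTf.pair
  with_reducible apply ptf_V
  with_reducible apply PTf.fst
  exact PTf.id
  with_reducible apply PTf.snd
  exact PTf.id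
  with_reducible apply PTf.pair
  exact PTf.const _
  with_reducible apply ptf_V
  with_reducible apply PTf.fst
  exact PTf.id
  with_reducible apply PTf.snd
  exact PTf.id
  with_reducible apply PTf.cons
  with_reducible apply PTf.pair
  with_reducible apply ptf_V
  with_reducible apply PTf.fst
  exact PTf.id
  with_reducible apply PTf.snd
  exact PTf.id
  with_reducible apply PTf.pair
  with_reducible apply ptf_V
  with_reducible apply PTf.fst
  exact PTf.id
  with_reducible apply PTf.snd
  exact PTf.id
  with_reducible apply ptf_V
  with_reducible apply PTf.fst
  exact PTf.id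
  with_reducible apply PTf.snd
  exact PTf.id
  exact PTf.const _
  with_reducible apply PTf.ifP
  with_reducible apply PTf.decide_eq
  with_reducible apply PTf.tfst'
  with_reducible apply PTf.snd
  exact PTf.id
  exact PTf.const _
  with_reducible apply PTf.cons
  with_reducible apply PTf.pair
  with_reducible apply ptf_V
  with_reducible apply PTf.fst
  exact PTf.id
  with_reducible apply PTf.snd
  exact PTf.id
  with_reducible apply PTf.pair
  exact PTf.const _
  with_reducible apply ptf_V
  with_reducible apply PTf.fst
  exact PTf.id
  with_reducible apply PTf.tsnd'
  with_reducible apply PTf.snd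
  exact PTf.id
  with_reducible apply PTf.cons
  with_reducible apply PTf.pair
  with_reducible apply ptf_V
  with_reducible apply PTf.fst
  exact PTf.id
  with_reducible apply PTf.snd
  exact PTf.id
  with_reducible apply PTf.pair
  exact PTf.const _
  with_reducible apply ptf_V
  with_reducible apply PTf.fst
  exact PTf.id
  with_reducible apply PTf.tsnd'
  with_reducible apply PTf.snd
  exact PTf.id
  exact PTf.const _
  with_reducible apply PTf.ifP
  with_reducible apply PTf.decide_eq
  with_reducible apply PTf.tfst'
  with_reducible apply PTf.snd
  exact PTf.id
  exact PTf.const _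
  with_reducible apply PTf.cons
  with_reducible apply PTf.pair
  with_reducible apply ptf_V
  with_reducible apply PTf.fst
  exact PTf.id
  with_reducible apply PTf.snd
  exact PTf.id
  with_reducible apply PTf.pair
  with_reducible apply ptf_V
  with_reducible apply PTf.fst
  exact PTf.id
  with_reducible apply PTf.snd
  exact PTf.id
  with_reducible apply ptf_V
  with_reducible apply PTf.fst
  exact PTf.id
  with_reducible apply PTf.snd
  exact PTf.id
  exact PTf.const _
  with_reducible apply PTf.ifP
  with_reducible apply PTf.decide_eq
  with_reducible apply PTf.tfst'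
  with_reducible apply PTf.snd
  exact PTf.id
  exact PTf.const _
  with_reducible apply PTf.cons
  with_reducible apply PTf.pair
  with_reducible apply ptf_V
  with_reducible apply PTf.fst
  exact PTf.id
  with_reducible apply PTf.snd
  exact PTf.id
  with_reducible apply PTf.pair
  with_reducible apply ptf_V
  with_reducible apply PTf.fst
  exact PTf.id
  with_reducible apply PTf.snd
  exact PTf.id
  with_reducible apply ptf_V
  with_reducible apply PTf.fst
  exact PTf.id
  with_reducible apply PTf.snd
  exact PTf.id
  exact PTf.const _
  exact PTf.const _

theorem ptf_compile : PTf 𝒜 (fun _ (r : Tr) => compile r) := by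
  have h0 : PTf 𝒜 (fun _ (r : Tr) => subs r) := ptf_subs
  have h1 : PTf 𝒜 (fun _ (r : Tr) => (subs r).flatMap (prodsAt r)) :=
    PTf.flatMap (g := fun _ r t => prodsAt r t) h0 ptf_prodsAt
  have h2 : PTf 𝒜 (fun _ (r : Tr) => (subs r).flatMap (sumsW r)) :=
    PTf.flatMap (g := fun _ r t => sumsW r t) h0 ptf_sumsW
  have h3 : PTf 𝒜 (fun _ (r : Tr) => (subs r).flatMap (sumsT r)) :=
    PTf.flatMap (g := fun _ r t => sumsT r t) h0 ptf_sumsT
  have h4 : PTf 𝒜 (fun _ (r : Tr) => (subs r).flatMap (sumsF r)) :=
    PTf.flatMap (g := fun _ r t => sumsF r t) h0 ptf_sumsF
  have h5 : PTf 𝒜 (fun _ (r : Tr) => V r 2 r) := ptf_V PTf.id PTf.id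
  unfold compile
  exact ((PTf.const 2).add ((PTf.const 12).mul h0.length)).pair
    (h1.pair ((PTf.const (1, 1, 1)).cons ((h5.pair (PTf.const (1, 1))).cons
      ((h2.append h3).append h4))))

end Pool.Agent.LRA67
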