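import Pool.Agent.LRA67.Inst
import Pool.Agent.LRA67.PComp
import Pool.Agent.LRA67.Compile

/-!
The reductions from the existential theory of the reals to the low-rank approximation problems.
-/

set_option autoImplicit false


namespace Pool.Agent.LRA67

open Pool.Agent.LibComplexity Function Enc

variable {𝒜 : Set Orc}

section rules
variable {α : Type} [Enc α] {s : Orc → α → Sys} {o k m : Orc → α → ℕ}

theorem ptf_xent' {i : Orc → α → RowC} {l : Orc → α → PivC} (hs : PTf 𝒜 s) (ho : PTf 𝒜 o)
    (hi : PTf 𝒜 i) (hl : PTf 𝒜 l) : PTf 𝒜 (fun A x => xent (s A x) (o A x) (i A x) (l A x)) :=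
  ptf_xent.comp ((hs.pair ho).pair (hi.pair hl))

theorem ptf_yent' {j : Orc → α → ColC} {l : Orc → α → PivC} (hs : PTf 𝒜 s) (ho : PTf 𝒜 o)
    (hl : PTf 𝒜 l) (hj : PTf 𝒜 j) : PTf 𝒜 (fun A x => yent (s A x) (o A x) (l A x) (j A x)) :=
  ptf_yent.comp ((hs.pair ho).pair (hl.pair hj))

theorem ptf_zent' {i : Orc → α → RowC} {j : Orc → α → ColC} (hs : PTf 𝒜 s)
    (hi : PTf 𝒜 i) (hj : PTf 𝒜 j) : PTf 𝒜 (fun A x => zent (s A x) (i A x) (j A x)) :=
  ptf_zent.comp (hs.pair (hi.pair hj))

theorem ptf_rows' (hs : PTf 𝒜 s) : PTf 𝒜 (fun A x => rows (s A x)) := ptf_rows.comp hs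

theorem ptf_cols' (hs : PTf 𝒜 s) : PTf 𝒜 (fun A x => cols (s A x)) := ptf_cols.comp hs

theorem ptf_pivs' (hs : PTf 𝒜 s) (ho : PTf 𝒜 o) : PTf 𝒜 (fun A x => pivs (s A x) (o A x)) :=
  ptf_pivs.comp (hs.pair ho)

theorem ptf_bits' (ho : PTf 𝒜 o) : PTf 𝒜 (fun A x => Nat.bits (o A x)) := ptf_bits.comp ho

end rules

theorem ptf_labs : PTf 𝒜 (fun _ (p : (List PivC × List (ℕ × ℕ)) × ℕ × ℕ) =>
    labs p.1.1 p.1.2 p.2.1 p.2.2) := by
  unfold labs
  with_reducible apply PTf.append
  with_reducible apply PTf.flatMap
  with_reducible apply PTf.fst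
  with_reducible apply PTf.fst
  exact PTf.id
  with_reducible apply PTf.map
  with_reducible apply PTf.range
  with_reducible apply PTf.fst
  with_reducible apply PTf.snd
  with_reducible apply PTf.fst
  exact PTf.id
  with_reducible apply PTf.pair
  exact PTf.const _
  with_reducible apply PTf.pair
  with_reducible apply PTf.snd
  with_reducible apply PTf.fst
  exact PTf.id
  with_reducible apply PTf.snd
  exact PTf.id
  with_reducible apply PTf.flatMap
  with_reducible apply PTf.snd
  with_reducible apply PTf.fst
  exact PTf.id
  with_reducible apply PTf.map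
  with_reducible apply PTf.range
  with_reducible apply PTf.snd
  with_reducible apply PTf.snd
  with_reducible apply PTf.fst
  exact PTf.id
  with_reducible apply PTf.pair
  exact PTf.const _
  with_reducible apply PTf.pair
  with_reducible apply PTf.pair
  with_reducible apply PTf.snd
  with_reducible apply PTf.fst
  exact PTf.id
  exact PTf.const _
  with_reducible apply PTf.snd
  exact PTf.id

theorem ptf_labs' {α : Type} [Enc α] {P : Orc → α → List PivC} {Q : Orc → α → List (ℕ × ℕ)}
    {k m : Orc → α → ℕ} (hP : PTf 𝒜 P) (hQ : PTf 𝒜 Q) (hk : PTf 𝒜 k) (hm : PTf 𝒜 m) :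
    PTf 𝒜 (fun A x => labs (P A x) (Q A x) (k A x) (m A x)) :=
  ptf_labs.comp ((hP.pair hQ).pair (hk.pair hm))

theorem ptf_codePow : PTf 𝒜 (fun _ (c : ℕ × ℕ) => codePow c) := by
  unfold codePow
  with_reducible apply PTf.ifP
  with_reducible apply PTf.decide_eq
  with_reducible apply PTf.fst
  exact PTf.id
  exact PTf.const _
  exact PTf.const _
  with_reducible apply PTf.ifP
  with_reducible apply PTf.decide_eq
  with_reducible apply PTf.fst
  exact PTf.id
  exact PTf.const _
  with_reducible apply PTf.pair
  exact PTf.const _
  with_reducible apply PTf.pair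
  with_reducible apply PTf.append
  with_reducible apply PTf.replicate
  with_reducible apply PTf.snd
  exact PTf.id
  exact PTf.const _
  exact PTf.const _
  exact PTf.const _
  with_reducible apply PTf.ifP
  with_reducible apply PTf.decide_eq
  with_reducible apply PTf.fst
  exact PTf.id
  exact PTf.const _
  with_reducible apply PTf.pair
  exact PTf.const _
  with_reducible apply PTf.pair
  with_reducible apply PTf.append
  with_reducible apply PTf.replicate
  with_reducible apply PTf.snd
  exact PTf.id
  exact PTf.const _
  exact PTf.const _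
  exact PTf.const _
  with_reducible apply PTf.pair
  exact PTf.const _
  with_reducible apply PTf.pair
  with_reducible apply PTf.append
  with_reducible apply PTf.replicate
  with_reducible apply PTf.add
  with_reducible apply PTf.snd
  exact PTf.id
  exact PTf.const _
  exact PTf.const _
  exact PTf.const _
  exact PTf.const _

theorem ptf_ent0 : PTf 𝒜 (fun _ (p : (Sys × ℕ) × Lab × Lab) =>
    ent0 p.1.1 p.1.2 p.2.1 p.2.2) := by
  unfold ent0
  with_reducible apply PTf.ifP
  with_reducible apply PTf.decide_eq
  with_reducible apply PTf.fst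
  with_reducible apply PTf.fst
  with_reducible apply PTf.snd
  exact PTf.id
  exact PTf.const _
  with_reducible apply PTf.ifP
  with_reducible apply PTf.decide_eq
  with_reducible apply PTf.fst
  with_reducible apply PTf.snd
  with_reducible apply PTf.snd
  exact PTf.id
  exact PTf.const _
  with_reducible apply PTf.ifP
  with_reducible apply PTf.decide_eq
  with_reducible apply PTf.fst
  with_reducible apply PTf.snd
  with_reducible apply PTf.fst
  with_reducible apply PTf.snd
  exact PTf.id
  with_reducible apply PTf.fst
  with_reducible apply PTf.snd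
  with_reducible apply PTf.snd
  with_reducible apply PTf.snd
  exact PTf.id
  exact PTf.const _
  exact PTf.const _
  with_reducible apply PTf.ifP
  with_reducible apply PTf.decide_eq
  with_reducible apply ptf_yent'
  with_reducible apply PTf.fst
  with_reducible apply PTf.fst
  exact PTf.id
  with_reducible apply PTf.snd
  with_reducible apply PTf.fst
  exact PTf.id
  with_reducible apply PTf.fst
  with_reducible apply PTf.snd
  with_reducible apply PTf.fst
  with_reducible apply PTf.snd
  exact PTf.id
  with_reducible apply PTf.fst
  with_reducible apply PTf.fst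
  with_reducible apply PTf.snd
  with_reducible apply PTf.snd
  with_reducible apply PTf.snd
  exact PTf.id
  exact PTf.const _
  with_reducible apply PTf.pair
  exact PTf.const _
  with_reducible apply PTf.snd
  with_reducible apply PTf.snd
  with_reducible apply PTf.fst
  with_reducible apply PTf.snd
  exact PTf.id
  with_reducible apply PTf.pair
  with_reducible apply ptf_yent'
  with_reducible apply PTf.fst
  with_reducible apply PTf.fst
  exact PTf.id
  with_reducible apply PTf.snd
  with_reducible apply PTf.fst
  exact PTf.id
  with_reducible apply PTf.fst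
  with_reducible apply PTf.snd
  with_reducible apply PTf.fst
  with_reducible apply PTf.snd
  exact PTf.id
  with_reducible apply PTf.fst
  with_reducible apply PTf.fst
  with_reducible apply PTf.snd
  with_reducible apply PTf.snd
  with_reducible apply PTf.snd
  exact PTf.id
  exact PTf.const _
  with_reducible apply PTf.ifP
  with_reducible apply PTf.decide_eq
  with_reducible apply PTf.fst
  with_reducible apply PTf.snd
  with_reducible apply PTf.snd
  exact PTf.id
  exact PTf.const _
  with_reducible apply PTf.ifP
  with_reducible apply PTf.decide_eq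
  with_reducible apply ptf_xent'
  with_reducible apply PTf.fst
  with_reducible apply PTf.fst
  exact PTf.id
  with_reducible apply PTf.snd
  with_reducible apply PTf.fst
  exact PTf.id
  with_reducible apply PTf.fst
  with_reducible apply PTf.fst
  with_reducible apply PTf.snd
  with_reducible apply PTf.fst
  with_reducible apply PTf.snd
  exact PTf.id
  with_reducible apply PTf.fst
  with_reducible apply PTf.snd
  with_reducible apply PTf.snd
  with_reducible apply PTf.snd
  exact PTf.id
  exact PTf.const _
  with_reducible apply PTf.pair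
  exact PTf.const _
  with_reducible apply PTf.snd
  with_reducible apply PTf.snd
  with_reducible apply PTf.snd
  with_reducible apply PTf.snd
  exact PTf.id
  with_reducible apply PTf.pair
  with_reducible apply ptf_xent'
  with_reducible apply PTf.fst
  with_reducible apply PTf.fst
  exact PTf.id
  with_reducible apply PTf.snd
  with_reducible apply PTf.fst
  exact PTf.id
  with_reducible apply PTf.fst
  with_reducible apply PTf.fst
  with_reducible apply PTf.snd
  with_reducible apply PTf.fst
  with_reducible apply PTf.snd
  exact PTf.id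
  with_reducible apply PTf.fst
  with_reducible apply PTf.snd
  with_reducible apply PTf.snd
  with_reducible apply PTf.snd
  exact PTf.id
  exact PTf.const _
  with_reducible apply PTf.pair
  with_reducible apply ptf_zent'
  with_reducible apply PTf.fst
  with_reducible apply PTf.fst
  exact PTf.id
  with_reducible apply PTf.fst
  with_reducible apply PTf.fst
  with_reducible apply PTf.snd
  with_reducible apply PTf.fst
  with_reducible apply PTf.snd
  exact PTf.id
  with_reducible apply PTf.fst
  with_reducible apply PTf.fst
  with_reducible apply PTf.snd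
  with_reducible apply PTf.snd
  with_reducible apply PTf.snd
  exact PTf.id
  exact PTf.const _

theorem ptf_nst : PTf 𝒜 (fun _ (p : Sys × ℕ) => nst p.1 p.2) := by
  unfold nst starsX starsY
  with_reducible apply PTf.add
  with_reducible apply PTf.length
  with_reducible apply PTf.filter
  with_reducible apply PTf.flatMap
  with_reducible apply ptf_rows'
  with_reducible apply PTf.fst
  exact PTf.id
  with_reducible apply PTf.map
  with_reducible apply ptf_pivs'
  with_reducible apply PTf.fst
  with_reducible apply PTf.fst
  exact PTf.id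
  with_reducible apply PTf.snd
  with_reducible apply PTf.fst
  exact PTf.id
  with_reducible apply PTf.pair
  with_reducible apply PTf.snd
  with_reducible apply PTf.fst
  exact PTf.id
  with_reducible apply PTf.snd
  exact PTf.id
  with_reducible apply PTf.beq
  with_reducible apply ptf_xent'
  with_reducible apply PTf.fst
  with_reducible apply PTf.fst
  exact PTf.id
  with_reducible apply PTf.snd
  with_reducible apply PTf.fst
  exact PTf.id
  with_reducible apply PTf.fst
  with_reducible apply PTf.snd
  exact PTf.id
  with_reducible apply PTf.snd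
  with_reducible apply PTf.snd
  exact PTf.id
  exact PTf.const _
  with_reducible apply PTf.length
  with_reducible apply PTf.filter
  with_reducible apply PTf.flatMap
  with_reducible apply ptf_pivs'
  with_reducible apply PTf.fst
  exact PTf.id
  with_reducible apply PTf.snd
  exact PTf.id
  with_reducible apply PTf.map
  with_reducible apply ptf_cols'
  with_reducible apply PTf.fst
  with_reducible apply PTf.fst
  exact PTf.id
  with_reducible apply PTf.pair
  with_reducible apply PTf.snd
  with_reducible apply PTf.fst
  exact PTf.id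
  with_reducible apply PTf.snd
  exact PTf.id
  with_reducible apply PTf.beq
  with_reducible apply ptf_yent'
  with_reducible apply PTf.fst
  with_reducible apply PTf.fst
  exact PTf.id
  with_reducible apply PTf.snd
  with_reducible apply PTf.fst
  exact PTf.id
  with_reducible apply PTf.fst
  with_reducible apply PTf.snd
  exact PTf.id
  with_reducible apply PTf.snd
  with_reducible apply PTf.snd
  exact PTf.id
  exact PTf.const _

theorem ptf_nst' {α : Type} [Enc α] {s : Orc → α → Sys} {o : Orc → α → ℕ} (hs : PTf 𝒜 s)
    (ho : PTf 𝒜 o) : PTf 𝒜 (fun A x => nst (s A x) (o A x)) := by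
  have h := ptf_nst.comp (hs.pair ho)
  dsimp only at h
  exact h

theorem ptf_codePow' {α : Type} [Enc α] {c : Orc → α → ℕ × ℕ} (hc : PTf 𝒜 c) :
    PTf 𝒜 (fun A x => codePow (c A x)) := ptf_codePow.comp hc

/-- the matrix of an instance -/
theorem ptf_instL {α : Type} [Enc α] {rowsL colsL : Orc → α → List Lab}
    {ent : Orc → α → Lab → Lab → ℕ × ℕ} {k : Orc → α → ℕ}
    {ε : Orc → α → Bool × List Bool × List Bool} (hr : PTf 𝒜 rowsL) (hc : PTf 𝒜 colsL)
    (he : PTf 𝒜 (fun A (p : α × Lab × Lab) => ent A p.1 p.2.1 p.2.2)) (hk : PTf 𝒜 k)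
    (hε : PTf 𝒜 ε) :
    PTf 𝒜 (fun A x => instL (rowsL A x) (colsL A x) (ent A x) (k A x) (ε A x)) := by
  unfold instL
  have h1 : PTf 𝒜 (fun A (q : (α × Lab) × Lab) => codePow (ent A q.1.1 q.1.2 q.2)) := by
    have h2 : PTf 𝒜 (fun _ (q : (α × Lab) × Lab) => (q.1.1, q.1.2, q.2)) := by
        with_reducible apply PTf.pair
        with_reducible apply PTf.fst
        with_reducible apply PTf.fst
        exact PTf.id
        with_reducible apply PTf.pair
        with_reducible apply PTf.snd
        with_reducible apply PTf.fst
        exact PTf.id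
        with_reducible apply PTf.snd
        exact PTf.id
    exact ptf_codePow' (he.comp h2)
  have h3 : PTf 𝒜 (fun A (q : α × Lab) =>
      (colsL A q.1).map fun b => codePow (ent A q.1 q.2 b)) :=
    PTf.map (g := fun A (q : α × Lab) b => codePow (ent A q.1 q.2 b)) (hc.comp PTf.id.fst) h1
  have h4 : PTf 𝒜 (fun A x => (rowsL A x).map fun a => (colsL A x).map fun b =>
      codePow (ent A x a b)) :=
    PTf.map (g := fun A (x : α) a => (colsL A x).map fun b => codePow (ent A x a b)) hr h3
  have h5 : PTf 𝒜 (fun A x => Nat.bits (k A x)) := ptf_bits' hk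
  with_reducible apply PTf.word
  with_reducible apply PTf.pair
  · exact h4
  with_reducible apply PTf.pair
  · exact h5
  · exact hε

theorem ptf_R2 : PTf 𝒜 (fun _ (p : Sys × ℕ) => R2 p.1 p.2) := by
  have h : PTf 𝒜 (fun _ (p : Sys × ℕ) => nst p.1 p.2) := ptf_nst
  unfold R2
  with_reducible apply PTf.add
  with_reducible assumption
  exact PTf.const _

theorem ptf_R1 : PTf 𝒜 (fun _ (p : Sys × ℕ) => R1 p.1 p.2) := by
  have h : PTf 𝒜 (fun _ (p : Sys × ℕ) => nst p.1 p.2) := ptf_nst
  have h' : PTf 𝒜 (fun _ (p : Sys × ℕ) => R2 p.1 p.2) := ptf_R2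
  have h4 : PTf 𝒜 (fun _ (p : Sys × ℕ) => rows p.1) := ptf_rows' PTf.id.fst
  have h5 : PTf 𝒜 (fun _ (p : Sys × ℕ) => cols p.1) := ptf_cols' PTf.id.fst
  have key := ((h'.mul (h4.length.add ((PTf.const 2).mul h5.length))).add
    (((PTf.const 2).mul h).mul h')).add (PTf.const 1)
  unfold R1
  with_reducible exact key

theorem ptf_out0 : PTf 𝒜 (fun _ (p : Sys × ℕ) => out0 p.1 p.2) := by
  have h : PTf 𝒜 (fun _ (p : Sys × ℕ) => nst p.1 p.2) := ptf_nst
  have h1 : PTf 𝒜 (fun _ (p : Sys × ℕ) => R1 p.1 p.2) := ptf_R1
  have h2 : PTf 𝒜 (fun _ (p : Sys × ℕ) => R2 p.1 p.2) := ptf_R2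
  have h3 : PTf 𝒜 (fun _ (p : Sys × ℕ) => pivs p.1 p.2) := ptf_pivs
  have h4 : PTf 𝒜 (fun _ (p : Sys × ℕ) => rows p.1) := ptf_rows' PTf.id.fst
  have h5 : PTf 𝒜 (fun _ (p : Sys × ℕ) => cols p.1) := ptf_cols' PTf.id.fst
  unfold out0
  refine ptf_instL (ent := fun _ (p : Sys × ℕ) a b => ent0 p.1 p.2 a b) (ptf_labs' h3 h4 h1 h2)
    (ptf_labs' h3 h5 h1 h2) ptf_ent0 h3.length ?_
  exact (PTf.const false).pair
    ((ptf_bits' (((h.mul h1).mul h2).add (PTf.const 1))).pair (PTf.const [true]))

theorem ptf_ent1 : PTf 𝒜 (fun _ (p : ((Sys × ℕ) × ℕ × ℕ) × Lab × Lab) =>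
    ent1 p.1.1.1 p.1.1.2 p.1.2.1 p.1.2.2 p.2.1 p.2.2) := by
  unfold ent1 wex
  with_reducible apply PTf.ifP
  with_reducible apply PTf.decide_eq
  with_reducible apply PTf.fst
  with_reducible apply PTf.fst
  with_reducible apply PTf.snd
  exact PTf.id
  exact PTf.const _
  with_reducible apply PTf.ifP
  with_reducible apply PTf.decide_eq
  with_reducible apply PTf.fst
  with_reducible apply PTf.snd
  with_reducible apply PTf.snd
  exact PTf.id
  exact PTf.const _
  with_reducible apply PTf.ifP
  with_reducible apply PTf.decide_eq
  with_reducible apply PTf.fst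
  with_reducible apply PTf.snd
  with_reducible apply PTf.fst
  with_reducible apply PTf.snd
  exact PTf.id
  with_reducible apply PTf.fst
  with_reducible apply PTf.snd
  with_reducible apply PTf.snd
  with_reducible apply PTf.snd
  exact PTf.id
  with_reducible apply PTf.pair
  exact PTf.const _
  with_reducible apply PTf.add
  with_reducible apply PTf.add
  with_reducible apply PTf.fst
  with_reducible apply PTf.snd
  with_reducible apply PTf.fst
  exact PTf.id
  with_reducible apply PTf.snd
  with_reducible apply PTf.snd
  with_reducible apply PTf.fst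
  exact PTf.id
  with_reducible apply PTf.snd
  with_reducible apply PTf.snd
  with_reducible apply PTf.fst
  exact PTf.id
  exact PTf.const _
  with_reducible apply PTf.ifP
  with_reducible apply PTf.decide_eq
  with_reducible apply ptf_yent'
  with_reducible apply PTf.fst
  with_reducible apply PTf.fst
  with_reducible apply PTf.fst
  exact PTf.id
  with_reducible apply PTf.snd
  with_reducible apply PTf.fst
  with_reducible apply PTf.fst
  exact PTf.id
  with_reducible apply PTf.fst
  with_reducible apply PTf.snd
  with_reducible apply PTf.fst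
  with_reducible apply PTf.snd
  exact PTf.id
  with_reducible apply PTf.fst
  with_reducible apply PTf.fst
  with_reducible apply PTf.snd
  with_reducible apply PTf.snd
  with_reducible apply PTf.snd
  exact PTf.id
  exact PTf.const _
  with_reducible apply PTf.ifP
  with_reducible apply PTf.decide_eq
  with_reducible apply PTf.snd
  with_reducible apply PTf.snd
  with_reducible apply PTf.fst
  with_reducible apply PTf.snd
  exact PTf.id
  exact PTf.const _
  with_reducible apply PTf.pair
  exact PTf.const _
  with_reducible apply PTf.add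
  with_reducible apply PTf.fst
  with_reducible apply PTf.snd
  with_reducible apply PTf.fst
  exact PTf.id
  with_reducible apply PTf.snd
  with_reducible apply PTf.snd
  with_reducible apply PTf.fst
  exact PTf.id
  with_reducible apply PTf.pair
  exact PTf.const _
  with_reducible apply PTf.add
  with_reducible apply PTf.fst
  with_reducible apply PTf.snd
  with_reducible apply PTf.fst
  exact PTf.id
  with_reducible apply PTf.snd
  with_reducible apply PTf.snd
  with_reducible apply PTf.fst
  exact PTf.id
  with_reducible apply PTf.pair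
  with_reducible apply ptf_yent'
  with_reducible apply PTf.fst
  with_reducible apply PTf.fst
  with_reducible apply PTf.fst
  exact PTf.id
  with_reducible apply PTf.snd
  with_reducible apply PTf.fst
  with_reducible apply PTf.fst
  exact PTf.id
  with_reducible apply PTf.fst
  with_reducible apply PTf.snd
  with_reducible apply PTf.fst
  with_reducible apply PTf.snd
  exact PTf.id
  with_reducible apply PTf.fst
  with_reducible apply PTf.fst
  with_reducible apply PTf.snd
  with_reducible apply PTf.snd
  with_reducible apply PTf.snd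
  exact PTf.id
  with_reducible apply PTf.add
  with_reducible apply PTf.fst
  with_reducible apply PTf.snd
  with_reducible apply PTf.fst
  exact PTf.id
  with_reducible apply PTf.snd
  with_reducible apply PTf.snd
  with_reducible apply PTf.fst
  exact PTf.id
  with_reducible apply PTf.ifP
  with_reducible apply PTf.decide_eq
  with_reducible apply PTf.fst
  with_reducible apply PTf.snd
  with_reducible apply PTf.snd
  exact PTf.id
  exact PTf.const _
  with_reducible apply PTf.ifP
  with_reducible apply PTf.decide_eq
  with_reducible apply ptf_xent'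
  with_reducible apply PTf.fst
  with_reducible apply PTf.fst
  with_reducible apply PTf.fst
  exact PTf.id
  with_reducible apply PTf.snd
  with_reducible apply PTf.fst
  with_reducible apply PTf.fst
  exact PTf.id
  with_reducible apply PTf.fst
  with_reducible apply PTf.fst
  with_reducible apply PTf.snd
  with_reducible apply PTf.fst
  with_reducible apply PTf.snd
  exact PTf.id
  with_reducible apply PTf.fst
  with_reducible apply PTf.snd
  with_reducible apply PTf.snd
  with_reducible apply PTf.snd
  exact PTf.id
  exact PTf.const _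
  with_reducible apply PTf.ifP
  with_reducible apply PTf.decide_eq
  with_reducible apply PTf.snd
  with_reducible apply PTf.snd
  with_reducible apply PTf.snd
  with_reducible apply PTf.snd
  exact PTf.id
  exact PTf.const _
  with_reducible apply PTf.pair
  exact PTf.const _
  with_reducible apply PTf.add
  with_reducible apply PTf.ifP
  with_reducible apply PTf.decide_eq
  with_reducible apply PTf.fst
  with_reducible apply PTf.fst
  with_reducible apply PTf.snd
  with_reducible apply PTf.fst
  with_reducible apply PTf.snd
  exact PTf.id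
  exact PTf.const _
  exact PTf.const _
  with_reducible apply PTf.fst
  with_reducible apply PTf.snd
  with_reducible apply PTf.fst
  exact PTf.id
  with_reducible apply PTf.snd
  with_reducible apply PTf.snd
  with_reducible apply PTf.fst
  exact PTf.id
  with_reducible apply PTf.pair
  exact PTf.const _
  with_reducible apply PTf.add
  with_reducible apply PTf.ifP
  with_reducible apply PTf.decide_eq
  with_reducible apply PTf.fst
  with_reducible apply PTf.fst
  with_reducible apply PTf.snd
  with_reducible apply PTf.fst
  with_reducible apply PTf.snd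
  exact PTf.id
  exact PTf.const _
  exact PTf.const _
  with_reducible apply PTf.fst
  with_reducible apply PTf.snd
  with_reducible apply PTf.fst
  exact PTf.id
  with_reducible apply PTf.snd
  with_reducible apply PTf.snd
  with_reducible apply PTf.fst
  exact PTf.id
  with_reducible apply PTf.pair
  with_reducible apply ptf_xent'
  with_reducible apply PTf.fst
  with_reducible apply PTf.fst
  with_reducible apply PTf.fst
  exact PTf.id
  with_reducible apply PTf.snd
  with_reducible apply PTf.fst
  with_reducible apply PTf.fst
  exact PTf.id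
  with_reducible apply PTf.fst
  with_reducible apply PTf.fst
  with_reducible apply PTf.snd
  with_reducible apply PTf.fst
  with_reducible apply PTf.snd
  exact PTf.id
  with_reducible apply PTf.fst
  with_reducible apply PTf.snd
  with_reducible apply PTf.snd
  with_reducible apply PTf.snd
  exact PTf.id
  with_reducible apply PTf.add
  with_reducible apply PTf.ifP
  with_reducible apply PTf.decide_eq
  with_reducible apply PTf.fst
  with_reducible apply PTf.fst
  with_reducible apply PTf.snd
  with_reducible apply PTf.fst
  with_reducible apply PTf.snd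
  exact PTf.id
  exact PTf.const _
  exact PTf.const _
  with_reducible apply PTf.fst
  with_reducible apply PTf.snd
  with_reducible apply PTf.fst
  exact PTf.id
  with_reducible apply PTf.snd
  with_reducible apply PTf.snd
  with_reducible apply PTf.fst
  exact PTf.id
  with_reducible apply PTf.pair
  with_reducible apply ptf_zent'
  with_reducible apply PTf.fst
  with_reducible apply PTf.fst
  with_reducible apply PTf.fst
  exact PTf.id
  with_reducible apply PTf.fst
  with_reducible apply PTf.fst
  with_reducible apply PTf.snd
  with_reducible apply PTf.fst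
  with_reducible apply PTf.snd
  exact PTf.id
  with_reducible apply PTf.fst
  with_reducible apply PTf.fst
  with_reducible apply PTf.snd
  with_reducible apply PTf.snd
  with_reducible apply PTf.snd
  exact PTf.id
  with_reducible apply PTf.ifP
  with_reducible apply PTf.decide_eq
  with_reducible apply PTf.fst
  with_reducible apply PTf.fst
  with_reducible apply PTf.snd
  with_reducible apply PTf.fst
  with_reducible apply PTf.snd
  exact PTf.id
  exact PTf.const _
  exact PTf.const _
  with_reducible apply PTf.fst
  with_reducible apply PTf.snd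
  with_reducible apply PTf.fst
  exact PTf.id

theorem ptf_lamE : PTf 𝒜 (fun _ (p : (Sys × ℕ) × ℕ) => lamE p.1.1 p.1.2 p.2) := by
  have h : PTf 𝒜 (fun _ (p : (Sys × ℕ) × ℕ) => nst p.1.1 p.1.2) :=
    ptf_nst' PTf.id.fst.fst PTf.id.fst.snd
  unfold lamE
  with_reducible apply PTf.add
  with_reducible apply PTf.add
  with_reducible apply PTf.mul
  exact PTf.const _
  with_reducible apply PTf.add
  with_reducible apply PTf.add
  with_reducible apply PTf.snd
  exact PTf.id
  with_reducible assumption
  exact PTf.const _
  with_reducible apply PTf.mul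
  exact PTf.const _
  with_reducible apply PTf.add
  with_reducible apply PTf.add
  with_reducible apply PTf.add
  with_reducible apply PTf.length
  with_reducible apply ptf_pivs'
  with_reducible apply PTf.fst
  with_reducible apply PTf.fst
  exact PTf.id
  with_reducible apply PTf.snd
  with_reducible apply PTf.fst
  exact PTf.id
  with_reducible apply PTf.length
  with_reducible apply ptf_rows'
  with_reducible apply PTf.fst
  with_reducible apply PTf.fst
  exact PTf.id
  with_reducible apply PTf.length
  with_reducible apply ptf_cols'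
  with_reducible apply PTf.fst
  with_reducible apply PTf.fst
  exact PTf.id
  with_reducible assumption
  exact PTf.const _

theorem ptf_epsCode : PTf 𝒜 (fun _ (p : ℕ × ℕ) => epsCode p.1 p.2) := by
  unfold epsCode
  with_reducible apply PTf.ifP
  with_reducible apply PTf.decide_eq
  with_reducible apply PTf.snd
  exact PTf.id
  exact PTf.const _
  exact PTf.const _
  with_reducible apply PTf.pair
  exact PTf.const _
  with_reducible apply PTf.pair
  with_reducible apply PTf.cons
  exact PTf.const _
  with_reducible apply PTf.append
  with_reducible apply PTf.replicate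
  with_reducible apply PTf.fst
  exact PTf.id
  exact PTf.const _
  with_reducible apply ptf_bits'
  with_reducible apply PTf.snd
  exact PTf.id
  exact PTf.const _

theorem ptf_out1 : PTf 𝒜 (fun _ (p : (Sys × ℕ) × ℕ) => out1 p.1.1 p.1.2 p.2) := by
  have h : PTf 𝒜 (fun _ (p : (Sys × ℕ) × ℕ) => nst p.1.1 p.1.2) :=
    ptf_nst' PTf.id.fst.fst PTf.id.fst.snd
  have h3 : PTf 𝒜 (fun _ (p : (Sys × ℕ) × ℕ) => pivs p.1.1 p.1.2) := ptf_pivs.comp PTf.id.fst
  have h4 : PTf 𝒜 (fun _ (p : (Sys × ℕ) × ℕ) => rows p.1.1) := ptf_rows' PTf.id.fst.fst
  have h5 : PTf 𝒜 (fun _ (p : (Sys × ℕ) × ℕ) => cols p.1.1) := ptf_cols' PTf.id.fst.fst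
  have h6 : PTf 𝒜 (fun _ (p : (Sys × ℕ) × ℕ) => lamE p.1.1 p.1.2 p.2) := ptf_lamE
  have h7 : PTf 𝒜 (fun _ (p : (Sys × ℕ) × ℕ) => p.2 + lamE p.1.1 p.1.2 p.2) := by
    with_reducible apply PTf.add
    · exact PTf.id.snd
    · exact h6
  have he : PTf 𝒜 (fun _ (p : ((Sys × ℕ) × ℕ) × Lab × Lab) =>
      ent1 p.1.1.1 p.1.1.2 p.1.2 (lamE p.1.1.1 p.1.1.2 p.1.2) p.2.1 p.2.2) := by
    have h8 := h6.comp (PTf.id (𝒜 := 𝒜) (α := ((Sys × ℕ) × ℕ) × Lab × Lab)).fst
    have h9 := ptf_ent1.comp (((PTf.id (𝒜 := 𝒜) (α := ((Sys × ℕ) × ℕ) × Lab × Lab)).fst.fst.pair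
      (PTf.id.fst.snd.pair h8)).pair PTf.id.snd)
    dsimp only at h9
    exact h9
  have h10 : PTf 𝒜 (fun _ (p : (Sys × ℕ) × ℕ) =>
      epsCode (p.2 + lamE p.1.1 p.1.2 p.2) (nst p.1.1 p.1.2)) := by
    have h11 := ptf_epsCode.comp (h7.pair h)
    dsimp only at h11
    exact h11
  unfold out1
  exact ptf_instL (ent := fun _ (p : (Sys × ℕ) × ℕ) a b =>
      ent1 p.1.1 p.1.2 p.2 (lamE p.1.1 p.1.2 p.2) a b)
    (ptf_labs' h3 h4 (PTf.const 2) (PTf.const 1))
    (ptf_labs' h3 h5 (PTf.const 2) (PTf.const 1)) he h3.length h10

theorem ptf_cS : PTf 𝒜 (fun _ (s : Sys) => cS s) := by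
  unfold cS cB
  with_reducible apply PTf.mul
  with_reducible apply PTf.mul
  exact PTf.const _
  with_reducible apply PTf.add
  with_reducible apply PTf.fst
  exact PTf.id
  exact PTf.const _
  with_reducible apply PTf.add
  with_reducible apply PTf.add
  with_reducible apply PTf.length
  with_reducible apply PTf.fst
  with_reducible apply PTf.snd
  exact PTf.id
  with_reducible apply PTf.length
  with_reducible apply PTf.snd
  with_reducible apply PTf.snd
  exact PTf.id
  exact PTf.const _

/-- the reduction for `p = 0` -/
def red0 (w : List Bool) : List Bool :=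
  if isF w = true then out0 (compile (readTr w)) 0 else []

/-- the reduction for `p = 1` -/
def red1 (w : List Bool) : List Bool :=
  if isF w = true then
    out1 (hom (compile (readTr w)) (cS (compile (readTr w))))
      ((compile (readTr w)).1 + (compile (readTr w)).2.1.length + cS (compile (readTr w)))
      (cS (compile (readTr w)) + 4)
  else []

theorem ptf_comp_read : PTf 𝒜 (fun _ (w : List Bool) => compile (readTr w)) :=
  ptf_compile.comp (PTf.readTr PTf.id)

theorem ptf_red0 : PTf 𝒜 (fun _ (w : List Bool) => red0 w) := by
  have h1 := ptf_out0.comp ((ptf_comp_read (𝒜 := 𝒜)).pair (PTf.const 0))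
  dsimp only at h1
  unfold red0
  exact PTf.ite ptf_isF h1 (PTf.const [])

theorem ptf_red1 : PTf 𝒜 (fun _ (w : List Bool) => red1 w) := by
  have h1 : PTf 𝒜 (fun _ (w : List Bool) => compile (readTr w)) := ptf_comp_read
  have h2 := ptf_cS.comp h1
  have h3 := ptf_hom.comp (h1.pair h2)
  dsimp only at h3
  have h4 := (h1.fst.add h1.snd.fst.length).add h2
  have h5 := h2.add (PTf.const 4)
  have h6 := ptf_out1.comp ((h3.pair h4).pair h5)
  dsimp only at h6
  unfold red1
  exact PTf.ite ptf_isF h6 (PTf.const [])

theorem nil_not_mem (p : ℚ) : [] ∉ LRA p := by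
  rintro ⟨m, n, A, k, ε, _, hw, _⟩
  exact word_ne_nil _ hw.symm

theorem enc_tr_injective {φ ψ : Fml} (h : φ.tr.enc = ψ.tr.enc) : φ.tr = ψ.tr := enc_inj h

theorem mem_ETR_iff (w : List Bool) : w ∈ ETR ↔ isF w = true ∧ (compile (readTr w)).Solvable := by
  constructor
  · rintro ⟨φ, rfl, hx⟩
    have h := readTr_enc φ.tr []
    rw [List.append_nil] at h
    rw [h, compile_iff]
    exact ⟨(isF_iff _).2 ⟨φ, rfl⟩, hx⟩
  · rintro ⟨h1, h2⟩
    obtain ⟨φ, rfl⟩ := (isF_iff _).1 h1
    have h := readTr_enc φ.tr []
    rw [List.append_nil] at h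
    rw [h, compile_iff] at h2
    exact ⟨φ, rfl, h2⟩

/-- the existential theory of the reals reduces to `LRA_0` -/
theorem hard0 : PolyRed ETR (LRA 0) := by
  refine ⟨red0, inFP_iff.2 ptf_red0, fun w => ?_⟩
  rw [mem_ETR_iff]
  unfold red0
  by_cases h : isF w = true
  · rw [if_pos h, out0_solvable _ (compile_wf _)]
    exact and_iff_right h
  · rw [if_neg h]
    exact iff_of_false (fun h' => h h'.1) (nil_not_mem 0)

/-- the existential theory of the reals reduces to `LRA_1` -/
theorem hard1 : PolyRed ETR (LRA 1) := by
  refine ⟨red1, inFP_iff.2 ptf_red1, fun w => ?_⟩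
  rw [mem_ETR_iff]
  unfold red1
  by_cases h : isF w = true
  · rw [if_pos h, out1_solvable _ (compile_wf _)]
    exact and_iff_right h
  · rw [if_neg h]
    exact iff_of_false (fun h' => h h'.1) (nil_not_mem 1)

end Pool.Agent.LRA67
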