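import Pool.Agent.LRA67.Defs
import Pool.Agent.LRA67.Sys

/-!
Matrices given by lists, and membership in the languages.
-/

set_option autoImplicit false

namespace Pool.Agent.LRA67

open Pool.Agent.LibComplexity Function Enc

/-! ### Codes -/

theorem binVal_bits (n : ℕ) : binVal n.bits = n := by
  induction n using Nat.binaryRec' with
  | zero => simp [binVal]
  | bit b n h ih =>
    rw [Nat.bits_append_bit n b h, binVal, ih]
    cases b <;> (simp [Nat.bit]; try omega)

theorem bits_injective : Injective Nat.bits := fun a b h => by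
  rw [← binVal_bits a, h, binVal_bits]

theorem encRat_injective : Injective encRat := by
  intro p q h
  simp only [encRat, Prod.mk.injEq] at h
  obtain ⟨h1, h2, h3⟩ := h
  have h2 := bits_injective h2
  have h3 := bits_injective h3
  have h4 : (p < 0) ↔ (q < 0) := by simpa using h1
  rw [← Rat.num_neg, ← Rat.num_neg] at h4
  apply Rat.ext
  · omega
  · exact h3

theorem mem_LRA {p : ℚ} {m n : ℕ} (hm : 0 < m) (A : Matrix (Fin m) (Fin n) ℚ) (k : ℕ) (ε : ℚ)
    (hε : 0 < ε) : encInst A k ε ∈ LRA p ↔ ∃ B : Matrix (Fin m) (Fin n) ℝ, B.rank ≤ k ∧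
      entryDist p (A.map fun q => (q : ℝ)) B < (ε : ℝ) := by
  constructor
  · rintro ⟨m', n', A', k', ε', _, hw, B, hB⟩
    have h1 := word_injective hw
    simp only [Prod.mk.injEq] at h1
    obtain ⟨h1, h2, h3⟩ := h1
    have h2 := bits_injective h2
    have h3 := encRat_injective h3
    subst h2 h3
    have h4 := congrArg List.length h1
    simp only [List.length_ofFn] at h4
    subst h4
    have h5 := List.ofFn_injective h1
    have h6 := congrArg List.length (congrFun h5 ⟨0, hm⟩)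
    simp only [List.length_ofFn] at h6
    subst h6
    have h7 : A = A' := by
      ext i j
      have := congrFun (List.ofFn_injective (congrFun h5 i)) j
      rw [encRat_injective this]
    subst h7
    exact ⟨B, hB⟩
  · rintro ⟨B, hB⟩
    exact ⟨m, n, A, k, ε, hε, rfl, B, hB⟩

theorem entryDist_zero {m n : ℕ} (A B : Matrix (Fin m) (Fin n) ℝ) :
    entryDist 0 A B = ({ij : Fin m × Fin n | A ij.1 ij.2 ≠ B ij.1 ij.2}.ncard : ℝ) := by
  classical
  rw [entryDist, if_pos rfl]
  congr 1
  rw [Set.ncard_eq_toFinset_card']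
  congr 1
  ext ij
  simp

theorem entryDist_one {m n : ℕ} (A B : Matrix (Fin m) (Fin n) ℝ) :
    entryDist 1 A B = ∑ i, ∑ j, |A i j - B i j| := by
  rw [entryDist, if_neg one_ne_zero]
  simp

/-! ### Reindexing -/

section
variable {R C R' C' : Type} [Fintype R] [Fintype C] [Fintype R'] [Fintype C']

theorem Yes0.reindex {A : R → C → ℝ} {k N : ℕ} (h : Yes0 A k N) (f : R' ≃ R) (g : C' ≃ C) :
    Yes0 (fun i j => A (f i) (g j)) k N := by
  obtain ⟨B, hB, hN⟩ := h
  refine ⟨B.submatrix f g, ?_, ?_⟩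
  · rw [Matrix.rank_submatrix]
    exact hB
  · refine le_trans (le_of_eq ?_) hN
    have : {ij : R' × C' | A (f ij.1) (g ij.2) ≠ B.submatrix f g ij.1 ij.2} =
        (f.prodCongr g).symm '' {ij : R × C | A ij.1 ij.2 ≠ B ij.1 ij.2} := by
      rw [Equiv.image_symm_eq_preimage]
      rfl
    rw [this]
    exact Set.ncard_image_of_injective _ (f.prodCongr g).symm.injective

theorem yes0_reindex (A : R → C → ℝ) (k N : ℕ) (f : R' ≃ R) (g : C' ≃ C) :
    Yes0 (fun i j => A (f i) (g j)) k N ↔ Yes0 A k N := by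
  constructor
  · intro h
    have := h.reindex f.symm g.symm
    simpa using this
  · intro h
    exact h.reindex f g

theorem Yes1.reindex {A : R → C → ℝ} {k : ℕ} {c : ℝ} (h : Yes1 A k c) (f : R' ≃ R) (g : C' ≃ C) :
    Yes1 (fun i j => A (f i) (g j)) k c := by
  obtain ⟨B, hB, hN⟩ := h
  refine ⟨B.submatrix f g, ?_, ?_⟩
  · rw [Matrix.rank_submatrix]
    exact hB
  · refine lt_of_le_of_lt (le_of_eq ?_) hN
    rw [← Equiv.sum_comp f]
    refine Finset.sum_congr rfl fun i _ => ?_
    rw [← Equiv.sum_comp g]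
    rfl

theorem yes1_reindex (A : R → C → ℝ) (k : ℕ) (c : ℝ) (f : R' ≃ R) (g : C' ≃ C) :
    Yes1 (fun i j => A (f i) (g j)) k c ↔ Yes1 A k c := by
  constructor
  · intro h
    have := h.reindex f.symm g.symm
    simpa using this
  · intro h
    exact h.reindex f g

end

theorem exists_equiv_list {ρ R : Type} (l : List ρ) (hl : l.Nodup) (f : R → ρ) (hf : Injective f)
    (h : ∀ x, x ∈ l ↔ x ∈ Set.range f) : ∃ e : Fin l.length ≃ R, ∀ i, f (e i) = l[i] := by
  have h1 : ∀ i : Fin l.length, ∃ r, f r = l[i] := fun i => (h _).1 (List.getElem_mem _)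
  choose g hg using h1
  refine ⟨Equiv.ofBijective g ⟨?_, ?_⟩, hg⟩
  · intro i j hij
    have : l[i] = l[j] := by rw [← hg i, ← hg j, hij]
    exact Fin.ext ((List.Nodup.getElem_inj_iff hl).1 this)
  · intro r
    obtain ⟨i, hi, hir⟩ := List.getElem_of_mem ((h (f r)).2 ⟨r, rfl⟩)
    exact ⟨⟨i, hi⟩, hf (by rw [hg]; exact hir)⟩

/-! ### Entries -/

/-- the code of `v * 2 ^ a`, where `v` is the value of the entry code -/
def codePow (c : ℕ × ℕ) : Bool × List Bool × List Bool :=
  if c.1 = 1 then (false, [], [true])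
  else if c.1 = 2 then (false, List.replicate c.2 false ++ [true], [true])
  else if c.1 = 3 then (true, List.replicate c.2 false ++ [true], [true])
  else (false, List.replicate (c.2 + 1) false ++ [true], [true])

/-- `v * 2 ^ a`, where `v` is the value of the entry code -/
def powVal (c : ℕ × ℕ) : ℤ := (cval c.1).getD 0 * 2 ^ c.2

theorem bits_mul_pow (n a : ℕ) (hn : n ≠ 0) :
    (n * 2 ^ a).bits = List.replicate a false ++ n.bits := by
  induction a with
  | zero => simp
  | succ a ih =>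
    have : n * 2 ^ (a + 1) = 2 * (n * 2 ^ a) := by ring
    rw [this, Nat.bit0_bits _ (by positivity), ih]
    rfl

theorem encRat_int (z : ℤ) : encRat (z : ℚ) = (decide (z < 0), z.natAbs.bits, [true]) := by
  simp [encRat]

theorem encRat_nat (n : ℕ) : encRat (n : ℚ) = (false, n.bits, [true]) := by
  have h := encRat_int (n : ℤ)
  have h1 : decide ((n : ℤ) < 0) = false := by simp
  rw [h1, Int.natAbs_natCast] at h
  exact_mod_cast h

theorem codePow_eq (c : ℕ × ℕ) (h : c.1 ≠ 0) : codePow c = encRat ((powVal c : ℤ) : ℚ) := by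
  obtain ⟨c, a⟩ := c
  have h2 : (0 : ℤ) < 2 ^ a := by positivity
  have hb := bits_mul_pow 1 a one_ne_zero
  have hb' := bits_mul_pow 1 (a + 1) one_ne_zero
  rw [one_mul, Nat.one_bits] at hb hb'
  rw [encRat_int]
  simp only [codePow, powVal, cval]
  simp only at h
  by_cases h1 : c = 1
  · simp [h1]
  · by_cases h2' : c = 2
    · simp [h2', Int.natAbs_pow, hb, h2.le]
    · by_cases h3 : c = 3
      · simp [h3, Int.natAbs_pow, hb]
      · simp only [h1, h2', h3, h, if_false, Option.getD_some]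
        have e1 : (2 : ℤ) * 2 ^ a = 2 ^ (a + 1) := by ring
        rw [e1]
        have h5 : (0 : ℤ) < 2 ^ (a + 1) := by positivity
        simp [Int.natAbs_pow, hb', h5.le]

/-- the instance given by lists of rows and columns -/
def instL {ρ γ : Type} (rowsL : List ρ) (colsL : List γ) (ent : ρ → γ → ℕ × ℕ) (k : ℕ)
    (ε : Bool × List Bool × List Bool) : List Bool :=
  word (rowsL.map fun a => colsL.map fun b => codePow (ent a b), Nat.bits k, ε)

section
variable {ρ γ R C : Type} [Fintype R] [Fintype C] {rowsL : List ρ} {colsL : List γ}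
  {ent : ρ → γ → ℕ × ℕ}

theorem instL_eq (hent : ∀ a ∈ rowsL, ∀ b ∈ colsL, (ent a b).1 ≠ 0) (k : ℕ) (ε : ℚ) :
    instL rowsL colsL ent k (encRat ε) =
      encInst (m := rowsL.length) (n := colsL.length)
        (fun i j => ((powVal (ent rowsL[i] colsL[j]) : ℤ) : ℚ)) k ε := by
  unfold instL encInst
  congr 2
  apply List.ext_getElem
  · simp
  · intro i h1 h2
    rw [List.getElem_map, List.getElem_ofFn]
    apply List.ext_getElem
    · simp
    · intro j h3 h4
      rw [List.getElem_map, List.getElem_ofFn]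
      exact codePow_eq _ (hent _ (List.getElem_mem _) _ (List.getElem_mem _))

theorem mem_LRA0_list (hrows : rowsL.Nodup) (hcols : colsL.Nodup) (hne : rowsL ≠ [])
    (hent : ∀ a ∈ rowsL, ∀ b ∈ colsL, (ent a b).1 ≠ 0)
    (cr : R → ρ) (hcr : Injective cr) (hcr' : ∀ x, x ∈ rowsL ↔ x ∈ Set.range cr)
    (cc : C → γ) (hcc : Injective cc) (hcc' : ∀ x, x ∈ colsL ↔ x ∈ Set.range cc)
    (A : R → C → ℝ) (hA : ∀ i j, A i j = ((powVal (ent (cr i) (cc j)) : ℤ) : ℝ)) (k N : ℕ) :
    instL rowsL colsL ent k (encRat ((N + 1 : ℕ) : ℚ)) ∈ LRA 0 ↔ Yes0 A k N := by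
  obtain ⟨f, hf⟩ := exists_equiv_list rowsL hrows cr hcr hcr'
  obtain ⟨g, hg⟩ := exists_equiv_list colsL hcols cc hcc hcc'
  rw [instL_eq hent, mem_LRA (List.length_pos_iff.2 hne) _ _ _ (by positivity),
    ← yes0_reindex A k N f g]
  have e1 : (Matrix.map (fun (i : Fin rowsL.length) (j : Fin colsL.length) =>
      ((powVal (ent rowsL[i] colsL[j]) : ℤ) : ℚ)) fun q => (q : ℝ)) =
      fun i j => A (f i) (g j) := by
    funext i j
    rw [hA, hf, hg]
    simp [Matrix.map]
  unfold Yes0
  refine exists_congr fun B => and_congr_right fun _ => ?_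
  rw [entryDist_zero, e1]
  have e2 : (((N + 1 : ℕ) : ℚ) : ℝ) = ((N + 1 : ℕ) : ℝ) := by push_cast; rfl
  rw [e2, Nat.cast_lt, Nat.lt_succ_iff]

theorem mem_LRA1_list (hrows : rowsL.Nodup) (hcols : colsL.Nodup) (hne : rowsL ≠ [])
    (hent : ∀ a ∈ rowsL, ∀ b ∈ colsL, (ent a b).1 ≠ 0)
    (cr : R → ρ) (hcr : Injective cr) (hcr' : ∀ x, x ∈ rowsL ↔ x ∈ Set.range cr)
    (cc : C → γ) (hcc : Injective cc) (hcc' : ∀ x, x ∈ colsL ↔ x ∈ Set.range cc)
    (A : R → C → ℝ) (hA : ∀ i j, A i j = ((powVal (ent (cr i) (cc j)) : ℤ) : ℝ)) (k c : ℕ)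
    (hc : 0 < c) :
    instL rowsL colsL ent k (encRat (c : ℚ)) ∈ LRA 1 ↔ Yes1 A k (c : ℝ) := by
  obtain ⟨f, hf⟩ := exists_equiv_list rowsL hrows cr hcr hcr'
  obtain ⟨g, hg⟩ := exists_equiv_list colsL hcols cc hcc hcc'
  rw [instL_eq hent, mem_LRA (List.length_pos_iff.2 hne) _ _ _ (by positivity),
    ← yes1_reindex A k c f g]
  have e1 : (Matrix.map (fun (i : Fin rowsL.length) (j : Fin colsL.length) =>
      ((powVal (ent rowsL[i] colsL[j]) : ℤ) : ℚ)) fun q => (q : ℝ)) =
      fun i j => A (f i) (g j) := by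
    funext i j
    rw [hA, hf, hg]
    simp [Matrix.map]
  unfold Yes1
  refine exists_congr fun B => and_congr_right fun _ => ?_
  rw [entryDist_one, e1]
  have e2 : ((c : ℚ) : ℝ) = (c : ℝ) := by push_cast; rfl
  rw [e2]

end

end Pool.Agent.LRA67
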