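import Pool.Agent.LRA67.Defs
import Pool.Agent.LRA67.Sys
import Pool.Agent.LibComplexity.IO

/-!
The functions of the gadget are computable in polynomial time.
-/

set_option autoImplicit false

namespace Pool.Agent.LRA67

open Pool.Agent.LibComplexity Function Enc

variable {𝒜 : Set Orc}

theorem ptf_gate : PTf 𝒜 (fun _ (p : (Sys × ℕ) × ℕ) => gate p.1.1 p.1.2 p.2) := by
  unfold gate
  with_reducible apply PTf.listGetD
  with_reducible apply PTf.fst
  with_reducible apply PTf.snd
  with_reducible apply PTf.fst
  with_reducible apply PTf.fst
  exact PTf.id
  with_reducible apply PTf.snd
  exact PTf.id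
  with_reducible apply PTf.pair
  exact PTf.const _
  with_reducible apply PTf.pair
  with_reducible apply PTf.snd
  with_reducible apply PTf.fst
  exact PTf.id
  exact PTf.const _

theorem ptf_rows : PTf 𝒜 (fun _ (s : Sys) => rows s) := by
  unfold rows
  with_reducible apply PTf.cons
  exact PTf.const _
  with_reducible apply PTf.cons
  exact PTf.const _
  with_reducible apply PTf.map
  with_reducible apply PTf.range
  with_reducible apply PTf.add
  with_reducible apply PTf.length
  with_reducible apply PTf.fst
  with_reducible apply PTf.snd
  exact PTf.id
  exact PTf.const _
  with_reducible apply PTf.pair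
  exact PTf.const _
  with_reducible apply PTf.snd
  exact PTf.id

theorem ptf_cols : PTf 𝒜 (fun _ (s : Sys) => cols s) := by
  unfold cols
  with_reducible apply PTf.append
  with_reducible apply PTf.append
  with_reducible apply PTf.append
  with_reducible apply PTf.map
  with_reducible apply PTf.range
  with_reducible apply PTf.fst
  exact PTf.id
  with_reducible apply PTf.pair
  exact PTf.const _
  with_reducible apply PTf.snd
  exact PTf.id
  with_reducible apply PTf.map
  with_reducible apply PTf.range
  with_reducible apply PTf.add
  with_reducible apply PTf.length
  with_reducible apply PTf.fst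
  with_reducible apply PTf.snd
  exact PTf.id
  exact PTf.const _
  with_reducible apply PTf.pair
  exact PTf.const _
  with_reducible apply PTf.snd
  exact PTf.id
  with_reducible apply PTf.map
  with_reducible apply PTf.range
  with_reducible apply PTf.fst
  exact PTf.id
  with_reducible apply PTf.pair
  exact PTf.const _
  with_reducible apply PTf.snd
  exact PTf.id
  with_reducible apply PTf.map
  with_reducible apply PTf.range
  with_reducible apply PTf.length
  with_reducible apply PTf.snd
  with_reducible apply PTf.snd
  exact PTf.id
  with_reducible apply PTf.pair
  exact PTf.const _
  with_reducible apply PTf.snd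
  exact PTf.id

theorem ptf_xent : PTf 𝒜 (fun _ (p : (Sys × ℕ) × RowC × PivC) =>
    xent p.1.1 p.1.2 p.2.1 p.2.2) := by
  unfold xent gate
  with_reducible apply PTf.ifP
  with_reducible apply PTf.decide_eq
  with_reducible apply PTf.fst
  with_reducible apply PTf.fst
  with_reducible apply PTf.snd
  exact PTf.id
  exact PTf.const _
  with_reducible apply PTf.ifP
  with_reducible apply PTf.decide_eq
  with_reducible apply PTf.fst
  with_reducible apply PTf.fst
  with_reducible apply PTf.snd
  with_reducible apply PTf.snd
  exact PTf.id
  exact PTf.const _
  exact PTf.const _
  with_reducible apply PTf.ifP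
  with_reducible apply PTf.decide_eq
  with_reducible apply PTf.fst
  with_reducible apply PTf.fst
  with_reducible apply PTf.snd
  with_reducible apply PTf.snd
  exact PTf.id
  exact PTf.const _
  exact PTf.const _
  with_reducible apply PTf.ifP
  with_reducible apply PTf.decide_eq
  with_reducible apply PTf.fst
  with_reducible apply PTf.fst
  with_reducible apply PTf.snd
  with_reducible apply PTf.snd
  exact PTf.id
  exact PTf.const _
  exact PTf.const _
  exact PTf.const _
  with_reducible apply PTf.ifP
  with_reducible apply PTf.decide_eq
  with_reducible apply PTf.fst
  with_reducible apply PTf.fst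
  with_reducible apply PTf.snd
  exact PTf.id
  exact PTf.const _
  with_reducible apply PTf.ifP
  with_reducible apply PTf.decide_eq
  with_reducible apply PTf.fst
  with_reducible apply PTf.fst
  with_reducible apply PTf.snd
  with_reducible apply PTf.snd
  exact PTf.id
  exact PTf.const _
  with_reducible apply PTf.ifP
  with_reducible apply PTf.decide_lt
  with_reducible apply PTf.snd
  with_reducible apply PTf.fst
  with_reducible apply PTf.snd
  exact PTf.id
  with_reducible apply PTf.length
  with_reducible apply PTf.fst
  with_reducible apply PTf.snd
  with_reducible apply PTf.fst
  with_reducible apply PTf.fst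
  exact PTf.id
  with_reducible apply PTf.ifP
  with_reducible apply PTf.decide_eq
  with_reducible apply PTf.fst
  with_reducible apply PTf.listGetD
  with_reducible apply PTf.fst
  with_reducible apply PTf.snd
  with_reducible apply PTf.fst
  with_reducible apply PTf.fst
  exact PTf.id
  with_reducible apply PTf.snd
  with_reducible apply PTf.fst
  with_reducible apply PTf.snd
  exact PTf.id
  with_reducible apply PTf.pair
  exact PTf.const _
  with_reducible apply PTf.pair
  with_reducible apply PTf.snd
  with_reducible apply PTf.fst
  exact PTf.id
  exact PTf.const _
  with_reducible apply PTf.snd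
  with_reducible apply PTf.fst
  with_reducible apply PTf.snd
  with_reducible apply PTf.snd
  exact PTf.id
  exact PTf.const _
  exact PTf.const _
  exact PTf.const _
  with_reducible apply PTf.ifP
  with_reducible apply PTf.decide_eq
  with_reducible apply PTf.fst
  with_reducible apply PTf.fst
  with_reducible apply PTf.snd
  with_reducible apply PTf.snd
  exact PTf.id
  exact PTf.const _
  with_reducible apply PTf.ifP
  with_reducible apply PTf.decide_lt
  with_reducible apply PTf.snd
  with_reducible apply PTf.fst
  with_reducible apply PTf.snd
  exact PTf.id
  with_reducible apply PTf.length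
  with_reducible apply PTf.fst
  with_reducible apply PTf.snd
  with_reducible apply PTf.fst
  with_reducible apply PTf.fst
  exact PTf.id
  exact PTf.const _
  exact PTf.const _
  with_reducible apply PTf.ifP
  with_reducible apply PTf.decide_eq
  with_reducible apply PTf.fst
  with_reducible apply PTf.fst
  with_reducible apply PTf.snd
  with_reducible apply PTf.snd
  exact PTf.id
  exact PTf.const _
  exact PTf.const _
  with_reducible apply PTf.ifP
  with_reducible apply PTf.decide_eq
  with_reducible apply PTf.fst
  with_reducible apply PTf.fst
  with_reducible apply PTf.snd
  with_reducible apply PTf.snd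
  exact PTf.id
  exact PTf.const _
  exact PTf.const _
  with_reducible apply PTf.ifP
  with_reducible apply PTf.decide_eq
  with_reducible apply PTf.fst
  with_reducible apply PTf.fst
  with_reducible apply PTf.snd
  with_reducible apply PTf.snd
  exact PTf.id
  exact PTf.const _
  with_reducible apply PTf.ifP
  with_reducible apply PTf.decide_eq
  with_reducible apply PTf.snd
  with_reducible apply PTf.fst
  with_reducible apply PTf.snd
  with_reducible apply PTf.snd
  exact PTf.id
  with_reducible apply PTf.snd
  with_reducible apply PTf.fst
  with_reducible apply PTf.snd
  exact PTf.id
  exact PTf.const _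
  exact PTf.const _
  exact PTf.const _
  with_reducible apply PTf.ifP
  with_reducible apply PTf.decide_eq
  with_reducible apply PTf.fst
  with_reducible apply PTf.fst
  with_reducible apply PTf.snd
  with_reducible apply PTf.snd
  exact PTf.id
  exact PTf.const _
  exact PTf.const _
  exact PTf.const _

theorem ptf_yent : PTf 𝒜 (fun _ (p : (Sys × ℕ) × PivC × ColC) =>
    yent p.1.1 p.1.2 p.2.1 p.2.2) := by
  unfold yent gate
  with_reducible apply PTf.ifP
  with_reducible apply PTf.decide_eq
  with_reducible apply PTf.fst
  with_reducible apply PTf.fst
  with_reducible apply PTf.fst
  with_reducible apply PTf.snd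
  exact PTf.id
  exact PTf.const _
  with_reducible apply PTf.ifP
  with_reducible apply PTf.decide_eq
  with_reducible apply PTf.snd
  with_reducible apply PTf.fst
  with_reducible apply PTf.snd
  exact PTf.id
  with_reducible apply PTf.snd
  with_reducible apply PTf.snd
  exact PTf.id
  exact PTf.const _
  exact PTf.const _
  with_reducible apply PTf.ifP
  with_reducible apply PTf.decide_eq
  with_reducible apply PTf.fst
  with_reducible apply PTf.snd
  with_reducible apply PTf.snd
  exact PTf.id
  exact PTf.const _
  with_reducible apply PTf.ifP
  with_reducible apply PTf.decide_eq
  with_reducible apply PTf.fst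
  with_reducible apply PTf.fst
  with_reducible apply PTf.fst
  with_reducible apply PTf.snd
  exact PTf.id
  exact PTf.const _
  with_reducible apply PTf.ifP
  with_reducible apply PTf.decide_eq
  with_reducible apply PTf.snd
  with_reducible apply PTf.fst
  with_reducible apply PTf.fst
  with_reducible apply PTf.snd
  exact PTf.id
  with_reducible apply PTf.snd
  with_reducible apply PTf.snd
  with_reducible apply PTf.snd
  exact PTf.id
  exact PTf.const _
  exact PTf.const _
  with_reducible apply PTf.ifP
  with_reducible apply PTf.decide_eq
  with_reducible apply PTf.fst
  with_reducible apply PTf.fst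
  with_reducible apply PTf.fst
  with_reducible apply PTf.snd
  exact PTf.id
  exact PTf.const _
  exact PTf.const _
  with_reducible apply PTf.ifP
  with_reducible apply PTf.decide_eq
  with_reducible apply PTf.fst
  with_reducible apply PTf.fst
  with_reducible apply PTf.fst
  with_reducible apply PTf.snd
  exact PTf.id
  exact PTf.const _
  exact PTf.const _
  exact PTf.const _
  with_reducible apply PTf.ifP
  with_reducible apply PTf.decide_eq
  with_reducible apply PTf.fst
  with_reducible apply PTf.snd
  with_reducible apply PTf.snd
  exact PTf.id
  exact PTf.const _
  with_reducible apply PTf.ifP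
  with_reducible apply PTf.decide_eq
  with_reducible apply PTf.fst
  with_reducible apply PTf.fst
  with_reducible apply PTf.fst
  with_reducible apply PTf.snd
  exact PTf.id
  exact PTf.const _
  with_reducible apply PTf.ifP
  with_reducible apply PTf.decide_lt
  with_reducible apply PTf.snd
  with_reducible apply PTf.snd
  with_reducible apply PTf.snd
  exact PTf.id
  with_reducible apply PTf.length
  with_reducible apply PTf.fst
  with_reducible apply PTf.snd
  with_reducible apply PTf.fst
  with_reducible apply PTf.fst
  exact PTf.id
  with_reducible apply PTf.ifP
  with_reducible apply PTf.decide_eq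
  with_reducible apply PTf.fst
  with_reducible apply PTf.listGetD
  with_reducible apply PTf.fst
  with_reducible apply PTf.snd
  with_reducible apply PTf.fst
  with_reducible apply PTf.fst
  exact PTf.id
  with_reducible apply PTf.snd
  with_reducible apply PTf.snd
  with_reducible apply PTf.snd
  exact PTf.id
  with_reducible apply PTf.pair
  exact PTf.const _
  with_reducible apply PTf.pair
  with_reducible apply PTf.snd
  with_reducible apply PTf.fst
  exact PTf.id
  exact PTf.const _
  with_reducible apply PTf.snd
  with_reducible apply PTf.fst
  with_reducible apply PTf.fst
  with_reducible apply PTf.snd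
  exact PTf.id
  exact PTf.const _
  exact PTf.const _
  exact PTf.const _
  with_reducible apply PTf.ifP
  with_reducible apply PTf.decide_eq
  with_reducible apply PTf.fst
  with_reducible apply PTf.fst
  with_reducible apply PTf.fst
  with_reducible apply PTf.snd
  exact PTf.id
  exact PTf.const _
  with_reducible apply PTf.ifP
  with_reducible apply PTf.decide_lt
  with_reducible apply PTf.snd
  with_reducible apply PTf.snd
  with_reducible apply PTf.snd
  exact PTf.id
  with_reducible apply PTf.length
  with_reducible apply PTf.fst
  with_reducible apply PTf.snd
  with_reducible apply PTf.fst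
  with_reducible apply PTf.fst
  exact PTf.id
  with_reducible apply PTf.ifP
  with_reducible apply PTf.decide_eq
  with_reducible apply PTf.snd
  with_reducible apply PTf.snd
  with_reducible apply PTf.listGetD
  with_reducible apply PTf.fst
  with_reducible apply PTf.snd
  with_reducible apply PTf.fst
  with_reducible apply PTf.fst
  exact PTf.id
  with_reducible apply PTf.snd
  with_reducible apply PTf.snd
  with_reducible apply PTf.snd
  exact PTf.id
  with_reducible apply PTf.pair
  exact PTf.const _
  with_reducible apply PTf.pair
  with_reducible apply PTf.snd
  with_reducible apply PTf.fst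
  exact PTf.id
  exact PTf.const _
  with_reducible apply PTf.snd
  with_reducible apply PTf.fst
  with_reducible apply PTf.fst
  with_reducible apply PTf.snd
  exact PTf.id
  exact PTf.const _
  exact PTf.const _
  exact PTf.const _
  with_reducible apply PTf.ifP
  with_reducible apply PTf.decide_eq
  with_reducible apply PTf.fst
  with_reducible apply PTf.fst
  with_reducible apply PTf.fst
  with_reducible apply PTf.snd
  exact PTf.id
  exact PTf.const _
  with_reducible apply PTf.ifP
  with_reducible apply PTf.decide_lt
  with_reducible apply PTf.snd
  with_reducible apply PTf.snd
  with_reducible apply PTf.snd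
  exact PTf.id
  with_reducible apply PTf.length
  with_reducible apply PTf.fst
  with_reducible apply PTf.snd
  with_reducible apply PTf.fst
  with_reducible apply PTf.fst
  exact PTf.id
  exact PTf.const _
  exact PTf.const _
  with_reducible apply PTf.ifP
  with_reducible apply PTf.decide_eq
  with_reducible apply PTf.fst
  with_reducible apply PTf.fst
  with_reducible apply PTf.fst
  with_reducible apply PTf.snd
  exact PTf.id
  exact PTf.const _
  exact PTf.const _
  exact PTf.const _
  with_reducible apply PTf.ifP
  with_reducible apply PTf.decide_eq
  with_reducible apply PTf.fst
  with_reducible apply PTf.snd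
  with_reducible apply PTf.snd
  exact PTf.id
  exact PTf.const _
  with_reducible apply PTf.ifP
  with_reducible apply PTf.decide_eq
  with_reducible apply PTf.fst
  with_reducible apply PTf.fst
  with_reducible apply PTf.fst
  with_reducible apply PTf.snd
  exact PTf.id
  exact PTf.const _
  with_reducible apply PTf.ifP
  with_reducible apply PTf.decide_eq
  with_reducible apply PTf.snd
  with_reducible apply PTf.fst
  with_reducible apply PTf.fst
  with_reducible apply PTf.snd
  exact PTf.id
  with_reducible apply PTf.snd
  with_reducible apply PTf.snd
  with_reducible apply PTf.snd
  exact PTf.id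
  exact PTf.const _
  exact PTf.const _
  with_reducible apply PTf.ifP
  with_reducible apply PTf.decide_eq
  with_reducible apply PTf.fst
  with_reducible apply PTf.fst
  with_reducible apply PTf.fst
  with_reducible apply PTf.snd
  exact PTf.id
  exact PTf.const _
  with_reducible apply PTf.ifP
  with_reducible apply PTf.decide_eq
  with_reducible apply PTf.snd
  with_reducible apply PTf.fst
  with_reducible apply PTf.fst
  with_reducible apply PTf.snd
  exact PTf.id
  with_reducible apply PTf.snd
  with_reducible apply PTf.snd
  with_reducible apply PTf.snd
  exact PTf.id
  exact PTf.const _
  exact PTf.const _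
  exact PTf.const _
  with_reducible apply PTf.ifP
  with_reducible apply PTf.decide_eq
  with_reducible apply PTf.fst
  with_reducible apply PTf.fst
  with_reducible apply PTf.fst
  with_reducible apply PTf.snd
  exact PTf.id
  exact PTf.const _
  with_reducible apply PTf.ifP
  with_reducible apply PTf.decide_eq
  with_reducible apply PTf.fst
  with_reducible apply PTf.listGetD
  with_reducible apply PTf.snd
  with_reducible apply PTf.snd
  with_reducible apply PTf.fst
  with_reducible apply PTf.fst
  exact PTf.id
  with_reducible apply PTf.snd
  with_reducible apply PTf.snd
  with_reducible apply PTf.snd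
  exact PTf.id
  exact PTf.const _
  with_reducible apply PTf.snd
  with_reducible apply PTf.fst
  with_reducible apply PTf.fst
  with_reducible apply PTf.snd
  exact PTf.id
  exact PTf.const _
  exact PTf.const _
  with_reducible apply PTf.ifP
  with_reducible apply PTf.decide_eq
  with_reducible apply PTf.fst
  with_reducible apply PTf.fst
  with_reducible apply PTf.fst
  with_reducible apply PTf.snd
  exact PTf.id
  exact PTf.const _
  with_reducible apply PTf.ifP
  with_reducible apply PTf.decide_eq
  with_reducible apply PTf.fst
  with_reducible apply PTf.snd
  with_reducible apply PTf.listGetD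
  with_reducible apply PTf.snd
  with_reducible apply PTf.snd
  with_reducible apply PTf.fst
  with_reducible apply PTf.fst
  exact PTf.id
  with_reducible apply PTf.snd
  with_reducible apply PTf.snd
  with_reducible apply PTf.snd
  exact PTf.id
  exact PTf.const _
  with_reducible apply PTf.snd
  with_reducible apply PTf.fst
  with_reducible apply PTf.fst
  with_reducible apply PTf.snd
  exact PTf.id
  with_reducible apply PTf.ifP
  with_reducible apply PTf.decide_eq
  with_reducible apply PTf.snd
  with_reducible apply PTf.snd
  with_reducible apply PTf.listGetD
  with_reducible apply PTf.snd
  with_reducible apply PTf.snd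
  with_reducible apply PTf.fst
  with_reducible apply PTf.fst
  exact PTf.id
  with_reducible apply PTf.snd
  with_reducible apply PTf.snd
  with_reducible apply PTf.snd
  exact PTf.id
  exact PTf.const _
  with_reducible apply PTf.snd
  with_reducible apply PTf.fst
  with_reducible apply PTf.fst
  with_reducible apply PTf.snd
  exact PTf.id
  exact PTf.const _
  exact PTf.const _
  with_reducible apply PTf.ifP
  with_reducible apply PTf.decide_eq
  with_reducible apply PTf.snd
  with_reducible apply PTf.snd
  with_reducible apply PTf.listGetD
  with_reducible apply PTf.snd
  with_reducible apply PTf.snd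
  with_reducible apply PTf.fst
  with_reducible apply PTf.fst
  exact PTf.id
  with_reducible apply PTf.snd
  with_reducible apply PTf.snd
  with_reducible apply PTf.snd
  exact PTf.id
  exact PTf.const _
  with_reducible apply PTf.snd
  with_reducible apply PTf.fst
  with_reducible apply PTf.fst
  with_reducible apply PTf.snd
  exact PTf.id
  exact PTf.const _
  exact PTf.const _
  exact PTf.const _

theorem ptf_zent : PTf 𝒜 (fun _ (p : Sys × RowC × ColC) => zent p.1 p.2.1 p.2.2) := by
  unfold zent
  with_reducible apply PTf.ifP
  with_reducible apply PTf.decide_and
  with_reducible apply PTf.decide_eq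
  with_reducible apply PTf.fst
  with_reducible apply PTf.snd
  exact PTf.id
  exact PTf.const _
  with_reducible apply PTf.decide_eq
  with_reducible apply PTf.snd
  with_reducible apply PTf.snd
  exact PTf.id
  with_reducible apply PTf.pair
  exact PTf.const _
  with_reducible apply PTf.length
  with_reducible apply PTf.fst
  with_reducible apply PTf.snd
  with_reducible apply PTf.fst
  exact PTf.id
  exact PTf.const _
  exact PTf.const _

theorem ptf_pivs : PTf 𝒜 (fun _ (p : Sys × ℕ) => pivs p.1 p.2) := by
  unfold pivs active gate cols
  with_reducible apply PTf.append
  with_reducible apply PTf.append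
  with_reducible apply PTf.append
  with_reducible apply PTf.map
  with_reducible apply PTf.range
  with_reducible apply PTf.fst
  with_reducible apply PTf.fst
  exact PTf.id
  with_reducible apply PTf.pair
  with_reducible apply PTf.pair
  exact PTf.const _
  with_reducible apply PTf.snd
  exact PTf.id
  exact PTf.const _
  with_reducible apply PTf.map
  with_reducible apply PTf.range
  with_reducible apply PTf.fst
  with_reducible apply PTf.fst
  exact PTf.id
  with_reducible apply PTf.pair
  with_reducible apply PTf.pair
  exact PTf.const _
  with_reducible apply PTf.snd
  exact PTf.id
  exact PTf.const _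
  exact PTf.const _
  with_reducible apply PTf.flatMap
  with_reducible apply PTf.range
  with_reducible apply PTf.add
  with_reducible apply PTf.length
  with_reducible apply PTf.fst
  with_reducible apply PTf.snd
  with_reducible apply PTf.fst
  exact PTf.id
  exact PTf.const _
  with_reducible apply PTf.map
  with_reducible apply PTf.filter
  with_reducible apply PTf.append
  with_reducible apply PTf.append
  with_reducible apply PTf.append
  with_reducible apply PTf.map
  with_reducible apply PTf.range
  with_reducible apply PTf.fst
  with_reducible apply PTf.fst
  with_reducible apply PTf.fst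
  exact PTf.id
  with_reducible apply PTf.pair
  exact PTf.const _
  with_reducible apply PTf.snd
  exact PTf.id
  with_reducible apply PTf.map
  with_reducible apply PTf.range
  with_reducible apply PTf.add
  with_reducible apply PTf.length
  with_reducible apply PTf.fst
  with_reducible apply PTf.snd
  with_reducible apply PTf.fst
  with_reducible apply PTf.fst
  exact PTf.id
  exact PTf.const _
  with_reducible apply PTf.pair
  exact PTf.const _
  with_reducible apply PTf.snd
  exact PTf.id
  with_reducible apply PTf.map
  with_reducible apply PTf.range
  with_reducible apply PTf.fst
  with_reducible apply PTf.fst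
  with_reducible apply PTf.fst
  exact PTf.id
  with_reducible apply PTf.pair
  exact PTf.const _
  with_reducible apply PTf.snd
  exact PTf.id
  with_reducible apply PTf.map
  with_reducible apply PTf.range
  with_reducible apply PTf.length
  with_reducible apply PTf.snd
  with_reducible apply PTf.snd
  with_reducible apply PTf.fst
  with_reducible apply PTf.fst
  exact PTf.id
  with_reducible apply PTf.pair
  exact PTf.const _
  with_reducible apply PTf.snd
  exact PTf.id
  with_reducible apply PTf.bnot
  with_reducible apply PTf.bor
  with_reducible apply PTf.beq
  with_reducible apply PTf.snd
  exact PTf.id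
  with_reducible apply PTf.pair
  exact PTf.const _
  with_reducible apply PTf.snd
  with_reducible apply PTf.fst
  exact PTf.id
  with_reducible apply PTf.beq
  with_reducible apply PTf.snd
  exact PTf.id
  with_reducible apply PTf.pair
  exact PTf.const _
  with_reducible apply PTf.fst
  with_reducible apply PTf.snd
  with_reducible apply PTf.listGetD
  with_reducible apply PTf.fst
  with_reducible apply PTf.snd
  with_reducible apply PTf.fst
  with_reducible apply PTf.fst
  with_reducible apply PTf.fst
  exact PTf.id
  with_reducible apply PTf.snd
  with_reducible apply PTf.fst
  exact PTf.id
  with_reducible apply PTf.pair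
  exact PTf.const _
  with_reducible apply PTf.pair
  with_reducible apply PTf.snd
  with_reducible apply PTf.fst
  with_reducible apply PTf.fst
  exact PTf.id
  exact PTf.const _
  with_reducible apply PTf.pair
  with_reducible apply PTf.pair
  exact PTf.const _
  with_reducible apply PTf.snd
  with_reducible apply PTf.fst
  exact PTf.id
  with_reducible apply PTf.snd
  exact PTf.id

theorem ptf_hom : PTf 𝒜 (fun _ (p : Sys × ℕ) => hom p.1 p.2) := by
  unfold hom
  with_reducible apply PTf.pair
  with_reducible apply PTf.add
  with_reducible apply PTf.add
  with_reducible apply PTf.add
  with_reducible apply PTf.fst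
  with_reducible apply PTf.fst
  exact PTf.id
  with_reducible apply PTf.length
  with_reducible apply PTf.fst
  with_reducible apply PTf.snd
  with_reducible apply PTf.fst
  exact PTf.id
  with_reducible apply PTf.snd
  exact PTf.id
  exact PTf.const _
  with_reducible apply PTf.pair
  with_reducible apply PTf.append
  with_reducible apply PTf.flatMap
  with_reducible apply PTf.range
  with_reducible apply PTf.length
  with_reducible apply PTf.fst
  with_reducible apply PTf.snd
  with_reducible apply PTf.fst
  exact PTf.id
  with_reducible apply PTf.cons
  with_reducible apply PTf.pair
  with_reducible apply PTf.fst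
  with_reducible apply PTf.listGetD
  with_reducible apply PTf.fst
  with_reducible apply PTf.snd
  with_reducible apply PTf.fst
  with_reducible apply PTf.fst
  exact PTf.id
  with_reducible apply PTf.snd
  exact PTf.id
  exact PTf.const _
  with_reducible apply PTf.pair
  with_reducible apply PTf.fst
  with_reducible apply PTf.snd
  with_reducible apply PTf.listGetD
  with_reducible apply PTf.fst
  with_reducible apply PTf.snd
  with_reducible apply PTf.fst
  with_reducible apply PTf.fst
  exact PTf.id
  with_reducible apply PTf.snd
  exact PTf.id
  exact PTf.const _
  with_reducible apply PTf.add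
  with_reducible apply PTf.fst
  with_reducible apply PTf.fst
  with_reducible apply PTf.fst
  exact PTf.id
  with_reducible apply PTf.snd
  exact PTf.id
  with_reducible apply PTf.cons
  with_reducible apply PTf.pair
  exact PTf.const _
  with_reducible apply PTf.pair
  with_reducible apply PTf.snd
  with_reducible apply PTf.snd
  with_reducible apply PTf.listGetD
  with_reducible apply PTf.fst
  with_reducible apply PTf.snd
  with_reducible apply PTf.fst
  with_reducible apply PTf.fst
  exact PTf.id
  with_reducible apply PTf.snd
  exact PTf.id
  exact PTf.const _
  with_reducible apply PTf.add
  with_reducible apply PTf.fst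
  with_reducible apply PTf.fst
  with_reducible apply PTf.fst
  exact PTf.id
  with_reducible apply PTf.snd
  exact PTf.id
  exact PTf.const _
  with_reducible apply PTf.map
  with_reducible apply PTf.range
  with_reducible apply PTf.snd
  exact PTf.id
  with_reducible apply PTf.pair
  with_reducible apply PTf.add
  with_reducible apply PTf.add
  with_reducible apply PTf.fst
  with_reducible apply PTf.fst
  with_reducible apply PTf.fst
  exact PTf.id
  with_reducible apply PTf.length
  with_reducible apply PTf.fst
  with_reducible apply PTf.snd
  with_reducible apply PTf.fst
  with_reducible apply PTf.fst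
  exact PTf.id
  with_reducible apply PTf.snd
  exact PTf.id
  with_reducible apply PTf.pair
  with_reducible apply PTf.add
  with_reducible apply PTf.add
  with_reducible apply PTf.fst
  with_reducible apply PTf.fst
  with_reducible apply PTf.fst
  exact PTf.id
  with_reducible apply PTf.length
  with_reducible apply PTf.fst
  with_reducible apply PTf.snd
  with_reducible apply PTf.fst
  with_reducible apply PTf.fst
  exact PTf.id
  with_reducible apply PTf.snd
  exact PTf.id
  with_reducible apply PTf.add
  with_reducible apply PTf.add
  with_reducible apply PTf.add
  with_reducible apply PTf.fst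
  with_reducible apply PTf.fst
  with_reducible apply PTf.fst
  exact PTf.id
  with_reducible apply PTf.length
  with_reducible apply PTf.fst
  with_reducible apply PTf.snd
  with_reducible apply PTf.fst
  with_reducible apply PTf.fst
  exact PTf.id
  with_reducible apply PTf.snd
  exact PTf.id
  exact PTf.const _
  with_reducible apply PTf.cons
  with_reducible apply PTf.pair
  with_reducible apply PTf.add
  with_reducible apply PTf.fst
  with_reducible apply PTf.fst
  exact PTf.id
  with_reducible apply PTf.length
  with_reducible apply PTf.fst
  with_reducible apply PTf.snd
  with_reducible apply PTf.fst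
  exact PTf.id
  with_reducible apply PTf.pair
  with_reducible apply PTf.add
  with_reducible apply PTf.fst
  with_reducible apply PTf.fst
  exact PTf.id
  with_reducible apply PTf.length
  with_reducible apply PTf.fst
  with_reducible apply PTf.snd
  with_reducible apply PTf.fst
  exact PTf.id
  exact PTf.const _
  with_reducible apply PTf.snd
  with_reducible apply PTf.snd
  with_reducible apply PTf.fst
  exact PTf.id

end Pool.Agent.LRA67
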